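import Pool.Agent.LibN78.Defs

namespace N78

/-- Row A1. If `|e| ≥ 2H + 1` then `|e|^3 ≤ |A||e| + |B| ≤ H^2 |e| + H^3 ≤ |e|^3/4 + |e|^3/8 < |e|^3`. -/
theorem root_bound (H : ℕ) (A B e : ℤ) (hA : |A| ≤ (H : ℤ) ^ 2) (hB : |B| ≤ (H : ℤ) ^ 3)
    (h : e ^ 3 + A * e + B = 0) : |e| ≤ 2 * (H : ℤ) := by
  by_contra hcon
  push Not at hcon
  have hH : (0 : ℤ) ≤ H := Int.natCast_nonneg H
  have h1 : |e| ^ 3 ≤ |A| * |e| + |B| := by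
    have h2 : e ^ 3 = -(A * e + B) := by linarith
    calc |e| ^ 3 = |e ^ 3| := (abs_pow e 3).symm
      _ = |A * e + B| := by rw [h2, abs_neg]
      _ ≤ |A * e| + |B| := abs_add_le _ _
      _ = |A| * |e| + |B| := by rw [abs_mul]
  have h3 : |A| * |e| ≤ (H : ℤ) ^ 2 * |e| := mul_le_mul_of_nonneg_right hA (abs_nonneg e)
  have he : 0 < |e| := by linarith
  have h4 : 4 * ((H : ℤ) ^ 2 * |e|) ≤ |e| ^ 3 := by
    have h5 : (2 * (H : ℤ)) ^ 2 ≤ |e| ^ 2 := pow_le_pow_left₀ (by linarith) hcon.le 2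
    nlinarith
  have h6 : 8 * (H : ℤ) ^ 3 ≤ |e| ^ 3 := by
    have h5 : (2 * (H : ℤ)) ^ 3 ≤ |e| ^ 3 := pow_le_pow_left₀ (by linarith) hcon.le 3
    linarith
  have h7 : 0 < |e| ^ 3 := pow_pos he 3
  linarith

end N78
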