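import Pool.Agent.LibN78.A1

namespace N78

/-- the family: curves `y^2 = x^3 + A x + B` with a rational point of order two -/
def Fam (H : ℕ) : Set (ℤ × ℤ) :=
  {z | |z.1| ≤ (H : ℤ) ^ 2 ∧ |z.2| ≤ (H : ℤ) ^ 3 ∧ 4 * z.1 ^ 3 + 27 * z.2 ^ 2 ≠ 0 ∧
    ∃ e : ℤ, e ^ 3 + z.1 * e + z.2 = 0}

private theorem A2_box (a b : ℤ) : {z : ℤ × ℤ | |z.1| ≤ a ∧ |z.2| ≤ b}.Finite := by
  refine ((Set.finite_Icc (-a) a).prod (Set.finite_Icc (-b) b)).subset ?_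
  rintro ⟨x, y⟩ ⟨h1, h2⟩
  exact ⟨abs_le.1 h1, abs_le.1 h2⟩

private theorem A2_bad (H : ℕ) : (Bad H).Finite :=
  (A2_box (H : ℤ) ((H : ℤ) ^ 2)).subset fun _ hz => ⟨hz.1.1, hz.1.2.1⟩

open Classical in
/-- the map to the pairs `(a, b)` -/
private noncomputable def A2_f (z : ℤ × ℤ) : ℤ × ℤ :=
  if h : ∃ e : ℤ, e ^ 3 + z.1 * e + z.2 = 0 then
    (3 * h.choose, 3 * h.choose ^ 2 + z.1) else (0, 0)

private theorem A2_f_spec {z : ℤ × ℤ} (h : ∃ e : ℤ, e ^ 3 + z.1 * e + z.2 = 0) :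
    ∃ e : ℤ, e ^ 3 + z.1 * e + z.2 = 0 ∧ A2_f z = (3 * e, 3 * e ^ 2 + z.1) :=
  ⟨h.choose, h.choose_spec, by rw [A2_f, dif_pos h]⟩

/-- Row A2. For `z = (A,B)` on the left choose a root `e`, `|e| ≤ 2H` (`root_bound`), and send `z` to
`(a, b) = (3e, 3e^2 + A)`. With `x = X + e`: `x^3 + A x + B = X (X^2 + 3e X + 3e^2 + A)`
(`B = -e^3 - A e`). `|a| ≤ 6H`, `|b| ≤ 13H^2 ≤ (6H)^2`;
`4A^3 + 27B^2 = (3e^2 + 4A)(3e^2 + A)^2`, so `b ≠ 0` and `a^2 - 4b = -(3e^2 + 4A) ≠ 0`. The map is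
injective: `e = a/3`, `A = b - 3e^2`, `B = -e^3 - A e`. `Bad (6H)` is finite (subset of a box), so
`Set.ncard_le_ncard_of_injOn`. -/
theorem fam_bad_le (H : ℕ) :
    Set.ncard {z ∈ Fam H | ∃ x y : ℤ, y ≠ 0 ∧ y ^ 2 = x ^ 3 + z.1 * x + z.2}
      ≤ (Bad (6 * H)).ncard := by
  refine Set.ncard_le_ncard_of_injOn A2_f ?_ ?_ (A2_bad (6 * H))
  · rintro ⟨A, B⟩ ⟨⟨hA, hB, hd, he⟩, x, y, hy, hxy⟩
    obtain ⟨e, he, hf⟩ := A2_f_spec he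
    simp only at hA hB hd he hf hxy
    rw [hf]
    have hb := root_bound H A B e hA hB he
    have hH : (0 : ℤ) ≤ H := Int.natCast_nonneg H
    have hBe : B = -e ^ 3 - A * e := by linarith
    have hdisc : 4 * A ^ 3 + 27 * B ^ 2 = (3 * e ^ 2 + 4 * A) * (3 * e ^ 2 + A) ^ 2 := by
      rw [hBe]
      ring
    rw [hdisc] at hd
    have he2 : e ^ 2 ≤ 4 * (H : ℤ) ^ 2 := by
      have h5 : |e| ^ 2 ≤ (2 * (H : ℤ)) ^ 2 := pow_le_pow_left₀ (abs_nonneg e) hb 2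
      rw [sq_abs] at h5
      linarith
    refine ⟨⟨?_, ?_, ?_, ?_⟩, x - e, y, hy, ?_⟩
    · show |3 * e| ≤ ((6 * H : ℕ) : ℤ)
      rw [abs_mul, abs_of_pos (by norm_num : (0 : ℤ) < 3)]
      push_cast
      linarith
    · show |3 * e ^ 2 + A| ≤ ((6 * H : ℕ) : ℤ) ^ 2
      have h1 : |3 * e ^ 2 + A| ≤ |3 * e ^ 2| + |A| := abs_add_le _ _
      have h2 : |3 * e ^ 2| = 3 * e ^ 2 := abs_of_nonneg (by positivity)
      push_cast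
      nlinarith [sq_nonneg (H : ℤ)]
    · show 3 * e ^ 2 + A ≠ 0
      intro h0
      apply hd
      rw [h0]
      ring
    · show (3 * e) ^ 2 - 4 * (3 * e ^ 2 + A) ≠ 0
      intro h0
      apply hd
      have h1 : 3 * e ^ 2 + 4 * A = 0 := by linarith
      rw [h1]
      ring
    · show y ^ 2 = (x - e) * ((x - e) ^ 2 + 3 * e * (x - e) + (3 * e ^ 2 + A))
      rw [hxy, hBe]
      ring
  · rintro ⟨A, B⟩ ⟨⟨_, _, _, he⟩, _⟩ ⟨A', B'⟩ ⟨⟨_, _, _, he'⟩, _⟩ hff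
    obtain ⟨e, he, hf⟩ := A2_f_spec he
    obtain ⟨e', he', hf'⟩ := A2_f_spec he'
    rw [hf, hf'] at hff
    simp only [Prod.mk.injEq] at hff he he' ⊢
    have h1 : e = e' := by linarith [hff.1]
    subst h1
    have h2 : A = A' := by linarith [hff.2]
    subst h2
    exact ⟨rfl, by linarith⟩

/-- `Fam H` is finite (subset of a box) -/
theorem fam_finite (H : ℕ) : (Fam H).Finite :=
  (A2_box ((H : ℤ) ^ 2) ((H : ℤ) ^ 3)).subset fun _ hz => ⟨hz.1, hz.2.1⟩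

/-- `Bad H` is finite (subset of a box) -/
theorem bad_finite (H : ℕ) : (Bad H).Finite := A2_bad H

end N78
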