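import Pool.Agent.LibN78.A2

namespace N78

private theorem A3_mono {A a b : ℕ} (h : a ^ 3 + A * a = b ^ 3 + A * b) (hA : 1 ≤ A) : a = b := by
  rcases lt_trichotomy a b with h1 | h1 | h1
  · exfalso
    have h2 : a ^ 3 ≤ b ^ 3 := Nat.pow_le_pow_left h1.le 3
    have h3 : A * a < A * b := Nat.mul_lt_mul_of_pos_left h1 hA
    omega
  · exact h1
  · exfalso
    have h2 : b ^ 3 ≤ a ^ 3 := Nat.pow_le_pow_left h1.le 3
    have h3 : A * b < A * a := Nat.mul_lt_mul_of_pos_left h1 hA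
    omega

/-- Row A3. `(-1, 0) ∈ Fam H` for `H ≥ 1`, so small `H` are fine. For `H ≥ 4`: for integers `e`, `A` with
`|e| ≤ H/2`, `|A| ≤ H^2/2`, `(3e^2 + 4A)(3e^2 + A) ≠ 0` the pair `(A, -e^3 - A e)` is in `Fam H`
(`4A^3 + 27B^2 = (3e^2 + 4A)(3e^2 + A)^2`); for given `e` at most two `A` are excluded; a pair `(A, B)`
comes from at most three `e` (roots of a cubic). So `3 * #Fam H ≥ (2⌊H/2⌋+1)(2⌊H^2/2⌋ + 1 - 2)`. Any `c > 0`. -/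
theorem fam_lower : ∃ c : ℝ, 0 < c ∧ ∀ H : ℕ, 1 ≤ H → c * (H : ℝ) ^ 3 ≤ ((Fam H).ncard : ℝ) := by
  refine ⟨1 / 4, by norm_num, fun H hH => ?_⟩
  set f : ℕ × ℕ → ℤ × ℤ := fun x =>
    (((x.2 + 1 : ℕ) : ℤ), -((x.1 ^ 3 + (x.2 + 1) * x.1 : ℕ) : ℤ)) with hf
  set s : Finset (ℕ × ℕ) := Finset.range (H / 2 + 1) ×ˢ Finset.range ((H ^ 2 + 1) / 2) with hs
  have hinj : Set.InjOn f s := by
    rintro ⟨i, j⟩ _ ⟨i', j'⟩ _ h
    rw [hf] at h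
    have h1 := congrArg Prod.fst h
    have h2 := congrArg Prod.snd h
    dsimp only at h1 h2
    have h3 : j = j' := by
      have := Int.natCast_inj.1 h1
      omega
    subst h3
    have h4 := Int.natCast_inj.1 (neg_inj.1 h2)
    have h5 : i = i' := A3_mono h4 (by omega)
    rw [h5]
  have hsub : f '' (s : Set (ℕ × ℕ)) ⊆ Fam H := by
    rintro _ ⟨⟨i, j⟩, hij, rfl⟩
    rw [hs, Finset.mem_coe, Finset.mem_product, Finset.mem_range, Finset.mem_range] at hij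
    obtain ⟨hi, hj⟩ := hij
    dsimp only at hi hj
    have hi' : 2 * i ≤ H := by omega
    have hj' : 2 * (j + 1) ≤ H ^ 2 + 1 := by omega
    have hH2 : 1 ≤ H ^ 2 := Nat.one_le_pow _ _ hH
    have hj1 : j + 1 ≤ H ^ 2 := by omega
    have hB : i ^ 3 + (j + 1) * i ≤ H ^ 3 := by
      have h1 : (2 * i) ^ 3 ≤ H ^ 3 := Nat.pow_le_pow_left hi' 3
      have h2 : 2 * (j + 1) * (2 * i) ≤ (H ^ 2 + 1) * H := Nat.mul_le_mul hj' hi'
      have h3 : H ≤ H ^ 3 := by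
        calc H = H ^ 1 := (pow_one H).symm
          _ ≤ H ^ 3 := Nat.pow_le_pow_right hH (by norm_num)
      have h4 : (H ^ 2 + 1) * H = H ^ 3 + H := by ring
      have h5 : (2 * i) ^ 3 = 8 * i ^ 3 := by ring
      have h6 : 2 * (j + 1) * (2 * i) = 4 * ((j + 1) * i) := by ring
      rw [h4, h6] at h2
      rw [h5] at h1
      omega
    refine ⟨?_, ?_, ?_, (i : ℤ), ?_⟩
    · change |((j + 1 : ℕ) : ℤ)| ≤ (H : ℤ) ^ 2
      rw [Nat.abs_cast]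
      exact_mod_cast hj1
    · change |-((i ^ 3 + (j + 1) * i : ℕ) : ℤ)| ≤ (H : ℤ) ^ 3
      rw [abs_neg, Nat.abs_cast]
      exact_mod_cast hB
    · change 4 * ((j + 1 : ℕ) : ℤ) ^ 3 + 27 * (-((i ^ 3 + (j + 1) * i : ℕ) : ℤ)) ^ 2 ≠ 0
      have h1 : (0 : ℤ) < ((j + 1 : ℕ) : ℤ) := by positivity
      have h2 : (0 : ℤ) < ((j + 1 : ℕ) : ℤ) ^ 3 := pow_pos h1 3
      have h3 : (0 : ℤ) ≤ (-((i ^ 3 + (j + 1) * i : ℕ) : ℤ)) ^ 2 := sq_nonneg _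
      intro h
      linarith
    · change (i : ℤ) ^ 3 + ((j + 1 : ℕ) : ℤ) * i + -((i ^ 3 + (j + 1) * i : ℕ) : ℤ) = 0
      push_cast
      ring
  have hcard : (H / 2 + 1) * ((H ^ 2 + 1) / 2) ≤ (Fam H).ncard := by
    have h1 := Set.ncard_le_ncard hsub (fam_finite H)
    rw [hinj.ncard_image, Set.ncard_coe_finset, hs, Finset.card_product,
      Finset.card_range, Finset.card_range] at h1
    exact h1
  have h1 : (H : ℝ) / 2 ≤ ((H / 2 + 1 : ℕ) : ℝ) := by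
    have h2 : H ≤ 2 * (H / 2 + 1) := by omega
    have h3 : (H : ℝ) ≤ 2 * ((H / 2 + 1 : ℕ) : ℝ) := by exact_mod_cast h2
    linarith
  have h2 : (H : ℝ) ^ 2 / 2 ≤ (((H ^ 2 + 1) / 2 : ℕ) : ℝ) := by
    have h2 : H ^ 2 ≤ 2 * ((H ^ 2 + 1) / 2) := by omega
    have h3 : (H : ℝ) ^ 2 ≤ 2 * (((H ^ 2 + 1) / 2 : ℕ) : ℝ) := by exact_mod_cast h2
    linarith
  calc 1 / 4 * (H : ℝ) ^ 3 = (H : ℝ) / 2 * ((H : ℝ) ^ 2 / 2) := by ring
    _ ≤ ((H / 2 + 1 : ℕ) : ℝ) * (((H ^ 2 + 1) / 2 : ℕ) : ℝ) :=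
      mul_le_mul h1 h2 (by positivity) (by positivity)
    _ ≤ ((Fam H).ncard : ℝ) := by exact_mod_cast hcard

end N78
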