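import Pool.Agent.LibN78.Defs

namespace N78

/-- Row A4. `X ≠ 0` (`y ≠ 0`). Write `X = d u^2`, `d` squarefree with the sign of `X`, `u ≥ 1`
(`Nat.sq_mul_squarefree` for `|X|`). `u^2 ∣ y^2`, `y = u z`, `z^2 = d (X^2 + a X + b)`; `d` squarefree and
`d ∣ z^2` gives `z = d w` (`Squarefree.dvd_pow_iff_dvd` or `Squarefree.dvd_of_squarefree_of_mul_dvd_mul_right`..),
so `d w^2 = X^2 + a X + b = d^2 u^4 + a d u^2 + b`; `d ∣ b`, `b = d e`; divide by `d`. `w ≠ 0` as `y = u d w`. -/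
theorem descent (a b X y : ℤ) (hy : y ≠ 0) (h : y ^ 2 = X * (X ^ 2 + a * X + b)) :
    ∃ d e u w : ℤ, Squarefree d ∧ 0 < u ∧ w ≠ 0 ∧ b = d * e ∧ w ^ 2 = d * u ^ 4 + a * u ^ 2 + e := by
  have hX : X ≠ 0 := by
    rintro rfl
    simp at h
    exact hy h
  obtain ⟨d₀, u₀, hdu, hsq⟩ := Nat.sq_mul_squarefree X.natAbs
  have hu₀ : u₀ ≠ 0 := by
    rintro rfl
    have : X.natAbs = 0 := by simpa using hdu.symm
    exact hX (Int.natAbs_eq_zero.1 this)
  have hd₀ : d₀ ≠ 0 := by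
    rintro rfl
    have : X.natAbs = 0 := by simpa using hdu.symm
    exact hX (Int.natAbs_eq_zero.1 this)
  -- the signed squarefree part
  obtain ⟨d, hdn, hXd⟩ : ∃ d : ℤ, d.natAbs = d₀ ∧ X = d * (u₀ : ℤ) ^ 2 := by
    rcases Int.natAbs_eq X with hs | hs
    · refine ⟨d₀, by simp, ?_⟩
      rw [hs, ← hdu]
      push_cast
      ring
    · refine ⟨-d₀, by simp, ?_⟩
      rw [hs, ← hdu]
      push_cast
      ring
  have hdsq : Squarefree d := by
    rw [← Int.squarefree_natAbs, hdn]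
    exact hsq
  have hd : d ≠ 0 := hdsq.ne_zero
  set u : ℤ := (u₀ : ℤ) with hu
  have hupos : 0 < u := by
    have : 0 < u₀ := Nat.pos_of_ne_zero hu₀
    rw [hu]
    exact_mod_cast this
  have h1 : u ^ 2 ∣ y ^ 2 := by
    rw [h]
    nth_rewrite 1 [hXd]
    exact ⟨d * (X ^ 2 + a * X + b), by ring⟩
  have h2 : u ∣ y := (Int.pow_dvd_pow_iff (by norm_num)).1 h1
  obtain ⟨z, rfl⟩ := h2
  have h3 : z ^ 2 = d * (X ^ 2 + a * X + b) := by
    have h4 : u ^ 2 * z ^ 2 = u ^ 2 * (d * (X ^ 2 + a * X + b)) := by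
      have : (u * z) ^ 2 = (d * u ^ 2) * (X ^ 2 + a * X + b) := by
        rw [h]
        nth_rewrite 1 [hXd]
        ring
      linear_combination this
    exact mul_left_cancel₀ (by positivity) h4
  have h5 : d ∣ z := by
    have h6 : d ∣ z ^ 2 := ⟨_, h3⟩
    exact (hdsq.dvd_pow_iff_dvd (by norm_num)).1 h6
  obtain ⟨w, rfl⟩ := h5
  have h7 : d * w ^ 2 = X ^ 2 + a * X + b := by
    have h8 : d * (d * w ^ 2) = d * (X ^ 2 + a * X + b) := by
      rw [← h3]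
      ring
    exact mul_left_cancel₀ hd h8
  refine ⟨d, w ^ 2 - d * u ^ 4 - a * u ^ 2, u, w, hdsq, hupos, ?_, ?_, ?_⟩
  · rintro rfl
    simp at hy
  · rw [hXd] at h7
    linear_combination -h7
  · ring

end N78
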