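import Pool.Agent.LibN78.Defs

namespace N78

private theorem A5_bounds {H : ℕ} {z : ℤ × ℤ} (hz : z ∈ Box H) {n e u w : ℤ} (hn : 0 < n)
    (hu : 0 < u) (h1 : z.2 = -n * e) (h2 : w ^ 2 = -n * u ^ 4 + z.1 * u ^ 2 + e) :
    n * u ^ 2 ≤ 2 * H ∧ n * w ^ 2 ≤ 3 * (H : ℤ) ^ 2 := by
  obtain ⟨ha, hb, -, -⟩ := hz
  rw [h1, abs_le] at hb
  rw [abs_le] at ha
  set t := n * u ^ 2 with ht
  have ht0 : 0 < t := by positivity
  have h3 : n * w ^ 2 = -t ^ 2 + z.1 * t + n * e := by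
    rw [h2, ht]; ring
  have h4 : 0 ≤ n * w ^ 2 := by positivity
  have h5 : z.1 * t ≤ H * t := by nlinarith [ha.2]
  have h6 : n * e ≤ (H : ℤ) ^ 2 := by linarith [hb.1]
  have h7 : t ≤ 2 * H := by
    by_contra h8
    push Not at h8
    have hH : (0 : ℤ) ≤ H := by positivity
    nlinarith
  refine ⟨h7, ?_⟩
  nlinarith

private theorem A5_sum (H : ℕ) (hH : 2 ≤ H) :
    ∑ i ∈ Finset.range (2 * H), (√(2 * H / (i + 1)) * (6 * H / √(i + 1)) * (3 * H) : ℝ) ≤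
      200 * (H : ℝ) ^ 2 * √(H : ℝ) * Real.log H := by
  have hH' : (2 : ℝ) ≤ H := by exact_mod_cast hH
  have hH0 : (0 : ℝ) < H := by linarith
  have h1 : ∀ i ∈ Finset.range (2 * H), (√(2 * H / (i + 1)) * (6 * H / √(i + 1)) * (3 * H) : ℝ) =
      (18 * √2 * H ^ 2 * √(H : ℝ)) * ((i + 1 : ℕ) : ℝ)⁻¹ := by
    intro i _
    have h0 : (0 : ℝ) < (i : ℝ) + 1 := by positivity
    rw [Real.sqrt_div (by positivity), Real.sqrt_mul (by norm_num)]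
    have h2 : ((i + 1 : ℕ) : ℝ) = √((i : ℝ) + 1) * √((i : ℝ) + 1) := by
      rw [Real.mul_self_sqrt h0.le]; push_cast; rfl
    have h3 : 0 < √((i : ℝ) + 1) := Real.sqrt_pos.2 h0
    rw [h2]
    generalize √((i : ℝ) + 1) = s at h3
    field_simp
    ring
  rw [Finset.sum_congr rfl h1, ← Finset.mul_sum]
  have h2 : ∑ i ∈ Finset.range (2 * H), ((i + 1 : ℕ) : ℝ)⁻¹ ≤ 1 + Real.log (2 * H) := by
    have := harmonic_le_one_add_log (2 * H)
    rw [harmonic] at this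
    push_cast at this ⊢
    exact this
  have h3 : √(2 : ℝ) ≤ 3 / 2 := by
    rw [Real.sqrt_le_left (by norm_num)]; norm_num
  have h4 : 1 + Real.log (2 * H) ≤ 7 * Real.log H := by
    rw [Real.log_mul (by norm_num) hH0.ne']
    have h5 : Real.log 2 ≤ Real.log H := Real.log_le_log (by norm_num) hH'
    have h6 := Real.log_two_gt_d9
    linarith
  have h5 : 0 ≤ 1 + Real.log (2 * H) := by
    have : 0 ≤ Real.log (2 * H) := Real.log_nonneg (by linarith)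
    linarith
  have h6 : 0 ≤ Real.log H := Real.log_nonneg (by linarith)
  calc (18 * √2 * H ^ 2 * √(H : ℝ)) * ∑ i ∈ Finset.range (2 * H), ((i + 1 : ℕ) : ℝ)⁻¹
      ≤ (18 * (3 / 2) * H ^ 2 * √(H : ℝ)) * (1 + Real.log (2 * H)) := by gcongr
    _ ≤ (18 * (3 / 2) * H ^ 2 * √(H : ℝ)) * (7 * Real.log H) := by gcongr
    _ ≤ _ := by
      have : 0 ≤ (H : ℝ) ^ 2 * √(H : ℝ) * Real.log H := by positivity
      nlinarith

/-- Row A5. `|e| ≤ H^2/|d|`. `w^2 ≥ 0` and `t = |d| u^2` give `t^2 ≤ |d| (a u^2 + e) ≤ H t + H^2`, so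
`t ≤ 2H`. `w^2 ≤ |a| u^2 + |e| ≤ 2H^2/|d| + H^2/|d|`. `(d, u, w, a)` determines `e`, hence `z`. So
`#S ≤ ∑_{|d| u^2 ≤ 2H} (2H+1) (2 √3 H/√|d| + 1)`; `u ≤ √(2H/|d|)`, `|d| ≤ 2H`:
`≤ ∑_{d ≤ 2H} √(2H/d) * 3H * 6 H/√d ≤ C H^(5/2) (1 + log (2H))` (note `√|d| ≤ √(2H) ≤ 2 H`). -/
theorem neg_count : ∃ C : ℝ, 0 < C ∧ ∀ H : ℕ, 2 ≤ H → ∀ S : Finset (ℤ × ℤ),
    (∀ z ∈ S, z ∈ Box H ∧ ∃ d e u w : ℤ, d < 0 ∧ 0 < u ∧ z.2 = d * e ∧
      w ^ 2 = d * u ^ 4 + z.1 * u ^ 2 + e) →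
    (S.card : ℝ) ≤ C * (H : ℝ) ^ 2 * √(H : ℝ) * Real.log H := by
  classical
  refine ⟨200, by norm_num, fun H hH S hS => ?_⟩
  refine le_trans ?_ (A5_sum H hH)
  let T : Finset (ℤ × ℤ) := (Finset.range (2 * H)).biUnion fun i =>
    ((Finset.Icc 1 (Nat.sqrt (2 * H / (i + 1)))) ×ˢ
      (Finset.Icc (-(Nat.sqrt (3 * H ^ 2 / (i + 1)) : ℤ)) (Nat.sqrt (3 * H ^ 2 / (i + 1)) : ℤ)) ×ˢ
      (Finset.Icc (-(H : ℤ)) (H : ℤ))).image (fun x : ℕ × ℤ × ℤ =>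
        (x.2.2, -((i : ℤ) + 1) * (x.2.1 ^ 2 + ((i : ℤ) + 1) * (x.1 : ℤ) ^ 4 - x.2.2 * (x.1 : ℤ) ^ 2)))
  have hST : S ⊆ T := by
    intro z hz
    obtain ⟨hbox, d, e, u, w, hd, hu, h1, h2⟩ := hS z hz
    obtain ⟨i, hi⟩ : ∃ i : ℕ, d = -((i : ℤ) + 1) := by
      refine ⟨(-d - 1).toNat, ?_⟩
      rw [Int.toNat_of_nonneg (by omega)]
      ring
    obtain ⟨v, hv⟩ : ∃ v : ℕ, u = v := ⟨u.toNat, (Int.toNat_of_nonneg hu.le).symm⟩
    subst hv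
    have hv1 : 1 ≤ v := by exact_mod_cast hu
    obtain ⟨h3, h4⟩ := A5_bounds hbox (n := (i : ℤ) + 1) (e := e) (u := v) (w := w)
      (by positivity) hu (by rw [h1, hi]) (by rw [h2, hi])
    have h5 : (i + 1) * v ^ 2 ≤ 2 * H := by exact_mod_cast h3
    have h6 : (i + 1) * w.natAbs ^ 2 ≤ 3 * H ^ 2 := by
      have : ((i : ℤ) + 1) * (w.natAbs : ℤ) ^ 2 ≤ 3 * (H : ℤ) ^ 2 := by
        rw [Int.natCast_natAbs, sq_abs]
        exact h4
      exact_mod_cast this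
    simp only [T, Finset.mem_biUnion, Finset.mem_range, Finset.mem_image, Finset.mem_product,
      Finset.mem_Icc, Prod.exists]
    refine ⟨i, ?_, v, w, z.1, ⟨⟨hv1, ?_⟩, ⟨?_, ?_⟩, ?_⟩, ?_⟩
    · have h7 : i + 1 ≤ (i + 1) * v ^ 2 := Nat.le_mul_of_pos_right _ (by positivity)
      omega
    · rw [Nat.le_sqrt', Nat.le_div_iff_mul_le (by omega)]
      nlinarith
    · have h7 : w.natAbs ≤ Nat.sqrt (3 * H ^ 2 / (i + 1)) := by
        rw [Nat.le_sqrt', Nat.le_div_iff_mul_le (by omega)]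
        nlinarith
      omega
    · have h7 : w.natAbs ≤ Nat.sqrt (3 * H ^ 2 / (i + 1)) := by
        rw [Nat.le_sqrt', Nat.le_div_iff_mul_le (by omega)]
        nlinarith
      omega
    · exact abs_le.1 hbox.1
    · ext
      · rfl
      · show -((i : ℤ) + 1) * (w ^ 2 + ((i : ℤ) + 1) * (v : ℤ) ^ 4 - z.1 * (v : ℤ) ^ 2) = z.2
        rw [h1, h2, hi]
        ring
  have hcard : (S.card : ℝ) ≤ ∑ i ∈ Finset.range (2 * H),
      ((Nat.sqrt (2 * H / (i + 1)) : ℝ) * (2 * Nat.sqrt (3 * H ^ 2 / (i + 1)) + 1) * (2 * H + 1)) := by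
    have h1 : S.card ≤ ∑ i ∈ Finset.range (2 * H),
        (Nat.sqrt (2 * H / (i + 1)) * ((2 * Nat.sqrt (3 * H ^ 2 / (i + 1)) + 1) * (2 * H + 1))) := by
      refine (Finset.card_le_card hST).trans (Finset.card_biUnion_le.trans ?_)
      refine Finset.sum_le_sum fun i _ => ?_
      refine Finset.card_image_le.trans ?_
      rw [Finset.card_product, Finset.card_product, Nat.card_Icc, Int.card_Icc, Int.card_Icc]
      apply le_of_eq
      congr 1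
      congr 1 <;> omega
    calc (S.card : ℝ) ≤ ((∑ i ∈ Finset.range (2 * H),
        (Nat.sqrt (2 * H / (i + 1)) * ((2 * Nat.sqrt (3 * H ^ 2 / (i + 1)) + 1) * (2 * H + 1))) :
          ℕ) : ℝ) := by exact_mod_cast h1
      _ = _ := by
        push_cast
        exact Finset.sum_congr rfl fun i _ => by ring
  refine hcard.trans (Finset.sum_le_sum fun i hi => ?_)
  have hH' : (2 : ℝ) ≤ H := by exact_mod_cast hH
  have hi' : ((i : ℝ) + 1) ≤ 2 * H := by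
    have := Finset.mem_range.1 hi
    exact_mod_cast this
  have h0 : (0 : ℝ) < (i : ℝ) + 1 := by positivity
  have hs0 : 0 < √((i : ℝ) + 1) := Real.sqrt_pos.2 h0
  have a1 : (Nat.sqrt (2 * H / (i + 1)) : ℝ) ≤ √(2 * H / (i + 1)) := by
    refine (Real.nat_sqrt_le_real_sqrt).trans (Real.sqrt_le_sqrt ?_)
    refine (Nat.cast_div_le).trans (le_of_eq ?_)
    push_cast
    rfl
  have a2 : (Nat.sqrt (3 * H ^ 2 / (i + 1)) : ℝ) ≤ 2 * H / √((i : ℝ) + 1) := by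
    refine (Real.nat_sqrt_le_real_sqrt).trans ?_
    rw [Real.sqrt_le_left (by positivity), div_pow, Real.sq_sqrt h0.le]
    refine (Nat.cast_div_le).trans ?_
    push_cast
    gcongr
    nlinarith
  have a3 : 1 ≤ 2 * H / √((i : ℝ) + 1) := by
    rw [one_le_div hs0, Real.sqrt_le_left (by positivity)]
    nlinarith
  have a4 : (2 * (Nat.sqrt (3 * H ^ 2 / (i + 1)) : ℝ) + 1) ≤ 6 * H / √((i : ℝ) + 1) := by
    have h7 : 6 * (H : ℝ) / √((i : ℝ) + 1) = 3 * (2 * H / √((i : ℝ) + 1)) := by ring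
    rw [h7]
    linarith
  have a5 : (2 * (H : ℝ) + 1) ≤ 3 * H := by linarith
  gcongr

end N78
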