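import Pool.Agent.LibN78.Defs

namespace N78

private theorem A6_U (H : ℕ) (s : ℤ) (U : Finset ℤ)
    (hU : ∀ u ∈ U, 0 < u ∧ |4 * u ^ 2 - s| ≤ 2 * (H : ℤ)) :
    (U.card : ℝ) ≤ √(H : ℝ) + 1 := by
  rcases U.eq_empty_or_nonempty with rfl | hne
  · simp only [Finset.card_empty, Nat.cast_zero]
    positivity
  · set m := U.min' hne with hm
    have hmU : m ∈ U := Finset.min'_mem _ _
    have hsub : U ⊆ Finset.Icc m (m + (Nat.sqrt H : ℤ)) := by
      intro v hv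
      rw [Finset.mem_Icc]
      have hmv : m ≤ v := Finset.min'_le _ _ hv
      refine ⟨hmv, ?_⟩
      have h1 := hU m hmU
      have h2 := hU v hv
      have h3 := abs_le.1 h1.2
      have h4 := abs_le.1 h2.2
      have h5 : v ^ 2 - m ^ 2 ≤ (H : ℤ) := by linarith [h3.1, h4.2]
      have h6 : (v - m) ^ 2 ≤ (H : ℤ) := by nlinarith [h1.1]
      obtain ⟨n, hn⟩ := Int.eq_ofNat_of_zero_le (sub_nonneg.2 hmv)
      rw [hn] at h6
      have h7 : n ^ 2 ≤ H := by exact_mod_cast h6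
      have h8 : n ≤ Nat.sqrt H := Nat.le_sqrt'.2 h7
      have h9 : (n : ℤ) ≤ (Nat.sqrt H : ℤ) := by exact_mod_cast h8
      have hn' : v - m = (n : ℤ) := hn
      linarith
    have hc := Finset.card_le_card hsub
    rw [Int.card_Icc] at hc
    have h10 : (m + (Nat.sqrt H : ℤ) + 1 - m).toNat = Nat.sqrt H + 1 := by
      have : m + (Nat.sqrt H : ℤ) + 1 - m = ((Nat.sqrt H + 1 : ℕ) : ℤ) := by push_cast; ring
      rw [this, Int.toNat_natCast]
    rw [h10] at hc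
    have h11 : (U.card : ℝ) ≤ (Nat.sqrt H : ℝ) + 1 := by exact_mod_cast hc
    have h12 : (Nat.sqrt H : ℝ) ≤ √(H : ℝ) := Real.nat_sqrt_le_real_sqrt
    linarith

private theorem A6_G (N : ℕ) :
    ((((Finset.Icc 1 N) ×ˢ (Finset.Icc 1 N)).filter (fun t : ℕ × ℕ => t.1 * t.2 ≤ N)).card : ℝ) ≤
      N * (1 + Real.log N) := by
  have hsub : ((Finset.Icc 1 N) ×ˢ (Finset.Icc 1 N)).filter (fun t : ℕ × ℕ => t.1 * t.2 ≤ N) ⊆
      (Finset.Icc 1 N).biUnion (fun p => (Finset.Icc 1 (N / p)).image (fun q => (p, q))) := by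
    rintro ⟨p, q⟩ h
    rw [Finset.mem_filter, Finset.mem_product, Finset.mem_Icc, Finset.mem_Icc] at h
    rw [Finset.mem_biUnion]
    refine ⟨p, Finset.mem_Icc.2 h.1.1, ?_⟩
    rw [Finset.mem_image]
    refine ⟨q, Finset.mem_Icc.2 ⟨h.1.2.1, ?_⟩, rfl⟩
    rw [Nat.le_div_iff_mul_le (by have := h.1.1.1; omega)]
    have := h.2
    simp only at this
    rw [mul_comm]
    exact this
  have h1 : (((Finset.Icc 1 N) ×ˢ (Finset.Icc 1 N)).filter (fun t : ℕ × ℕ => t.1 * t.2 ≤ N)).card ≤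
      ∑ p ∈ Finset.Icc 1 N, N / p := by
    refine (Finset.card_le_card hsub).trans (Finset.card_biUnion_le.trans ?_)
    refine Finset.sum_le_sum fun p _ => ?_
    refine Finset.card_image_le.trans ?_
    rw [Nat.card_Icc, Nat.add_sub_cancel]
  have h2 : ((∑ p ∈ Finset.Icc 1 N, N / p : ℕ) : ℝ) ≤ ∑ p ∈ Finset.Icc 1 N, (N : ℝ) * ((p : ℝ))⁻¹ := by
    rw [Nat.cast_sum]
    refine Finset.sum_le_sum fun p _ => ?_
    refine Nat.cast_div_le.trans (le_of_eq ?_)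
    rw [div_eq_mul_inv]
  have h3 : ∑ p ∈ Finset.Icc 1 N, (N : ℝ) * ((p : ℝ))⁻¹ = N * ((harmonic N : ℚ) : ℝ) := by
    rw [← Finset.mul_sum, harmonic_eq_sum_Icc]
    push_cast
    rfl
  have h4 : (((Finset.Icc 1 N) ×ˢ (Finset.Icc 1 N)).filter
      (fun t : ℕ × ℕ => t.1 * t.2 ≤ N)).card ≤ ((∑ p ∈ Finset.Icc 1 N, N / p : ℕ) : ℝ) := by
    exact_mod_cast h1
  rw [h3] at h2
  exact h4.trans (h2.trans (mul_le_mul_of_nonneg_left (harmonic_le_one_add_log N) (Nat.cast_nonneg _)))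

private theorem A6_T (N : ℕ) :
    (((Finset.Icc (-(N : ℤ)) N ×ˢ Finset.Icc (-(N : ℤ)) N).filter
      (fun t : ℤ × ℤ => t.1 ≠ 0 ∧ t.2 ≠ 0 ∧ |t.1 * t.2| ≤ (N : ℤ))).card : ℝ) ≤
      4 * (N * (1 + Real.log N)) := by
  have h1 := Finset.card_le_mul_card_image_of_maps_to
    (f := fun t : ℤ × ℤ => (t.1.natAbs, t.2.natAbs))
    (s := (Finset.Icc (-(N : ℤ)) N ×ˢ Finset.Icc (-(N : ℤ)) N).filter
      (fun t : ℤ × ℤ => t.1 ≠ 0 ∧ t.2 ≠ 0 ∧ |t.1 * t.2| ≤ (N : ℤ)))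
    (t := ((Finset.Icc 1 N) ×ˢ (Finset.Icc 1 N)).filter (fun t : ℕ × ℕ => t.1 * t.2 ≤ N))
    (by
      rintro ⟨P, Q⟩ h
      rw [Finset.mem_filter, Finset.mem_product, Finset.mem_Icc, Finset.mem_Icc] at h
      simp only at h
      rw [Finset.mem_filter, Finset.mem_product, Finset.mem_Icc, Finset.mem_Icc]
      simp only
      obtain ⟨⟨⟨hP1, hP2⟩, ⟨hQ1, hQ2⟩⟩, hP, hQ, hPQ⟩ := h
      refine ⟨⟨⟨?_, ?_⟩, ⟨?_, ?_⟩⟩, ?_⟩
      · exact Int.natAbs_pos.2 hP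
      · omega
      · exact Int.natAbs_pos.2 hQ
      · omega
      · rw [← Int.natAbs_mul]
        rw [Int.abs_eq_natAbs] at hPQ
        exact_mod_cast hPQ)
    4
    (by
      rintro ⟨p, q⟩ _
      have hsub : ((Finset.Icc (-(N : ℤ)) N ×ˢ Finset.Icc (-(N : ℤ)) N).filter
          (fun t : ℤ × ℤ => t.1 ≠ 0 ∧ t.2 ≠ 0 ∧ |t.1 * t.2| ≤ (N : ℤ))).filter
          (fun t : ℤ × ℤ => (t.1.natAbs, t.2.natAbs) = (p, q)) ⊆
          ({(p : ℤ), -(p : ℤ)} : Finset ℤ) ×ˢ ({(q : ℤ), -(q : ℤ)} : Finset ℤ) := by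
        rintro ⟨P, Q⟩ h
        have h2 := (Finset.mem_filter.1 h).2
        simp only [Prod.mk.injEq] at h2
        rw [Finset.mem_product]
        simp only [Finset.mem_insert, Finset.mem_singleton]
        constructor
        · rw [← h2.1]; omega
        · rw [← h2.2]; omega
      refine (Finset.card_le_card hsub).trans ?_
      rw [Finset.card_product]
      have h3 : (({(p : ℤ), -(p : ℤ)} : Finset ℤ)).card ≤ 2 := Finset.card_le_two
      have h4 : (({(q : ℤ), -(q : ℤ)} : Finset ℤ)).card ≤ 2 := Finset.card_le_two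
      calc _ ≤ 2 * 2 := Nat.mul_le_mul h3 h4
        _ = 4 := rfl)
  have h2 := A6_G N
  have h3 : (((Finset.Icc (-(N : ℤ)) N ×ˢ Finset.Icc (-(N : ℤ)) N).filter
      (fun t : ℤ × ℤ => t.1 ≠ 0 ∧ t.2 ≠ 0 ∧ |t.1 * t.2| ≤ (N : ℤ))).card : ℝ) ≤
      4 * ((((Finset.Icc 1 N) ×ˢ (Finset.Icc 1 N)).filter
        (fun t : ℕ × ℕ => t.1 * t.2 ≤ N)).card : ℝ) := by exact_mod_cast h1
  linarith

/-- Row A6 (the class `d = 1`). `P = 2u^2 + a - 2w`, `Q = 2u^2 + a + 2w`: `P Q = a^2 - 4b ≠ 0`, `|PQ| ≤ 5H^2`,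
`P + Q = 4u^2 + 2a`. `(P, Q, u)` determines `(a, w)` and `b`. Number of `(P,Q)`: at most
`4 ∑_{P ≤ 5H^2} 5H^2/P ≤ 20 H^2 (1 + log (5H^2))`. For given `P, Q` the `u ≥ 1` satisfy
`|4u^2 - (P+Q)| ≤ 2H`: two of them, `u < v`, have `(v-u)^2 ≤ v^2 - u^2 ≤ H`, so at most `√H + 1` values. -/
theorem one_count : ∃ C : ℝ, 0 < C ∧ ∀ H : ℕ, 2 ≤ H → ∀ S : Finset (ℤ × ℤ),
    (∀ z ∈ S, z ∈ Box H ∧ ∃ u w : ℤ, 0 < u ∧ w ^ 2 = u ^ 4 + z.1 * u ^ 2 + z.2) →
    (S.card : ℝ) ≤ C * (H : ℝ) ^ 2 * √(H : ℝ) * Real.log H := by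
  refine ⟨280, by norm_num, fun H hH S hS => ?_⟩
  have hS1 : ∀ z ∈ S, ∃ u w : ℤ, 0 < u ∧ w ^ 2 = u ^ 4 + z.1 * u ^ 2 + z.2 := fun z hz => (hS z hz).2
  choose! u w hu hw using hS1
  set N : ℕ := 5 * H ^ 2 with hN
  set T : Finset (ℤ × ℤ) := (Finset.Icc (-(N : ℤ)) N ×ˢ Finset.Icc (-(N : ℤ)) N).filter
      (fun t : ℤ × ℤ => t.1 ≠ 0 ∧ t.2 ≠ 0 ∧ |t.1 * t.2| ≤ (N : ℤ)) with hT
  set f : ℤ × ℤ → ℤ × ℤ := fun z =>
    (2 * u z ^ 2 + z.1 - 2 * w z, 2 * u z ^ 2 + z.1 + 2 * w z) with hf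
  have hmaps : ∀ z ∈ S, f z ∈ T := by
    intro z hz
    obtain ⟨hz1, hz2, hz3, hz4⟩ := (hS z hz).1
    have hprod : (f z).1 * (f z).2 = z.1 ^ 2 - 4 * z.2 := by
      have := hw z hz
      simp only [hf]
      linear_combination (-4 : ℤ) * this
    have hne : (f z).1 * (f z).2 ≠ 0 := by rw [hprod]; exact hz4
    have h1 : (f z).1 ≠ 0 := left_ne_zero_of_mul hne
    have h2 : (f z).2 ≠ 0 := right_ne_zero_of_mul hne
    have h3 : |(f z).1 * (f z).2| ≤ (N : ℤ) := by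
      rw [hprod, hN]
      have h4 : z.1 ^ 2 ≤ (H : ℤ) ^ 2 := sq_le_sq.2 (by
        rw [abs_of_nonneg (Int.natCast_nonneg H)]; exact hz1)
      have h5 := abs_le.1 hz2
      have h6 := sq_nonneg z.1
      rw [abs_le]
      push_cast
      constructor
      · linarith [h5.2]
      · linarith [h5.1]
    have hP1 : 1 ≤ |(f z).1| := Int.one_le_abs h1
    have hQ1 : 1 ≤ |(f z).2| := Int.one_le_abs h2
    rw [hT, Finset.mem_filter, Finset.mem_product, Finset.mem_Icc, Finset.mem_Icc]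
    have h7 : |(f z).1| ≤ (N : ℤ) := by
      rw [abs_mul] at h3
      nlinarith
    have h8 : |(f z).2| ≤ (N : ℤ) := by
      rw [abs_mul] at h3
      nlinarith
    exact ⟨⟨abs_le.1 h7, abs_le.1 h8⟩, h1, h2, h3⟩
  have hfib : ∀ t ∈ T, ((S.filter (fun z => f z = t)).card : ℝ) ≤ √(H : ℝ) + 1 := by
    intro t _
    have hinj : Set.InjOn u (S.filter (fun z => f z = t)) := by
      intro z hz z' hz' huu
      have hz := Finset.mem_filter.1 (Finset.mem_coe.1 hz)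
      have hz' := Finset.mem_filter.1 (Finset.mem_coe.1 hz')
      have h1 : f z = f z' := hz.2.trans hz'.2.symm
      have h2 : 2 * u z ^ 2 + z.1 - 2 * w z = 2 * u z' ^ 2 + z'.1 - 2 * w z' := congrArg Prod.fst h1
      have h3 : 2 * u z ^ 2 + z.1 + 2 * w z = 2 * u z' ^ 2 + z'.1 + 2 * w z' := congrArg Prod.snd h1
      have hww : w z = w z' := by rw [huu] at h2 h3; linarith
      have haa : z.1 = z'.1 := by rw [huu] at h2 h3; linarith
      have hbb : z.2 = z'.2 := by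
        have h4 := hw z hz.1
        have h5 := hw z' hz'.1
        rw [hww, huu, haa] at h4
        linarith
      exact Prod.ext haa hbb
    rw [← Finset.card_image_of_injOn hinj]
    refine A6_U H (t.1 + t.2) _ fun x hx => ?_
    obtain ⟨z, hz, rfl⟩ := Finset.mem_image.1 hx
    have hz := Finset.mem_filter.1 hz
    refine ⟨hu z hz.1, ?_⟩
    have h1 : t.1 + t.2 = 4 * u z ^ 2 + 2 * z.1 := by
      rw [← hz.2]
      simp only [hf]
      ring
    rw [h1]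
    have h2 : 4 * u z ^ 2 - (4 * u z ^ 2 + 2 * z.1) = -(2 * z.1) := by ring
    rw [h2, abs_neg, abs_mul]
    have h3 := (hS z hz.1).1.1
    have h4 : |(2 : ℤ)| = 2 := rfl
    rw [h4]
    linarith
  have hcard : (S.card : ℝ) ≤ T.card * (√(H : ℝ) + 1) := by
    rw [Finset.card_eq_sum_card_fiberwise hmaps, Nat.cast_sum]
    refine (Finset.sum_le_sum hfib).trans (le_of_eq ?_)
    rw [Finset.sum_const, nsmul_eq_mul]
  have hTc := A6_T N
  rw [← hT] at hTc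
  have hH2 : (2 : ℝ) ≤ (H : ℝ) := by exact_mod_cast hH
  have hNR : (N : ℝ) = 5 * (H : ℝ) ^ 2 := by rw [hN]; push_cast; ring
  have hlog2 : (0.69 : ℝ) < Real.log 2 := by have := Real.log_two_gt_d9; linarith
  have hlogH : Real.log 2 ≤ Real.log H := Real.log_le_log (by norm_num) hH2
  have hlogN : 1 + Real.log N ≤ 7 * Real.log H := by
    rw [hNR, Real.log_mul (by norm_num) (by positivity), Real.log_pow]
    have h5 : Real.log 5 ≤ 3 * Real.log 2 := by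
      have : Real.log 5 ≤ Real.log (2 ^ 3) := Real.log_le_log (by norm_num) (by norm_num)
      rwa [Real.log_pow] at this
    push_cast
    linarith
  have hsq1 : 1 ≤ √(H : ℝ) := by
    rw [Real.one_le_sqrt]
    linarith
  have hlogH0 : 0 ≤ Real.log H := by linarith
  calc (S.card : ℝ) ≤ T.card * (√(H : ℝ) + 1) := hcard
    _ ≤ (4 * (N * (1 + Real.log N))) * (2 * √(H : ℝ)) := by
        refine mul_le_mul hTc (by linarith) (by positivity) ?_
        exact (Nat.cast_nonneg _).trans hTc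
    _ ≤ (4 * (N * (7 * Real.log H))) * (2 * √(H : ℝ)) := by
        refine mul_le_mul_of_nonneg_right ?_ (by positivity)
        refine mul_le_mul_of_nonneg_left ?_ (by norm_num)
        exact mul_le_mul_of_nonneg_left hlogN (Nat.cast_nonneg _)
    _ = 280 * (H : ℝ) ^ 2 * √(H : ℝ) * Real.log H := by
        rw [hNR]
        ring

end N78
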