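import Pool.Agent.LibN78.Defs

namespace N78

/-- elements of one residue class mod `m` in `[-N, N]` -/
private theorem A7_class (N m : ℕ) (hm : 0 < m) (T : Finset ℤ) (hT : ∀ x ∈ T, |x| ≤ (N : ℤ))
    (hc : ∀ x ∈ T, ∀ y ∈ T, (m : ℤ) ∣ x - y) : (T.card : ℝ) ≤ 2 * N / m + 1 := by
  rcases T.eq_empty_or_nonempty with rfl | hne
  · rw [Finset.card_empty, Nat.cast_zero]
    positivity
  · set x₀ := T.min' hne with hx₀
    have h0 : x₀ ∈ T := T.min'_mem hne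
    have hle : ∀ x ∈ T, x₀ ≤ x := fun x hx => T.min'_le x hx
    have h1 : T.card ≤ (Finset.range (2 * N / m + 1)).card := by
      refine Finset.card_le_card_of_injOn (fun x => ((x - x₀) / m).toNat) ?_ ?_
      · intro x hx
        have hx' : x ∈ T := hx
        rw [Finset.mem_coe, Finset.mem_range, Nat.lt_succ_iff]
        have h2 := abs_le.1 (hT x hx')
        have h3 := abs_le.1 (hT x₀ h0)
        have h4 : x - x₀ ≤ ((2 * N : ℕ) : ℤ) := by push_cast; linarith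
        have h5 : (x - x₀) / m ≤ ((2 * N / m : ℕ) : ℤ) := by
          rw [Int.natCast_ediv]
          exact Int.ediv_le_ediv (by exact_mod_cast hm) h4
        exact Int.toNat_le.2 h5
      · intro x hx y hy hxy
        have hx' : x ∈ T := hx
        have hy' : y ∈ T := hy
        have h2 : 0 ≤ (x - x₀) / m := Int.ediv_nonneg (sub_nonneg.2 (hle x hx')) (by positivity)
        have h3 : 0 ≤ (y - x₀) / m := Int.ediv_nonneg (sub_nonneg.2 (hle y hy')) (by positivity)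
        have h4 : (x - x₀) / m = (y - x₀) / m := by
          have h5 : (((x - x₀) / m).toNat : ℤ) = (((y - x₀) / m).toNat : ℤ) := congrArg _ hxy
          rwa [Int.toNat_of_nonneg h2, Int.toNat_of_nonneg h3] at h5
        have h6 := Int.ediv_mul_cancel (hc x hx' x₀ h0)
        have h7 := Int.ediv_mul_cancel (hc y hy' x₀ h0)
        rw [h4, h7] at h6
        linarith
    rw [Finset.card_range] at h1
    calc (T.card : ℝ) ≤ ((2 * N / m + 1 : ℕ) : ℝ) := by exact_mod_cast h1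
      _ = ((2 * N / m : ℕ) : ℝ) + 1 := by push_cast; ring
      _ ≤ ((2 * N : ℕ) : ℝ) / m + 1 := by
          gcongr
          exact Nat.cast_div_le
      _ = _ := by push_cast; ring

/-- nonzero multiples of `m` in `[-N, N]` -/
private theorem A7_mult (N m : ℕ) (hm : 0 < m) (T : Finset ℤ)
    (hT : ∀ x ∈ T, |x| ≤ (N : ℤ) ∧ x ≠ 0 ∧ (m : ℤ) ∣ x) : (T.card : ℝ) ≤ 2 * N / m := by
  have h1 : T.card ≤ ((Finset.Icc (-((N / m : ℕ) : ℤ)) ((N / m : ℕ) : ℤ)).erase 0).card := by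
    refine Finset.card_le_card_of_injOn (fun x => x / m) ?_ ?_
    · intro x hx
      have hx' : x ∈ T := hx
      obtain ⟨h2, h3, y, rfl⟩ := hT x hx'
      have hm' : (m : ℤ) ≠ 0 := by exact_mod_cast hm.ne'
      rw [Finset.mem_coe]
      beta_reduce
      rw [Int.mul_ediv_cancel_left _ hm', Finset.mem_erase, Finset.mem_Icc, ← abs_le]
      refine ⟨fun h => h3 (by rw [h, mul_zero]), ?_⟩
      rw [abs_mul, Nat.abs_cast] at h2
      have h4 : (m * y.natAbs : ℕ) ≤ N := by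
        have : ((m * y.natAbs : ℕ) : ℤ) ≤ N := by
          rw [Nat.cast_mul, Int.natCast_natAbs]
          exact h2
        exact_mod_cast this
      have h5 : y.natAbs ≤ N / m := (Nat.le_div_iff_mul_le hm).2 (by rwa [mul_comm])
      rw [← Int.natCast_natAbs]
      exact_mod_cast h5
    · intro x hx y hy hxy
      have h2 := Int.ediv_mul_cancel (hT x hx).2.2
      have h3 := Int.ediv_mul_cancel (hT y hy).2.2
      beta_reduce at hxy
      rw [← h2, ← h3, hxy]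
  have h2 : ((Finset.Icc (-((N / m : ℕ) : ℤ)) ((N / m : ℕ) : ℤ)).erase 0).card = 2 * (N / m) := by
    rw [Finset.card_erase_of_mem, Int.card_Icc]
    · omega
    · rw [Finset.mem_Icc]
      constructor
      · have : (0 : ℤ) ≤ ((N / m : ℕ) : ℤ) := by positivity
        linarith
      · positivity
  rw [h2] at h1
  calc (T.card : ℝ) ≤ ((2 * (N / m) : ℕ) : ℝ) := by exact_mod_cast h1
    _ = 2 * ((N / m : ℕ) : ℝ) := by push_cast; ring
    _ ≤ 2 * ((N : ℝ) / m) := by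
        gcongr
        exact Nat.cast_div_le
    _ = _ := by ring

/-- `∑_{W < n ≤ M} 1 / n^2 ≤ 1 / W` -/
private theorem A7_sum (W M : ℕ) (hW : 1 ≤ W) :
    ∑ n ∈ Finset.Ioc W M, ((n : ℝ) ^ 2)⁻¹ ≤ 1 / W := by
  rcases le_or_gt W M with h | h
  · have h1 := sum_Ioc_inv_sq_le_sub (α := ℝ) (k := W) (n := M) (by omega) h
    have h2 : (0 : ℝ) ≤ (M : ℝ)⁻¹ := by positivity
    rw [one_div]
    linarith
  · rw [Finset.Ioc_eq_empty (by omega), Finset.sum_empty]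
    positivity

/-- Row A7a. `p^2 ∣ D = a^2 - 4b ≠ 0`, `|D| ≤ 5H^2`, so `p ≤ 3H`. For given `a` and `p` (odd since `p > W ≥ 2`)
`b` lies in one class mod `p^2`: at most `2H^2/p^2 + 1` values. Sum over `2H + 1` values of `a` and `W < p ≤ 3H`
(`∑_{n > W} 1/n^2 ≤ 1/W`): `≤ 3H (2H^2/W + 3H)`. -/
theorem sq_div_count : ∃ C : ℝ, 0 < C ∧ ∀ H W : ℕ, 1 ≤ H → 2 ≤ W → ∀ S : Finset (ℤ × ℤ),
    (∀ z ∈ S, z ∈ Box H ∧ ∃ p : ℕ, p.Prime ∧ W < p ∧ (p : ℤ) ^ 2 ∣ z.1 ^ 2 - 4 * z.2) →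
    (S.card : ℝ) ≤ C * ((H : ℝ) ^ 3 / W + (H : ℝ) ^ 2) := by
  classical
  refine ⟨9, by norm_num, fun H W hH hW S hS => ?_⟩
  have hH' : (1 : ℝ) ≤ H := by exact_mod_cast hH
  have hW' : (0 : ℝ) < W := by exact_mod_cast (by omega : 0 < W)
  set A : Finset ℤ := Finset.Icc (-(H : ℤ)) H with hA
  set Pr : Finset ℕ := (Finset.Ioc W (3 * H)).filter Nat.Prime with hPr
  have hcov : S ⊆ (A ×ˢ Pr).biUnion fun q =>
      S.filter fun z => z.1 = q.1 ∧ (q.2 : ℤ) ^ 2 ∣ z.1 ^ 2 - 4 * z.2 := by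
    intro z hz
    obtain ⟨⟨h1, h2, h3, h4⟩, p, hp, hWp, hd⟩ := hS z hz
    rw [Finset.mem_biUnion]
    refine ⟨(z.1, p), ?_, Finset.mem_filter.2 ⟨hz, rfl, hd⟩⟩
    rw [Finset.mem_product, hA, Finset.mem_Icc, hPr, Finset.mem_filter, Finset.mem_Ioc]
    refine ⟨abs_le.1 h1, ⟨hWp, ?_⟩, hp⟩
    have h5 : (p : ℤ) ^ 2 ≤ |z.1 ^ 2 - 4 * z.2| := Int.le_of_dvd (abs_pos.2 h4) ((dvd_abs _ _).2 hd)
    have h6 : |z.1 ^ 2 - 4 * z.2| ≤ 5 * (H : ℤ) ^ 2 := by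
      calc |z.1 ^ 2 - 4 * z.2| ≤ |z.1 ^ 2| + |4 * z.2| := abs_sub _ _
        _ = |z.1| ^ 2 + 4 * |z.2| := by rw [abs_pow, abs_mul]; norm_num
        _ ≤ (H : ℤ) ^ 2 + 4 * (H : ℤ) ^ 2 := by
            have := pow_le_pow_left₀ (abs_nonneg z.1) h1 2
            linarith
        _ = _ := by ring
    by_contra hlt
    have h7 : 3 * (H : ℤ) < p := by exact_mod_cast (not_le.1 hlt)
    have h8 : (1 : ℤ) ≤ H := by exact_mod_cast hH
    nlinarith
  have hone : ∀ q ∈ A ×ˢ Pr, ((S.filter fun z => z.1 = q.1 ∧ (q.2 : ℤ) ^ 2 ∣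
      z.1 ^ 2 - 4 * z.2).card : ℝ) ≤ 2 * (H : ℝ) ^ 2 * (((q.2 : ℝ) ^ 2)⁻¹) + 1 := by
    rintro ⟨a, p⟩ hq
    rw [Finset.mem_product, hPr, Finset.mem_filter, Finset.mem_Ioc] at hq
    obtain ⟨-, ⟨hWp, -⟩, hp⟩ := hq
    have hinj : ((S.filter fun z => z.1 = a ∧ (p : ℤ) ^ 2 ∣ z.1 ^ 2 - 4 * z.2).image
        Prod.snd).card = (S.filter fun z => z.1 = a ∧ (p : ℤ) ^ 2 ∣ z.1 ^ 2 - 4 * z.2).card := by
      refine Finset.card_image_of_injOn ?_
      intro z hz w hw hzw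
      rw [Finset.mem_coe, Finset.mem_filter] at hz hw
      exact Prod.ext (hz.2.1.trans hw.2.1.symm) hzw
    have hcop : IsCoprime ((p : ℤ) ^ 2) 4 := by
      have h1 : Nat.Coprime p 2 := (Nat.coprime_primes hp Nat.prime_two).2 (by omega)
      have h2 : Nat.Coprime (p ^ 2) 4 := by
        have : (4 : ℕ) = 2 ^ 2 := by norm_num
        rw [this]
        exact Nat.Coprime.pow 2 2 h1
      have := Nat.isCoprime_iff_coprime.2 h2
      exact_mod_cast this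
    have h1 := A7_class (H ^ 2) (p ^ 2) (pow_pos hp.pos 2) ((S.filter fun z => z.1 = a ∧
        (p : ℤ) ^ 2 ∣ z.1 ^ 2 - 4 * z.2).image Prod.snd) ?_ ?_
    · rw [hinj] at h1
      refine h1.trans (le_of_eq ?_)
      push_cast
      rw [div_eq_mul_inv]
    · intro x hx
      rw [Finset.mem_image] at hx
      obtain ⟨z, hz, rfl⟩ := hx
      rw [Finset.mem_filter] at hz
      have := (hS z hz.1).1.2.1
      push_cast
      exact this
    · intro x hx y hy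
      rw [Finset.mem_image] at hx hy
      obtain ⟨z, hz, rfl⟩ := hx
      obtain ⟨w, hw, rfl⟩ := hy
      rw [Finset.mem_filter] at hz hw
      have h2 : (p : ℤ) ^ 2 ∣ 4 * (z.2 - w.2) := by
        have h3 := dvd_sub hw.2.2 hz.2.2
        have h4 : w.1 ^ 2 - 4 * w.2 - (z.1 ^ 2 - 4 * z.2) = 4 * (z.2 - w.2) := by
          rw [hw.2.1, hz.2.1]; ring
        rwa [h4] at h3
      push_cast
      exact hcop.dvd_of_dvd_mul_left h2
  have hAc : (A.card : ℝ) ≤ 3 * H := by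
    have h1 : A.card = 2 * H + 1 := by
      rw [hA, Int.card_Icc]
      omega
    rw [h1]
    push_cast
    linarith
  calc (S.card : ℝ) ≤ (((A ×ˢ Pr).biUnion fun q =>
      S.filter fun z => z.1 = q.1 ∧ (q.2 : ℤ) ^ 2 ∣ z.1 ^ 2 - 4 * z.2).card : ℝ) := by
        exact_mod_cast Finset.card_le_card hcov
    _ ≤ ∑ q ∈ A ×ˢ Pr, ((S.filter fun z => z.1 = q.1 ∧ (q.2 : ℤ) ^ 2 ∣
        z.1 ^ 2 - 4 * z.2).card : ℝ) := by
        exact_mod_cast Finset.card_biUnion_le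
    _ ≤ ∑ q ∈ A ×ˢ Pr, (2 * (H : ℝ) ^ 2 * (((q.2 : ℝ) ^ 2)⁻¹) + 1) := Finset.sum_le_sum hone
    _ = A.card * ∑ p ∈ Pr, (2 * (H : ℝ) ^ 2 * (((p : ℝ) ^ 2)⁻¹) + 1) := by
        rw [Finset.sum_product]
        simp only [Finset.sum_const, nsmul_eq_mul]
    _ ≤ (3 * H) * ∑ p ∈ Finset.Ioc W (3 * H), (2 * (H : ℝ) ^ 2 * (((p : ℝ) ^ 2)⁻¹) + 1) := by
        refine mul_le_mul hAc ?_ (Finset.sum_nonneg fun p _ => by positivity) (by positivity)
        exact Finset.sum_le_sum_of_subset_of_nonneg (Finset.filter_subset _ _)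
          fun p _ _ => by positivity
    _ = (3 * H) * (2 * (H : ℝ) ^ 2 * ∑ p ∈ Finset.Ioc W (3 * H), ((p : ℝ) ^ 2)⁻¹ +
          (3 * H - W : ℕ)) := by
        rw [Finset.sum_add_distrib, ← Finset.mul_sum, Finset.sum_const, Nat.card_Ioc, nsmul_eq_mul,
          mul_one]
    _ ≤ (3 * H) * (2 * (H : ℝ) ^ 2 * (1 / W) + 3 * H) := by
        have h1 : ((3 * H - W : ℕ) : ℝ) ≤ 3 * H := by
          have : ((3 * H - W : ℕ) : ℝ) ≤ ((3 * H : ℕ) : ℝ) := by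
            exact_mod_cast Nat.sub_le _ _
          push_cast at this
          exact this
        gcongr
        exact A7_sum W (3 * H) (by omega)
    _ ≤ 9 * ((H : ℝ) ^ 3 / W + (H : ℝ) ^ 2) := by
        have h1 : (3 * H) * (2 * (H : ℝ) ^ 2 * (1 / W) + 3 * H) =
            6 * ((H : ℝ) ^ 3 / W) + 9 * (H : ℝ) ^ 2 := by ring
        rw [h1]
        have h2 : 0 ≤ (H : ℝ) ^ 3 / W := by positivity
        linarith

/-- Row A7b. `a ≠ 0`, `b ≠ 0`: for given `p` at most `2H/p` values of `a`, `2H^2/p` values of `b`; sum over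
`p > W`: `≤ 4 H^3/W`. -/
theorem common_count : ∃ C : ℝ, 0 < C ∧ ∀ H W : ℕ, 1 ≤ H → 2 ≤ W → ∀ S : Finset (ℤ × ℤ),
    (∀ z ∈ S, z ∈ Box H ∧ z.1 ≠ 0 ∧ ∃ p : ℕ, p.Prime ∧ W < p ∧ (p : ℤ) ∣ z.1 ∧ (p : ℤ) ∣ z.2) →
    (S.card : ℝ) ≤ C * ((H : ℝ) ^ 3 / W) := by
  classical
  refine ⟨4, by norm_num, fun H W hH hW S hS => ?_⟩
  have hW' : (0 : ℝ) < W := by exact_mod_cast (by omega : 0 < W)
  have hcov : S ⊆ (Finset.Ioc W H).biUnion fun p =>
      S.filter fun z => (p : ℤ) ∣ z.1 ∧ (p : ℤ) ∣ z.2 := by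
    intro z hz
    obtain ⟨⟨h1, h2, h3, h4⟩, h0, p, hp, hWp, hd, hd'⟩ := hS z hz
    rw [Finset.mem_biUnion]
    refine ⟨p, ?_, Finset.mem_filter.2 ⟨hz, hd, hd'⟩⟩
    rw [Finset.mem_Ioc]
    refine ⟨hWp, ?_⟩
    have h5 : (p : ℤ) ≤ |z.1| := Int.le_of_dvd (abs_pos.2 h0) ((dvd_abs _ _).2 hd)
    exact_mod_cast h5.trans h1
  have hone : ∀ p ∈ Finset.Ioc W H, ((S.filter fun z => (p : ℤ) ∣ z.1 ∧ (p : ℤ) ∣ z.2).card : ℝ) ≤
      4 * (H : ℝ) ^ 3 * ((p : ℝ) ^ 2)⁻¹ := by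
    intro p hp
    rw [Finset.mem_Ioc] at hp
    have hp0 : 0 < p := by omega
    have hp' : (0 : ℝ) < p := by exact_mod_cast hp0
    have h1 : (S.filter fun z => (p : ℤ) ∣ z.1 ∧ (p : ℤ) ∣ z.2) ⊆
        ((S.filter fun z => (p : ℤ) ∣ z.1 ∧ (p : ℤ) ∣ z.2).image Prod.fst) ×ˢ
        ((S.filter fun z => (p : ℤ) ∣ z.1 ∧ (p : ℤ) ∣ z.2).image Prod.snd) := by
      intro z hz
      rw [Finset.mem_product]
      exact ⟨Finset.mem_image_of_mem _ hz, Finset.mem_image_of_mem _ hz⟩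
    have h2 := A7_mult H p hp0 ((S.filter fun z => (p : ℤ) ∣ z.1 ∧ (p : ℤ) ∣ z.2).image Prod.fst)
      (by
        intro x hx
        rw [Finset.mem_image] at hx
        obtain ⟨z, hz, rfl⟩ := hx
        rw [Finset.mem_filter] at hz
        exact ⟨(hS z hz.1).1.1, (hS z hz.1).2.1, hz.2.1⟩)
    have h3 := A7_mult (H ^ 2) p hp0
      ((S.filter fun z => (p : ℤ) ∣ z.1 ∧ (p : ℤ) ∣ z.2).image Prod.snd)
      (by
        intro x hx
        rw [Finset.mem_image] at hx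
        obtain ⟨z, hz, rfl⟩ := hx
        rw [Finset.mem_filter] at hz
        refine ⟨?_, (hS z hz.1).1.2.2.1, hz.2.2⟩
        push_cast
        exact (hS z hz.1).1.2.1)
    calc ((S.filter fun z => (p : ℤ) ∣ z.1 ∧ (p : ℤ) ∣ z.2).card : ℝ)
        ≤ ((((S.filter fun z => (p : ℤ) ∣ z.1 ∧ (p : ℤ) ∣ z.2).image Prod.fst) ×ˢ
        ((S.filter fun z => (p : ℤ) ∣ z.1 ∧ (p : ℤ) ∣ z.2).image Prod.snd)).card : ℝ) := by
          exact_mod_cast Finset.card_le_card h1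
      _ = (((S.filter fun z => (p : ℤ) ∣ z.1 ∧ (p : ℤ) ∣ z.2).image Prod.fst).card : ℝ) *
        (((S.filter fun z => (p : ℤ) ∣ z.1 ∧ (p : ℤ) ∣ z.2).image Prod.snd).card : ℝ) := by
          rw [Finset.card_product, Nat.cast_mul]
      _ ≤ (2 * H / p) * (2 * ((H ^ 2 : ℕ) : ℝ) / p) :=
          mul_le_mul h2 h3 (Nat.cast_nonneg _) (by positivity)
      _ = _ := by
          push_cast
          field_simp
          ring
  calc (S.card : ℝ) ≤ (((Finset.Ioc W H).biUnion fun p =>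
      S.filter fun z => (p : ℤ) ∣ z.1 ∧ (p : ℤ) ∣ z.2).card : ℝ) := by
        exact_mod_cast Finset.card_le_card hcov
    _ ≤ ∑ p ∈ Finset.Ioc W H, ((S.filter fun z => (p : ℤ) ∣ z.1 ∧ (p : ℤ) ∣ z.2).card : ℝ) := by
        exact_mod_cast Finset.card_biUnion_le
    _ ≤ ∑ p ∈ Finset.Ioc W H, 4 * (H : ℝ) ^ 3 * ((p : ℝ) ^ 2)⁻¹ := Finset.sum_le_sum hone
    _ = 4 * (H : ℝ) ^ 3 * ∑ p ∈ Finset.Ioc W H, ((p : ℝ) ^ 2)⁻¹ := by rw [Finset.mul_sum]
    _ ≤ 4 * (H : ℝ) ^ 3 * (1 / W) := by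
        gcongr
        exact A7_sum W H (by omega)
    _ = _ := by ring

/-- Row A7c. Double counting: `k #S ≤ ∑_{p ∈ P} #{z ∈ S : p ∣ z.2} ≤ ∑_{p ∈ P} (2H+1) (2H^2/p)` (`z.2 ≠ 0`). -/
theorem many_P_count : ∃ C : ℝ, 0 < C ∧ ∀ (H k : ℕ) (P : Finset ℕ) (Y : ℝ), 1 ≤ H → 1 ≤ k → 0 < Y →
    (∀ p ∈ P, Y ≤ (p : ℝ)) → ∀ S : Finset (ℤ × ℤ),
    (∀ z ∈ S, z ∈ Box H ∧ k ≤ (P.filter (fun p : ℕ => (p : ℤ) ∣ z.2)).card) →
    (S.card : ℝ) ≤ C * (H : ℝ) ^ 3 * P.card / (k * Y) := by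
  classical
  refine ⟨6, by norm_num, fun H k P Y hH hk hY hP S hS => ?_⟩
  have hH' : (1 : ℝ) ≤ H := by exact_mod_cast hH
  have hk' : (0 : ℝ) < k := by exact_mod_cast (by omega : 0 < k)
  have hone : ∀ p ∈ P, ((S.filter fun z => (p : ℤ) ∣ z.2).card : ℝ) ≤ 6 * (H : ℝ) ^ 3 / Y := by
    intro p hp
    have hp' : (0 : ℝ) < p := hY.trans_le (hP p hp)
    have hp0 : 0 < p := by exact_mod_cast hp'
    have h1 : (S.filter fun z => (p : ℤ) ∣ z.2) ⊆
        (Finset.Icc (-(H : ℤ)) H) ×ˢ ((S.filter fun z => (p : ℤ) ∣ z.2).image Prod.snd) := by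
      intro z hz
      rw [Finset.mem_product, Finset.mem_Icc]
      exact ⟨abs_le.1 (hS z (Finset.mem_filter.1 hz).1).1.1, Finset.mem_image_of_mem _ hz⟩
    have h3 := A7_mult (H ^ 2) p hp0 ((S.filter fun z => (p : ℤ) ∣ z.2).image Prod.snd)
      (by
        intro x hx
        rw [Finset.mem_image] at hx
        obtain ⟨z, hz, rfl⟩ := hx
        rw [Finset.mem_filter] at hz
        refine ⟨?_, (hS z hz.1).1.2.2.1, hz.2⟩
        push_cast
        exact (hS z hz.1).1.2.1)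
    have hAc : ((Finset.Icc (-(H : ℤ)) H).card : ℝ) ≤ 3 * H := by
      have h1 : (Finset.Icc (-(H : ℤ)) H).card = 2 * H + 1 := by
        rw [Int.card_Icc]
        omega
      rw [h1]
      push_cast
      linarith
    calc ((S.filter fun z => (p : ℤ) ∣ z.2).card : ℝ)
        ≤ (((Finset.Icc (-(H : ℤ)) H) ×ˢ
          ((S.filter fun z => (p : ℤ) ∣ z.2).image Prod.snd)).card : ℝ) := by
          exact_mod_cast Finset.card_le_card h1
      _ = ((Finset.Icc (-(H : ℤ)) H).card : ℝ) *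
          (((S.filter fun z => (p : ℤ) ∣ z.2).image Prod.snd).card : ℝ) := by
          rw [Finset.card_product, Nat.cast_mul]
      _ ≤ (3 * H) * (2 * ((H ^ 2 : ℕ) : ℝ) / p) :=
          mul_le_mul hAc h3 (Nat.cast_nonneg _) (by positivity)
      _ ≤ (3 * H) * (2 * ((H ^ 2 : ℕ) : ℝ) / Y) := by
          have := hP p hp
          gcongr
      _ = _ := by
          push_cast
          ring
  have hdc : (k : ℝ) * S.card ≤ ∑ p ∈ P, ((S.filter fun z => (p : ℤ) ∣ z.2).card : ℝ) := by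
    have h1 : ∑ z ∈ S, ((P.filter fun p : ℕ => (p : ℤ) ∣ z.2).card : ℝ) =
        ∑ p ∈ P, ((S.filter fun z => (p : ℤ) ∣ z.2).card : ℝ) := by
      exact_mod_cast Finset.sum_card_bipartiteAbove_eq_sum_card_bipartiteBelow
        (s := S) (t := P) (fun z p => ((p : ℕ) : ℤ) ∣ z.2)
    rw [← h1]
    calc (k : ℝ) * S.card = ∑ z ∈ S, (k : ℝ) := by
          rw [Finset.sum_const, nsmul_eq_mul]; ring
      _ ≤ _ := Finset.sum_le_sum fun z hz => by exact_mod_cast (hS z hz).2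
  have h2 : (k : ℝ) * S.card ≤ P.card * (6 * (H : ℝ) ^ 3 / Y) := by
    refine hdc.trans ((Finset.sum_le_sum hone).trans (le_of_eq ?_))
    rw [Finset.sum_const, nsmul_eq_mul]
  rw [le_div_iff₀ (by positivity)]
  have h3 : (P.card : ℝ) * (6 * (H : ℝ) ^ 3 / Y) * Y = 6 * (H : ℝ) ^ 3 * P.card := by
    field_simp
  calc (S.card : ℝ) * (k * Y) = ((k : ℝ) * S.card) * Y := by ring
    _ ≤ (P.card * (6 * (H : ℝ) ^ 3 / Y)) * Y := by gcongr
    _ = _ := h3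

end N78
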