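import Mathlib

namespace N78

/-- Row B1. If `p^2 - 1 = (p-1)(p+1)` does not divide `2 lcm(1..y)`, some prime power `l^i ∥ p^2 - 1`, `i ≥ 1`,
does not divide it. `l` odd: `l^i` divides `p-1` or `p+1` (`gcd(p-1,p+1) ∣ 2`), and `l^i > y` (otherwise
`l^i ∣ lcm`). `l = 2`: one of `p-1`, `p+1` is `2` mod `4`, so `2^(i-1)` divides the other one; `2^i ∤ 2 lcm`
gives `2^(i-1) ∤ lcm`, so `2^(i-1) > y ≥ 1`, `i - 1 ≥ 1`. -/
theorem not_dvd_J (p y : ℕ) (hp : p.Prime) (hp2 : 2 < p) (hy : 1 ≤ y)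
    (h : ¬ p ^ 2 - 1 ∣ 2 * (Finset.Icc 1 y).lcm id) :
    ∃ l j : ℕ, l.Prime ∧ 1 ≤ j ∧ y < l ^ j ∧ (l ^ j ∣ p - 1 ∨ l ^ j ∣ p + 1) := by
  set L := (Finset.Icc 1 y).lcm id with hL
  have hmem : ∀ n : ℕ, 1 ≤ n → n ≤ y → n ∣ L := fun n h1 h2 =>
    Finset.dvd_lcm (f := id) (Finset.mem_Icc.2 ⟨h1, h2⟩)
  rw [Nat.dvd_iff_prime_pow_dvd_dvd] at h
  push Not at h
  obtain ⟨l, i, hl, hdvd, hndvd⟩ := h
  obtain ⟨k, hk⟩ := hp.odd_of_ne_two (by omega)
  have hm : p ^ 2 - 1 = (2 * k) * (2 * (k + 1)) := by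
    subst hk
    have : (2 * k + 1) ^ 2 = (2 * k) * (2 * (k + 1)) + 1 := by ring
    omega
  have hp1 : p - 1 = 2 * k := by omega
  have hp3 : p + 1 = 2 * (k + 1) := by omega
  rw [hm] at hdvd
  have hi : i ≠ 0 := by
    rintro rfl
    exact hndvd (by simp)
  by_cases h2 : l = 2
  · subst h2
    obtain ⟨j, rfl⟩ : ∃ j, i = j + 1 := ⟨i - 1, by omega⟩
    have hj : ¬ 2 ^ j ∣ L := fun h3 => hndvd (by rw [pow_succ']; exact mul_dvd_mul_left 2 h3)
    have hjy : y < 2 ^ j := by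
      by_contra h3
      exact hj (hmem _ Nat.one_le_two_pow (not_lt.1 h3))
    have hj1 : 1 ≤ j := by
      by_contra h3
      have : j = 0 := by omega
      subst this
      simp at hjy
      omega
    refine ⟨2, j, Nat.prime_two, hj1, hjy, ?_⟩
    rw [hp1, hp3]
    have h4 : 2 ^ j ∣ (2 * k) * (k + 1) := by
      have h5 : 2 * 2 ^ j ∣ 2 * ((2 * k) * (k + 1)) := by
        have : 2 * ((2 * k) * (k + 1)) = (2 * k) * (2 * (k + 1)) := by ring
        rw [this, ← pow_succ']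
        exact hdvd
      exact Nat.dvd_of_mul_dvd_mul_left (by norm_num) h5
    rcases Nat.even_or_odd k with hke | hko
    · left
      have h6 : Nat.Coprime (2 ^ j) (k + 1) :=
        Nat.Coprime.pow_left _ ((Nat.coprime_two_left).2 hke.add_one)
      exact h6.dvd_of_dvd_mul_right h4
    · right
      have h6 : Nat.Coprime (2 ^ j) k := Nat.Coprime.pow_left _ ((Nat.coprime_two_left).2 hko)
      have h7 : (2 * k) * (k + 1) = (2 * (k + 1)) * k := by ring
      rw [h7] at h4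
      exact h6.dvd_of_dvd_mul_right h4
  · have hly : y < l ^ i := by
      by_contra h3
      exact hndvd (Dvd.dvd.mul_left (hmem _ (Nat.one_le_pow _ _ hl.pos) (not_lt.1 h3)) 2)
    refine ⟨l, i, hl, by omega, hly, ?_⟩
    rw [hp1, hp3]
    by_cases h4 : l ∣ 2 * k
    · left
      have h5 : ¬ l ∣ 2 * (k + 1) := by
        intro h6
        have h7 : l ∣ 2 := by
          have := (Nat.dvd_add_right h4).1 (show l ∣ 2 * k + 2 by rw [mul_add] at h6; exact h6)
          exact this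
        exact h2 ((Nat.prime_dvd_prime_iff_eq hl Nat.prime_two).1 h7)
      exact (Nat.Coprime.pow_left i ((hl.coprime_iff_not_dvd).2 h5)).dvd_of_dvd_mul_right hdvd
    · right
      exact (Nat.Coprime.pow_left i ((hl.coprime_iff_not_dvd).2 h4)).dvd_of_dvd_mul_left hdvd

end N78
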