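import Mathlib

namespace N78

private theorem B2_tele (R : ℕ) (hR : 1 ≤ R) (N : ℕ) (hN : R ≤ N) :
    ∑ r ∈ Finset.Ico R N, (1 : ℝ) / (r : ℝ) ^ 2 ≤ 2 / R - 2 / N := by
  induction N, hN using Nat.le_induction with
  | base => simp
  | succ n hn ih =>
    rw [Finset.sum_Ico_succ_top hn]
    have hn1 : (1 : ℝ) ≤ n := by exact_mod_cast le_trans hR hn
    have key : (1 : ℝ) / (n : ℝ) ^ 2 ≤ 2 / n - 2 / ((n + 1 : ℕ) : ℝ) := by
      push_cast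
      rw [div_sub_div _ _ (by positivity) (by positivity), div_le_div_iff₀ (by positivity) (by positivity)]
      nlinarith [mul_nonneg (sub_nonneg.2 hn1) (sub_nonneg.2 hn1), pow_pos (lt_of_lt_of_le one_pos hn1) 2]
    linarith

/-- Row B2. `j ≥ 2`: with `r = l^(j/2)` (integer division) `r^2 ∣ n` and `r^3 ≥ l^j > y` (`3 (j/2) ≥ j` for
`j ≥ 2`), so `r > y^(1/3)`. `#S ≤ ∑_{r > y^(1/3)} X/r^2 ≤ X (2/y^(1/3))` (`∑_{r ≥ R} 1/r^2 ≤ 2/R`). -/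
theorem high_power_count : ∃ C : ℝ, 0 < C ∧ ∀ X y : ℕ, 1 ≤ y → ∀ S : Finset ℕ,
    (∀ n ∈ S, 1 ≤ n ∧ n ≤ X ∧ ∃ l j : ℕ, l.Prime ∧ 2 ≤ j ∧ y < l ^ j ∧ l ^ j ∣ n) →
    (S.card : ℝ) ≤ C * X / (y : ℝ) ^ (1 / 3 : ℝ) := by
  classical
  refine ⟨2, by norm_num, ?_⟩
  intro X y hy S hS
  have hex : ∃ R : ℕ, y < R ^ 3 := ⟨y + 1, by
    calc y < y + 1 := Nat.lt_succ_self y
      _ ≤ (y + 1) ^ 3 := Nat.le_self_pow (by norm_num) _⟩
  set R0 := Nat.find hex with hR0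
  have hR0s : y < R0 ^ 3 := Nat.find_spec hex
  have hR1 : 1 ≤ R0 := by
    rcases Nat.eq_zero_or_pos R0 with h | h
    · rw [h] at hR0s; simp at hR0s
    · exact h
  have hyR : (y : ℝ) ^ (1 / 3 : ℝ) ≤ R0 := by
    have h1 : (y : ℝ) ≤ (R0 : ℝ) ^ 3 := by exact_mod_cast hR0s.le
    have h2 : (y : ℝ) ^ (1 / 3 : ℝ) ≤ ((R0 : ℝ) ^ 3) ^ (1 / 3 : ℝ) :=
      Real.rpow_le_rpow (by positivity) h1 (by norm_num)
    have h3 : ((R0 : ℝ) ^ 3) ^ (1 / 3 : ℝ) = R0 := by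
      have := Real.pow_rpow_inv_natCast (x := (R0 : ℝ)) (n := 3) (by positivity) (by norm_num)
      rw [show (1 / 3 : ℝ) = ((3 : ℕ) : ℝ)⁻¹ by norm_num]
      exact this
    linarith
  have hypos : (0 : ℝ) < (y : ℝ) ^ (1 / 3 : ℝ) := by
    apply Real.rpow_pos_of_pos; exact_mod_cast hy
  have hsub : S ⊆ (Finset.Ico R0 (max R0 (X + 1))).biUnion
      (fun r => (Finset.Ioc 0 X).filter (fun n => r ^ 2 ∣ n)) := by
    intro n hn
    obtain ⟨h1, h2, l, j, hl, hj, hyl, hd⟩ := hS n hn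
    have hlp : 1 ≤ l := hl.one_lt.le
    rw [Finset.mem_biUnion]
    have hr2 : (l ^ (j / 2)) ^ 2 ∣ n := by
      refine dvd_trans ?_ hd
      rw [← pow_mul]
      exact pow_dvd_pow l (by omega)
    have hr3 : y < (l ^ (j / 2)) ^ 3 := by
      refine lt_of_lt_of_le hyl ?_
      rw [← pow_mul]
      exact Nat.pow_le_pow_right hlp (by omega)
    have hrX : l ^ (j / 2) ≤ X := by
      refine le_trans ?_ h2
      refine le_trans ?_ (Nat.le_of_dvd h1 hr2)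
      exact Nat.le_self_pow (by norm_num) _
    refine ⟨l ^ (j / 2), ?_, ?_⟩
    · rw [Finset.mem_Ico]
      refine ⟨Nat.find_min' hex hr3, ?_⟩
      exact lt_of_lt_of_le (Nat.lt_succ_of_le hrX) (le_max_right _ _)
    · rw [Finset.mem_filter, Finset.mem_Ioc]
      exact ⟨⟨h1, h2⟩, hr2⟩
  have hc1 : (S.card : ℝ) ≤ ∑ r ∈ Finset.Ico R0 (max R0 (X + 1)), (X : ℝ) * (1 / (r : ℝ) ^ 2) := by
    have h1 : S.card ≤ ∑ r ∈ Finset.Ico R0 (max R0 (X + 1)),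
        ((Finset.Ioc 0 X).filter (fun n => r ^ 2 ∣ n)).card :=
      le_trans (Finset.card_le_card hsub) Finset.card_biUnion_le
    have h2 : (S.card : ℝ) ≤ ∑ r ∈ Finset.Ico R0 (max R0 (X + 1)),
        (((Finset.Ioc 0 X).filter (fun n => r ^ 2 ∣ n)).card : ℝ) := by
      exact_mod_cast h1
    refine le_trans h2 (Finset.sum_le_sum ?_)
    intro r hr
    rw [Nat.Ioc_filter_dvd_card_eq_div]
    refine le_trans Nat.cast_div_le ?_
    push_cast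
    rw [mul_one_div]
  rw [← Finset.mul_sum] at hc1
  have ht := B2_tele R0 hR1 (max R0 (X + 1)) (le_max_left _ _)
  have hR0pos : (0 : ℝ) < R0 := by exact_mod_cast hR1
  have h5 : (2 : ℝ) / R0 ≤ 2 / (y : ℝ) ^ (1 / 3 : ℝ) :=
    div_le_div_of_nonneg_left (by norm_num) hypos hyR
  have h6 : (0 : ℝ) ≤ 2 / ((max R0 (X + 1) : ℕ) : ℝ) := by positivity
  have h7 : (X : ℝ) * ∑ r ∈ Finset.Ico R0 (max R0 (X + 1)), (1 : ℝ) / (r : ℝ) ^ 2 ≤
      X * (2 / (y : ℝ) ^ (1 / 3 : ℝ)) := by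
    apply mul_le_mul_of_nonneg_left _ (by positivity)
    linarith
  calc (S.card : ℝ) ≤ X * (2 / (y : ℝ) ^ (1 / 3 : ℝ)) := le_trans hc1 h7
    _ = 2 * X / (y : ℝ) ^ (1 / 3 : ℝ) := by ring

end N78
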