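import Pool.Agent.LibRD69.SU
import Pool.Agent.LibTwHL.M1
import Pool.Agent.LibTwHL.S2a

namespace N78

open TwHL

/-- the excluded classes -/
private noncomputable def B3_Om (m : ℕ) (s : ℤ) (p : ℕ) : Finset ℕ :=
  if p ∣ m then {0} else {0, ((-(s : ZMod p)) * (m : ZMod p)⁻¹).val}

private theorem B3_card_le (m : ℕ) (s : ℤ) (p : ℕ) : (B3_Om m s p).card ≤ 2 := by
  unfold B3_Om
  split_ifs
  · simp
  · exact Finset.card_le_two

private theorem B3_one_le (m : ℕ) (s : ℤ) (p : ℕ) : 1 ≤ (B3_Om m s p).card := by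
  unfold B3_Om
  split_ifs
  · simp
  · rw [Nat.succ_le_iff, Finset.card_pos]
    exact ⟨0, by simp⟩

private theorem B3_mul {m p : ℕ} (hp : p.Prime) (s : ℤ) (hpm : ¬ p ∣ m) :
    (m : ZMod p) * ((-(s : ZMod p)) * (m : ZMod p)⁻¹) = -(s : ZMod p) := by
  have := Fact.mk hp
  have hm : (m : ZMod p) ≠ 0 := by
    rw [Ne, ZMod.natCast_eq_zero_iff]
    exact hpm
  rw [mul_comm, mul_assoc, inv_mul_cancel₀ hm, mul_one]

private theorem B3_two {m p : ℕ} (hp : p.Prime) {s : ℤ} (hs : s = 1 ∨ s = -1) (hpm : ¬ p ∣ m) :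
    (B3_Om m s p).card = 2 := by
  have := Fact.mk hp
  unfold B3_Om
  rw [if_neg hpm, Finset.card_pair]
  intro h
  have h1 : (-(s : ZMod p)) * (m : ZMod p)⁻¹ = 0 := by
    rw [← ZMod.val_eq_zero]
    exact h.symm
  have h2 := B3_mul hp s hpm
  rw [h1, mul_zero] at h2
  rcases hs with rfl | rfl
  · push_cast at h2
    exact one_ne_zero (neg_eq_zero.1 h2.symm)
  · push_cast at h2
    rw [neg_neg] at h2
    exact zero_ne_one h2

private theorem B3_lt {m p : ℕ} (hp : p.Prime) (s : ℤ) : ∀ h ∈ B3_Om m s p, h < p := by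
  have := Fact.mk hp
  intro h hh
  unfold B3_Om at hh
  split_ifs at hh
  · rw [Finset.mem_singleton] at hh
    rw [hh]
    exact hp.pos
  · rw [Finset.mem_insert, Finset.mem_singleton] at hh
    rcases hh with rfl | rfl
    · exact hp.pos
    · exact ZMod.val_lt _

/-- a member of an excluded class -/
private theorem B3_class {m p l : ℕ} (hp : p.Prime) (s : ℤ) {h : ℕ} (hh : h ∈ B3_Om m s p)
    (hl : (l : ℤ) ≡ (h : ℤ) [ZMOD p]) : p ∣ l ∨ (p : ℤ) ∣ m * l + s := by
  have := Fact.mk hp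
  have hl' : (l : ZMod p) = (h : ZMod p) := by
    have := (ZMod.intCast_eq_intCast_iff (l : ℤ) (h : ℤ) p).2 hl
    exact_mod_cast this
  unfold B3_Om at hh
  split_ifs at hh with hpm
  · left
    rw [Finset.mem_singleton] at hh
    rw [hh, Nat.cast_zero, ZMod.natCast_eq_zero_iff] at hl'
    exact hl'
  · rw [Finset.mem_insert, Finset.mem_singleton] at hh
    rcases hh with rfl | rfl
    · left
      rw [Nat.cast_zero, ZMod.natCast_eq_zero_iff] at hl'
      exact hl'
    · right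
      rw [ZMod.natCast_zmod_val] at hl'
      rw [← ZMod.intCast_zmod_eq_zero_iff_dvd]
      push_cast
      rw [hl', B3_mul hp s hpm]
      ring

private theorem B3_log_sq {X : ℕ} (hX : 2 ≤ X) :
    Real.sqrt X ≤ 16 * (X / Real.log X ^ 2) := by
  have hX2 : (2 : ℝ) ≤ X := by exact_mod_cast hX
  have hX0 : (0 : ℝ) < X := by linarith
  have hlog : 0 < Real.log X := Real.log_pos (by linarith)
  have h1 : Real.log X ≤ (X : ℝ) ^ (1 / 4 : ℝ) / (1 / 4) :=
    Real.log_le_rpow_div hX0.le (by norm_num)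
  have h2 : Real.log X ^ 2 ≤ 16 * Real.sqrt X := by
    have h3 : 0 ≤ (X : ℝ) ^ (1 / 4 : ℝ) := by positivity
    have h4 : ((X : ℝ) ^ (1 / 4 : ℝ)) ^ 2 = Real.sqrt X := by
      rw [Real.sqrt_eq_rpow, ← Real.rpow_natCast, ← Real.rpow_mul hX0.le]
      norm_num
    calc Real.log X ^ 2 ≤ ((X : ℝ) ^ (1 / 4 : ℝ) / (1 / 4)) ^ 2 := by gcongr
      _ = 16 * ((X : ℝ) ^ (1 / 4 : ℝ)) ^ 2 := by ring
      _ = 16 * Real.sqrt X := by rw [h4]
  rw [← mul_div_assoc, le_div_iff₀ (by positivity)]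
  calc Real.sqrt X * Real.log X ^ 2 ≤ Real.sqrt X * (16 * Real.sqrt X) := by gcongr
    _ = 16 * (Real.sqrt X * Real.sqrt X) := by ring
    _ = 16 * X := by rw [Real.mul_self_sqrt hX0.le]

/-- the product over the sieving primes -/
private theorem B3_prod {C₁ C₂ : ℝ} (h₁ : ∀ x : ℕ, 1 ≤ x → |∑ p ∈ PP x, 1 / (p : ℝ) - LL x| ≤ C₁)
    (h₂ : ∀ g : ℕ, 1 ≤ g → ∑ p ∈ g.primeFactors, 1 / (p : ℝ) ≤ Real.log (1 + LL g) + C₂)
    (m z : ℕ) (s : ℤ) (hs : s = 1 ∨ s = -1) (hm : 1 ≤ m) (hz : 2 ≤ z) :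
    ∏ p ∈ (PP z).filter (fun p => 4 ≤ p), (1 - ((B3_Om m s p).card : ℝ) / p) ≤
      Real.exp (2 * C₁ + 2 + C₂) * (1 + LL m) / (Real.log z) ^ 2 := by
  have hz1 : (1 : ℝ) < z := by
    have : (2 : ℝ) ≤ z := by exact_mod_cast hz
    linarith
  have hlz : 0 < Real.log z := Real.log_pos hz1
  have hLLm : 0 ≤ LL m := by
    unfold LL
    apply Real.log_nonneg
    have : 0 ≤ Real.log (m : ℝ) := Real.log_nonneg (by exact_mod_cast hm)
    linarith
  set P := (PP z).filter (fun p => 4 ≤ p) with hP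
  have hpr : ∀ p ∈ PP z, p.Prime := fun p hp => (Finset.mem_filter.1 hp).2
  have hPp : ∀ p ∈ P, p.Prime ∧ 4 ≤ p := fun p hp =>
    ⟨hpr p (Finset.mem_filter.1 hp).1, (Finset.mem_filter.1 hp).2⟩
  have hprod : ∏ p ∈ P, (1 - ((B3_Om m s p).card : ℝ) / p) ≤
      Real.exp (-∑ p ∈ P, ((B3_Om m s p).card : ℝ) / p) := by
    rw [← Finset.sum_neg_distrib, Real.exp_sum]
    apply Finset.prod_le_prod
    · intro p hp
      have h1 : (4 : ℝ) ≤ p := by exact_mod_cast (hPp p hp).2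
      have h2 : ((B3_Om m s p).card : ℝ) ≤ 2 := by exact_mod_cast B3_card_le m s p
      have h3 : ((B3_Om m s p).card : ℝ) / p ≤ 1 := by
        rw [div_le_one (by linarith)]
        linarith
      linarith
    · intro p _
      have := Real.add_one_le_exp (-(((B3_Om m s p).card : ℝ) / p))
      linarith
  -- lower bound for the sum
  have hsum1 : 2 * ∑ p ∈ P, 1 / (p : ℝ) - ∑ p ∈ m.primeFactors, 1 / (p : ℝ) ≤
      ∑ p ∈ P, ((B3_Om m s p).card : ℝ) / p := by
    have h1 : ∑ p ∈ P, (if p ∣ m then 1 / (p : ℝ) else 0) ≤ ∑ p ∈ m.primeFactors, 1 / (p : ℝ) := by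
      rw [← Finset.sum_filter]
      apply Finset.sum_le_sum_of_subset_of_nonneg
      · intro p hp
        rw [Finset.mem_filter] at hp
        rw [Nat.mem_primeFactors]
        exact ⟨(hPp p hp.1).1, hp.2, by omega⟩
      · intro p _ _
        positivity
    have h2 : ∀ p ∈ P, 2 * (1 / (p : ℝ)) - (if p ∣ m then 1 / (p : ℝ) else 0) ≤
        ((B3_Om m s p).card : ℝ) / p := by
      intro p hp
      have hp0 : (0 : ℝ) < p := by exact_mod_cast (hPp p hp).1.pos
      split_ifs with hpm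
      · have h3 : (1 : ℝ) ≤ (B3_Om m s p).card := by exact_mod_cast B3_one_le m s p
        have h4 : 2 * (1 / (p : ℝ)) - 1 / p = 1 / p := by ring
        rw [h4]
        gcongr
      · rw [B3_two (hPp p hp).1 hs hpm]
        push_cast
        apply le_of_eq
        ring
    have h3 := Finset.sum_le_sum h2
    rw [Finset.sum_sub_distrib, ← Finset.mul_sum] at h3
    linarith
  have hsum2 : LL z - C₁ - 1 ≤ ∑ p ∈ P, 1 / (p : ℝ) := by
    have h1 := (abs_le.1 (h₁ z (by omega))).1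
    have h2 : ∑ p ∈ PP z, 1 / (p : ℝ) = ∑ p ∈ P, 1 / (p : ℝ) +
        ∑ p ∈ (PP z).filter (fun p => ¬ 4 ≤ p), 1 / (p : ℝ) :=
      (Finset.sum_filter_add_sum_filter_not _ _ _).symm
    have h3 : ∑ p ∈ (PP z).filter (fun p => ¬ 4 ≤ p), 1 / (p : ℝ) ≤
        ∑ p ∈ ({2, 3} : Finset ℕ), 1 / (p : ℝ) := by
      apply Finset.sum_le_sum_of_subset_of_nonneg
      · intro p hp
        rw [Finset.mem_filter] at hp
        have h4 := (hpr p hp.1).two_le
        have h5 := hp.2
        have h6 : p = 2 ∨ p = 3 := by omega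
        rw [Finset.mem_insert, Finset.mem_singleton]
        exact h6
      · intro p _ _
        positivity
    have h4 : ∑ p ∈ ({2, 3} : Finset ℕ), 1 / (p : ℝ) ≤ 1 := by
      rw [Finset.sum_pair (by norm_num)]
      norm_num
    linarith
  have hsum3 := h₂ m hm
  have hLLz : Real.log (Real.log z) ≤ LL z := by
    unfold LL
    exact Real.log_le_log hlz (by linarith)
  calc ∏ p ∈ P, (1 - ((B3_Om m s p).card : ℝ) / p)
      ≤ Real.exp (-∑ p ∈ P, ((B3_Om m s p).card : ℝ) / p) := hprod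
    _ ≤ Real.exp ((2 * C₁ + 2 + C₂) + Real.log (1 + LL m) + -(2 * Real.log (Real.log z))) := by
        apply Real.exp_le_exp.2
        linarith
    _ = Real.exp (2 * C₁ + 2 + C₂) * (1 + LL m) / (Real.log z) ^ 2 := by
        have e1 : Real.exp (2 * Real.log (Real.log z)) = Real.log z ^ 2 := by
          rw [two_mul, Real.exp_add, Real.exp_log hlz, pow_two]
        have e2 : Real.exp (Real.log (1 + LL m)) = 1 + LL m := Real.exp_log (by linarith)
        rw [Real.exp_add ((2 * C₁ + 2 + C₂) + Real.log (1 + LL m)), Real.exp_neg, e1,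
          Real.exp_add (2 * C₁ + 2 + C₂) (Real.log (1 + LL m)), e2, div_eq_mul_inv]

/-- Row B3. `RD69.sieve_ub` with `r = 2`, constant `K`, `z = ⌊X^(1/(2K))⌋`, `N = X + 1`, `A = 0`,
`P` = primes in `[4, z]`, `Ω p = {0, h}` with `m h + s = 0` mod `p` if `p ∤ m`, `{0}` if `p ∣ m`. Members `l > z + 1`
of `S`: `l` is prime, `m l + s ≥ l - 1 > z` is prime, so no residue condition fails. Count
`≤ z + 1 + 18 (X+1) ∏ (1 - #Ω/p) ≤ z + 1 + 36 X exp(- 2 ∑_{3<p≤z} 1/p + ∑_{p ∣ m} 1/p)`; `mertens` (lower bound,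
`LL z ≥ log log X - C`), `sum_dvd` for `m`: `exp(∑_{p | m} 1/p) ≤ e^C (1 + LL m)`. -/
theorem twin_count : ∃ C : ℝ, 0 < C ∧ ∃ X₀ : ℕ, ∀ (m X : ℕ) (s : ℤ), s = 1 ∨ s = -1 → 1 ≤ m →
    X₀ ≤ X → ∀ S : Finset ℕ,
    (∀ l ∈ S, l ≤ X ∧ l.Prime ∧ ∃ p : ℕ, p.Prime ∧ (p : ℤ) = m * l + s) →
    (S.card : ℝ) ≤ C * X * (1 + LL m) / Real.log X ^ 2 := by
  classical
  obtain ⟨K, hK, hsv⟩ := RD69.sieve_ub
  obtain ⟨C₁, hC₁, h₁⟩ := mertens
  obtain ⟨C₂, hC₂, h₂⟩ := sum_dvd
  refine ⟨48 + 36 * (4 * K) ^ 2 * Real.exp (2 * C₁ + 2 + C₂), by positivity, 2 ^ (4 * K), ?_⟩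
  intro m X s hs hm hX S hS
  have hKpos : (0 : ℝ) < K := by exact_mod_cast hK
  have hX16 : 2 ≤ X := by
    calc 2 = 2 ^ 1 := by norm_num
      _ ≤ 2 ^ (4 * K) := Nat.pow_le_pow_right (by norm_num) (by omega)
      _ ≤ X := hX
  have hX2 : (2 : ℝ) ≤ X := by exact_mod_cast hX16
  have hX0 : (0 : ℝ) < X := by linarith
  have hlX : 0 < Real.log X := Real.log_pos (by linarith)
  have hLLm : 0 ≤ LL m := by
    unfold LL
    apply Real.log_nonneg
    have : 0 ≤ Real.log (m : ℝ) := Real.log_nonneg (by exact_mod_cast hm)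
    linarith
  -- the level
  obtain ⟨z, hz1, hz2⟩ : ∃ z : ℕ, z ^ (K * 2) ≤ X ∧ X < (z + 1) ^ (K * 2) := by
    have hex : ∃ n : ℕ, X < (n + 1) ^ (K * 2) := by
      refine ⟨X, ?_⟩
      calc X < X + 1 := Nat.lt_succ_self X
        _ = (X + 1) ^ 1 := (pow_one _).symm
        _ ≤ (X + 1) ^ (K * 2) := Nat.pow_le_pow_right (by omega) (by omega)
    refine ⟨Nat.find hex, ?_, Nat.find_spec hex⟩
    rcases Nat.eq_zero_or_pos (Nat.find hex) with h0 | h0
    · rw [h0, zero_pow (by omega)]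
      exact Nat.zero_le _
    · have h1 := Nat.find_min hex (m := Nat.find hex - 1) (by omega)
      rw [not_lt, Nat.sub_add_cancel h0] at h1
      exact h1
  have hz : 3 ≤ z := by
    by_contra hcon
    have h1 : z + 1 ≤ 3 := by omega
    have h2 : (z + 1) ^ (K * 2) ≤ 4 ^ (K * 2) := Nat.pow_le_pow_left (by omega) _
    have h3 : (4 : ℕ) ^ (K * 2) = 2 ^ (4 * K) := by
      rw [show (4 : ℕ) = 2 ^ 2 by norm_num, ← pow_mul]
      congr 1
      ring
    omega
  have hzr : (3 : ℝ) ≤ z := by exact_mod_cast hz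
  have hlz : Real.log X / (4 * K) ≤ Real.log z := by
    have h1 : (X : ℝ) ≤ ((z : ℝ) + 1) ^ (K * 2) := by exact_mod_cast hz2.le
    have h2 : (X : ℝ) ≤ ((z : ℝ) ^ 2) ^ (K * 2) := by
      refine h1.trans ?_
      gcongr
      nlinarith
    have h3 := Real.log_le_log hX0 h2
    rw [Real.log_pow, Real.log_pow] at h3
    rw [div_le_iff₀ (by positivity)]
    push_cast at h3
    linarith
  have hlz0 : 0 < Real.log X / (4 * K) := by positivity
  have hzsqrt : (z : ℝ) ≤ Real.sqrt X := by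
    apply Real.le_sqrt_of_sq_le
    calc (z : ℝ) ^ 2 ≤ (z : ℝ) ^ (K * 2) := by
          apply pow_le_pow_right₀ (by linarith)
          omega
      _ ≤ X := by exact_mod_cast hz1
  have hsq1 : 1 ≤ Real.sqrt X := by
    rw [Real.one_le_sqrt]
    linarith
  -- the sieved set
  set T : Finset ℕ := S.filter (fun l => z + 1 < l) with hT
  have hTS : ∀ l ∈ T, l ∈ S ∧ z + 1 < l := fun l hl => Finset.mem_filter.1 hl
  have hsieve := hsv 2 z (X + 1) ((PP z).filter (fun p => 4 ≤ p)) (B3_Om m s) (by norm_num)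
    (by omega) (by
      intro p hp
      rw [Finset.mem_filter] at hp
      have hpp : p.Prime := (Finset.mem_filter.1 hp.1).2
      have hpz : p ≤ z := (Finset.mem_Icc.1 (Finset.mem_filter.1 hp.1).1).2
      exact ⟨hpp, by omega, hpz, B3_card_le m s p, B3_lt hpp s⟩)
    (by omega) 0 (T.image (fun l : ℕ => (l : ℤ))) (by
      intro n hn
      rw [Finset.mem_image] at hn
      obtain ⟨l, hl, rfl⟩ := hn
      have h1 := (hS l (hTS l hl).1).1
      rw [Finset.mem_Ico]
      push_cast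
      constructor
      · positivity
      · have : (l : ℤ) ≤ X := by exact_mod_cast h1
        linarith) (by
      intro p hp n hn h hh hcon
      rw [Finset.mem_image] at hn
      obtain ⟨l, hl, rfl⟩ := hn
      rw [Finset.mem_filter] at hp
      have hpp : p.Prime := (Finset.mem_filter.1 hp.1).2
      have hpz : p ≤ z := (Finset.mem_Icc.1 (Finset.mem_filter.1 hp.1).1).2
      obtain ⟨h1, h2, p', hp', heq⟩ := hS l (hTS l hl).1
      have h3 := (hTS l hl).2
      rcases B3_class hpp s hh hcon with h4 | h4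
      · rw [Nat.prime_dvd_prime_iff_eq hpp h2] at h4
        omega
      · rw [← heq] at h4
        have h5 : p ∣ p' := by exact_mod_cast h4
        rw [Nat.prime_dvd_prime_iff_eq hpp hp'] at h5
        have h6 : (l : ℤ) ≤ m * l := by
          have h7 : (1 : ℤ) ≤ m := by exact_mod_cast hm
          have h8 : (0 : ℤ) ≤ l := by positivity
          nlinarith
        have h7 : (l : ℤ) - 1 ≤ p' := by
          rw [heq]
          rcases hs with rfl | rfl <;> linarith
        omega)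
  rw [Finset.card_image_of_injective _ Nat.cast_injective] at hsieve
  have hprod := B3_prod h₁ h₂ m z s hs hm (by omega)
  -- the small ones
  have hsmall : ((S.filter (fun l => ¬ z + 1 < l)).card : ℝ) ≤ z + 1 := by
    have h1 : S.filter (fun l => ¬ z + 1 < l) ⊆ Finset.Icc 1 (z + 1) := by
      intro l hl
      rw [Finset.mem_filter] at hl
      rw [Finset.mem_Icc]
      exact ⟨(hS l hl.1).2.1.one_le, by omega⟩
    have h2 := Finset.card_le_card h1
    rw [Nat.card_Icc, Nat.add_sub_cancel] at h2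
    exact_mod_cast h2
  have hsplit : (S.card : ℝ) = (T.card : ℝ) + ((S.filter (fun l => ¬ z + 1 < l)).card : ℝ) := by
    rw [hT]
    have := Finset.card_filter_add_card_filter_not (s := S) (fun l => z + 1 < l)
    exact_mod_cast this.symm
  set E := Real.exp (2 * C₁ + 2 + C₂) with hE
  have hE0 : 0 < E := Real.exp_pos _
  have hprod2 : ∏ p ∈ (PP z).filter (fun p => 4 ≤ p), (1 - ((B3_Om m s p).card : ℝ) / p) ≤
      (4 * K) ^ 2 * E * (1 + LL m) / Real.log X ^ 2 := by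
    refine hprod.trans ?_
    have h1 : (Real.log X / (4 * K)) ^ 2 ≤ Real.log z ^ 2 := by gcongr
    calc E * (1 + LL m) / Real.log z ^ 2 ≤ E * (1 + LL m) / (Real.log X / (4 * K)) ^ 2 := by
          apply div_le_div_of_nonneg_left (by positivity) (by positivity) h1
      _ = (4 * K) ^ 2 * E * (1 + LL m) / Real.log X ^ 2 := by
          field_simp
  have hT2 : (T.card : ℝ) ≤ 36 * X * ((4 * K) ^ 2 * E * (1 + LL m) / Real.log X ^ 2) := by
    refine hsieve.trans ?_
    push_cast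
    have h1 : (0 : ℝ) ≤ (4 * K) ^ 2 * E * (1 + LL m) / Real.log X ^ 2 := by positivity
    calc 18 * ((X : ℝ) + 1) *
          ∏ p ∈ (PP z).filter (fun p => 4 ≤ p), (1 - ((B3_Om m s p).card : ℝ) / p)
        ≤ 18 * ((X : ℝ) + 1) * ((4 * K) ^ 2 * E * (1 + LL m) / Real.log X ^ 2) := by gcongr
      _ ≤ 36 * X * ((4 * K) ^ 2 * E * (1 + LL m) / Real.log X ^ 2) := by
          apply mul_le_mul_of_nonneg_right _ h1
          linarith
  have hsq := B3_log_sq hX16
  have hA : (0 : ℝ) ≤ X / Real.log X ^ 2 := by positivity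
  have hsmall2 : (z : ℝ) + 1 ≤ 48 * (X / Real.log X ^ 2) * (1 + LL m) := by
    have h1 : (z : ℝ) + 1 ≤ 3 * Real.sqrt X := by linarith
    have h2 : 3 * Real.sqrt X ≤ 48 * (X / Real.log X ^ 2) := by linarith
    have h3 : 48 * (X / Real.log X ^ 2) ≤ 48 * (X / Real.log X ^ 2) * (1 + LL m) := by
      have : (0 : ℝ) ≤ 48 * (X / Real.log X ^ 2) := by positivity
      nlinarith
    linarith
  calc (S.card : ℝ) ≤ 36 * X * ((4 * K) ^ 2 * E * (1 + LL m) / Real.log X ^ 2) +
        48 * (X / Real.log X ^ 2) * (1 + LL m) := by linarith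
    _ = (48 + 36 * (4 * K) ^ 2 * E) * X * (1 + LL m) / Real.log X ^ 2 := by ring

end N78
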