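import Pool.Agent.LibN78.B3

namespace N78

open TwHL

private theorem B4_LL_mono {m X : ℕ} (hm : 1 ≤ m) (h : m ≤ X) : LL m ≤ LL X := by
  unfold LL
  have h1 : (1 : ℝ) ≤ m := by exact_mod_cast hm
  have h2 : (m : ℝ) ≤ X := by exact_mod_cast h
  have h3 := Real.log_nonneg h1
  have h4 := Real.log_le_log (by linarith) h2
  exact Real.log_le_log (by linarith) (by linarith)

private theorem B4_LL_nonneg {m : ℕ} (hm : 1 ≤ m) : 0 ≤ LL m := by
  unfold LL
  have h1 : (1 : ℝ) ≤ m := by exact_mod_cast hm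
  have h3 := Real.log_nonneg h1
  exact Real.log_nonneg (by linarith)

private theorem B4_harm (M : ℕ) : ∑ m ∈ Finset.Icc 1 M, ((m : ℝ))⁻¹ ≤ 1 + Real.log M := by
  have h1 := harmonic_le_one_add_log M
  rw [harmonic_eq_sum_Icc] at h1
  push_cast at h1
  exact h1

/-- Row B4. `p - 1 = m l` or `p + 1 = m l`, `1 ≤ m ≤ (X+1)/l ≤ 2X/y ≤ 2 y`, `y < l ≤ (X+1)/m =: X_m`. For each `m`
and sign `twin_count` with `X_m ≥ l > y`: at most `C ((X+1)/m) (1 + LL m)/(log y)^2`. Sum over `m ≤ 2X/y`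
(`∑ 1/m ≤ 1 + log (2X/y)`, `LL m ≤ LL (2y)`; the factor `LL` must be bounded by `1 + LL (2 * (X/y) + 2)`,
we use the weaker `LL X`). -/
theorem big_prime_count : ∃ C : ℝ, 0 < C ∧ ∃ y₀ : ℕ, ∀ y X : ℕ, y₀ ≤ y → y ≤ X → X ≤ y ^ 2 →
    ∀ S : Finset ℕ,
    (∀ p ∈ S, p.Prime ∧ 2 < p ∧ p ≤ X ∧ ∃ l : ℕ, l.Prime ∧ y < l ∧ (l ∣ p - 1 ∨ l ∣ p + 1)) →
    (S.card : ℝ) ≤ C * X * (1 + Real.log (X / y)) * (1 + LL X) / Real.log y ^ 2 := by
  classical
  obtain ⟨C₁, hC₁, X₀, hX₀⟩ := twin_count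
  refine ⟨4 * C₁, by positivity, max X₀ 2, fun y X hy hyX _ S hS => ?_⟩
  have hyX₀ : X₀ ≤ y := (le_max_left _ _).trans hy
  have hy2 : 2 ≤ y := (le_max_right _ _).trans hy
  have hy' : (2 : ℝ) ≤ y := by exact_mod_cast hy2
  have hX1 : (1 : ℝ) ≤ X := by exact_mod_cast (by omega : 1 ≤ X)
  have hlog : 0 < Real.log y := Real.log_pos (by linarith)
  set M : ℕ := X / y with hM
  set σ : Finset ℤ := {1, -1} with hσ
  have hcov : S ⊆ ((Finset.Icc 1 M) ×ˢ σ).biUnion fun q =>
      S.filter fun p : ℕ => ∃ l : ℕ, l.Prime ∧ y < l ∧ (p : ℤ) = q.1 * l + q.2 := by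
    intro p hp
    obtain ⟨hpp, hp2, hpX, l, hl, hyl, hd⟩ := hS p hp
    have key : ∀ (m : ℕ), m * l ≤ X + 1 → 0 < m → m ∈ Finset.Icc 1 M := by
      intro m hm hm0
      rw [Finset.mem_Icc, hM]
      refine ⟨hm0, (Nat.le_div_iff_mul_le (by omega)).2 ?_⟩
      have h1 : m * (y + 1) ≤ m * l := Nat.mul_le_mul_left _ hyl
      have h2 : m * (y + 1) = m * y + m := by ring
      omega
    rw [Finset.mem_biUnion]
    rcases hd with ⟨m, hm⟩ | ⟨m, hm⟩
    · have hm0 : 0 < m := by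
        rcases Nat.eq_zero_or_pos m with rfl | h
        · rw [mul_zero] at hm
          omega
        · exact h
      refine ⟨(m, 1), ?_, Finset.mem_filter.2 ⟨hp, l, hl, hyl, ?_⟩⟩
      · rw [Finset.mem_product]
        refine ⟨key m ?_ hm0, by rw [hσ]; simp⟩
        rw [mul_comm, ← hm]
        omega
      · have h1 : p = m * l + 1 := by
          rw [mul_comm m l, ← hm]
          omega
        change (p : ℤ) = (m : ℤ) * l + 1
        rw [h1]
        push_cast
        ring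
    · have hm0 : 0 < m := by
        rcases Nat.eq_zero_or_pos m with rfl | h
        · rw [mul_zero] at hm
          omega
        · exact h
      refine ⟨(m, -1), ?_, Finset.mem_filter.2 ⟨hp, l, hl, hyl, ?_⟩⟩
      · rw [Finset.mem_product]
        refine ⟨key m ?_ hm0, by rw [hσ]; simp⟩
        rw [mul_comm, ← hm]
        omega
      · have h1 : (p : ℤ) + 1 = l * m := by exact_mod_cast hm
        change (p : ℤ) = (m : ℤ) * l + -1
        linarith
  have hone : ∀ q ∈ (Finset.Icc 1 M) ×ˢ σ, ((S.filter fun p : ℕ => ∃ l : ℕ, l.Prime ∧ y < l ∧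
      (p : ℤ) = q.1 * l + q.2).card : ℝ) ≤
      2 * C₁ * X * (1 + LL X) / Real.log y ^ 2 * ((q.1 : ℝ))⁻¹ := by
    rintro ⟨m, s⟩ hq
    rw [Finset.mem_product, Finset.mem_Icc] at hq
    obtain ⟨⟨hm1, hmM⟩, hs⟩ := hq
    dsimp only at hm1 hmM hs ⊢
    have hs' : s = 1 ∨ s = -1 := by
      rw [hσ] at hs
      simpa using hs
    have hm' : (0 : ℝ) < m := by exact_mod_cast hm1
    have hmX : m ≤ X := hmM.trans (Nat.div_le_self _ _)
    set T := S.filter fun p : ℕ => ∃ l : ℕ, l.Prime ∧ y < l ∧ (p : ℤ) = m * l + s with hT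
    have hL0 : 0 ≤ LL X := B4_LL_nonneg (by omega)
    rcases T.eq_empty_or_nonempty with hT0 | ⟨p₀, hp₀⟩
    · rw [hT0, Finset.card_empty, Nat.cast_zero]
      positivity
    · -- the set of the primes `l`
      set Lm : Finset ℕ := (Finset.range ((X + 1) / m + 1)).filter fun l =>
        l.Prime ∧ ∃ p : ℕ, p.Prime ∧ (p : ℤ) = m * l + s with hLm
      have hle : ∀ p ∈ S, ∀ l : ℕ, (p : ℤ) = m * l + s → l ≤ (X + 1) / m := by
        intro p hp l hpl
        rw [Nat.le_div_iff_mul_le (by omega)]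
        have h1 : (l : ℤ) * m ≤ X + 1 := by
          have h2 : (p : ℤ) ≤ X := by exact_mod_cast (hS p hp).2.2.1
          have h3 : (l : ℤ) * m = p - s := by rw [hpl]; ring
          rw [h3]
          rcases hs' with rfl | rfl <;> linarith
        exact_mod_cast h1
      have hcard : T.card ≤ Lm.card := by
        have h1 : ∀ p ∈ T, ∃ l : ℕ, l.Prime ∧ y < l ∧ (p : ℤ) = m * l + s :=
          fun p hp => (Finset.mem_filter.1 hp).2
        refine Finset.card_le_card_of_injOn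
          (fun p => if h : ∃ l : ℕ, l.Prime ∧ y < l ∧ (p : ℤ) = m * l + s then h.choose else 0)
          ?_ ?_
        · intro p hp
          have hp' : p ∈ T := hp
          have h2 := h1 p hp'
          have h3 := h2.choose_spec
          have hpS := (Finset.mem_filter.1 hp').1
          rw [Finset.mem_coe]
          beta_reduce
          rw [dif_pos h2, hLm, Finset.mem_filter, Finset.mem_range, Nat.lt_succ_iff]
          exact ⟨hle p hpS _ h3.2.2, h3.1, p, (hS p hpS).1, h3.2.2⟩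
        · intro p hp p' hp' hpp
          have h2 := h1 p hp
          have h2' := h1 p' hp'
          beta_reduce at hpp
          rw [dif_pos h2, dif_pos h2'] at hpp
          have h3 := h2.choose_spec.2.2
          have h3' := h2'.choose_spec.2.2
          rw [hpp] at h3
          have h4 : (p : ℤ) = p' := h3.trans h3'.symm
          exact_mod_cast h4
      obtain ⟨hp₀S, l₀, hl₀, hyl₀, hpl₀⟩ := Finset.mem_filter.1 hp₀
      have hXm : y < (X + 1) / m := hyl₀.trans_le (hle p₀ hp₀S l₀ hpl₀)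
      have h2 := hX₀ m ((X + 1) / m) s hs' hm1 (by omega) Lm (by
        intro l hl
        rw [hLm, Finset.mem_filter, Finset.mem_range, Nat.lt_succ_iff] at hl
        exact hl)
      have hlog' : Real.log y ≤ Real.log (((X + 1) / m : ℕ) : ℝ) :=
        Real.log_le_log (by linarith) (by exact_mod_cast hXm.le)
      have hdiv : (((X + 1) / m : ℕ) : ℝ) ≤ 2 * X * ((m : ℝ))⁻¹ := by
        calc (((X + 1) / m : ℕ) : ℝ) ≤ ((X + 1 : ℕ) : ℝ) / m := Nat.cast_div_le
          _ ≤ (2 * X) / m := by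
              gcongr
              push_cast
              linarith
          _ = _ := by rw [div_eq_mul_inv]
      have hLm0 : 0 ≤ LL m := B4_LL_nonneg hm1
      have hLmX : LL m ≤ LL X := B4_LL_mono hm1 hmX
      calc (T.card : ℝ) ≤ Lm.card := by exact_mod_cast hcard
        _ ≤ C₁ * (((X + 1) / m : ℕ) : ℝ) * (1 + LL m) / Real.log (((X + 1) / m : ℕ) : ℝ) ^ 2 := h2
        _ ≤ C₁ * (2 * X * ((m : ℝ))⁻¹) * (1 + LL X) / Real.log y ^ 2 := by
            gcongr
        _ = _ := by ring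
  have hL0 : 0 ≤ LL X := B4_LL_nonneg (by omega)
  have hlogM : Real.log M ≤ Real.log (X / y) := by
    have h1 : 1 ≤ M := by
      rw [hM]
      exact (Nat.le_div_iff_mul_le (by omega)).2 (by omega)
    refine Real.log_le_log (by exact_mod_cast h1) ?_
    rw [hM]
    exact Nat.cast_div_le
  calc (S.card : ℝ) ≤ ((((Finset.Icc 1 M) ×ˢ σ).biUnion fun q =>
      S.filter fun p : ℕ => ∃ l : ℕ, l.Prime ∧ y < l ∧ (p : ℤ) = q.1 * l + q.2).card : ℝ) := by
        exact_mod_cast Finset.card_le_card hcov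
    _ ≤ ∑ q ∈ (Finset.Icc 1 M) ×ˢ σ, ((S.filter fun p : ℕ => ∃ l : ℕ, l.Prime ∧ y < l ∧
        (p : ℤ) = q.1 * l + q.2).card : ℝ) := by
        exact_mod_cast Finset.card_biUnion_le
    _ ≤ ∑ q ∈ (Finset.Icc 1 M) ×ˢ σ, 2 * C₁ * X * (1 + LL X) / Real.log y ^ 2 *
        ((q.1 : ℝ))⁻¹ := Finset.sum_le_sum hone
    _ = ∑ m ∈ Finset.Icc 1 M, 2 * (2 * C₁ * X * (1 + LL X) / Real.log y ^ 2 *
        ((m : ℝ))⁻¹) := by
        rw [Finset.sum_product]
        refine Finset.sum_congr rfl fun m _ => ?_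
        have h2 : σ.card = 2 := by rw [hσ]; rfl
        dsimp only
        rw [Finset.sum_const, h2]
        simp only [nsmul_eq_mul, Nat.cast_ofNat]
    _ = 4 * C₁ * X * (1 + LL X) / Real.log y ^ 2 * ∑ m ∈ Finset.Icc 1 M, ((m : ℝ))⁻¹ := by
        rw [Finset.mul_sum]
        refine Finset.sum_congr rfl fun m _ => ?_
        ring
    _ ≤ 4 * C₁ * X * (1 + LL X) / Real.log y ^ 2 * (1 + Real.log (X / y)) := by
        have h3 := (B4_harm M).trans (add_le_add_right hlogM 1)
        gcongr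
    _ = _ := by ring

end N78
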