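import Pool.Agent.LibPNT.PNT

namespace N78

open Pool.Agent.LibPNT

private theorem B5_three : IsUnit (3 : ZMod 4) := by decide

private theorem B5_ev : ∃ X₀ : ℕ, ∀ X : ℕ, X₀ ≤ X → (9 / 20 : ℝ) * X ≤ thetaAP (3 : ZMod 4) (X : ℝ) := by
  have h := (thetaAP_tendsto (q := 4) B5_three).comp tendsto_natCast_atTop_atTop
  have hphi : (((4 : ℕ).totient : ℝ)⁻¹) = 1 / 2 := by
    have : Nat.totient 4 = 2 := by decide
    rw [this]; norm_num
  rw [hphi] at h
  have h2 : ∀ᶠ n : ℕ in Filter.atTop, (9 / 20 : ℝ) < thetaAP (3 : ZMod 4) (n : ℝ) / n :=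
    h.eventually (lt_mem_nhds (by norm_num))
  obtain ⟨N, hN⟩ := Filter.eventually_atTop.1 h2
  refine ⟨max N 1, fun X hX => ?_⟩
  have h3 := hN X (le_trans (le_max_left _ _) hX)
  have hX0 : (0 : ℝ) < X := by
    have : 1 ≤ X := le_trans (le_max_right _ _) hX
    exact_mod_cast this
  rw [lt_div_iff₀ hX0] at h3
  exact h3.le

/-- Row B5. `thetaAP_tendsto` (modulus `4`, class `3`, `φ(4) = 2`): `θ(X; 4, 3) ≥ (9/20) X` for `X ≥ X₀`;
`θ(y) ≤ log 4 * y ≤ (7/5) X/100`; so `∑_{y < p ≤ X, p = 3 mod 4} log p ≥ (9/20 - 7/500) X ≥ X/3`, each term is at most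
`log X`. -/
theorem pnt_count : ∃ y₀ : ℕ, ∀ y X : ℕ, y₀ ≤ y → 100 * y ≤ X →
    (X : ℝ) / (3 * Real.log X) ≤
      (((Finset.Ioc y X).filter (fun p => p.Prime ∧ p % 4 = 3)).card : ℝ) := by
  obtain ⟨X₀, hX₀⟩ := B5_ev
  refine ⟨max X₀ 2, fun y X hy hX => ?_⟩
  have hy0 : X₀ ≤ y := le_trans (le_max_left _ _) hy
  have hy2 : 2 ≤ y := le_trans (le_max_right _ _) hy
  have hX2 : 2 ≤ X := by omega
  have hXX : X₀ ≤ X := by omega
  have hyX : y ≤ X := by omega
  have h1 := hX₀ X hXX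
  have hlogX : 0 < Real.log X := Real.log_pos (by exact_mod_cast (by omega : 1 < X))
  have hyr : (0 : ℝ) ≤ (y : ℝ) := Nat.cast_nonneg y
  have h2 : Chebyshev.theta (y : ℝ) ≤ Real.log 4 * y := Chebyshev.theta_le_log4_mul_x hyr
  have hlog4 : Real.log 4 ≤ 1.4 := by
    have : Real.log 4 = 2 * Real.log 2 := by
      rw [show (4 : ℝ) = 2 ^ 2 by norm_num, Real.log_pow]; norm_num
    rw [this]
    have := Real.log_two_lt_d9
    linarith
  have hXr : (100 : ℝ) * y ≤ X := by exact_mod_cast hX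
  have h3 : Chebyshev.theta (y : ℝ) ≤ 1.4 / 100 * X := by
    have : Real.log 4 * y ≤ 1.4 * y := mul_le_mul_of_nonneg_right hlog4 hyr
    nlinarith
  -- split
  have h4 : thetaAP (3 : ZMod 4) (X : ℝ) ≤ Chebyshev.theta (y : ℝ) +
      ∑ p ∈ (Finset.Ioc y X).filter (fun p => p.Prime ∧ p % 4 = 3), Real.log p := by
    unfold thetaAP Chebyshev.theta
    rw [Nat.floor_natCast, Nat.floor_natCast]
    have hsub : (Finset.Icc 1 X).filter (fun p : ℕ => p.Prime ∧ (p : ZMod 4) = 3) ⊆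
        (Finset.Ioc 0 y).filter (fun p => p.Prime) ∪
        (Finset.Ioc y X).filter (fun p => p.Prime ∧ p % 4 = 3) := by
      intro p hp
      rw [Finset.mem_filter, Finset.mem_Icc] at hp
      rw [Finset.mem_union, Finset.mem_filter, Finset.mem_filter, Finset.mem_Ioc, Finset.mem_Ioc]
      by_cases hpy : p ≤ y
      · exact Or.inl ⟨⟨by omega, hpy⟩, hp.2.1⟩
      · refine Or.inr ⟨⟨by omega, hp.1.2⟩, hp.2.1, ?_⟩
        have h := hp.2.2
        have h' : ((p : ℕ) : ZMod 4) = ((3 : ℕ) : ZMod 4) := by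
          rw [h]; rfl
        rw [ZMod.natCast_eq_natCast_iff'] at h'
        exact h'
    refine le_trans (Finset.sum_le_sum_of_subset_of_nonneg hsub (fun p _ _ => ?_)) ?_
    · exact Real.log_natCast_nonneg p
    · rw [Finset.sum_union]
      rw [Finset.disjoint_left]
      intro p hp hp'
      rw [Finset.mem_filter, Finset.mem_Ioc] at hp hp'
      omega
  have h5 : ∑ p ∈ (Finset.Ioc y X).filter (fun p => p.Prime ∧ p % 4 = 3), Real.log p ≤
      (((Finset.Ioc y X).filter (fun p => p.Prime ∧ p % 4 = 3)).card : ℝ) * Real.log X := by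
    rw [← nsmul_eq_mul]
    refine Finset.sum_le_card_nsmul _ _ _ (fun p hp => ?_)
    rw [Finset.mem_filter, Finset.mem_Ioc] at hp
    exact Real.log_le_log (by exact_mod_cast hp.2.1.pos) (by exact_mod_cast hp.1.2)
  rw [div_le_iff₀ (by positivity)]
  have hX0 : (0 : ℝ) ≤ X := Nat.cast_nonneg X
  nlinarith

end N78
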