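import Mathlib

namespace N78

/-- Row B6. `log lcm(1..y) = ψ(y)` (or: `lcm(1..y)` divides `∏_{p ≤ y} p^(Nat.log p y)`, whose logarithm is
`≤ ψ(y)`), `Chebyshev.psi_le_const_mul_self`: `ψ(y) ≤ (log 4 + 4) y`; `log 2 + (log 4 + 4) y ≤ 7 y`. -/
theorem log_lcm (y : ℕ) (hy : 1 ≤ y) :
    Real.log ((2 * (Finset.Icc 1 y).lcm id : ℕ) : ℝ) ≤ 7 * y := by
  have h1 : Chebyshev.psi (y : ℝ) = Real.log ((Finset.Icc 1 y).lcm id : ℕ) :=
    Chebyshev.psi_eq_log_lcmUpto y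
  have h2 : Chebyshev.psi (y : ℝ) ≤ (Real.log 4 + 4) * y :=
    Chebyshev.psi_le_const_mul_self (by positivity)
  have h0 : ((Finset.Icc 1 y).lcm id : ℕ) ≠ 0 := by simp
  have h3 : (((Finset.Icc 1 y).lcm id : ℕ) : ℝ) ≠ 0 := by exact_mod_cast h0
  have hy1 : (1 : ℝ) ≤ y := by exact_mod_cast hy
  have h4 : Real.log 4 = 2 * Real.log 2 := by
    rw [show (4 : ℝ) = 2 ^ 2 by norm_num, Real.log_pow]; norm_num
  have h5 := Real.log_two_lt_d9
  have h6 : 0 < Real.log 2 := Real.log_pos (by norm_num)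
  rw [Nat.cast_mul, Nat.cast_ofNat, Real.log_mul (by norm_num) h3, ← h1]
  nlinarith

end N78
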