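import Pool.Agent.LibN78.B1
import Pool.Agent.LibN78.B2
import Pool.Agent.LibN78.B4
import Pool.Agent.LibN78.B5
import Pool.Agent.LibN78.B6

namespace N78

open TwHL Filter

private theorem B7_log_sq {x : ℝ} (hx : 256 ≤ x) : Real.log x ^ 2 ≤ x := by
  have hx0 : 0 < x := by linarith
  have h0 : 0 ≤ Real.log x := Real.log_nonneg (by linarith)
  have h1 : Real.log x ≤ x ^ (1 / 4 : ℝ) / (1 / 4) := Real.log_le_rpow_div hx0.le (by norm_num)
  have h4 : (x ^ (1 / 4 : ℝ)) ^ 2 = Real.sqrt x := by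
    rw [Real.sqrt_eq_rpow, ← Real.rpow_natCast, ← Real.rpow_mul hx0.le]
    norm_num
  have h5 : (16 : ℝ) ≤ Real.sqrt x := by
    apply Real.le_sqrt_of_sq_le
    linarith
  calc Real.log x ^ 2 ≤ (x ^ (1 / 4 : ℝ) / (1 / 4)) ^ 2 := by gcongr
    _ = 16 * (x ^ (1 / 4 : ℝ)) ^ 2 := by ring
    _ = 16 * Real.sqrt x := by rw [h4]
    _ ≤ Real.sqrt x * Real.sqrt x := by gcongr
    _ = x := Real.mul_self_sqrt hx0.le

/-- the loss from prime powers with exponent at least two -/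
private theorem B7_high {C₂ : ℝ} (h₂ : ∀ X y : ℕ, 1 ≤ y → ∀ S : Finset ℕ,
    (∀ n ∈ S, 1 ≤ n ∧ n ≤ X ∧ ∃ l j : ℕ, l.Prime ∧ 2 ≤ j ∧ y < l ^ j ∧ l ^ j ∣ n) →
    (S.card : ℝ) ≤ C₂ * X / (y : ℝ) ^ (1 / 3 : ℝ)) (X y : ℕ) (hy : 1 ≤ y) (S : Finset ℕ)
    (hS : ∀ p ∈ S, 2 ≤ p ∧ p ≤ X ∧ ∃ l j : ℕ, l.Prime ∧ 2 ≤ j ∧ y < l ^ j ∧
      (l ^ j ∣ p - 1 ∨ l ^ j ∣ p + 1)) :
    (S.card : ℝ) ≤ 2 * (C₂ * ((X + 1 : ℕ) : ℝ) / (y : ℝ) ^ (1 / 3 : ℝ)) := by
  classical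
  set S₁ := S.filter (fun p => ∃ l j : ℕ, l.Prime ∧ 2 ≤ j ∧ y < l ^ j ∧ l ^ j ∣ p - 1) with hS₁
  set S₂ := S.filter (fun p => ∃ l j : ℕ, l.Prime ∧ 2 ≤ j ∧ y < l ^ j ∧ l ^ j ∣ p + 1) with hS₂
  have hsub : S ⊆ S₁ ∪ S₂ := by
    intro p hp
    obtain ⟨_, _, l, j, h3, h4, h5, h6 | h6⟩ := hS p hp
    · exact Finset.mem_union_left _ (Finset.mem_filter.2 ⟨hp, l, j, h3, h4, h5, h6⟩)
    · exact Finset.mem_union_right _ (Finset.mem_filter.2 ⟨hp, l, j, h3, h4, h5, h6⟩)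
  have hc : S.card ≤ S₁.card + S₂.card := (Finset.card_le_card hsub).trans (Finset.card_union_le _ _)
  have hc1 : (S₁.card : ℝ) ≤ C₂ * ((X + 1 : ℕ) : ℝ) / (y : ℝ) ^ (1 / 3 : ℝ) := by
    have hinj : Set.InjOn (fun p : ℕ => p - 1) (S₁ : Set ℕ) := by
      intro p hp q hq hpq
      have h1 := (hS p (Finset.mem_filter.1 hp).1).1
      have h2 := (hS q (Finset.mem_filter.1 hq).1).1
      simp only at hpq
      omega
    rw [← Finset.card_image_of_injOn hinj]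
    apply h₂ (X + 1) y hy
    intro n hn
    rw [Finset.mem_image] at hn
    obtain ⟨p, hp, rfl⟩ := hn
    obtain ⟨hpS, l, j, h3, h4, h5, h6⟩ := Finset.mem_filter.1 hp
    obtain ⟨h1, h2, _⟩ := hS p hpS
    exact ⟨by omega, by omega, l, j, h3, h4, h5, h6⟩
  have hc2 : (S₂.card : ℝ) ≤ C₂ * ((X + 1 : ℕ) : ℝ) / (y : ℝ) ^ (1 / 3 : ℝ) := by
    have hinj : Set.InjOn (fun p : ℕ => p + 1) (S₂ : Set ℕ) := by
      intro p hp q hq hpq
      simp only at hpq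
      omega
    rw [← Finset.card_image_of_injOn hinj]
    apply h₂ (X + 1) y hy
    intro n hn
    rw [Finset.mem_image] at hn
    obtain ⟨p, hp, rfl⟩ := hn
    obtain ⟨hpS, l, j, h3, h4, h5, h6⟩ := Finset.mem_filter.1 hp
    obtain ⟨h1, h2, _⟩ := hS p hpS
    exact ⟨by omega, by omega, l, j, h3, h4, h5, h6⟩
  have hc' : (S.card : ℝ) ≤ S₁.card + S₂.card := by exact_mod_cast hc
  linarith

/-- Row B7a. For `y ≥ y₀(K)`, `X = ⌊y (log y)^2⌋`, `J = 2 lcm(1..y)`, `P` = the primes `p % 4 = 3` in `(y, X]` with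
`p^2 - 1 ∣ J`. `pnt_count` minus the primes of `not_dvd_J`: with `j ≥ 2` (`high_power_count` for `n = p ± 1 ≤ X + 1`),
with `j = 1` (`big_prime_count`): `#P ≥ X/(3 log X) - 4 C X/y^(1/3) - C X (1 + log (X/y)) (1 + LL X)/(log y)^2 ≥ X/(4 log X)`
`≥ y (log y)/5`. `log J ≤ 7 y ≤ #P/K` for `y` large. -/
theorem exists_JP_y : ∀ K : ℝ, 0 < K → ∃ y₀ : ℕ, ∀ y : ℕ, y₀ ≤ y → ∃ (J : ℕ) (P : Finset ℕ),
    0 < J ∧ (∀ p ∈ P, p.Prime ∧ p % 4 = 3 ∧ y < p ∧ (p : ℝ) ≤ y * Real.log y ^ 2 ∧ p ^ 2 - 1 ∣ J) ∧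
    Real.log J ≤ P.card / K ∧ y ≤ P.card := by
  classical
  intro K hK
  obtain ⟨C₂, hC₂, h₂⟩ := high_power_count
  obtain ⟨C₄, hC₄, y₄, h₄⟩ := big_prime_count
  obtain ⟨y₅, h₅⟩ := pnt_count
  have htL : Tendsto (fun y : ℕ => Real.log (y : ℝ)) atTop atTop :=
    Real.tendsto_log_atTop.comp tendsto_natCast_atTop_atTop
  have htr : Tendsto (fun y : ℕ => (y : ℝ) ^ (1 / 6 : ℝ)) atTop atTop :=
    (tendsto_rpow_atTop (by norm_num)).comp tendsto_natCast_atTop_atTop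
  have hev : ∀ᶠ y : ℕ in atTop, y₄ ≤ y ∧ y₅ ≤ y ∧ 256 ≤ y ∧
      24 + 168 * K + (1 + 1008 * C₄) ^ 3 ≤ Real.log (y : ℝ) ∧
      576 * C₂ ≤ (y : ℝ) ^ (1 / 6 : ℝ) :=
    (eventually_ge_atTop y₄).and ((eventually_ge_atTop y₅).and ((eventually_ge_atTop 256).and
      ((htL.eventually_ge_atTop _).and (htr.eventually_ge_atTop _))))
  obtain ⟨y₀, hy₀⟩ := eventually_atTop.1 hev
  refine ⟨y₀, fun y hy => ?_⟩
  obtain ⟨hy4, hy5, hy256, hL, hr⟩ := hy₀ y hy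
  have hyr : (256 : ℝ) ≤ y := by exact_mod_cast hy256
  have hy0 : (0 : ℝ) < y := by linarith
  set L := Real.log (y : ℝ) with hLdef
  have hcube : (1 : ℝ) ≤ (1 + 1008 * C₄) ^ 3 := one_le_pow₀ (by linarith)
  have hL24 : 24 ≤ L := by
    have : 0 < 168 * K := by positivity
    linarith
  have hLK : 168 * K ≤ L := by linarith
  have hL0 : 0 < L := by linarith
  have hL2y : L ^ 2 ≤ y := B7_log_sq hyr
  have hyL0 : (0 : ℝ) ≤ y * L ^ 2 := by positivity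
  -- the range
  set X := ⌊(y : ℝ) * L ^ 2⌋₊ with hXdef
  have hXle : (X : ℝ) ≤ y * L ^ 2 := Nat.floor_le hyL0
  have hXge : (y : ℝ) * L ^ 2 < X + 1 := Nat.lt_floor_add_one _
  have hX100 : 100 * y ≤ X := by
    apply Nat.le_floor
    push_cast
    have h1 : (100 : ℝ) ≤ L ^ 2 := by nlinarith
    calc 100 * (y : ℝ) = y * 100 := by ring
      _ ≤ y * L ^ 2 := by gcongr
  have hXy : y ≤ X := by omega
  have hXy2 : X ≤ y ^ 2 := by
    have h1 : (X : ℝ) ≤ (y : ℝ) ^ 2 := by nlinarith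
    exact_mod_cast h1
  have hX0 : (0 : ℝ) < X := by
    have : (y : ℝ) ≤ X := by exact_mod_cast hXy
    linarith
  have hlogX : Real.log X ≤ 2 * L := by
    have h1 : (X : ℝ) ≤ (y : ℝ) ^ 2 := by exact_mod_cast hXy2
    have h2 := Real.log_le_log hX0 h1
    rw [Real.log_pow] at h2
    exact_mod_cast h2
  have hlogX0 : 0 < Real.log X := by
    apply Real.log_pos
    have : (y : ℝ) ≤ X := by exact_mod_cast hXy
    linarith
  -- the sets
  set J := 2 * (Finset.Icc 1 y).lcm id with hJ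
  set A := (Finset.Ioc y X).filter (fun p => p.Prime ∧ p % 4 = 3) with hA
  have hAm : ∀ p ∈ A, y < p ∧ p ≤ X ∧ p.Prime ∧ p % 4 = 3 := by
    intro p hp
    rw [hA, Finset.mem_filter, Finset.mem_Ioc] at hp
    exact ⟨hp.1.1, hp.1.2, hp.2.1, hp.2.2⟩
  set P := A.filter (fun p => p ^ 2 - 1 ∣ J) with hP
  set B := A.filter (fun p => ¬ p ^ 2 - 1 ∣ J) with hB
  have hcard : (A.card : ℝ) = P.card + B.card := by
    have := Finset.card_filter_add_card_filter_not (s := A) (fun p => p ^ 2 - 1 ∣ J)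
    exact_mod_cast this.symm
  set B₁ := A.filter (fun p => ∃ l j : ℕ, l.Prime ∧ 2 ≤ j ∧ y < l ^ j ∧
      (l ^ j ∣ p - 1 ∨ l ^ j ∣ p + 1)) with hB₁
  set B₂ := A.filter (fun p => ∃ l : ℕ, l.Prime ∧ y < l ∧ (l ∣ p - 1 ∨ l ∣ p + 1)) with hB₂
  have hBsub : B ⊆ B₁ ∪ B₂ := by
    intro p hp
    obtain ⟨hpA, hnd⟩ := Finset.mem_filter.1 hp
    obtain ⟨h1, h2, h3, h4⟩ := hAm p hpA
    obtain ⟨l, j, h5, h6, h7, h8⟩ := not_dvd_J p y h3 (by omega) (by omega) hnd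
    rcases Nat.lt_or_ge j 2 with hj | hj
    · have hj1 : j = 1 := by omega
      rw [hj1, pow_one] at h7 h8
      exact Finset.mem_union_right _ (Finset.mem_filter.2 ⟨hpA, l, h5, h7, h8⟩)
    · exact Finset.mem_union_left _ (Finset.mem_filter.2 ⟨hpA, l, j, h5, hj, h7, h8⟩)
  have hBc : (B.card : ℝ) ≤ B₁.card + B₂.card := by
    exact_mod_cast (Finset.card_le_card hBsub).trans (Finset.card_union_le _ _)
  have hB1c := B7_high h₂ X y (by omega) B₁ (by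
    intro p hp
    obtain ⟨hpA, h5⟩ := Finset.mem_filter.1 hp
    obtain ⟨h1, h2, h3, h4⟩ := hAm p hpA
    exact ⟨h3.two_le, h2, h5⟩)
  have hB2c := h₄ y X hy4 hXy hXy2 B₂ (by
    intro p hp
    obtain ⟨hpA, h5⟩ := Finset.mem_filter.1 hp
    obtain ⟨h1, h2, h3, h4⟩ := hAm p hpA
    exact ⟨h3, by omega, h2, h5⟩)
  have hAc := h₅ y X hy5 hX100
  -- first loss
  have hloss1 : (B₁.card : ℝ) ≤ X / (24 * L) := by
    refine hB1c.trans ?_
    have h1 : L ≤ (y : ℝ) ^ (1 / 6 : ℝ) / (1 / 6) := Real.log_le_rpow_div hy0.le (by norm_num)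
    have h3 : (y : ℝ) ^ (1 / 6 : ℝ) * (y : ℝ) ^ (1 / 6 : ℝ) = (y : ℝ) ^ (1 / 3 : ℝ) := by
      rw [← Real.rpow_add hy0]
      norm_num
    have h4 : 0 < (y : ℝ) ^ (1 / 6 : ℝ) := Real.rpow_pos_of_pos hy0 _
    have h5 : 96 * C₂ * L ≤ (y : ℝ) ^ (1 / 3 : ℝ) := by
      rw [← h3]
      calc 96 * C₂ * L ≤ 96 * C₂ * ((y : ℝ) ^ (1 / 6 : ℝ) / (1 / 6)) := by gcongr
        _ = (576 * C₂) * (y : ℝ) ^ (1 / 6 : ℝ) := by ring
        _ ≤ (y : ℝ) ^ (1 / 6 : ℝ) * (y : ℝ) ^ (1 / 6 : ℝ) := by gcongr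
    have h6 : 0 < (y : ℝ) ^ (1 / 3 : ℝ) := Real.rpow_pos_of_pos hy0 _
    have h7 : ((X + 1 : ℕ) : ℝ) ≤ 2 * X := by
      push_cast
      have : (y : ℝ) ≤ X := by exact_mod_cast hXy
      linarith
    calc 2 * (C₂ * ((X + 1 : ℕ) : ℝ) / (y : ℝ) ^ (1 / 3 : ℝ))
        ≤ 2 * (C₂ * (2 * X) / (y : ℝ) ^ (1 / 3 : ℝ)) := by gcongr
      _ = (4 * C₂ * X) / (y : ℝ) ^ (1 / 3 : ℝ) := by ring
      _ ≤ X / (24 * L) := by
          rw [div_le_div_iff₀ h6 (by positivity)]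
          calc 4 * C₂ * X * (24 * L) = X * (96 * C₂ * L) := by ring
            _ ≤ X * (y : ℝ) ^ (1 / 3 : ℝ) := by gcongr
  -- second loss
  have hloss2 : (B₂.card : ℝ) ≤ X / (24 * L) := by
    refine hB2c.trans ?_
    set u := L ^ (1 / 3 : ℝ) with hu
    have hu0 : 0 < u := Real.rpow_pos_of_pos hL0 _
    have hu3 : u ^ 3 = L := by
      rw [hu, ← Real.rpow_natCast, ← Real.rpow_mul hL0.le]
      norm_num
    have hu1 : 1 + 1008 * C₄ ≤ u := by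
      have h1 : (1 + 1008 * C₄) ^ 3 ≤ u ^ 3 := by
        rw [hu3]
        have : 0 < 168 * K := by positivity
        linarith
      exact le_of_pow_le_pow_left₀ (by norm_num) hu0.le h1
    have hlogL : Real.log L ≤ 3 * u := by
      rw [← hu3, Real.log_pow]
      have := Real.log_le_sub_one_of_pos hu0
      push_cast
      linarith
    have h1u : 1 ≤ u := by
      have : 0 < 1008 * C₄ := by positivity
      linarith
    have h1 : 1 + Real.log ((X : ℝ) / y) ≤ 7 * u := by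
      have h2 : (X : ℝ) / y ≤ L ^ 2 := by
        rw [div_le_iff₀ hy0]
        linarith
      have h3 := Real.log_le_log (by positivity) h2
      rw [Real.log_pow] at h3
      push_cast at h3
      linarith
    have h2 : 1 + LL X ≤ 6 * u := by
      unfold LL
      have h3 : 1 + Real.log X ≤ 3 * L := by linarith
      have h4 := Real.log_le_log (by linarith) h3
      rw [Real.log_mul (by norm_num) hL0.ne'] at h4
      have h5 : Real.log 3 ≤ 2 := by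
        have := Real.log_le_sub_one_of_pos (show (0 : ℝ) < 3 by norm_num)
        linarith
      linarith
    have h3 : 0 ≤ 1 + LL X := by
      unfold LL
      have : 0 ≤ Real.log (1 + Real.log X) := Real.log_nonneg (by linarith)
      linarith
    have h4 : C₄ * (1 + Real.log ((X : ℝ) / y)) * (1 + LL X) ≤ L / 24 := by
      calc C₄ * (1 + Real.log ((X : ℝ) / y)) * (1 + LL X) ≤ C₄ * (7 * u) * (6 * u) := by gcongr
        _ = (1008 * C₄) * u ^ 2 / 24 := by ring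
        _ ≤ u * u ^ 2 / 24 := by
            gcongr
            linarith
        _ = L / 24 := by
            rw [← hu3]
            ring
    calc C₄ * X * (1 + Real.log ((X : ℝ) / y)) * (1 + LL X) / L ^ 2
        = X * (C₄ * (1 + Real.log ((X : ℝ) / y)) * (1 + LL X)) / L ^ 2 := by ring
      _ ≤ X * (L / 24) / L ^ 2 := by gcongr
      _ = X / (24 * L) := by
          field_simp
  have hAc2 : (X : ℝ) / (6 * L) ≤ A.card := by
    refine le_trans ?_ hAc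
    apply div_le_div_of_nonneg_left hX0.le (by positivity)
    linarith
  have hPc : (X : ℝ) / (12 * L) ≤ P.card := by
    have h1 : (X : ℝ) / (6 * L) - X / (24 * L) - X / (24 * L) = X / (12 * L) := by
      field_simp
      ring
    linarith
  have hPc2 : (y : ℝ) * L / 24 ≤ P.card := by
    refine le_trans ?_ hPc
    rw [div_le_div_iff₀ (by norm_num) (by positivity)]
    have h1 : (y : ℝ) * L ^ 2 ≤ 2 * X := by
      have : (y : ℝ) ≤ X := by exact_mod_cast hXy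
      linarith
    calc (y : ℝ) * L * (12 * L) = 12 * (y * L ^ 2) := by ring
      _ ≤ 12 * (2 * X) := by gcongr
      _ = X * 24 := by ring
  refine ⟨J, P, ?_, ?_, ?_, ?_⟩
  · rw [hJ]
    have h1 : (Finset.Icc 1 y).lcm id ≠ 0 := by
      rw [Ne, Finset.lcm_eq_zero_iff]
      rintro ⟨x, hx, hx0⟩
      rw [Finset.mem_Icc] at hx
      simp only [id] at hx0
      omega
    omega
  · intro p hp
    obtain ⟨hpA, hd⟩ := Finset.mem_filter.1 hp
    obtain ⟨h1, h2, h3, h4⟩ := hAm p hpA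
    refine ⟨h3, h4, h1, ?_, hd⟩
    have h5 : (p : ℝ) ≤ X := by exact_mod_cast h2
    linarith
  · have h1 := log_lcm y (by omega)
    rw [← hJ] at h1
    refine h1.trans ?_
    rw [le_div_iff₀ hK]
    refine le_trans ?_ hPc2
    rw [le_div_iff₀ (by norm_num)]
    calc 7 * (y : ℝ) * K * 24 = y * (168 * K) := by ring
      _ ≤ y * L := by gcongr
  · have h1 : (y : ℝ) ≤ P.card := by
      refine le_trans ?_ hPc2
      rw [le_div_iff₀ (by norm_num)]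
      gcongr
    exact_mod_cast h1

/-- Row B7b. `exists_JP_y` with `y = ⌊(log H)^(1/100)⌋`. `(log H)^(1/200) ≤ y` for large `H`;
`#P ≤ y (log y)^2`, `log ∏ p ≤ #P log (y (log y)^2) ≤ 3 y (log y)^3 ≤ (log H)^(1/20)`. -/
theorem exists_JP : ∀ K : ℝ, 0 < K → ∃ H₀ : ℕ, ∀ H : ℕ, H₀ ≤ H → ∃ (J : ℕ) (P : Finset ℕ),
    0 < J ∧ (∀ p ∈ P, p.Prime ∧ p % 4 = 3 ∧ (Real.log H) ^ (1 / 200 : ℝ) ≤ p ∧ p ^ 2 - 1 ∣ J) ∧
    Real.log J ≤ P.card / K ∧ (Real.log H) ^ (1 / 200 : ℝ) ≤ P.card ∧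
    Real.log (∏ p ∈ P, (p : ℝ)) ≤ (Real.log H) ^ (1 / 20 : ℝ) := by
  intro K hK
  obtain ⟨y₀, hy₀⟩ := exists_JP_y K hK
  have htL : Tendsto (fun H : ℕ => Real.log (H : ℝ)) atTop atTop :=
    Real.tendsto_log_atTop.comp tendsto_natCast_atTop_atTop
  have htr : Tendsto (fun H : ℕ => (Real.log (H : ℝ)) ^ (1 / 100 : ℝ)) atTop atTop :=
    (tendsto_rpow_atTop (by norm_num)).comp htL
  have hev : ∀ᶠ H : ℕ in atTop, 1 ≤ Real.log (H : ℝ) ∧
      (y₀ : ℝ) + 257 ≤ (Real.log (H : ℝ)) ^ (1 / 100 : ℝ) :=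
    (htL.eventually_ge_atTop _).and (htr.eventually_ge_atTop _)
  obtain ⟨H₀, hH₀⟩ := eventually_atTop.1 hev
  refine ⟨H₀, fun H hH => ?_⟩
  obtain ⟨hlH, hM⟩ := hH₀ H hH
  have hlH0 : 0 ≤ Real.log (H : ℝ) := by linarith
  set M := (Real.log (H : ℝ)) ^ (1 / 100 : ℝ) with hMdef
  have hM0 : 0 ≤ M := by
    have : (0 : ℝ) ≤ y₀ := Nat.cast_nonneg _
    linarith
  have hy0r : (0 : ℝ) ≤ y₀ := Nat.cast_nonneg _
  set y := ⌊M⌋₊ with hy
  have hyM : (y : ℝ) ≤ M := Nat.floor_le hM0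
  have hMy : M < y + 1 := Nat.lt_floor_add_one _
  have hyy : y₀ ≤ y := by
    apply Nat.le_floor
    linarith
  have hyr : (256 : ℝ) ≤ y := by linarith
  have hM200 : (Real.log (H : ℝ)) ^ (1 / 200 : ℝ) = Real.sqrt M := by
    rw [Real.sqrt_eq_rpow, hMdef, ← Real.rpow_mul hlH0]
    norm_num
  have hM20 : (Real.log (H : ℝ)) ^ (1 / 20 : ℝ) = M ^ 5 := by
    rw [hMdef, ← Real.rpow_natCast, ← Real.rpow_mul hlH0]
    norm_num
  have hsqM : Real.sqrt M ≤ y := by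
    rw [Real.sqrt_le_left (by linarith)]
    nlinarith
  obtain ⟨J, P, hJ, hP, hlJ, hcard⟩ := hy₀ y hyy
  have hlog : Real.log (y : ℝ) ^ 2 ≤ y := B7_log_sq hyr
  have hpy : ∀ p ∈ P, (p : ℝ) ≤ (y : ℝ) ^ 2 := by
    intro p hp
    have h1 := (hP p hp).2.2.2.1
    nlinarith
  refine ⟨J, P, hJ, ?_, hlJ, ?_, ?_⟩
  · intro p hp
    obtain ⟨h1, h2, h3, h4, h5⟩ := hP p hp
    refine ⟨h1, h2, ?_, h5⟩
    rw [hM200]
    have : (y : ℝ) ≤ p := by exact_mod_cast h3.le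
    linarith
  · rw [hM200]
    have : (y : ℝ) ≤ P.card := by exact_mod_cast hcard
    linarith
  · rw [hM20, Real.log_prod (fun p hp => by
      have := (hP p hp).1.pos
      positivity)]
    have h1 : ∀ p ∈ P, Real.log (p : ℝ) ≤ 2 * y := by
      intro p hp
      have h2 : (0 : ℝ) < p := by exact_mod_cast (hP p hp).1.pos
      have h3 := Real.log_le_log h2 (hpy p hp)
      rw [Real.log_pow] at h3
      have h4 := Real.log_le_sub_one_of_pos (show (0 : ℝ) < y by linarith)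
      push_cast at h3
      linarith
    have h2 := Finset.sum_le_sum h1
    rw [Finset.sum_const, nsmul_eq_mul] at h2
    have h3 : (P.card : ℝ) ≤ (y : ℝ) ^ 2 := by
      have h4 : P ⊆ Finset.Icc 1 (y ^ 2) := by
        intro p hp
        rw [Finset.mem_Icc]
        refine ⟨(hP p hp).1.one_le, ?_⟩
        have := hpy p hp
        exact_mod_cast this
      have h5 := Finset.card_le_card h4
      rw [Nat.card_Icc, Nat.add_sub_cancel] at h5
      exact_mod_cast h5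
    refine h2.trans ?_
    calc (P.card : ℝ) * (2 * y) ≤ (y : ℝ) ^ 2 * (2 * y) := by gcongr
      _ = 2 * (y : ℝ) ^ 3 := by ring
      _ ≤ (y : ℝ) ^ 2 * (y : ℝ) ^ 3 := by
          gcongr
          nlinarith
      _ = (y : ℝ) ^ 5 := by ring
      _ ≤ M ^ 5 := by gcongr

end N78
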