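import Pool.Agent.LibN78.Defs

namespace N78

/-- Row C1a. The action preserves `ee`. Ring identity using `η.prop`: `x^2 - d y^2 = 1`. -/
theorem act_ee (d : ℤ) (η : Pell.Solution₁ d) (a w m : ℤ) :
    ee d a (WW d a w m η.x η.y) (FF d a w m η.x η.y) = ee d a w m := by
  have h := η.prop
  unfold ee WW FF
  linear_combination (a * (a * η.y ^ 2 + m * (η.x ^ 2 + d * η.y ^ 2) + 2 * w * η.x * η.y) +
    (w ^ 2 - a * m - d * m ^ 2) * (1 + (η.x ^ 2 - d * η.y ^ 2))) * h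

/-- Row C1b. `F_{v*η}(η') = F_v(η η')`, `(η η').x = η.x η'.x + d η.y η'.y`, `(η η').y = η.x η'.y + η.y η'.x`. -/
theorem act_FF (d : ℤ) (η η' : Pell.Solution₁ d) (a w m : ℤ) :
    FF d a (WW d a w m η.x η.y) (FF d a w m η.x η.y) η'.x η'.y
      = FF d a w m (η * η').x (η * η').y := by
  have h := η.prop
  rw [Pell.Solution₁.x_mul, Pell.Solution₁.y_mul]
  unfold WW FF
  linear_combination (-a * η'.y ^ 2) * h

/-- Row C1c. `λ(v*η) = λ(v) η^2` and the conjugate identity. -/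
theorem act_lam (d : ℤ) (hd : 0 < d) (η : Pell.Solution₁ d) (a w m : ℤ) :
    lam d a (WW d a w m η.x η.y) (FF d a w m η.x η.y) = lam d a w m * rv d η.x η.y ^ 2 ∧
    lam' d a (WW d a w m η.x η.y) (FF d a w m η.x η.y) = lam' d a w m * rc d η.x η.y ^ 2 := by
  have hN : (η.x : ℝ) ^ 2 - d * (η.y : ℝ) ^ 2 = 1 := by exact_mod_cast η.prop
  have hr : √(d : ℝ) ^ 2 = (d : ℝ) := Real.sq_sqrt (by exact_mod_cast hd.le)
  constructor
  · unfold lam WW FF rv
    push_cast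
    linear_combination (-(a : ℝ)) * hN - ((a + 2 * d * m) * (η.y : ℝ) ^ 2 +
      4 * w * η.x * η.y + 2 * w * (η.y : ℝ) ^ 2 * √(d : ℝ)) * hr
  · unfold lam' WW FF rc
    push_cast
    linear_combination (-(a : ℝ)) * hN - ((a + 2 * d * m) * (η.y : ℝ) ^ 2 +
      4 * w * η.x * η.y - 2 * w * (η.y : ℝ) ^ 2 * √(d : ℝ)) * hr

/-- Row C1d. `λ λ' = a^2 - 4 d e`. -/
theorem lam_mul (d : ℤ) (hd : 0 < d) (a w m : ℤ) :
    lam d a w m * lam' d a w m = ((a ^ 2 - 4 * d * ee d a w m : ℤ) : ℝ) := by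
  have hr : √(d : ℝ) ^ 2 = (d : ℝ) := Real.sq_sqrt (by exact_mod_cast hd.le)
  unfold lam lam' ee
  push_cast
  linear_combination (-4 * (w : ℝ) ^ 2) * hr

end N78
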