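import Pool.Agent.LibN78.C5

namespace N78

/-- `RR d n0` is finite. -/
theorem RR_finite (d : ℤ) (n0 : ℝ) : (RR d n0).Finite := by
  refine ((Set.finite_Icc (-⌊n0⌋) ⌊n0⌋).prod (Set.finite_Icc (0 : ℤ) ⌊n0⌋)).subset ?_
  rintro ⟨n, r⟩ ⟨_, h2, h3, h4, _⟩
  simp only at h2 h3 h4
  have h5 : |n| ≤ ⌊n0⌋ := by
    rw [Int.le_floor]
    push_cast
    exact h2
  have h6 := abs_le.1 h5
  exact ⟨⟨h6.1, h6.2⟩, ⟨h3, by show r ≤ ⌊n0⌋; omega⟩⟩

/-- the real embedding of the Pell group -/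
noncomputable def C10_hom (d : ℤ) (hd : 0 ≤ d) : Pell.Solution₁ d →* ℝ where
  toFun η := rv d η.x η.y
  map_one' := by simp [rv]
  map_mul' a b := by
    have h : √(d : ℝ) * √(d : ℝ) = d := Real.mul_self_sqrt (by exact_mod_cast hd)
    unfold rv
    rw [Pell.Solution₁.x_mul, Pell.Solution₁.y_mul]
    push_cast
    linear_combination (-(a.y : ℝ) * b.y) * h

theorem C10_rv_mul_rc (d : ℤ) (hd : 0 ≤ d) (x y : ℤ) :
    rv d x y * rc d x y = ((x ^ 2 - d * y ^ 2 : ℤ) : ℝ) := by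
  have h : √(d : ℝ) * √(d : ℝ) = d := Real.mul_self_sqrt (by exact_mod_cast hd)
  unfold rv rc
  push_cast
  linear_combination (-(y : ℝ) ^ 2) * h

theorem C10_inv (d : ℤ) (hd : 0 ≤ d) (η : Pell.Solution₁ d) :
    C10_hom d hd η⁻¹ = (C10_hom d hd η)⁻¹ := by
  have h1 : C10_hom d hd (η⁻¹ * η) = 1 := by rw [inv_mul_cancel, map_one]
  rw [map_mul] at h1
  exact eq_inv_of_mul_eq_one_left h1

theorem C10_abs (d : ℤ) (hd : 2 ≤ d) (ε : Pell.Solution₁ d) (hε : Pell.IsFundamental ε)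
    (η : Pell.Solution₁ d) : ∃ k : ℤ, |rv d η.x η.y| = rv d ε.x ε.y ^ k := by
  have hd0 : 0 ≤ d := by omega
  have hE : 0 < rv d ε.x ε.y := by
    have h1 : (1 : ℝ) < ε.x := by exact_mod_cast hε.1
    have h2 : (0 : ℝ) < ε.y := by exact_mod_cast hε.2.1
    unfold rv
    positivity
  have hz : ∀ k : ℤ, rv d (ε ^ k).x (ε ^ k).y = rv d ε.x ε.y ^ k := fun k =>
    map_zpow' (C10_hom d hd0) (C10_inv d hd0) ε k
  obtain ⟨k, hk | hk⟩ := hε.eq_zpow_or_neg_zpow η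
  · refine ⟨k, ?_⟩
    rw [hk, hz, abs_of_pos (zpow_pos hE k)]
  · refine ⟨k, ?_⟩
    have h3 : rv d η.x η.y = -(rv d (ε ^ k).x (ε ^ k).y) := by
      rw [hk, Pell.Solution₁.x_neg, Pell.Solution₁.y_neg]
      unfold rv
      push_cast
      ring
    rw [h3, hz, abs_neg, abs_of_pos (zpow_pos hE k)]

theorem C10_one_lt (d : ℤ) (ε : Pell.Solution₁ d) (hε : Pell.IsFundamental ε) :
    1 < rv d ε.x ε.y := by
  have h1 : (1 : ℝ) < ε.x := by exact_mod_cast hε.1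
  have h2 : (0 : ℝ) < ε.y := by exact_mod_cast hε.2.1
  have h3 : 0 ≤ √(d : ℝ) := Real.sqrt_nonneg _
  unfold rv
  nlinarith

theorem C10_ne_zero (d : ℤ) (hns : ¬ IsSquare d) (x y : ℤ) (h : IsCoprime x y) :
    x ^ 2 - d * y ^ 2 ≠ 0 := by
  intro h0
  have h1 : y ^ 2 ∣ x ^ 2 := ⟨d, by linarith⟩
  have h2 : y ∣ x := (Int.pow_dvd_pow_iff (by norm_num)).1 h1
  have h3 : IsUnit y := h.isUnit_of_dvd' h2 dvd_rfl
  have h4 : y ^ 2 = 1 := by
    rcases Int.isUnit_iff.1 h3 with h | h <;> rw [h] <;> norm_num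
  apply hns
  refine ⟨x, ?_⟩
  rw [h4] at h0
  linarith

/-- the residue -/
theorem C10_res (d x y : ℤ) (hns : ¬ IsSquare d) (h : IsCoprime x y) :
    ∃ r : ℤ, 0 ≤ r ∧ r < |x ^ 2 - d * y ^ 2| ∧ x ^ 2 - d * y ^ 2 ∣ r * y - x ∧
      x ^ 2 - d * y ^ 2 ∣ r ^ 2 - d := by
  have hn := C10_ne_zero d hns x y h
  have h1 : IsCoprime y (x ^ 2 - d * y ^ 2) := by
    have h2 : IsCoprime y (x ^ 2) := h.symm.pow_right
    have h3 : x ^ 2 - d * y ^ 2 = x ^ 2 + y * (-(d * y)) := by ring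
    rw [h3]
    exact h2.add_mul_left_right _
  set n := x ^ 2 - d * y ^ 2 with hndef
  obtain ⟨a, b, hab⟩ := h1
  have hr : n ∣ (x * a) % |n| * y - x := by
    have h4 : n ∣ (x * a) % |n| - x * a := by
      have h5 : |n| ∣ (x * a) % |n| - x * a := by
        rw [Int.emod_def]
        exact ⟨-(x * a / |n|), by ring⟩
      exact (abs_dvd n _).1 h5
    obtain ⟨c, hc⟩ := h4
    refine ⟨c * y - x * b, ?_⟩
    have h6 : (x * a) % |n| = n * c + x * a := by linarith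
    rw [h6]
    linear_combination x * hab
  refine ⟨(x * a) % |n|, Int.emod_nonneg _ (abs_ne_zero.2 hn), Int.emod_lt_of_pos _
    (abs_pos.2 hn), hr, ?_⟩
  have h7 : n ∣ y ^ 2 * (((x * a) % |n|) ^ 2 - d) := by
    obtain ⟨c, hc⟩ := hr
    have h8 : (x * a) % |n| * y = n * c + x := by linarith
    refine ⟨n * c ^ 2 + 2 * c * x + 1, ?_⟩
    have h9 : y ^ 2 * (((x * a) % |n|) ^ 2 - d) = ((x * a) % |n| * y) ^ 2 - d * y ^ 2 := by ring
    rw [h9, h8]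
    linear_combination (-1 : ℤ) * hndef
  have h10 : IsCoprime n (y ^ 2) := by
    apply IsCoprime.pow_right
    exact ⟨b, a, by linarith⟩
  exact h10.dvd_of_dvd_mul_left h7

/-- the unit -/
theorem C10_unit (d x y x' y' r : ℤ) (hn0 : x ^ 2 - d * y ^ 2 ≠ 0)
    (hnn : x' ^ 2 - d * y' ^ 2 = x ^ 2 - d * y ^ 2)
    (h1 : x ^ 2 - d * y ^ 2 ∣ r * y - x) (h2 : x ^ 2 - d * y ^ 2 ∣ r * y' - x')
    (h3 : x ^ 2 - d * y ^ 2 ∣ r ^ 2 - d) :
    ∃ η : Pell.Solution₁ d, x' = η.x * x + d * (η.y * y) ∧ y' = η.x * y + η.y * x := by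
  set n := x ^ 2 - d * y ^ 2 with hndef
  obtain ⟨a, ha⟩ := h1
  obtain ⟨b, hb⟩ := h2
  obtain ⟨c, hc⟩ := h3
  have hX : x * x' - d * y * y' = n * (y * y' * c - r * y * b - r * y' * a + n * a * b) := by
    have h4 : x = r * y - n * a := by linarith
    have h5 : x' = r * y' - n * b := by linarith
    rw [h4, h5]
    linear_combination (y * y') * hc
  have hY : x * y' - x' * y = n * (b * y - a * y') := by
    have h4 : x = r * y - n * a := by linarith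
    have h5 : x' = r * y' - n * b := by linarith
    rw [h4, h5]
    ring
  set X := y * y' * c - r * y * b - r * y' * a + n * a * b
  set Y := b * y - a * y'
  have hN : X ^ 2 - d * Y ^ 2 = 1 := by
    have h6 : n ^ 2 * (X ^ 2 - d * Y ^ 2) = n ^ 2 * 1 := by
      have h7 : n ^ 2 * (X ^ 2 - d * Y ^ 2) = (n * X) ^ 2 - d * (n * Y) ^ 2 := by ring
      rw [h7, ← hX, ← hY]
      have h8 : (x * x' - d * y * y') ^ 2 - d * (x * y' - x' * y) ^ 2 =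
          (x ^ 2 - d * y ^ 2) * (x' ^ 2 - d * y' ^ 2) := by ring
      rw [h8, hnn, ← hndef]
      ring
    exact mul_left_cancel₀ (pow_ne_zero 2 hn0) h6
  refine ⟨Pell.Solution₁.mk X Y hN, ?_, ?_⟩
  · rw [Pell.Solution₁.x_mk, Pell.Solution₁.y_mk]
    apply mul_left_cancel₀ hn0
    linear_combination x * hX + (d * y) * hY + x' * hndef
  · rw [Pell.Solution₁.x_mk, Pell.Solution₁.y_mk]
    apply mul_left_cancel₀ hn0
    linear_combination y * hX + x * hY + y' * hndef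

/-- size of the elements -/
theorem C10_size (d : ℤ) (hd : 2 ≤ d) (j : ℕ) (x y : ℤ) (hn0 : x ^ 2 - d * y ^ 2 ≠ 0)
    (hQ : QQ d j x y ≤ 4 * d) :
    2 ^ j * |rv d x y| ≤ √(4 * d) ∧ 1 ≤ √(4 * (d : ℝ)) * 2 ^ j * |rv d x y| := by
  have hT : (0 : ℝ) < 2 ^ j := by positivity
  have h4 : (4 : ℝ) ^ j = (2 ^ j) ^ 2 := by
    rw [← pow_mul, mul_comm, pow_mul]
    norm_num
  unfold QQ at hQ
  rw [h4] at hQ
  have hA : (2 ^ j * |rv d x y|) ^ 2 ≤ 4 * d := by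
    rw [mul_pow, sq_abs]
    have : 0 ≤ rc d x y ^ 2 / (2 ^ j) ^ 2 := by positivity
    linarith
  have hB : (|rc d x y| / 2 ^ j) ^ 2 ≤ 4 * d := by
    rw [div_pow, sq_abs]
    have : 0 ≤ (2 ^ j) ^ 2 * rv d x y ^ 2 := by positivity
    linarith
  have hA' : 2 ^ j * |rv d x y| ≤ √(4 * d) := Real.le_sqrt_of_sq_le hA
  have hB' : |rc d x y| / 2 ^ j ≤ √(4 * d) := Real.le_sqrt_of_sq_le hB
  refine ⟨hA', ?_⟩
  have h1 : (1 : ℝ) ≤ |rv d x y| * |rc d x y| := by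
    rw [← abs_mul, C10_rv_mul_rc d (by omega)]
    have h2 : 1 ≤ |x ^ 2 - d * y ^ 2| := Int.one_le_abs hn0
    have h3 : ((1 : ℤ) : ℝ) ≤ ((|x ^ 2 - d * y ^ 2| : ℤ) : ℝ) := by exact_mod_cast h2
    rw [Int.cast_abs] at h3
    simpa using h3
  rw [div_le_iff₀ hT] at hB'
  calc (1 : ℝ) ≤ |rv d x y| * |rc d x y| := h1
    _ ≤ |rv d x y| * (√(4 * d) * 2 ^ j) := mul_le_mul_of_nonneg_left hB' (abs_nonneg _)
    _ = √(4 * (d : ℝ)) * 2 ^ j * |rv d x y| := by ring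

/-- the key step -/
theorem C10_key (d : ℤ) (hd : 2 ≤ d) (ε : Pell.Solution₁ d)
    (hε : Pell.IsFundamental ε) (j j' : ℕ) (x y x' y' r : ℤ) (hjj : j < j')
    (hn0 : x ^ 2 - d * y ^ 2 ≠ 0)
    (hnn : x' ^ 2 - d * y' ^ 2 = x ^ 2 - d * y ^ 2)
    (h1 : x ^ 2 - d * y ^ 2 ∣ r * y - x) (h2 : x ^ 2 - d * y ^ 2 ∣ r * y' - x')
    (h3 : x ^ 2 - d * y ^ 2 ∣ r ^ 2 - d) (hE : (2 : ℝ) ^ j' < rv d ε.x ε.y)
    (hQ : QQ d j x y ≤ 4 * d) (hQ' : QQ d j' x' y' ≤ 4 * d) (hB : 4 * (d : ℝ) ≤ 2 ^ j) :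
    (2 : ℝ) ^ j' ≤ 4 * d * 2 ^ j := by
  obtain ⟨η, hx, hy⟩ := C10_unit d x y x' y' r hn0 hnn h1 h2 h3
  obtain ⟨k, hk⟩ := C10_abs d hd ε hε η
  have hE1 := C10_one_lt d ε hε
  set E := rv d ε.x ε.y
  obtain ⟨hA, hA2⟩ := C10_size d hd j x y hn0 hQ
  obtain ⟨hB1, hB2⟩ := C10_size d hd j' x' y' (by rw [hnn]; exact hn0) hQ'
  have hd' : (2 : ℝ) ≤ d := by exact_mod_cast hd
  have hs : √(4 * (d : ℝ)) * √(4 * (d : ℝ)) = 4 * d := Real.mul_self_sqrt (by linarith)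
  have hs0 : 0 < √(4 * (d : ℝ)) := Real.sqrt_pos.2 (by linarith)
  have hrv : rv d x' y' = rv d η.x η.y * rv d x y := by
    have h : √(d : ℝ) * √(d : ℝ) = d := Real.mul_self_sqrt (by linarith)
    unfold rv
    rw [hx, hy]
    push_cast
    linear_combination (-(η.y : ℝ) * y) * h
  have hrv' : |rv d x' y'| = E ^ k * |rv d x y| := by rw [hrv, abs_mul, hk]
  have hT : (0 : ℝ) < 2 ^ j := by positivity
  have hT' : (0 : ℝ) < 2 ^ j' := by positivity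
  have hTT : (2 : ℝ) ^ j < 2 ^ j' := pow_lt_pow_right₀ (by norm_num) hjj
  have hp : 0 < |rv d x y| := by
    by_contra hcon
    have : |rv d x y| = 0 := le_antisymm (not_lt.1 hcon) (abs_nonneg _)
    rw [this, mul_zero] at hA2
    linarith
  have hk0 : 0 < E ^ k := zpow_pos (by linarith) k
  -- upper bound: `E ^ k * 2 ^ j' ≤ 4 d 2 ^ j`
  have hup : E ^ k * 2 ^ j' ≤ 4 * d * 2 ^ j := by
    have h5 : 2 ^ j' * (E ^ k * |rv d x y|) ≤ √(4 * (d : ℝ)) := by rw [← hrv']; exact hB1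
    have h6 : (E ^ k * 2 ^ j') * |rv d x y| ≤ (4 * d * 2 ^ j) * |rv d x y| := by
      calc (E ^ k * 2 ^ j') * |rv d x y| = 2 ^ j' * (E ^ k * |rv d x y|) := by ring
        _ ≤ √(4 * (d : ℝ)) * 1 := by rw [mul_one]; exact h5
        _ ≤ √(4 * (d : ℝ)) * (√(4 * (d : ℝ)) * 2 ^ j * |rv d x y|) :=
            mul_le_mul_of_nonneg_left hA2 hs0.le
        _ = (√(4 * (d : ℝ)) * √(4 * (d : ℝ))) * 2 ^ j * |rv d x y| := by ring
        _ = (4 * d * 2 ^ j) * |rv d x y| := by rw [hs]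
    exact le_of_mul_le_mul_right h6 hp
  -- lower bound: `2 ^ j ≤ 4 d 2 ^ j' E ^ k`
  have hlow : 2 ^ j ≤ 4 * d * 2 ^ j' * E ^ k := by
    have h5 : 1 ≤ √(4 * (d : ℝ)) * 2 ^ j' * (E ^ k * |rv d x y|) := by rw [← hrv']; exact hB2
    calc (2 : ℝ) ^ j = 2 ^ j * 1 := (mul_one _).symm
      _ ≤ 2 ^ j * (√(4 * (d : ℝ)) * 2 ^ j' * (E ^ k * |rv d x y|)) :=
          mul_le_mul_of_nonneg_left h5 hT.le
      _ = √(4 * (d : ℝ)) * 2 ^ j' * E ^ k * (2 ^ j * |rv d x y|) := by ring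
      _ ≤ √(4 * (d : ℝ)) * 2 ^ j' * E ^ k * √(4 * (d : ℝ)) :=
          mul_le_mul_of_nonneg_left hA (by positivity)
      _ = (√(4 * (d : ℝ)) * √(4 * (d : ℝ))) * 2 ^ j' * E ^ k := by ring
      _ = 4 * d * 2 ^ j' * E ^ k := by rw [hs]
  have hk1 : E ^ k < E ^ (1 : ℤ) := by
    rw [zpow_one]
    by_contra hcon
    rw [not_lt] at hcon
    have h7 : E * 2 ^ j' ≤ 4 * d * 2 ^ j := (mul_le_mul_of_nonneg_right hcon hT'.le).trans hup
    have h8 : 4 * (d : ℝ) * 2 ^ j < E * 2 ^ j' :=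
      calc 4 * (d : ℝ) * 2 ^ j ≤ 2 ^ j * 2 ^ j := mul_le_mul_of_nonneg_right hB hT.le
        _ < 2 ^ j' * 2 ^ j' := by nlinarith
        _ < E * 2 ^ j' := mul_lt_mul_of_pos_right hE hT'
    linarith
  have hk2 : E ^ (-1 : ℤ) < E ^ k := by
    rw [zpow_neg, zpow_one]
    have h9 : 1 ≤ 2 ^ j' * E ^ k := by
      have h10 : 2 ^ j * 1 ≤ 2 ^ j * (2 ^ j' * E ^ k) := by
        calc (2 : ℝ) ^ j * 1 = 2 ^ j := mul_one _
          _ ≤ 4 * d * 2 ^ j' * E ^ k := hlow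
          _ = 4 * d * (2 ^ j' * E ^ k) := by ring
          _ ≤ 2 ^ j * (2 ^ j' * E ^ k) := mul_le_mul_of_nonneg_right hB (by positivity)
      exact le_of_mul_le_mul_left h10 hT
    rw [inv_lt_iff_one_lt_mul₀ (by linarith : 0 < E)]
    calc 1 ≤ 2 ^ j' * E ^ k := h9
      _ < E * E ^ k := mul_lt_mul_of_pos_right hE hk0
      _ = E ^ k * E := mul_comm _ _
  have h11 : k < 1 := (zpow_lt_zpow_iff_right₀ hE1).1 hk1
  have h12 : -1 < k := (zpow_lt_zpow_iff_right₀ hE1).1 hk2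
  have h13 : k = 0 := by omega
  rw [h13, zpow_zero, one_mul] at hup
  exact hup

/-- numbers of exponents -/
theorem C10_count (B : ℝ) (hB : 1 ≤ B) (S : Finset ℕ)
    (hS : ∀ j ∈ S, ∀ j' ∈ S, j < j' → (2 : ℝ) ^ j' ≤ B * 2 ^ j) :
    (S.card : ℝ) ≤ Real.logb 2 B + 1 := by
  have hlog : 0 ≤ Real.logb 2 B := Real.logb_nonneg (by norm_num) hB
  rcases S.eq_empty_or_nonempty with rfl | hne
  · simp only [Finset.card_empty, Nat.cast_zero]
    linarith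
  · set a := S.min' hne
    have ha : a ∈ S := S.min'_mem hne
    have hsub : S ⊆ Finset.Icc a (a + ⌊Real.logb 2 B⌋₊) := by
      intro j hj
      have h1 : a ≤ j := S.min'_le j hj
      rw [Finset.mem_Icc]
      refine ⟨h1, ?_⟩
      rcases h1.lt_or_eq with h2 | h2
      · have h3 := hS a ha j hj h2
        have h4 : (2 : ℝ) ^ (j - a) ≤ B := by
          have h5 : (2 : ℝ) ^ j = 2 ^ (j - a) * 2 ^ a := by
            rw [← pow_add, Nat.sub_add_cancel h1]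
          rw [h5] at h3
          exact le_of_mul_le_mul_right h3 (by positivity)
        have h6 : ((j - a : ℕ) : ℝ) ≤ Real.logb 2 B := by
          rw [Real.le_logb_iff_rpow_le (by norm_num) (by linarith), Real.rpow_natCast]
          exact h4
        have h7 : j - a ≤ ⌊Real.logb 2 B⌋₊ := Nat.le_floor h6
        omega
      · omega
    have h8 := Finset.card_le_card hsub
    rw [Nat.card_Icc] at h8
    have h9 : S.card ≤ ⌊Real.logb 2 B⌋₊ + 1 := by omega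
    calc (S.card : ℝ) ≤ ((⌊Real.logb 2 B⌋₊ + 1 : ℕ) : ℝ) := by exact_mod_cast h9
      _ = (⌊Real.logb 2 B⌋₊ : ℝ) + 1 := by push_cast; ring
      _ ≤ Real.logb 2 B + 1 := by
          have := Nat.floor_le hlog
          linarith

/-- Row C10. `n j = x^2 - d y^2 ≠ 0` (`d` not a square, `(x,y) ≠ 0`), `r j` = the residue of `x y⁻¹` mod `|n j|`
(`y` is prime to `n j`), so `(n j, r j) ∈ RR d n0`. Fibres: let `j < j'` be in `Js` with the same `(n, r)`, `T = 2^j`,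
`T' = 2^j'`, `π`, `π'` the two elements. `x x' - d y y' = 0` and `y x' - x y' = 0` mod `n`, so `π = η π'` with `η` of norm one in
`ℤ[√d]` (a `Pell.Solution₁`), `|η| = E^k` (`IsFundamental.eq_zpow_or_neg_zpow`). From `QQ ≤ B = 4 d`:
`T |π| ≤ √B`, `|π̄|/T ≤ √B`, `|n| ≥ 1`: `|π| ∈ [1/(√B T), √B/T]`, so `T'/(T B) ≤ |η| ≤ B T'/T`. If `T ≥ B`:
`|η| ≤ T' < E` and `|η| > 1/B ≥ 1/T > 1/E`; so `|η| = 1`, and `T' ≤ B T`. So each fibre has at most `log2 B + 1` elements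
with `T < B` and at most `log2 B + 1` elements with `T ≥ B`. -/
theorem scale_fibre (d : ℤ) (hd : 2 ≤ d) (hns : ¬ IsSquare d) (ε : Pell.Solution₁ d)
    (hε : Pell.IsFundamental ε) (n0 : ℝ) (x y : ℕ → ℤ) (Js : Finset ℕ)
    (hJ : ∀ j ∈ Js, (2 : ℝ) ^ j < rv d ε.x ε.y ∧ IsCoprime (x j) (y j) ∧
      QQ d j (x j) (y j) ≤ 4 * d ∧ |((x j ^ 2 - d * y j ^ 2 : ℤ) : ℝ)| ≤ n0) :
    (Js.card : ℝ) ≤ 2 * (Real.logb 2 (4 * d) + 1) * (RR d n0).ncard := by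
  classical
  have hd' : (2 : ℝ) ≤ d := by exact_mod_cast hd
  have hB1 : (1 : ℝ) ≤ 4 * d := by linarith
  have hlog : 0 ≤ Real.logb 2 (4 * d) := Real.logb_nonneg (by norm_num) hB1
  have hex : ∀ j : ℕ, ∃ r : ℤ, IsCoprime (x j) (y j) → (0 ≤ r ∧ r < |x j ^ 2 - d * y j ^ 2| ∧
      x j ^ 2 - d * y j ^ 2 ∣ r * y j - x j ∧ x j ^ 2 - d * y j ^ 2 ∣ r ^ 2 - d) := by
    intro j
    by_cases h : IsCoprime (x j) (y j)
    · obtain ⟨r, hr⟩ := C10_res d (x j) (y j) hns h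
      exact ⟨r, fun _ => hr⟩
    · exact ⟨0, fun h' => absurd h' h⟩
  choose r hr using hex
  have hmaps : ∀ j ∈ Js, (x j ^ 2 - d * y j ^ 2, r j) ∈ (RR_finite d n0).toFinset := by
    intro j hj
    rw [Set.Finite.mem_toFinset]
    obtain ⟨_, h2, _, h4⟩ := hJ j hj
    obtain ⟨r1, r2, r3, r4⟩ := hr j h2
    exact ⟨C10_ne_zero d hns _ _ h2, h4, r1, r2, r4⟩
  have hfib : ∀ z ∈ (RR_finite d n0).toFinset,
      (Js.filter fun j => (x j ^ 2 - d * y j ^ 2, r j) = z).card ≤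
        ⌊2 * (Real.logb 2 (4 * d) + 1)⌋₊ := by
    intro z _
    apply Nat.le_floor
    set F := Js.filter fun j => (x j ^ 2 - d * y j ^ 2, r j) = z with hF
    have h1 : (F.card : ℝ) = ((F.filter fun j => (2 : ℝ) ^ j < 4 * d).card : ℝ) +
        ((F.filter fun j => ¬ (2 : ℝ) ^ j < 4 * d).card : ℝ) := by
      exact_mod_cast (Finset.card_filter_add_card_filter_not (s := F)
        (fun j => (2 : ℝ) ^ j < 4 * d)).symm
    have h2 : ((F.filter fun j => (2 : ℝ) ^ j < 4 * d).card : ℝ) ≤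
        Real.logb 2 (4 * d) + 1 := by
      apply C10_count _ hB1
      intro j _ j' hj' _
      have h3 := (Finset.mem_filter.1 hj').2
      have h4 : (1 : ℝ) ≤ 2 ^ j := one_le_pow₀ (by norm_num)
      nlinarith
    have h5 : ((F.filter fun j => ¬ (2 : ℝ) ^ j < 4 * d).card : ℝ) ≤
        Real.logb 2 (4 * d) + 1 := by
      apply C10_count _ hB1
      intro j hj j' hj' hjj
      obtain ⟨hjF, hj1⟩ := Finset.mem_filter.1 hj
      obtain ⟨hjF', _⟩ := Finset.mem_filter.1 hj'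
      obtain ⟨hjJ, hjz⟩ := Finset.mem_filter.1 hjF
      obtain ⟨hjJ', hjz'⟩ := Finset.mem_filter.1 hjF'
      obtain ⟨_, a2, a3, _⟩ := hJ j hjJ
      obtain ⟨b1, b2, b3, _⟩ := hJ j' hjJ'
      obtain ⟨_, _, r3, r4⟩ := hr j a2
      obtain ⟨_, _, s3, _⟩ := hr j' b2
      have hz : (x j' ^ 2 - d * y j' ^ 2, r j') = (x j ^ 2 - d * y j ^ 2, r j) := by
        rw [hjz, hjz']
      have hz1 := congrArg Prod.fst hz
      have hz2 := congrArg Prod.snd hz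
      simp only at hz1 hz2
      rw [hz1, hz2] at s3
      exact C10_key d hd ε hε j j' (x j) (y j) (x j') (y j') (r j) hjj
        (C10_ne_zero d hns _ _ a2) hz1 r3 s3 r4 b1 a3 b3 (not_lt.1 hj1)
    rw [h1]
    linarith
  have h6 := Finset.card_le_mul_card_image_of_maps_to hmaps _ hfib
  rw [Set.ncard_eq_toFinset_card _ (RR_finite d n0)]
  calc (Js.card : ℝ) ≤ ((⌊2 * (Real.logb 2 (4 * d) + 1)⌋₊ *
        (RR_finite d n0).toFinset.card : ℕ) : ℝ) := by exact_mod_cast h6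
    _ = (⌊2 * (Real.logb 2 (4 * d) + 1)⌋₊ : ℝ) * (RR_finite d n0).toFinset.card := by
        push_cast; ring
    _ ≤ 2 * (Real.logb 2 (4 * d) + 1) * (RR_finite d n0).toFinset.card :=
        mul_le_mul_of_nonneg_right (Nat.floor_le (by positivity)) (Nat.cast_nonneg _)

end N78
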