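import Pool.Agent.LibN78.C10

namespace N78

private theorem C11_tele (n a : ℝ) (hn : 0 < n) (ha : n < a) :
    1 / (a * √a) ≤ 2 / n * (1 / √(a - n) - 1 / √a) := by
  have ha0 : 0 < a := hn.trans ha
  set u := √(a - n) with hu
  set v := √a with hv
  have hu0 : 0 < u := Real.sqrt_pos.2 (by linarith)
  have hv0 : 0 < v := Real.sqrt_pos.2 ha0
  have hu2 : u ^ 2 = a - n := Real.sq_sqrt (by linarith)
  have hv2 : v ^ 2 = a := Real.sq_sqrt ha0.le
  have huv : u ≤ v := Real.sqrt_le_sqrt (by linarith)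
  have hne : n = (v - u) * (v + u) := by linear_combination hu2 - hv2
  have hvu : 0 < v - u := by
    by_contra h
    have h1 : v - u = 0 := le_antisymm (not_lt.1 h) (by linarith)
    rw [h1, zero_mul] at hne
    linarith
  have h1 : 2 / n * (1 / u - 1 / v) = 2 / ((v + u) * (u * v)) := by
    rw [hne]
    field_simp
  have h2 : a * v = v * (v * v) := by
    rw [← hv2]
    ring
  rw [h1, h2, div_le_div_iff₀ (by positivity) (by positivity)]
  have h3 : (v + u) * (u * v) ≤ (v + v) * (v * v) := by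
    refine mul_le_mul (by linarith) (mul_le_mul_of_nonneg_right huv hv0.le) (by positivity)
      (by positivity)
  linarith

/-- Row C11a. `∑_{d ≥ D0, d = r mod n} 1/(d √d) ≤ 1/(D0 √D0) + (2/n)/√D0` (`D0 > 0` real; comparison with
`∫ t^(-3/2)`, or telescoping `1/(d√d) ≤ (2/n)(1/√(d-n) - 1/√d)` for `d > n`). -/
theorem ap_sum (n : ℕ) (hn : 1 ≤ n) (r : ℤ) (D0 : ℝ) (h0 : 0 < D0) (S : Finset ℕ)
    (hS : ∀ d ∈ S, D0 ≤ (d : ℝ) ∧ (d : ℤ) ≡ r [ZMOD n]) :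
    ∑ d ∈ S, 1 / ((d : ℝ) * √(d : ℝ)) ≤ 1 / (D0 * √D0) + 2 / (n * √D0) := by
  have hn0 : (0 : ℝ) < n := by exact_mod_cast hn
  have hs0 : 0 < √D0 := Real.sqrt_pos.2 h0
  have key : ∀ S : Finset ℕ, (∀ d ∈ S, D0 ≤ (d : ℝ) ∧ (d : ℤ) ≡ r [ZMOD n]) →
      ∀ B : ℝ, D0 ≤ B → (∀ d ∈ S, (d : ℝ) ≤ B) →
        ∑ d ∈ S, 1 / ((d : ℝ) * √(d : ℝ)) ≤ 1 / (D0 * √D0) + 2 / n * (1 / √D0 - 1 / √B) := by
    intro S
    induction S using Finset.induction_on_max with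
    | empty =>
      intro _ B hB _
      rw [Finset.sum_empty]
      have h1 : 1 / √B ≤ 1 / √D0 := one_div_le_one_div_of_le hs0 (Real.sqrt_le_sqrt hB)
      have h2 : 0 ≤ 2 / (n : ℝ) * (1 / √D0 - 1 / √B) :=
        mul_nonneg (by positivity) (by linarith)
      have h3 : 0 ≤ 1 / (D0 * √D0) := by positivity
      linarith
    | insert a S hmax ih =>
      intro hS B hB hSB
      have haS : a ∉ S := fun h => lt_irrefl _ (hmax a h)
      rw [Finset.sum_insert haS]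
      have haB : (a : ℝ) ≤ B := hSB a (Finset.mem_insert_self _ _)
      obtain ⟨haD, har⟩ := hS a (Finset.mem_insert_self _ _)
      have ha0 : (0 : ℝ) < a := h0.trans_le haD
      have hsa0 : 0 < √(a : ℝ) := Real.sqrt_pos.2 ha0
      have hsB : 1 / √B ≤ 1 / √(a : ℝ) := one_div_le_one_div_of_le hsa0 (Real.sqrt_le_sqrt haB)
      rcases S.eq_empty_or_nonempty with hE | ⟨x, hx⟩
      · subst hE
        rw [Finset.sum_empty, add_zero]
        have h1 : 1 / ((a : ℝ) * √(a : ℝ)) ≤ 1 / (D0 * √D0) :=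
          one_div_le_one_div_of_le (by positivity)
            (mul_le_mul haD (Real.sqrt_le_sqrt haD) hs0.le ha0.le)
        have h2 : 1 / √(a : ℝ) ≤ 1 / √D0 := one_div_le_one_div_of_le hs0 (Real.sqrt_le_sqrt haD)
        have h3 : 0 ≤ 2 / (n : ℝ) * (1 / √D0 - 1 / √B) :=
          mul_nonneg (by positivity) (by linarith)
        linarith
      · have hstep : ∀ d ∈ S, (d : ℝ) ≤ (a : ℝ) - n := by
          intro d hd
          have h1 : d < a := hmax d hd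
          have h2 : (d : ℤ) ≡ a [ZMOD n] :=
            (hS d (Finset.mem_insert_of_mem hd)).2.trans har.symm
          have h3 : (n : ℤ) ∣ a - d := Int.modEq_iff_dvd.1 h2
          have h4 : (n : ℤ) ≤ a - d := Int.le_of_dvd (by omega) h3
          have h5 : (n : ℝ) ≤ (a : ℝ) - d := by exact_mod_cast h4
          linarith
        have hxD : D0 ≤ (x : ℝ) := (hS x (Finset.mem_insert_of_mem hx)).1
        have hxa := hstep x hx
        have hna : (n : ℝ) < a := by linarith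
        have h1 := ih (fun d hd => hS d (Finset.mem_insert_of_mem hd)) ((a : ℝ) - n)
          (hxD.trans hxa) hstep
        have h2 := C11_tele n a hn0 hna
        have h3 : 0 ≤ 2 / (n : ℝ) * (1 / √(a : ℝ) - 1 / √B) :=
          mul_nonneg (by positivity) (by linarith)
        calc 1 / ((a : ℝ) * √(a : ℝ)) + ∑ d ∈ S, 1 / ((d : ℝ) * √(d : ℝ))
            ≤ 2 / n * (1 / √((a : ℝ) - n) - 1 / √(a : ℝ)) +
              (1 / (D0 * √D0) + 2 / n * (1 / √D0 - 1 / √((a : ℝ) - n))) := add_le_add h2 h1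
          _ = 1 / (D0 * √D0) + 2 / n * (1 / √D0 - 1 / √(a : ℝ)) := by ring
          _ ≤ 1 / (D0 * √D0) + 2 / n * (1 / √D0 - 1 / √B) := by
            have h4 : 2 / (n : ℝ) * (1 / √D0 - 1 / √B) =
                2 / (n : ℝ) * (1 / √D0 - 1 / √(a : ℝ)) + 2 / (n : ℝ) * (1 / √(a : ℝ) - 1 / √B) := by
              ring
            rw [h4]
            linarith
  set B : ℝ := max D0 ((S.sup id : ℕ) : ℝ) with hB
  have h1 := key S hS B (le_max_left _ _) fun d hd =>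
    le_trans (by exact_mod_cast Finset.le_sup (f := id) hd) (le_max_right _ _)
  refine h1.trans ?_
  have h2 : 0 ≤ 2 / (n : ℝ) * (1 / √B) := by positivity
  have h3 : 2 / ((n : ℝ) * √D0) = 2 / n * (1 / √D0) := by
    rw [div_mul_div_comm, mul_one]
  rw [h3]
  linarith [mul_sub (2 / (n : ℝ)) (1 / √D0) (1 / √B)]

/-- the exchange of the sums -/
private theorem C11_main (X N : ℕ) (n0 : ℕ → ℝ)
    (hN : ∀ d ∈ Finset.Icc 2 X, ∀ m : ℕ, (m : ℝ) ≤ n0 d → m ≤ N) (B : ℕ → ℝ)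
    (hB : ∀ m ∈ Finset.Icc 1 N, ∀ (S : Finset ℕ) (r : ℤ),
      (∀ d ∈ S, 2 ≤ d ∧ (m : ℝ) ≤ n0 d ∧ (d : ℤ) ≡ r [ZMOD m]) →
        ∑ d ∈ S, 1 / ((d : ℝ) * √(d : ℝ)) ≤ B m) :
    ∑ d ∈ Finset.Icc 2 X, ((RR d (n0 d)).ncard : ℝ) / ((d : ℝ) * √(d : ℝ)) ≤
      ∑ m ∈ Finset.Icc 1 N, 2 * (m * B m) := by
  classical
  have hcard : ∀ d ∈ Finset.Icc 2 X, ((RR d (n0 d)).ncard : ℝ) ≤
      ∑ m ∈ Finset.Icc 1 N, ∑ r ∈ Finset.range m,
        if ((m : ℝ) ≤ n0 d ∧ (m : ℤ) ∣ (r : ℤ) ^ 2 - d) then (2 : ℝ) else 0 := by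
    intro d hd
    set F : Finset (ℤ × ℤ) := (Finset.Icc 1 N).biUnion fun m =>
      ((Finset.range m).filter fun r : ℕ => (m : ℝ) ≤ n0 d ∧ (m : ℤ) ∣ (r : ℤ) ^ 2 - d).biUnion
        fun r => {((m : ℤ), (r : ℤ)), (-(m : ℤ), (r : ℤ))} with hF
    have hsub : RR d (n0 d) ⊆ (F : Set (ℤ × ℤ)) := by
      rintro ⟨a, b⟩ ⟨h1, h2, h3, h4, h5⟩
      simp only at h1 h2 h3 h4 h5
      have ha : ((a.natAbs : ℕ) : ℤ) = |a| := Int.natCast_natAbs a
      have hb : ((b.toNat : ℕ) : ℤ) = b := Int.toNat_of_nonneg h3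
      have haR : ((a.natAbs : ℕ) : ℝ) = |(a : ℝ)| := by
        rw [← Int.cast_abs, ← ha, Int.cast_natCast]
      rw [hF, Finset.mem_coe, Finset.mem_biUnion]
      refine ⟨a.natAbs, ?_, ?_⟩
      · rw [Finset.mem_Icc]
        exact ⟨Int.natAbs_pos.2 h1, hN d hd _ (by rw [haR]; exact h2)⟩
      · rw [Finset.mem_biUnion]
        refine ⟨b.toNat, ?_, ?_⟩
        · rw [Finset.mem_filter, Finset.mem_range]
          refine ⟨by omega, by rw [haR]; exact h2, ?_⟩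
          rw [ha, hb, abs_dvd]
          exact h5
        · rw [ha, hb, Finset.mem_insert, Finset.mem_singleton]
          rcases le_total 0 a with h | h
          · left
            rw [abs_of_nonneg h]
          · right
            rw [abs_of_nonpos h, neg_neg]
    have h1 : (RR d (n0 d)).ncard ≤ F.card := by
      rw [← Set.ncard_coe_finset F]
      exact Set.ncard_le_ncard hsub F.finite_toSet
    have h2 : F.card ≤ ∑ m ∈ Finset.Icc 1 N,
        ∑ r ∈ (Finset.range m).filter (fun r : ℕ => (m : ℝ) ≤ n0 d ∧ (m : ℤ) ∣ (r : ℤ) ^ 2 - d),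
          2 := by
      refine Finset.card_biUnion_le.trans (Finset.sum_le_sum fun m _ => ?_)
      refine Finset.card_biUnion_le.trans (Finset.sum_le_sum fun r _ => ?_)
      exact Finset.card_le_two
    have h3 : ((RR d (n0 d)).ncard : ℝ) ≤ ((∑ m ∈ Finset.Icc 1 N,
        ∑ r ∈ (Finset.range m).filter (fun r : ℕ => (m : ℝ) ≤ n0 d ∧ (m : ℤ) ∣ (r : ℤ) ^ 2 - d),
          2 : ℕ) : ℝ) := by
      exact_mod_cast h1.trans h2
    refine h3.trans (le_of_eq ?_)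
    push_cast
    refine Finset.sum_congr rfl fun m _ => ?_
    rw [Finset.sum_filter]
  calc ∑ d ∈ Finset.Icc 2 X, ((RR d (n0 d)).ncard : ℝ) / ((d : ℝ) * √(d : ℝ))
      ≤ ∑ d ∈ Finset.Icc 2 X, (∑ m ∈ Finset.Icc 1 N, ∑ r ∈ Finset.range m,
          if ((m : ℝ) ≤ n0 d ∧ (m : ℤ) ∣ (r : ℤ) ^ 2 - d) then (2 : ℝ) else 0) /
            ((d : ℝ) * √(d : ℝ)) :=
        Finset.sum_le_sum fun d hd => div_le_div_of_nonneg_right (hcard d hd) (by positivity)
    _ = ∑ m ∈ Finset.Icc 1 N, ∑ r ∈ Finset.range m, ∑ d ∈ Finset.Icc 2 X,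
          (if ((m : ℝ) ≤ n0 d ∧ (m : ℤ) ∣ (r : ℤ) ^ 2 - d) then
            2 * (1 / ((d : ℝ) * √(d : ℝ))) else 0) := by
        simp only [Finset.sum_div]
        rw [Finset.sum_comm]
        refine Finset.sum_congr rfl fun m _ => ?_
        rw [Finset.sum_comm]
        refine Finset.sum_congr rfl fun r _ => Finset.sum_congr rfl fun d _ => ?_
        split_ifs
        · ring
        · rw [zero_div]
    _ = ∑ m ∈ Finset.Icc 1 N, ∑ r ∈ Finset.range m,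
          2 * ∑ d ∈ (Finset.Icc 2 X).filter (fun d : ℕ => (m : ℝ) ≤ n0 d ∧
            (m : ℤ) ∣ (r : ℤ) ^ 2 - d), 1 / ((d : ℝ) * √(d : ℝ)) := by
        refine Finset.sum_congr rfl fun m _ => Finset.sum_congr rfl fun r _ => ?_
        rw [Finset.mul_sum, Finset.sum_filter]
    _ ≤ ∑ m ∈ Finset.Icc 1 N, ∑ r ∈ Finset.range m, 2 * B m := by
        refine Finset.sum_le_sum fun m hm => Finset.sum_le_sum fun r _ => ?_
        refine mul_le_mul_of_nonneg_left (hB m hm _ ((r : ℤ) ^ 2) fun d hd => ?_) (by norm_num)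
        rw [Finset.mem_filter, Finset.mem_Icc] at hd
        exact ⟨hd.1.1, hd.2.1, Int.modEq_iff_dvd.2 hd.2.2⟩
    _ = ∑ m ∈ Finset.Icc 1 N, 2 * (m * B m) := by
        refine Finset.sum_congr rfl fun m _ => ?_
        rw [Finset.sum_const, Finset.card_range, nsmul_eq_mul]
        ring

/-- Row C11b. Exchange the sums: `(n, r) ∈ RR d (2√d)` means `d ≥ n^2/4`, `d = r^2` mod `n`; `n ≤ 2 √X`. For each `|n|`
(two signs) and each of the `|n|` residues `r`, `ap_sum` with `D0 = n^2/4`: `8/n^3 + 4/n^2 ≤ 12/n^2`. Sum: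
`2 ∑_{n ≤ 2√X} n * 12/n^2 ≤ 24 (1 + log (2√X))`. -/
theorem sum_RR_balanced : ∃ C : ℝ, 0 < C ∧ ∀ X : ℕ, 2 ≤ X →
    ∑ d ∈ Finset.Icc 2 X, ((RR d (2 * √(d : ℝ))).ncard : ℝ) / ((d : ℝ) * √(d : ℝ))
      ≤ C * Real.log X := by
  refine ⟨240, by norm_num, fun X hX => ?_⟩
  have hX2 : (2 : ℝ) ≤ X := by exact_mod_cast hX
  have h1 := C11_main X ⌊2 * √(X : ℝ)⌋₊ (fun d => 2 * √(d : ℝ)) (by
    intro d hd m hm
    refine Nat.le_floor (hm.trans ?_)
    have : (d : ℝ) ≤ X := by exact_mod_cast (Finset.mem_Icc.1 hd).2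
    exact mul_le_mul_of_nonneg_left (Real.sqrt_le_sqrt this) (by norm_num))
    (fun m => 12 / (m : ℝ) ^ 2) (by
    intro m hm S r hS
    have hm1 : 1 ≤ m := (Finset.mem_Icc.1 hm).1
    have hmR : (1 : ℝ) ≤ m := by exact_mod_cast hm1
    have hm0 : (0 : ℝ) < m := by linarith
    have h2 := ap_sum m hm1 r ((m : ℝ) ^ 2 / 4) (by positivity) S fun d hd => by
      obtain ⟨_, h4, h5⟩ := hS d hd
      refine ⟨?_, h5⟩
      have h6 : (m : ℝ) ^ 2 ≤ (2 * √(d : ℝ)) ^ 2 := pow_le_pow_left₀ hm0.le h4 2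
      rw [mul_pow, Real.sq_sqrt (Nat.cast_nonneg _)] at h6
      linarith
    refine h2.trans ?_
    have h7 : √((m : ℝ) ^ 2 / 4) = m / 2 := by
      rw [show (m : ℝ) ^ 2 / 4 = ((m : ℝ) / 2) ^ 2 by ring]
      exact Real.sqrt_sq (by positivity)
    rw [h7]
    have h8 : 1 / ((m : ℝ) ^ 2 / 4 * (m / 2)) = 8 / ((m : ℝ) ^ 2 * m) := by
      field_simp
      norm_num
    have h9 : 2 / ((m : ℝ) * (m / 2)) = 4 / (m : ℝ) ^ 2 := by
      field_simp
      norm_num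
    rw [h8, h9]
    have h10 : 8 / ((m : ℝ) ^ 2 * m) ≤ 8 / (m : ℝ) ^ 2 := by
      refine div_le_div_of_nonneg_left (by norm_num) (by positivity) ?_
      exact le_mul_of_one_le_right (by positivity) hmR
    have h11 : 8 / (m : ℝ) ^ 2 + 4 / (m : ℝ) ^ 2 = 12 / (m : ℝ) ^ 2 := by
      rw [← add_div]
      norm_num
    linarith)
  refine h1.trans ?_
  set N := ⌊2 * √(X : ℝ)⌋₊ with hNdef
  have hN1 : 1 ≤ N := by
    refine Nat.le_floor ?_
    have : (1 : ℝ) ≤ √(X : ℝ) := Real.one_le_sqrt.2 (by linarith)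
    push_cast
    linarith
  have hNR : (N : ℝ) ≤ 2 * √(X : ℝ) := Nat.floor_le (by positivity)
  have hN0 : (0 : ℝ) < N := by exact_mod_cast hN1
  have h2 : ∑ m ∈ Finset.Icc 1 N, 2 * ((m : ℝ) * (12 / (m : ℝ) ^ 2)) =
      24 * ∑ m ∈ Finset.Icc 1 N, 1 / (m : ℝ) := by
    rw [Finset.mul_sum]
    refine Finset.sum_congr rfl fun m hm => ?_
    have hm0 : (m : ℝ) ≠ 0 := by
      have := (Finset.mem_Icc.1 hm).1
      positivity
    field_simp
    norm_num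
  rw [h2]
  have h3 : ∑ m ∈ Finset.Icc 1 N, 1 / (m : ℝ) ≤ 1 + Real.log N := by
    have h4 := harmonic_le_one_add_log N
    have h5 : ((harmonic N : ℚ) : ℝ) = ∑ m ∈ Finset.Icc 1 N, 1 / (m : ℝ) := by
      rw [harmonic_eq_sum_Icc]
      push_cast
      exact Finset.sum_congr rfl fun m _ => by rw [one_div]
    rwa [h5] at h4
  have h4 : Real.log N ≤ Real.log 2 + Real.log X := by
    rw [← Real.log_mul (by norm_num) (by positivity)]
    refine Real.log_le_log hN0 (hNR.trans ?_)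
    refine mul_le_mul_of_nonneg_left ?_ (by norm_num)
    rw [Real.sqrt_le_left (by positivity)]
    nlinarith
  have h5 : Real.log 2 ≤ Real.log X := Real.log_le_log (by norm_num) hX2
  have h6 : (0.6931471803 : ℝ) < Real.log 2 := Real.log_two_gt_d9
  nlinarith

private theorem C11_sqrt_sum (N : ℕ) : ∑ m ∈ Finset.Icc 1 N, 1 / √(m : ℝ) ≤ 2 * √(N : ℝ) := by
  induction N with
  | zero => simp
  | succ N ih =>
    rw [Finset.sum_Icc_succ_top (by omega)]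
    set u := √(N : ℝ) with hu
    set v := √((N + 1 : ℕ) : ℝ) with hv
    have hu0 : 0 ≤ u := Real.sqrt_nonneg _
    have hv0 : 0 < v := Real.sqrt_pos.2 (by positivity)
    have hu2 : u ^ 2 = N := Real.sq_sqrt (Nat.cast_nonneg _)
    have hv2 : v ^ 2 = N + 1 := by
      rw [hv, Real.sq_sqrt (Nat.cast_nonneg _)]
      push_cast
      ring
    have huv : u ≤ v := Real.sqrt_le_sqrt (by push_cast; linarith)
    have h1 : 1 / v ≤ 2 * (v - u) := by
      rw [div_le_iff₀ hv0]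
      nlinarith
    linarith

/-- Row C11c. `(n, r) ∈ RR d (μ d)` means `d ≥ |n|/μ`. `ap_sum` with `D0 = |n|/μ`: for each `(n,r)`
`(μ/n)^(3/2) + (2/n)(μ/n)^(1/2) ≤ 3 μ^(1/2) n^(-3/2)` (`μ ≤ 1`, `n ≥ 1`). Sum over `n ≤ μ X`, `n` residues, two signs:
`6 μ^(1/2) ∑_{n ≤ μX} n^(-1/2) ≤ 12 μ^(1/2) (μ X)^(1/2)`. -/
theorem sum_RR_unbalanced : ∃ C : ℝ, 0 < C ∧ ∀ (X : ℕ) (μ : ℝ), 0 < μ → μ ≤ 1 →
    ∑ d ∈ Finset.Icc 2 X, ((RR d (μ * d)).ncard : ℝ) / ((d : ℝ) * √(d : ℝ)) ≤ C * μ * √(X : ℝ) := by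
  refine ⟨12, by norm_num, fun X μ hμ0 hμ1 => ?_⟩
  have hsμ : 0 < √μ := Real.sqrt_pos.2 hμ0
  have h1 := C11_main X ⌊μ * X⌋₊ (fun d => μ * d) (by
    intro d hd m hm
    refine Nat.le_floor (hm.trans ?_)
    have : (d : ℝ) ≤ X := by exact_mod_cast (Finset.mem_Icc.1 hd).2
    exact mul_le_mul_of_nonneg_left this hμ0.le)
    (fun m => 3 * √μ / ((m : ℝ) * √(m : ℝ))) (by
    intro m hm S r hS
    have hm1 : 1 ≤ m := (Finset.mem_Icc.1 hm).1
    have hmR : (1 : ℝ) ≤ m := by exact_mod_cast hm1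
    have hm0 : (0 : ℝ) < m := by linarith
    have hsm : 0 < √(m : ℝ) := Real.sqrt_pos.2 hm0
    have h2 := ap_sum m hm1 r ((m : ℝ) / μ) (by positivity) S fun d hd => by
      obtain ⟨_, h4, h5⟩ := hS d hd
      refine ⟨?_, h5⟩
      rw [div_le_iff₀ hμ0]
      linarith
    refine h2.trans ?_
    have h7 : √((m : ℝ) / μ) = √(m : ℝ) / √μ := Real.sqrt_div hm0.le μ
    have h8 : 1 / ((m : ℝ) / μ * √((m : ℝ) / μ)) = μ * √μ / ((m : ℝ) * √(m : ℝ)) := by
      rw [h7]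
      field_simp
    have h9 : 2 / ((m : ℝ) * √((m : ℝ) / μ)) = 2 * √μ / ((m : ℝ) * √(m : ℝ)) := by
      rw [h7]
      field_simp
    rw [h8, h9, ← add_div]
    refine div_le_div_of_nonneg_right ?_ (by positivity)
    nlinarith)
  refine h1.trans ?_
  have h2 : ∑ m ∈ Finset.Icc 1 ⌊μ * X⌋₊, 2 * ((m : ℝ) * (3 * √μ / ((m : ℝ) * √(m : ℝ)))) =
      6 * √μ * ∑ m ∈ Finset.Icc 1 ⌊μ * X⌋₊, 1 / √(m : ℝ) := by
    rw [Finset.mul_sum]
    refine Finset.sum_congr rfl fun m hm => ?_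
    have hm0 : (0 : ℝ) < m := by
      have := (Finset.mem_Icc.1 hm).1
      positivity
    have hsm : 0 < √(m : ℝ) := Real.sqrt_pos.2 hm0
    field_simp
    norm_num
  rw [h2]
  have h3 : √((⌊μ * X⌋₊ : ℕ) : ℝ) ≤ √μ * √(X : ℝ) := by
    rw [← Real.sqrt_mul hμ0.le]
    exact Real.sqrt_le_sqrt (Nat.floor_le (by positivity))
  calc 6 * √μ * ∑ m ∈ Finset.Icc 1 ⌊μ * X⌋₊, 1 / √(m : ℝ)
      ≤ 6 * √μ * (2 * (√μ * √(X : ℝ))) := by
        refine mul_le_mul_of_nonneg_left ((C11_sqrt_sum _).trans ?_) (by positivity)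
        linarith
    _ = 12 * (√μ * √μ) * √(X : ℝ) := by ring
    _ = 12 * μ * √(X : ℝ) := by rw [Real.mul_self_sqrt hμ0.le]

end N78
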