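import Pool.Agent.LibN78.Defs

namespace N78

/-- the monoid homomorphism `a ↦ x + y θ` to a field containing a root `θ` of `d` -/
private noncomputable def C3_psi (d : ℤ) (K : Type) [Field K] (θ : K) (hθ : θ * θ = (d : K)) :
    Pell.Solution₁ d →* K where
  toFun a := (a.x : K) + (a.y : K) * θ
  map_one' := by simp
  map_mul' a b := by
    rw [Pell.Solution₁.x_mul, Pell.Solution₁.y_mul]
    push_cast
    rw [← hθ]
    ring

private theorem C3_frob (d : ℤ) (p : ℕ) [Fact p.Prime] (hp2 : p ≠ 2) (hpd : ¬ (p : ℤ) ∣ d)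
    (K : Type) [Field K] [CharP K p] (θ : K) (hθ : θ * θ = (d : K)) (x y : ℤ) :
    ((x : K) + (y : K) * θ) ^ (p ^ 2) = (x : K) + (y : K) * θ := by
  have hp : p.Prime := Fact.out
  have hodd : Odd p := hp.odd_of_ne_two hp2
  have : ExpChar K p := ExpChar.prime hp
  have hd0 : ((d : ℤ) : ZMod p) ≠ 0 := by
    intro h
    exact hpd ((ZMod.intCast_zmod_eq_zero_iff_dvd d p).1 h)
  have hd1 : ((d : ℤ) : ZMod p) ^ (p - 1) = 1 := ZMod.pow_card_sub_one_eq_one hd0
  have hdK : ((d : ℤ) : K) ^ (p - 1) = 1 := by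
    have h := congrArg (ZMod.castHom (dvd_refl p) K) hd1
    simpa using h
  have hθp : θ ^ (p ^ 2) = θ := by
    obtain ⟨m, hm⟩ := hodd
    have h1 : p ^ 2 = 2 * ((p - 1) * ((p + 1) / 2)) + 1 := by
      have h2 : (p + 1) / 2 = m + 1 := by omega
      have h3 : p - 1 = 2 * m := by omega
      rw [h2, h3, hm]
      ring
    rw [h1, pow_succ, pow_mul, pow_two, hθ, pow_mul, hdK, one_pow, one_mul]
  have hint : ∀ n : ℤ, ((n : K)) ^ (p ^ 2) = (n : K) := by
    intro n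
    have h := map_intCast (iterateFrobenius K p 2) n
    rwa [iterateFrobenius_def] at h
  rw [add_pow_expChar_pow, mul_pow, hθp, hint, hint]

/-- Row C3. In a commutative ring of characteristic `p` containing `θ` with `θ^2 = d`, with basis `1, θ` over
`ZMod p` (for instance `QuadraticAlgebra`, or pairs with the multiplication
`(x,y)(x',y') = (x x' + d y y', x y' + y x')`, or `ℤ√d` modulo `p`): `(x + yθ)^p = x + y d^((p-1)/2) θ = x ± yθ`
(`d^((p-1)/2) = ±1`, `ZMod.euler..`/`ZMod.pow_div_two_eq_neg_one_or_one`), so for norm one `ε^p = ε` or `ε^p = ε⁻¹`, and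
`ε^(p^2-1) = 1` mod `p`. As `p^2 - 1 ∣ J ∣ k - l`, `ε^k = ε^l` mod `p`. -/
theorem period (d : ℤ) (ε : Pell.Solution₁ d) (p J : ℕ) (hp : p.Prime) (hp2 : p ≠ 2)
    (hpd : ¬ (p : ℤ) ∣ d) (hJ : p ^ 2 - 1 ∣ J) (k l : ℤ) (h : k ≡ l [ZMOD J]) :
    (((ε ^ k).x : ℤ) : ZMod p) = (((ε ^ l).x : ℤ) : ZMod p) ∧
    (((ε ^ k).y : ℤ) : ZMod p) = (((ε ^ l).y : ℤ) : ZMod p) := by
  have : Fact p.Prime := ⟨hp⟩
  let K := AlgebraicClosure (ZMod p)
  have : CharP K p := charP_of_injective_algebraMap (algebraMap (ZMod p) K).injective p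
  obtain ⟨θ, hθ'⟩ := IsAlgClosed.exists_pow_nat_eq ((d : ℤ) : K) (n := 2) (by norm_num)
  have hθ : θ * θ = ((d : ℤ) : K) := by rw [← pow_two]; exact hθ'
  have hinj : ∀ a b : ℤ, (a : K) = (b : K) → ((a : ℤ) : ZMod p) = ((b : ℤ) : ZMod p) := by
    intro a b hab
    apply (algebraMap (ZMod p) K).injective
    rw [map_intCast, map_intCast, hab]
  have hd0 : ((d : ℤ) : K) ≠ 0 := by
    intro h0
    have h1 := hinj d 0 (by simpa using h0)
    apply hpd
    exact (ZMod.intCast_zmod_eq_zero_iff_dvd d p).1 (by simpa using h1)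
  have hθ0 : θ ≠ 0 := by
    rintro rfl
    apply hd0
    rw [← hθ, mul_zero]
  have h20 : (2 : K) ≠ 0 := by
    intro h2
    have h3 : ((2 : ℕ) : K) = 0 := by exact_mod_cast h2
    rw [CharP.cast_eq_zero_iff K p] at h3
    exact hp2 ((Nat.prime_dvd_prime_iff_eq hp Nat.prime_two).1 h3)
  set ψ : Pell.Solution₁ d →* Kˣ := (C3_psi d K θ hθ).toHomUnits with hψ
  have hval : ∀ a : Pell.Solution₁ d, ((ψ a : Kˣ) : K) = (a.x : K) + (a.y : K) * θ := by
    intro a
    rfl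
  have hone : (ψ ε) ^ (p ^ 2 - 1) = 1 := by
    have h1 : (ψ ε) ^ (p ^ 2) = ψ ε := by
      apply Units.ext
      rw [Units.val_pow_eq_pow_val, hval]
      exact C3_frob d p hp2 hpd K θ hθ _ _
    have hpos : 1 ≤ p ^ 2 := Nat.one_le_pow _ _ hp.pos
    have h2 : (ψ ε) ^ (p ^ 2 - 1) * (ψ ε) = ψ ε := by
      rw [← pow_succ, Nat.sub_add_cancel hpos, h1]
    exact mul_eq_right.1 h2
  have hord : orderOf (ψ ε) ∣ J := (orderOf_dvd_of_pow_eq_one hone).trans hJ
  have hmod : ∀ k l : ℤ, k ≡ l [ZMOD J] → (ψ ε) ^ k = (ψ ε) ^ l := by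
    intro k l hkl
    rw [zpow_eq_zpow_iff_modEq]
    exact hkl.of_dvd (Int.natCast_dvd_natCast.2 hord)
  have hx : ∀ k : ℤ, (ε ^ (-k)).x = (ε ^ k).x := by
    intro k
    rw [zpow_neg, Pell.Solution₁.x_inv]
  have hy : ∀ k : ℤ, (ε ^ (-k)).y = -(ε ^ k).y := by
    intro k
    rw [zpow_neg, Pell.Solution₁.y_inv]
  have e1 : ((ε ^ k).x : K) + ((ε ^ k).y : K) * θ = ((ε ^ l).x : K) + ((ε ^ l).y : K) * θ := by
    rw [← hval, ← hval, map_zpow, map_zpow, hmod k l h]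
  have e2 : ((ε ^ k).x : K) - ((ε ^ k).y : K) * θ = ((ε ^ l).x : K) - ((ε ^ l).y : K) * θ := by
    have e3 : (((ε ^ (-k)).x : ℤ) : K) + (((ε ^ (-k)).y : ℤ) : K) * θ
        = (((ε ^ (-l)).x : ℤ) : K) + (((ε ^ (-l)).y : ℤ) : K) * θ := by
      rw [← hval, ← hval, map_zpow, map_zpow, hmod (-k) (-l) h.neg]
    rw [hx, hx, hy, hy] at e3
    push_cast at e3
    linear_combination e3
  constructor
  · apply hinj
    have : (2 : K) * ((ε ^ k).x : K) = 2 * ((ε ^ l).x : K) := by linear_combination e1 + e2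
    exact mul_left_cancel₀ h20 this
  · apply hinj
    have : (2 * θ : K) * ((ε ^ k).y : K) = 2 * θ * ((ε ^ l).y : K) := by linear_combination e1 - e2
    exact mul_left_cancel₀ (mul_ne_zero h20 hθ0) this

end N78
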