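import Pool.Agent.LibN78.Defs

namespace N78

/-- The form. -/
private def C4_q (α β γ : ℝ) (x y : ℤ) : ℝ := α * x ^ 2 + 2 * β * x * y + γ * y ^ 2

private theorem C4_mul (α β γ : ℝ) (x y : ℤ) :
    α * C4_q α β γ x y = (α * x + β * y) ^ 2 + (α * γ - β ^ 2) * (y : ℝ) ^ 2 := by
  unfold C4_q; ring

private theorem C4_mul' (α β γ : ℝ) (x y : ℤ) :
    γ * C4_q α β γ x y = (γ * y + β * x) ^ 2 + (α * γ - β ^ 2) * (x : ℝ) ^ 2 := by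
  unfold C4_q; ring

private theorem C4_pos (α β γ : ℝ) (hα : 0 < α) (hΔ : 0 < α * γ - β ^ 2) (x y : ℤ)
    (h : ¬ (x = 0 ∧ y = 0)) : 0 < C4_q α β γ x y := by
  have h1 := C4_mul α β γ x y
  have h2 : 0 < α * C4_q α β γ x y := by
    rw [h1]
    by_cases hy : y = 0
    · have hx : x ≠ 0 := fun hx => h ⟨hx, hy⟩
      have hx' : (x : ℝ) ≠ 0 := by exact_mod_cast hx
      have h3 : 0 < (α * x) ^ 2 :=
        lt_of_le_of_ne (sq_nonneg _) (Ne.symm (pow_ne_zero 2 (mul_ne_zero hα.ne' hx')))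
      rw [hy, Int.cast_zero, mul_zero, add_zero]
      simpa using h3
    · have hy' : (y : ℝ) ≠ 0 := by exact_mod_cast hy
      have h3 : 0 < (y : ℝ) ^ 2 := lt_of_le_of_ne (sq_nonneg _) (Ne.symm (pow_ne_zero 2 hy'))
      exact add_pos_of_nonneg_of_pos (sq_nonneg _) (mul_pos hΔ h3)
  exact (mul_pos_iff_of_pos_left hα).mp h2

private theorem C4_abs (x : ℤ) (B : ℝ) (h : (x : ℝ) ^ 2 ≤ B) : x ∈ Set.Icc (-⌊B⌋) ⌊B⌋ := by
  have h1 : x ^ 2 ≤ ⌊B⌋ := by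
    rw [Int.le_floor]
    exact_mod_cast h
  have h2 : |x| ≤ x ^ 2 := by
    rw [← sq_abs, sq]
    rcases (abs_nonneg x).eq_or_lt with h0 | h0
    · rw [← h0]; simp
    · nlinarith
  exact abs_le.mp (h2.trans h1)

private theorem C4_finite (α β γ : ℝ) (hα : 0 < α) (hΔ : 0 < α * γ - β ^ 2) :
    {v : ℤ × ℤ | ¬ (v.1 = 0 ∧ v.2 = 0) ∧ C4_q α β γ v.1 v.2 ≤ α}.Finite := by
  have hγ : 0 < γ := by
    have h : 0 < α * γ := by nlinarith [sq_nonneg β]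
    exact (mul_pos_iff_of_pos_left hα).mp h
  refine Set.Finite.subset ((Set.finite_Icc (-⌊γ * α / (α * γ - β ^ 2)⌋)
    ⌊γ * α / (α * γ - β ^ 2)⌋).prod (Set.finite_Icc (-⌊α * α / (α * γ - β ^ 2)⌋)
    ⌊α * α / (α * γ - β ^ 2)⌋)) ?_
  rintro ⟨x, y⟩ ⟨-, h⟩
  simp only at h
  refine ⟨C4_abs x _ ?_, C4_abs y _ ?_⟩
  · rw [le_div_iff₀ hΔ]
    have h1 := C4_mul' α β γ x y
    have h2 := mul_le_mul_of_nonneg_left h hγ.le
    nlinarith [sq_nonneg (γ * (y : ℝ) + β * x)]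
  · rw [le_div_iff₀ hΔ]
    have h1 := C4_mul α β γ x y
    have h2 := mul_le_mul_of_nonneg_left h hα.le
    nlinarith [sq_nonneg (α * (x : ℝ) + β * y)]

private theorem C4_min (α β γ : ℝ) (hα : 0 < α) (hΔ : 0 < α * γ - β ^ 2) :
    ∃ x y : ℤ, IsCoprime x y ∧ ∀ x' y' : ℤ, ¬ (x' = 0 ∧ y' = 0) →
      C4_q α β γ x y ≤ C4_q α β γ x' y' := by
  have hne : {v : ℤ × ℤ | ¬ (v.1 = 0 ∧ v.2 = 0) ∧ C4_q α β γ v.1 v.2 ≤ α}.Nonempty :=
    ⟨(1, 0), by simp, by simp [C4_q]⟩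
  obtain ⟨⟨x, y⟩, ⟨h0, h1⟩, h2⟩ := Set.exists_min_image _ (fun v : ℤ × ℤ => C4_q α β γ v.1 v.2)
    (C4_finite α β γ hα hΔ) hne
  simp only at h0 h1 h2
  have h3 : ∀ x' y' : ℤ, ¬ (x' = 0 ∧ y' = 0) → C4_q α β γ x y ≤ C4_q α β γ x' y' := by
    intro x' y' h
    by_cases h4 : C4_q α β γ x' y' ≤ α
    · exact h2 (x', y') ⟨h, h4⟩
    · exact h1.trans (not_le.mp h4).le
  refine ⟨x, y, ?_, h3⟩
  rw [Int.isCoprime_iff_gcd_eq_one]
  have hg : 0 < Int.gcd x y := by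
    rw [Nat.pos_iff_ne_zero, Ne, Int.gcd_eq_zero_iff]
    exact h0
  by_contra hg1
  obtain ⟨x', hx'⟩ := Int.gcd_dvd_left (a := x) (b := y)
  obtain ⟨y', hy'⟩ := Int.gcd_dvd_right (a := x) (b := y)
  have h4 : ¬ (x' = 0 ∧ y' = 0) := by
    rintro ⟨h5, h6⟩
    apply h0
    rw [hx', hy', h5, h6]
    simp
  have h5 := h3 x' y' h4
  have h6 := C4_pos α β γ hα hΔ x' y' h4
  have h7 : C4_q α β γ x y = (Int.gcd x y : ℝ) ^ 2 * C4_q α β γ x' y' := by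
    have e1 : (x : ℝ) = (Int.gcd x y : ℝ) * x' := by exact_mod_cast hx'
    have e2 : (y : ℝ) = (Int.gcd x y : ℝ) * y' := by exact_mod_cast hy'
    unfold C4_q
    rw [e1, e2]
    generalize (Int.gcd x y : ℝ) = g
    ring
  have h8 : (2 : ℝ) ≤ Int.gcd x y := by
    have : 2 ≤ Int.gcd x y := by omega
    exact_mod_cast this
  have h9 : (4 : ℝ) ≤ (Int.gcd x y : ℝ) ^ 2 := by nlinarith
  rw [h7] at h5
  nlinarith

/-- Row C4a (Gauss reduction, real coefficients). `q(x,y) = α x^2 + 2β x y + γ y^2` is positive definite; only finitely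
many integer vectors have `q ≤ α`, so there is a nonzero `(x1,y1)` with minimal `q`, necessarily coprime; Bezout gives
`(x2',y2')` with determinant `1`; replace it by `(x2',y2') + k (x1,y1)` so that the cross coefficient `β'`
satisfies `2|β'| ≤ q1`. `q1 q2 - β'^2 = αγ - β^2`, `q1 ≤ q2` by minimality, `q1 q2 ≤ Δ + q1^2/4 ≤ Δ + q1 q2/4`. -/
theorem reduced_basis (α β γ : ℝ) (hα : 0 < α) (hΔ : 0 < α * γ - β ^ 2) :
    ∃ x1 y1 x2 y2 : ℤ, x1 * y2 - x2 * y1 = 1 ∧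
      0 < α * x1 ^ 2 + 2 * β * x1 * y1 + γ * y1 ^ 2 ∧
      α * x1 ^ 2 + 2 * β * x1 * y1 + γ * y1 ^ 2 ≤ α * x2 ^ 2 + 2 * β * x2 * y2 + γ * y2 ^ 2 ∧
      (α * x1 ^ 2 + 2 * β * x1 * y1 + γ * y1 ^ 2) * (α * x2 ^ 2 + 2 * β * x2 * y2 + γ * y2 ^ 2)
        ≤ 4 / 3 * (α * γ - β ^ 2) := by
  obtain ⟨x, y, ⟨a, b, hab⟩, hmin⟩ := C4_min α β γ hα hΔ
  have h0 : ¬ (x = 0 ∧ y = 0) := by
    rintro ⟨rfl, rfl⟩
    simp at hab
  have hq := C4_pos α β γ hα hΔ x y h0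
  -- the cross coefficient
  set B : ℝ := α * x * (-b : ℤ) + β * (x * a + (-b : ℤ) * y) + γ * y * a with hB
  set k : ℤ := -round (B / C4_q α β γ x y) with hk
  have hdet : x * (a + k * y) - (-b + k * x) * y = 1 := by linear_combination hab
  have hne2 : ¬ ((-b + k * x) = 0 ∧ (a + k * y) = 0) := by
    rintro ⟨h1, h2⟩
    rw [h1, h2] at hdet
    simp at hdet
  have h1 := hmin _ _ hne2
  have hround : |B + k * C4_q α β γ x y| ≤ C4_q α β γ x y / 2 := by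
    have h2 := abs_sub_round (B / C4_q α β γ x y)
    have h3 : B + k * C4_q α β γ x y =
        C4_q α β γ x y * (B / C4_q α β γ x y - round (B / C4_q α β γ x y)) := by
      rw [hk, Int.cast_neg, mul_sub, mul_div_cancel₀ _ hq.ne']
      ring
    rw [h3, abs_mul, abs_of_pos hq]
    calc _ ≤ C4_q α β γ x y * (1 / 2) := mul_le_mul_of_nonneg_left h2 hq.le
      _ = _ := by ring
  have hid : C4_q α β γ x y * C4_q α β γ (-b + k * x) (a + k * y) -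
      (B + k * C4_q α β γ x y) ^ 2 = (α * γ - β ^ 2) * ((x * (a + k * y) - (-b + k * x) * y : ℤ) : ℝ) ^ 2 := by
    rw [hB]
    unfold C4_q
    push_cast
    ring
  rw [hdet, Int.cast_one, one_pow, mul_one] at hid
  refine ⟨x, y, -b + k * x, a + k * y, hdet, hq, h1, ?_⟩
  show C4_q α β γ x y * C4_q α β γ (-b + k * x) (a + k * y) ≤ _
  have hsq : (B + k * C4_q α β γ x y) ^ 2 ≤ (C4_q α β γ x y / 2) ^ 2 := by
    rw [← sq_abs]
    exact pow_le_pow_left₀ (abs_nonneg _) hround 2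
  have h4 : C4_q α β γ x y * C4_q α β γ x y ≤
      C4_q α β γ x y * C4_q α β γ (-b + k * x) (a + k * y) :=
    mul_le_mul_of_nonneg_left h1 hq.le
  nlinarith

/-- Row C4b. `QQ d j x y = (c + 1/c) x^2 + 2 (c - 1/c) √d x y + (c + 1/c) d y^2`, `c = 4^j`, determinant
`d ((c + 1/c)^2 - (c - 1/c)^2) = 4 d`. -/
theorem scale_basis (d : ℤ) (hd : 2 ≤ d) (j : ℕ) :
    ∃ x1 y1 x2 y2 : ℤ, x1 * y2 - x2 * y1 = 1 ∧ 0 < QQ d j x1 y1 ∧ QQ d j x1 y1 ≤ QQ d j x2 y2 ∧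
      QQ d j x1 y1 * QQ d j x2 y2 ≤ 16 / 3 * d := by
  have hc : (0 : ℝ) < 4 ^ j := by positivity
  have hd0 : (0 : ℝ) ≤ (d : ℝ) := by
    have : (0 : ℤ) ≤ d := by omega
    exact_mod_cast this
  have hd1 : (0 : ℝ) < (d : ℝ) := by
    have : (0 : ℤ) < d := by omega
    exact_mod_cast this
  have hs : √(d : ℝ) ^ 2 = d := Real.sq_sqrt hd0
  have e1 : ∀ x y : ℤ, QQ d j x y = ((4 : ℝ) ^ j + 1 / 4 ^ j) * x ^ 2 +
      2 * (((4 : ℝ) ^ j - 1 / 4 ^ j) * √(d : ℝ)) * x * y + ((4 : ℝ) ^ j + 1 / 4 ^ j) * d * y ^ 2 := by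
    intro x y
    unfold QQ rv rc
    have e2 : ((x : ℝ) + y * √(d : ℝ)) ^ 2 = x ^ 2 + 2 * x * y * √(d : ℝ) + d * y ^ 2 := by
      linear_combination (y : ℝ) ^ 2 * hs
    have e3 : ((x : ℝ) - y * √(d : ℝ)) ^ 2 = x ^ 2 - 2 * x * y * √(d : ℝ) + d * y ^ 2 := by
      linear_combination (y : ℝ) ^ 2 * hs
    rw [e2, e3]
    ring
  have hα : (0 : ℝ) < (4 : ℝ) ^ j + 1 / 4 ^ j := by positivity
  have hdet : ((4 : ℝ) ^ j + 1 / 4 ^ j) * (((4 : ℝ) ^ j + 1 / 4 ^ j) * d) -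
      (((4 : ℝ) ^ j - 1 / 4 ^ j) * √(d : ℝ)) ^ 2 = 4 * d := by
    rw [mul_pow, hs]
    field_simp
    ring
  obtain ⟨x1, y1, x2, y2, h1, h2, h3, h4⟩ := reduced_basis ((4 : ℝ) ^ j + 1 / 4 ^ j)
    (((4 : ℝ) ^ j - 1 / 4 ^ j) * √(d : ℝ)) (((4 : ℝ) ^ j + 1 / 4 ^ j) * d) hα (by
      rw [hdet]; linarith)
  refine ⟨x1, y1, x2, y2, h1, ?_, ?_, ?_⟩
  · rw [e1]; exact h2
  · rw [e1, e1]; exact h3
  · rw [e1, e1]
    refine h4.trans (le_of_eq ?_)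
    rw [hdet]
    ring

end N78
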