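import Mathlib

namespace N78

/-- Row C7a. `ZMod p` has `(p+1)/2` squares (0 included). -/
theorem card_squares (p : ℕ) (hp : p.Prime) (hp2 : p ≠ 2) :
    Set.ncard {c : ZMod p | IsSquare c} = (p + 1) / 2 := by
  classical
  have : Fact p.Prime := ⟨hp⟩
  have hchar : ringChar (ZMod p) ≠ 2 := by
    rw [ZMod.ringChar_zmod_n]; exact hp2
  have hsum := quadraticChar_sum_zero (F := ZMod p) hchar
  set N1 := (Finset.univ.filter (fun c : ZMod p => quadraticChar (ZMod p) c = 1)).card with hN1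
  set Nm := (Finset.univ.filter (fun c : ZMod p => quadraticChar (ZMod p) c = -1)).card with hNm
  have key : ∀ c : ZMod p, quadraticChar (ZMod p) c =
      (if quadraticChar (ZMod p) c = 1 then (1 : ℤ) else 0) -
      (if quadraticChar (ZMod p) c = -1 then (1 : ℤ) else 0) := by
    intro c
    by_cases hc : c = 0
    · rw [hc, quadraticChar_zero]; norm_num
    · rcases quadraticChar_dichotomy hc with h | h <;> rw [h] <;> norm_num
  have h1 : (N1 : ℤ) = Nm := by
    have : (0 : ℤ) = N1 - Nm := by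
      rw [← hsum, Finset.sum_congr rfl (fun c _ => key c), Finset.sum_sub_distrib, hN1, hNm]
      simp
    omega
  have key2 : ∀ c : ZMod p, (1 : ℤ) = (if c = 0 then (1 : ℤ) else 0) +
      (if quadraticChar (ZMod p) c = 1 then (1 : ℤ) else 0) +
      (if quadraticChar (ZMod p) c = -1 then (1 : ℤ) else 0) := by
    intro c
    by_cases hc : c = 0
    · rw [hc, quadraticChar_zero]; norm_num
    · rcases quadraticChar_dichotomy hc with h | h <;> rw [h] <;> simp [hc]
  have h2 : (p : ℤ) = 1 + N1 + Nm := by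
    have : (p : ℤ) = ∑ _c : ZMod p, (1 : ℤ) := by
      simp [ZMod.card]
    rw [this, Finset.sum_congr rfl (fun c _ => key2 c), Finset.sum_add_distrib,
      Finset.sum_add_distrib, hN1, hNm]
    simp
  have h3 : {c : ZMod p | IsSquare c} =
      ((insert 0 (Finset.univ.filter (fun c : ZMod p => quadraticChar (ZMod p) c = 1)) :
        Finset (ZMod p)) : Set (ZMod p)) := by
    ext c
    simp only [Set.mem_ofPred_eq, Finset.coe_insert, Set.mem_insert_iff, Finset.coe_filter,
      Finset.mem_univ, true_and]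
    by_cases hc : c = 0
    · simp [hc]
    · rw [quadraticChar_one_iff_isSquare hc]; simp [hc]
  rw [h3, Set.ncard_coe_finset, Finset.card_insert_of_notMem (by simp)]
  omega

private theorem C7_inj (p : ℕ) (hp : p.Prime) (i j k : Fin 3)
    (hcov : ∀ l : Fin 3, l = i ∨ l = j ∨ l = k) (L : (Fin 3 → ZMod p) → ZMod p)
    (hL : ∀ v w : Fin 3 → ZMod p, L v = L w → v j = w j → v k = w k → v i = w i) :
    (Set.ncard {v : Fin 3 → ZMod p | IsSquare (L v)} : ℕ) ≤
      p ^ 2 * Set.ncard {c : ZMod p | IsSquare c} := by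
  classical
  have : Fact p.Prime := ⟨hp⟩
  have hmaps : ∀ v ∈ {v : Fin 3 → ZMod p | IsSquare (L v)},
      (fun v : Fin 3 → ZMod p => (L v, v j, v k)) v ∈
        ({c : ZMod p | IsSquare c} ×ˢ (Set.univ ×ˢ Set.univ : Set (ZMod p × ZMod p))) := by
    intro v hv
    exact ⟨hv, trivial, trivial⟩
  have hinj : Set.InjOn (fun v : Fin 3 → ZMod p => (L v, v j, v k))
      {v : Fin 3 → ZMod p | IsSquare (L v)} := by
    intro v _ w _ h
    simp only [Prod.mk.injEq] at h
    obtain ⟨h1, h2, h3⟩ := h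
    have h4 := hL v w h1 h2 h3
    funext l
    rcases hcov l with rfl | rfl | rfl
    · exact h4
    · exact h2
    · exact h3
  have := Set.ncard_le_ncard_of_injOn _ hmaps hinj (Set.toFinite _)
  refine this.trans (le_of_eq ?_)
  rw [Set.ncard_prod, Set.ncard_prod, Set.ncard_univ, Nat.card_eq_fintype_card, ZMod.card]
  ring

/-- Row C7b. A nonzero linear functional on `(ZMod p)^3` takes every value `p^2` times; the coefficients
`X^2, 2XY, Y^2` are not all zero. -/
theorem card_form_square (p : ℕ) (hp : p.Prime) (hp2 : p ≠ 2) (X Y : ZMod p) (h : X ≠ 0 ∨ Y ≠ 0) :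
    (Set.ncard {v : Fin 3 → ZMod p | IsSquare (v 0 * X ^ 2 + 2 * v 1 * X * Y + v 2 * Y ^ 2)} : ℝ)
      ≤ (p : ℝ) ^ 2 * ((p + 1) / 2) := by
  have : Fact p.Prime := ⟨hp⟩
  have main : (Set.ncard {v : Fin 3 → ZMod p |
      IsSquare (v 0 * X ^ 2 + 2 * v 1 * X * Y + v 2 * Y ^ 2)} : ℕ) ≤
      p ^ 2 * Set.ncard {c : ZMod p | IsSquare c} := by
    rcases h with h | h
    · refine C7_inj p hp 0 1 2 (by decide)
        (fun v => v 0 * X ^ 2 + 2 * v 1 * X * Y + v 2 * Y ^ 2) ?_
      intro v w h1 h2 h3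
      simp only [h2, h3] at h1
      have h4 : v 0 * X ^ 2 = w 0 * X ^ 2 := by linear_combination h1
      exact mul_right_cancel₀ (pow_ne_zero 2 h) h4
    · refine C7_inj p hp 2 0 1 (by decide)
        (fun v => v 0 * X ^ 2 + 2 * v 1 * X * Y + v 2 * Y ^ 2) ?_
      intro v w h1 h2 h3
      simp only [h2, h3] at h1
      have h4 : v 2 * Y ^ 2 = w 2 * Y ^ 2 := by linear_combination h1
      exact mul_right_cancel₀ (pow_ne_zero 2 h) h4
  rw [card_squares p hp hp2] at main
  have h5 : (Set.ncard {v : Fin 3 → ZMod p |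
      IsSquare (v 0 * X ^ 2 + 2 * v 1 * X * Y + v 2 * Y ^ 2)} : ℝ) ≤
      (p : ℝ) ^ 2 * (((p + 1) / 2 : ℕ) : ℝ) := by exact_mod_cast main
  refine h5.trans ?_
  have h6 : (((p + 1) / 2 : ℕ) : ℝ) ≤ ((p : ℝ) + 1) / 2 := by
    have := @Nat.cast_div_le ℝ _ _ _ (p + 1) 2
    push_cast at this
    exact this
  exact mul_le_mul_of_nonneg_left h6 (by positivity)

end N78
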