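import Mathlib

namespace N78

/-- Integers in an interval of length `M` in one class modulo `m`. -/
theorem C8_count (m : ℤ) (hm : 0 < m) (A M : ℝ) (hM : 0 ≤ M) (c : ℤ) (S : Finset ℤ)
    (hS : ∀ x ∈ S, A ≤ (x : ℝ) ∧ (x : ℝ) ≤ A + M ∧ m ∣ x - c) : (S.card : ℝ) ≤ M / m + 1 := by
  have hmr : (0 : ℝ) < m := by exact_mod_cast hm
  have hinj : Set.InjOn (fun x : ℤ => (x - c) / m) (S : Set ℤ) := by
    intro x hx y hy hxy
    have h1 := Int.ediv_mul_cancel (hS x hx).2.2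
    have h2 := Int.ediv_mul_cancel (hS y hy).2.2
    simp only at hxy
    rw [hxy, h2] at h1
    linarith
  have hsub : S.image (fun x : ℤ => (x - c) / m) ⊆
      Finset.Icc ⌈(A - c) / m⌉ ⌊(A + M - c) / m⌋ := by
    intro t ht
    rw [Finset.mem_image] at ht
    obtain ⟨x, hx, rfl⟩ := ht
    obtain ⟨h1, h2, h3⟩ := hS x hx
    have h4 : (((x - c) / m : ℤ) : ℝ) = ((x : ℝ) - c) / m := by
      rw [eq_div_iff hmr.ne']
      exact_mod_cast Int.ediv_mul_cancel h3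
    rw [Finset.mem_Icc, Int.ceil_le, Int.le_floor, h4]
    exact ⟨(div_le_div_iff_of_pos_right hmr).mpr (by linarith),
      (div_le_div_iff_of_pos_right hmr).mpr (by linarith)⟩
  have hc := Finset.card_le_card hsub
  rw [Finset.card_image_of_injOn hinj, Int.card_Icc] at hc
  have h1 : (⌊(A + M - c) / m⌋ : ℝ) ≤ (A + M - c) / m := Int.floor_le _
  have h2 : (A - c) / m ≤ (⌈(A - c) / m⌉ : ℝ) := Int.le_ceil _
  have h3 : (A + M - c) / m - (A - c) / m = M / m := by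
    rw [← sub_div]
    congr 1
    ring
  rcases le_or_gt 0 (⌊(A + M - c) / m⌋ + 1 - ⌈(A - c) / m⌉) with h | h
  · have h4 : ((⌊(A + M - c) / m⌋ + 1 - ⌈(A - c) / m⌉).toNat : ℤ) =
        ⌊(A + M - c) / m⌋ + 1 - ⌈(A - c) / m⌉ := Int.toNat_of_nonneg h
    have h5 : (((⌊(A + M - c) / m⌋ + 1 - ⌈(A - c) / m⌉).toNat : ℕ) : ℝ) =
        ⌊(A + M - c) / m⌋ + 1 - ⌈(A - c) / m⌉ := by exact_mod_cast h4
    have h6 : (S.card : ℝ) ≤ ((⌊(A + M - c) / m⌋ + 1 - ⌈(A - c) / m⌉).toNat : ℕ) := by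
      exact_mod_cast hc
    rw [h5] at h6
    linarith
  · rw [Int.toNat_of_nonpos h.le] at hc
    have h4 : (S.card : ℝ) ≤ 0 := by exact_mod_cast hc
    have h5 : 0 ≤ M / m := div_nonneg hM hmr.le
    linarith

/-- A number divisible by all primes of `Q` is divisible by their product. -/
theorem C8_dvd (Q : Finset ℕ) (hQ : ∀ p ∈ Q, p.Prime) (z : ℤ) (h : ∀ p ∈ Q, (p : ℤ) ∣ z) :
    ((∏ p ∈ Q, p : ℕ) : ℤ) ∣ z := by
  rw [Int.natCast_dvd]
  exact Finset.prod_primes_dvd _ (fun p hp => (hQ p hp).prime)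
    fun p hp => Int.natCast_dvd.mp (h p hp)

/-- The number of classes. -/
theorem C8_classes {β : ℕ → Type} (Q : Finset ℕ) (Ω : ∀ p : ℕ, Set (β p))
    (hfin : ∀ p ∈ Q, (Ω p).Finite) {α : Type} (S : Finset α) (F : ∀ p : ℕ, α → β p)
    (hS : ∀ v ∈ S, ∀ p ∈ Q, F p v ∈ Ω p) (B : ℝ)
    (hB : ∀ T : Finset α, T ⊆ S → (∀ v ∈ T, ∀ w ∈ T, ∀ p ∈ Q, F p v = F p w) →
      (T.card : ℝ) ≤ B) (hB0 : 0 ≤ B) :
    (S.card : ℝ) ≤ B * ∏ p ∈ Q, ((Ω p).ncard : ℝ) := by
  classical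
  let T : ∀ p : ℕ, Finset (β p) := fun p => if h : (Ω p).Finite then h.toFinset else ∅
  have hT : ∀ p ∈ Q, (T p).card = (Ω p).ncard := by
    intro p hp
    simp only [T, dif_pos (hfin p hp)]
    rw [Set.ncard_eq_toFinset_card _ (hfin p hp)]
  let f : α → ∀ p ∈ Q, β p := fun v p _ => F p v
  have hmaps : ∀ v ∈ S, f v ∈ Q.pi T := by
    intro v hv
    rw [Finset.mem_pi]
    intro p hp
    simp only [T, dif_pos (hfin p hp), Set.Finite.mem_toFinset]
    exact hS v hv p hp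
  have key := Finset.card_le_mul_card_image_of_maps_to hmaps ⌊B⌋₊ (by
    intro b _
    refine Nat.le_floor (hB _ (Finset.filter_subset _ _) ?_)
    intro v hv w hw p hp
    rw [Finset.mem_filter] at hv hw
    have h : f v = f w := hv.2.trans hw.2.symm
    exact congrFun (congrFun h p) hp)
  rw [Finset.card_pi, Finset.prod_congr rfl hT] at key
  have key' : (S.card : ℝ) ≤ (⌊B⌋₊ : ℝ) * ∏ p ∈ Q, ((Ω p).ncard : ℝ) := by exact_mod_cast key
  refine key'.trans (mul_le_mul_of_nonneg_right (Nat.floor_le hB0) ?_)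
  exact Finset.prod_nonneg fun p _ => Nat.cast_nonneg _

/-- Row C8a (sieve by a product of primes, `n` dimensions). `q = ∏_{p ∈ Q} p`. By CRT
(`ZMod.prodEquivPi`/`ZMod.chineseRemainder`, induction on `Q`) the classes `c` in `Fin n → ZMod q` with
`c mod p ∈ Ω p` for all `p ∈ Q` are at most `∏ #(Ω p)`; each class contains at most
`∏ (2 K i/q + 1) ≤ ∏ (3 K i/q)` integer points of the box. -/
theorem box_sieve (n : ℕ) (Q : Finset ℕ) (hQ : ∀ p ∈ Q, p.Prime) (Ω : ∀ p : ℕ, Set (Fin n → ZMod p))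
    (K : Fin n → ℝ) (hK : ∀ i, ((∏ p ∈ Q, p : ℕ) : ℝ) ≤ K i) (S : Finset (Fin n → ℤ))
    (hS : ∀ v ∈ S, (∀ i, |(v i : ℝ)| ≤ K i) ∧ ∀ p ∈ Q, (fun i => ((v i : ℤ) : ZMod p)) ∈ Ω p) :
    (S.card : ℝ) ≤ 3 ^ n * (∏ i, K i) * ∏ p ∈ Q, (((Ω p).ncard : ℝ) / (p : ℝ) ^ n) := by
  classical
  set q : ℕ := ∏ p ∈ Q, p with hq
  have hq0 : 0 < q := Finset.prod_pos fun p hp => (hQ p hp).pos
  have hqr : (0 : ℝ) < q := by exact_mod_cast hq0
  have hK0 : ∀ i, 0 < K i := fun i => hqr.trans_le (hK i)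
  have hB0 : 0 ≤ ∏ i, (3 * K i / q) := Finset.prod_nonneg fun i _ =>
    div_nonneg (mul_nonneg (by norm_num) (hK0 i).le) hqr.le
  have h := C8_classes Q Ω (fun p hp => by
      have : NeZero p := ⟨(hQ p hp).ne_zero⟩
      exact Set.toFinite _) S (fun p v i => ((v i : ℤ) : ZMod p))
    (fun v hv => (hS v hv).2) (∏ i, (3 * K i / q)) (by
      intro T hTS hT
      rcases T.eq_empty_or_nonempty with rfl | ⟨v0, hv0⟩
      · simpa using hB0
      have hdvd : ∀ v ∈ T, ∀ i, (q : ℤ) ∣ v i - v0 i := by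
        intro v hv i
        refine C8_dvd Q hQ _ fun p hp => ?_
        have h1 := congrFun (hT v hv v0 hv0 p hp) i
        exact (ZMod.intCast_eq_intCast_iff_dvd_sub _ _ _).mp h1.symm
      have hsub : T ⊆ Fintype.piFinset fun i =>
          (Finset.Icc ⌈-K i⌉ ⌊K i⌋).filter fun x => (q : ℤ) ∣ x - v0 i := by
        intro v hv
        rw [Fintype.mem_piFinset]
        intro i
        have h1 := abs_le.mp ((hS v (hTS hv)).1 i)
        rw [Finset.mem_filter, Finset.mem_Icc, Int.ceil_le, Int.le_floor]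
        exact ⟨h1, hdvd v hv i⟩
      have h1 := Finset.card_le_card hsub
      rw [Fintype.card_piFinset] at h1
      have h2 : (T.card : ℝ) ≤ ∏ i, (((Finset.Icc ⌈-K i⌉ ⌊K i⌋).filter fun x =>
          (q : ℤ) ∣ x - v0 i).card : ℝ) := by exact_mod_cast h1
      refine h2.trans (Finset.prod_le_prod (fun i _ => Nat.cast_nonneg _) fun i _ => ?_)
      have h3 := C8_count (q : ℤ) (by exact_mod_cast hq0) (-K i) (2 * K i)
        (mul_nonneg (by norm_num) (hK0 i).le) (v0 i)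
        ((Finset.Icc ⌈-K i⌉ ⌊K i⌋).filter fun x => (q : ℤ) ∣ x - v0 i) (by
          intro x hx
          rw [Finset.mem_filter, Finset.mem_Icc, Int.ceil_le, Int.le_floor] at hx
          exact ⟨hx.1.1, by linarith [hx.1.2], hx.2⟩)
      refine h3.trans ?_
      have h4 : 1 ≤ K i / q := (one_le_div hqr).mpr (hK i)
      have h5 : 3 * K i / q = 2 * K i / ((q : ℤ) : ℝ) + K i / q := by
        rw [Int.cast_natCast]
        ring
      rw [h5]
      linarith) hB0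
  refine h.trans (le_of_eq ?_)
  rw [Finset.prod_div_distrib, Finset.prod_div_distrib, Finset.prod_mul_distrib,
    Finset.prod_const, Finset.prod_const, Finset.card_univ, Fintype.card_fin,
    Finset.prod_pow, hq, Nat.cast_prod]
  ring

/-- Row C8b (one dimension, inside an arithmetic progression). Same proof: `a` lies in at most `∏ #(Ω p)` classes
mod `|f| q`, each has at most `M/(|f| q) + 1 ≤ 2M/(|f| q)` elements in an interval of length `M`. -/
theorem ap_sieve (Q : Finset ℕ) (hQ : ∀ p ∈ Q, p.Prime) (f c : ℤ) (hf : f ≠ 0)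
    (hfp : ∀ p ∈ Q, ¬ (p : ℤ) ∣ f) (Ω : ∀ p : ℕ, Set (ZMod p)) (A M : ℝ)
    (hM : |(f : ℝ)| * ((∏ p ∈ Q, p : ℕ) : ℝ) ≤ M) (S : Finset ℤ)
    (hS : ∀ a ∈ S, A ≤ (a : ℝ) ∧ (a : ℝ) ≤ A + M ∧ a ≡ c [ZMOD f] ∧ ∀ p ∈ Q, ((a : ℤ) : ZMod p) ∈ Ω p) :
    (S.card : ℝ) ≤ 2 * (M / |(f : ℝ)|) * ∏ p ∈ Q, (((Ω p).ncard : ℝ) / p) := by
  classical
  set q : ℕ := ∏ p ∈ Q, p with hq
  have hq0 : 0 < q := Finset.prod_pos fun p hp => (hQ p hp).pos
  have hqr : (0 : ℝ) < q := by exact_mod_cast hq0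
  have hfr : 0 < |(f : ℝ)| := abs_pos.mpr (by exact_mod_cast hf)
  have hfq : 0 < |(f : ℝ)| * q := mul_pos hfr hqr
  have hM0 : 0 < M := hfq.trans_le hM
  have hB0 : 0 ≤ 2 * M / (|(f : ℝ)| * q) :=
    div_nonneg (mul_nonneg (by norm_num) hM0.le) hfq.le
  have hcop : IsCoprime |f| (q : ℤ) := by
    have h1 : IsCoprime f (q : ℤ) := by
      rw [hq, Nat.cast_prod]
      refine IsCoprime.prod_right fun p hp => ?_
      exact ((Nat.prime_iff_prime_int.mp (hQ p hp)).coprime_iff_not_dvd.mpr (hfp p hp)).symm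
    exact IsCoprime.abs_left_iff _ _ |>.mpr h1
  have h := C8_classes Q Ω (fun p hp => by
      have : NeZero p := ⟨(hQ p hp).ne_zero⟩
      exact Set.toFinite _) S (fun p a => ((a : ℤ) : ZMod p))
    (fun v hv => (hS v hv).2.2.2) (2 * M / (|(f : ℝ)| * q)) (by
      intro T hTS hT
      rcases T.eq_empty_or_nonempty with rfl | ⟨v0, hv0⟩
      · simpa using hB0
      have hdvd : ∀ v ∈ T, |f| * (q : ℤ) ∣ v - v0 := by
        intro v hv
        refine hcop.mul_dvd ?_ ?_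
        · rw [abs_dvd]
          have h1 := (hS v (hTS hv)).2.2.1
          have h2 := (hS v0 (hTS hv0)).2.2.1
          exact (h2.trans h1.symm).dvd
        · refine C8_dvd Q hQ _ fun p hp => ?_
          have h1 := hT v hv v0 hv0 p hp
          exact (ZMod.intCast_eq_intCast_iff_dvd_sub _ _ _).mp h1.symm
      have h3 := C8_count (|f| * (q : ℤ)) (mul_pos (abs_pos.mpr hf) (by exact_mod_cast hq0)) A M
        hM0.le v0 T (fun x hx => ⟨(hS x (hTS hx)).1, (hS x (hTS hx)).2.1, hdvd x hx⟩)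
      refine h3.trans ?_
      have h4 : 1 ≤ M / (|(f : ℝ)| * q) := (one_le_div hfq).mpr hM
      have h5 : 2 * M / (|(f : ℝ)| * q) = M / ((|f| * (q : ℤ) : ℤ) : ℝ) +
          M / (|(f : ℝ)| * q) := by
        rw [Int.cast_mul, Int.cast_natCast, Int.cast_abs]
        ring
      rw [h5]
      linarith) hB0
  refine h.trans (le_of_eq ?_)
  rw [Finset.prod_div_distrib, hq, Nat.cast_prod]
  field_simp

end N78
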