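import Pool.Agent.LibN78.C6
import Pool.Agent.LibN78.C7
import Pool.Agent.LibN78.C8

namespace N78

/-- the box of the three coefficients -/
private noncomputable def C9_K (d : ℤ) (H : ℕ) (Q1 Q2 : ℝ) : Fin 3 → ℝ :=
  ![5 / 2 * H * Q1 / d, 5 / 2 * H * √(Q1 * Q2) / d, 5 / 2 * H * Q2 / d]

private theorem C9_K_le (d : ℤ) (hd : 2 ≤ d) (H : ℕ) (Q1 Q2 : ℝ) (h0 : 0 < Q1) (hQ : Q1 ≤ Q2) (i : Fin 3) :
    5 / 2 * H * Q1 / d ≤ C9_K d H Q1 Q2 i := by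
  have hd0 : (0 : ℝ) < d := by
    have : (0 : ℤ) < d := by omega
    exact_mod_cast this
  have h1 : Q1 ≤ √(Q1 * Q2) := by
    apply Real.le_sqrt_of_sq_le
    rw [pow_two]
    exact mul_le_mul_of_nonneg_left hQ h0.le
  have hH : (0 : ℝ) ≤ 5 / 2 * H := by positivity
  fin_cases i
  · exact le_refl _
  · change 5 / 2 * H * Q1 / d ≤ 5 / 2 * H * √(Q1 * Q2) / d
    exact div_le_div_of_nonneg_right (mul_le_mul_of_nonneg_left h1 hH) hd0.le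
  · change 5 / 2 * H * Q1 / d ≤ 5 / 2 * H * Q2 / d
    exact div_le_div_of_nonneg_right (mul_le_mul_of_nonneg_left hQ hH) hd0.le

private theorem C9_prod (d : ℤ) (hd : 2 ≤ d) (H : ℕ) (Q1 Q2 : ℝ) (h0 : 0 < Q1) (hQ : Q1 ≤ Q2)
    (hQQ : Q1 * Q2 ≤ 16 / 3 * d) :
    3 ^ 3 * (∏ i, C9_K d H Q1 Q2 i) ≤ 6000 * H ^ 3 / (d * √(d : ℝ)) := by
  have hd0 : (0 : ℝ) < d := by
    have : (0 : ℤ) < d := by omega
    exact_mod_cast this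
  have hs0 : 0 < √(d : ℝ) := Real.sqrt_pos.2 hd0
  have hs : √(d : ℝ) * √(d : ℝ) = d := Real.mul_self_sqrt hd0.le
  have hr : √(Q1 * Q2) ≤ 231 / 100 * √(d : ℝ) := by
    apply Real.sqrt_le_iff.2
    constructor
    · positivity
    · have : (231 / 100 * √(d : ℝ)) ^ 2 = (231 / 100) ^ 2 * (d : ℝ) := by
        rw [mul_pow, Real.sq_sqrt hd0.le]
      rw [this]
      nlinarith
  have hQ0 : 0 ≤ Q1 * Q2 := mul_nonneg h0.le (h0.le.trans hQ)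
  have hprod : (∏ i, C9_K d H Q1 Q2 i) = (5 / 2 * H / d) ^ 3 * ((Q1 * Q2) * √(Q1 * Q2)) := by
    rw [Fin.prod_univ_three]
    change 5 / 2 * H * Q1 / d * (5 / 2 * H * √(Q1 * Q2) / d) * (5 / 2 * H * Q2 / d) = _
    field_simp
  have h2 : (Q1 * Q2) * √(Q1 * Q2) ≤ (16 / 3 * d) * (231 / 100 * √(d : ℝ)) :=
    mul_le_mul hQQ hr (Real.sqrt_nonneg _) (by positivity)
  rw [hprod]
  calc 3 ^ 3 * ((5 / 2 * H / d) ^ 3 * ((Q1 * Q2) * √(Q1 * Q2)))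
      ≤ 3 ^ 3 * ((5 / 2 * H / d) ^ 3 * ((16 / 3 * d) * (231 / 100 * √(d : ℝ)))) := by
        apply mul_le_mul_of_nonneg_left _ (by norm_num)
        exact mul_le_mul_of_nonneg_left h2 (by positivity)
    _ = (3 ^ 3 * (5 / 2) ^ 3 * (16 / 3) * (231 / 100)) * H ^ 3 / (d * √(d : ℝ)) := by
        have hd2 : (d : ℝ) ^ 3 = (√(d : ℝ)) ^ 6 := by
          rw [show (√(d : ℝ)) ^ 6 = (√(d : ℝ) * √(d : ℝ)) ^ 3 by ring, hs]
        rw [eq_div_iff (by positivity)]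
        have : (5 / 2 * (H : ℝ) / d) ^ 3 * d ^ 3 = (5 / 2 * H) ^ 3 := by
          rw [div_pow, div_mul_cancel₀]
          positivity
        calc 3 ^ 3 * ((5 / 2 * (H : ℝ) / d) ^ 3 * ((16 / 3 * d) * (231 / 100 * √(d : ℝ)))) * (d * √(d : ℝ))
            = 3 ^ 3 * (16 / 3) * (231 / 100) * (5 / 2 * (H : ℝ) / d) ^ 3 * (d ^ 2 * (√(d : ℝ) * √(d : ℝ))) := by
              ring
          _ = 3 ^ 3 * (16 / 3) * (231 / 100) * ((5 / 2 * (H : ℝ) / d) ^ 3 * d ^ 3) := by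
              rw [hs]; ring
          _ = 3 ^ 3 * (16 / 3) * (231 / 100) * (5 / 2 * (H : ℝ)) ^ 3 := by rw [this]
          _ = _ := by ring
    _ ≤ 6000 * H ^ 3 / (d * √(d : ℝ)) := by
        apply div_le_div_of_nonneg_right _ (by positivity)
        apply mul_le_mul_of_nonneg_right _ (by positivity)
        norm_num

/-- the coordinates in the basis -/
private def C9_phi (d x1 y1 x2 y2 : ℤ) (v : ℤ × ℤ × ℤ) : Fin 3 → ℤ :=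
  ![FF d v.1 v.2.1 v.2.2 x1 y1, BB d v.1 v.2.1 v.2.2 x1 y1 x2 y2, FF d v.1 v.2.1 v.2.2 x2 y2]

private theorem C9_phi_inj (d x1 y1 x2 y2 : ℤ) (hdet : x1 * y2 - x2 * y1 = 1) :
    Function.Injective (C9_phi d x1 y1 x2 y2) := by
  rintro ⟨a, w, m⟩ ⟨a', w', m'⟩ h
  have e0 : FF d a w m x1 y1 = FF d a' w' m' x1 y1 := congrFun h 0
  have e1 : BB d a w m x1 y1 x2 y2 = BB d a' w' m' x1 y1 x2 y2 := congrFun h 1
  have e2 : FF d a w m x2 y2 = FF d a' w' m' x2 y2 := congrFun h 2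
  obtain ⟨h1, h2, h3⟩ := basis_inj d a w m a' w' m' x1 y1 x2 y2 hdet e0 e2 e1
  rw [h1, h2, h3]

private theorem C9_phi_le (d : ℤ) (hd : 2 ≤ d) (j H : ℕ) (x1 y1 x2 y2 : ℤ) (h0 : 0 < QQ d j x1 y1)
    (hQ : QQ d j x1 y1 ≤ QQ d j x2 y2) (v : ℤ × ℤ × ℤ)
    (ha : |v.1| ≤ (H : ℤ)) (h1 : |lam d v.1 v.2.1 v.2.2| ≤ 9 * H * 4 ^ j)
    (h2 : |lam' d v.1 v.2.1 v.2.2| ≤ 3 * H / 4 ^ j) (i : Fin 3) :
    |((C9_phi d x1 y1 x2 y2 v i : ℤ) : ℝ)| ≤ C9_K d H (QQ d j x1 y1) (QQ d j x2 y2) i := by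
  fin_cases i
  · change |((FF d v.1 v.2.1 v.2.2 x1 y1 : ℤ) : ℝ)| ≤ 5 / 2 * H * QQ d j x1 y1 / d
    have h := coeff_bound d hd j H v.1 v.2.1 v.2.2 x1 y1 x1 y1 ha h1 h2
    rwa [BB_self, Real.sqrt_mul_self h0.le] at h
  · exact coeff_bound d hd j H v.1 v.2.1 v.2.2 x1 y1 x2 y2 ha h1 h2
  · change |((FF d v.1 v.2.1 v.2.2 x2 y2 : ℤ) : ℝ)| ≤ 5 / 2 * H * QQ d j x2 y2 / d
    have h := coeff_bound d hd j H v.1 v.2.1 v.2.2 x2 y2 x2 y2 ha h1 h2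
    rwa [BB_self, Real.sqrt_mul_self (h0.le.trans hQ)] at h

private theorem C9_one (d : ℤ) (hd : 2 ≤ d) (ε : Pell.Solution₁ d) (j H : ℕ)
    (x1 y1 x2 y2 : ℤ) (hdet : x1 * y2 - x2 * y1 = 1) (h0 : 0 < QQ d j x1 y1)
    (hQ : QQ d j x1 y1 ≤ QQ d j x2 y2) (hQQ : QQ d j x1 y1 * QQ d j x2 y2 ≤ 16 / 3 * d)
    (P' : Finset ℕ) (hP : ∀ p ∈ P', p.Prime ∧ p ≠ 2)
    (hbal : ((∏ p ∈ P', p : ℕ) : ℝ) ≤ 5 / 2 * H * QQ d j x1 y1 / d)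
    (S : Finset (ℤ × ℤ × ℤ))
    (hS : ∀ v ∈ S, |v.1| ≤ (H : ℤ) ∧ |lam d v.1 v.2.1 v.2.2| ≤ 9 * H * 4 ^ j ∧
      |lam' d v.1 v.2.1 v.2.2| ≤ 3 * H / 4 ^ j ∧ ∀ p ∈ P',
        IsSquare ((FF d v.1 v.2.1 v.2.2 ε.x ε.y : ℤ) : ZMod p)) :
    (S.card : ℝ) ≤ 6000 * H ^ 3 / (d * √(d : ℝ)) * ∏ p ∈ P', (((p : ℝ) + 1) / (2 * p)) := by
  classical
  set s : ℤ := ε.x with hs
  set t : ℤ := ε.y with ht
  set X : ℤ := s * y2 - t * x2 with hX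
  set Y : ℤ := t * x1 - s * y1 with hY
  let Ω : ∀ p : ℕ, Set (Fin 3 → ZMod p) := fun p =>
    {v | IsSquare (v 0 * (X : ZMod p) ^ 2 + 2 * v 1 * (X : ZMod p) * (Y : ZMod p) + v 2 * (Y : ZMod p) ^ 2)}
  have hcard : (S.image (C9_phi d x1 y1 x2 y2)).card = S.card :=
    Finset.card_image_of_injective _ (C9_phi_inj d x1 y1 x2 y2 hdet)
  have hbox := box_sieve 3 P' (fun p hp => (hP p hp).1) Ω (C9_K d H (QQ d j x1 y1) (QQ d j x2 y2))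
    (fun i => hbal.trans (C9_K_le d hd H _ _ h0 hQ i)) (S.image (C9_phi d x1 y1 x2 y2)) (by
      intro v' hv'
      obtain ⟨v, hv, rfl⟩ := Finset.mem_image.1 hv'
      obtain ⟨ha, h1, h2, h3⟩ := hS v hv
      refine ⟨fun i => C9_phi_le d hd j H x1 y1 x2 y2 h0 hQ v ha h1 h2 i, ?_⟩
      intro p hp
      have h4 := h3 p hp
      rw [basis_FF d v.1 v.2.1 v.2.2 x1 y1 x2 y2 s t hdet] at h4
      change IsSquare (((FF d v.1 v.2.1 v.2.2 x1 y1 : ℤ) : ZMod p) * (X : ZMod p) ^ 2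
        + 2 * ((BB d v.1 v.2.1 v.2.2 x1 y1 x2 y2 : ℤ) : ZMod p) * (X : ZMod p) * (Y : ZMod p)
        + ((FF d v.1 v.2.1 v.2.2 x2 y2 : ℤ) : ZMod p) * (Y : ZMod p) ^ 2)
      have e : (((FF d v.1 v.2.1 v.2.2 x1 y1 : ℤ) : ZMod p) * (X : ZMod p) ^ 2
        + 2 * ((BB d v.1 v.2.1 v.2.2 x1 y1 x2 y2 : ℤ) : ZMod p) * (X : ZMod p) * (Y : ZMod p)
        + ((FF d v.1 v.2.1 v.2.2 x2 y2 : ℤ) : ZMod p) * (Y : ZMod p) ^ 2)
        = ((FF d v.1 v.2.1 v.2.2 x1 y1 * X ^ 2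
          + 2 * BB d v.1 v.2.1 v.2.2 x1 y1 x2 y2 * X * Y
          + FF d v.1 v.2.1 v.2.2 x2 y2 * Y ^ 2 : ℤ) : ZMod p) := by
        push_cast
        ring
      rw [e]
      exact h4)
  rw [hcard] at hbox
  have hnn : 0 ≤ ∏ p ∈ P', (((Ω p).ncard : ℝ) / (p : ℝ) ^ 3) :=
    Finset.prod_nonneg fun p _ => by positivity
  have hle : ∏ p ∈ P', (((Ω p).ncard : ℝ) / (p : ℝ) ^ 3) ≤ ∏ p ∈ P', (((p : ℝ) + 1) / (2 * p)) := by
    apply Finset.prod_le_prod (fun p _ => by positivity)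
    intro p hp
    obtain ⟨hpp, hp2⟩ := hP p hp
    have hXY : ((X : ℤ) : ZMod p) ≠ 0 ∨ ((Y : ℤ) : ZMod p) ≠ 0 := by
      by_contra hcon
      push Not at hcon
      obtain ⟨hX0, hY0⟩ := hcon
      have hs0 : ((s : ℤ) : ZMod p) = 0 := by
        have : s = X * x1 + Y * x2 := by
          rw [hX, hY]; linear_combination (-s) * hdet
        rw [this]; push_cast; rw [hX0, hY0]; ring
      have ht0 : ((t : ℤ) : ZMod p) = 0 := by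
        have : t = X * y1 + Y * y2 := by
          rw [hX, hY]; linear_combination (-t) * hdet
        rw [this]; push_cast; rw [hX0, hY0]; ring
      have h1 := congrArg (Int.cast : ℤ → ZMod p) ε.prop
      rw [← hs, ← ht] at h1
      push_cast at h1
      rw [hs0, ht0] at h1
      have : Fact p.Prime := ⟨hpp⟩
      have h2 : (0 : ZMod p) = 1 := by
        rw [← h1]; ring
      exact zero_ne_one h2
    have h5 := card_form_square p hpp hp2 (X : ZMod p) (Y : ZMod p) hXY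
    have hp0 : (0 : ℝ) < p := by exact_mod_cast hpp.pos
    calc ((Ω p).ncard : ℝ) / (p : ℝ) ^ 3 ≤ (p : ℝ) ^ 2 * (((p : ℝ) + 1) / 2) / (p : ℝ) ^ 3 :=
          div_le_div_of_nonneg_right h5 (by positivity)
      _ = ((p : ℝ) + 1) / (2 * p) := by field_simp
  have hd0 : (0 : ℝ) < d := by
    have : (0 : ℤ) < d := by omega
    exact_mod_cast this
  calc (S.card : ℝ) ≤ _ := hbox
    _ ≤ 6000 * H ^ 3 / (d * √(d : ℝ)) * ∏ p ∈ P', (((p : ℝ) + 1) / (2 * p)) := by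
        apply mul_le_mul (C9_prod d hd H _ _ h0 hQ hQQ) hle hnn
        positivity

/-- Row C9a (balanced scales). `S` is the union over `κ < J` of `S κ`; map `S κ` injectively (`basis_inj`) by
`v ↦ ![F1, B, F2]` to the box `K = ![5/2 H Q1/d, 5/2 H √(Q1 Q2)/d, 5/2 H Q2/d]` (`coeff_bound` with `BB_self`); for
`p ∈ P'` the image mod `p` is in the set of `card_form_square` with `(X, Y)` from `basis_FF`,
`(s,t) = (ε^κ)` (`X = Y = 0` mod `p` would give `s = t = 0` mod `p`, contradiction to `s^2 - d t^2 = 1`);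
`hbal` and `Q1 ≤ √(Q1Q2) ≤ Q2`: `box_sieve`, `n = 3`. `27 (5/2)^3 (16/3)^(3/2) ≤ 6000`,
`K1 K2 K3 = (5/2 H/d)^3 (Q1 Q2)^(3/2) ≤ (5/2)^3 (16/3)^(3/2) H^3/(d √d)`. -/
theorem balanced_count (d : ℤ) (hd : 2 ≤ d) (ε : Pell.Solution₁ d) (j H J : ℕ)
    (x1 y1 x2 y2 : ℤ) (hdet : x1 * y2 - x2 * y1 = 1) (h0 : 0 < QQ d j x1 y1)
    (hQ : QQ d j x1 y1 ≤ QQ d j x2 y2) (hQQ : QQ d j x1 y1 * QQ d j x2 y2 ≤ 16 / 3 * d)
    (P' : Finset ℕ) (hP : ∀ p ∈ P', p.Prime ∧ p ≠ 2)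
    (hbal : ((∏ p ∈ P', p : ℕ) : ℝ) ≤ 5 / 2 * H * QQ d j x1 y1 / d)
    (S : Finset (ℤ × ℤ × ℤ))
    (hS : ∀ v ∈ S, |v.1| ≤ (H : ℤ) ∧ |lam d v.1 v.2.1 v.2.2| ≤ 9 * H * 4 ^ j ∧
      |lam' d v.1 v.2.1 v.2.2| ≤ 3 * H / 4 ^ j ∧ ∃ κ : ℕ, κ < J ∧ ∀ p ∈ P',
        IsSquare ((FF d v.1 v.2.1 v.2.2 (ε ^ κ).x (ε ^ κ).y : ℤ) : ZMod p)) :
    (S.card : ℝ) ≤ 6000 * H ^ 3 / (d * √(d : ℝ)) * J * ∏ p ∈ P', (((p : ℝ) + 1) / (2 * p)) := by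
  classical
  let T : ℕ → Finset (ℤ × ℤ × ℤ) := fun κ => S.filter fun v => ∀ p ∈ P',
        IsSquare ((FF d v.1 v.2.1 v.2.2 (ε ^ κ).x (ε ^ κ).y : ℤ) : ZMod p)
  have hsub : S ⊆ (Finset.range J).biUnion T := by
    intro v hv
    obtain ⟨_, _, _, κ, hκ, h3⟩ := hS v hv
    exact Finset.mem_biUnion.2 ⟨κ, Finset.mem_range.2 hκ, Finset.mem_filter.2 ⟨hv, h3⟩⟩
  have hc1 : S.card ≤ ∑ κ ∈ Finset.range J, (T κ).card :=
    (Finset.card_le_card hsub).trans Finset.card_biUnion_le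
  have hc2 : (S.card : ℝ) ≤ ∑ κ ∈ Finset.range J, ((T κ).card : ℝ) := by exact_mod_cast hc1
  refine hc2.trans ?_
  have hc3 : ∀ κ ∈ Finset.range J, ((T κ).card : ℝ)
      ≤ 6000 * H ^ 3 / (d * √(d : ℝ)) * ∏ p ∈ P', (((p : ℝ) + 1) / (2 * p)) := by
    intro κ _
    apply C9_one d hd (ε ^ κ) j H x1 y1 x2 y2 hdet h0 hQ hQQ P' hP hbal (T κ)
    intro v hv
    obtain ⟨hv1, hv2⟩ := Finset.mem_filter.1 hv
    obtain ⟨ha, h1, h2, _⟩ := hS v hv1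
    exact ⟨ha, h1, h2, hv2⟩
  refine (Finset.sum_le_card_nsmul _ _ _ hc3).trans (le_of_eq ?_)
  rw [Finset.card_range, nsmul_eq_mul]
  ring

/-- Row C9b (unbalanced scales). Same box. If `S` is nonempty, `ee` not a square and `basis_ee` give `F1 ≠ 0`,
so `1 ≤ K 0 ≤ K 1 ≤ K 2`, and the number of integer points of the box is at most
`∏ (2 K i + 1) ≤ 27 ∏ K i` (`box_sieve` with `Q = ∅`). -/
theorem unbalanced_count (d : ℤ) (hd : 2 ≤ d) (j H : ℕ)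
    (x1 y1 x2 y2 : ℤ) (hdet : x1 * y2 - x2 * y1 = 1) (h0 : 0 < QQ d j x1 y1)
    (hQ : QQ d j x1 y1 ≤ QQ d j x2 y2) (hQQ : QQ d j x1 y1 * QQ d j x2 y2 ≤ 16 / 3 * d)
    (S : Finset (ℤ × ℤ × ℤ))
    (hS : ∀ v ∈ S, |v.1| ≤ (H : ℤ) ∧ |lam d v.1 v.2.1 v.2.2| ≤ 9 * H * 4 ^ j ∧
      |lam' d v.1 v.2.1 v.2.2| ≤ 3 * H / 4 ^ j ∧ ¬ IsSquare (ee d v.1 v.2.1 v.2.2)) :
    (S.card : ℝ) ≤ 6000 * H ^ 3 / (d * √(d : ℝ)) := by
  classical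
  have hd0 : (0 : ℝ) < d := by
    have : (0 : ℤ) < d := by omega
    exact_mod_cast this
  rcases S.eq_empty_or_nonempty with rfl | ⟨v0, hv0⟩
  · rw [Finset.card_empty]
    push_cast
    positivity
  · obtain ⟨ha0, h10, h20, hns⟩ := hS v0 hv0
    have hF : FF d v0.1 v0.2.1 v0.2.2 x1 y1 ≠ 0 := by
      intro hF0
      apply hns
      rw [basis_ee d v0.1 v0.2.1 v0.2.2 x1 y1 x2 y2 hdet, hF0, zero_mul, sub_zero]
      exact ⟨_, pow_two _⟩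
    have hK0 : (1 : ℝ) ≤ 5 / 2 * H * QQ d j x1 y1 / d := by
      have h1 := C9_phi_le d hd j H x1 y1 x2 y2 h0 hQ v0 ha0 h10 h20 0
      change |((FF d v0.1 v0.2.1 v0.2.2 x1 y1 : ℤ) : ℝ)| ≤ 5 / 2 * H * QQ d j x1 y1 / d at h1
      refine le_trans ?_ h1
      have h2 : (1 : ℤ) ≤ |FF d v0.1 v0.2.1 v0.2.2 x1 y1| := Int.one_le_abs hF
      exact_mod_cast h2
    have hcard : (S.image (C9_phi d x1 y1 x2 y2)).card = S.card :=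
      Finset.card_image_of_injective _ (C9_phi_inj d x1 y1 x2 y2 hdet)
    have hbox := box_sieve 3 ∅ (by simp) (fun _ => Set.univ)
      (C9_K d H (QQ d j x1 y1) (QQ d j x2 y2))
      (fun i => by
        rw [Finset.prod_empty, Nat.cast_one]
        exact hK0.trans (C9_K_le d hd H _ _ h0 hQ i))
      (S.image (C9_phi d x1 y1 x2 y2)) (by
        intro v' hv'
        obtain ⟨v, hv, rfl⟩ := Finset.mem_image.1 hv'
        obtain ⟨ha, h1, h2, h3⟩ := hS v hv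
        refine ⟨fun i => C9_phi_le d hd j H x1 y1 x2 y2 h0 hQ v ha h1 h2 i, ?_⟩
        intro p hp
        simp at hp)
    rw [hcard, Finset.prod_empty, mul_one] at hbox
    exact hbox.trans (C9_prod d hd H _ _ h0 hQ hQQ)

end N78
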