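import Pool.Agent.LibN78.C2
import Pool.Agent.LibN78.C3
import Pool.Agent.LibN78.C4
import Pool.Agent.LibN78.C9
import Pool.Agent.LibN78.C11

namespace N78

/-- survivors at `(d, j)`: normalized `v = (a, w, m)` satisfying the congruence conditions -/
def Surv (H J : ℕ) (P : Finset ℕ) (d : ℤ) (ε : Pell.Solution₁ d) (j : ℕ) : Set (ℤ × ℤ × ℤ) :=
  {v | |v.1| ≤ (H : ℤ) ∧ |lam d v.1 v.2.1 v.2.2| ≤ 9 * H * 4 ^ j ∧
      |lam' d v.1 v.2.1 v.2.2| ≤ 3 * H / 4 ^ j ∧ ¬ IsSquare (ee d v.1 v.2.1 v.2.2) ∧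
      ∃ κ : ℕ, κ < J ∧ ∀ p ∈ P, ¬ (p : ℤ) ∣ d →
        IsSquare ((FF d v.1 v.2.1 v.2.2 (ε ^ κ).x (ε ^ κ).y : ℤ) : ZMod p)}

theorem C12_ff_cast (p : ℕ) (d a w m s t s' t' : ℤ) (hs : (s : ZMod p) = s')
    (ht : (t : ZMod p) = t') :
    ((FF d a w m s t : ℤ) : ZMod p) = ((FF d a w m s' t' : ℤ) : ZMod p) := by
  unfold FF
  push_cast
  rw [hs, ht]

/-- Row C12a. From a point to a survivor: apply `normalize` to `v = (a, w, u^2)` (`ee d a w (u^2) = e`), take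
`κ = (k mod J)`; for `p ∈ P`, `p ∤ d`: `period` gives `u^2 = F_{v0}(ε^k) = F_{v0}(ε^κ)` mod `p`. -/
theorem to_surv (H J : ℕ) (P : Finset ℕ) (hJ : 0 < J) (hP : ∀ p ∈ P, p.Prime ∧ p ≠ 2 ∧ p ^ 2 - 1 ∣ J)
    (d : ℤ) (hd : 2 ≤ d) (ε : Pell.Solution₁ d) (hε : Pell.IsFundamental ε)
    (a e u w : ℤ) (ha : |a| ≤ (H : ℤ)) (hb : |d * e| ≤ (H : ℤ) ^ 2) (hD : a ^ 2 - 4 * (d * e) ≠ 0)
    (he : ¬ IsSquare e) (h : w ^ 2 = d * u ^ 4 + a * u ^ 2 + e) :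
    ∃ (j : ℕ) (v : ℤ × ℤ × ℤ), (2 : ℝ) ^ j < rv d ε.x ε.y ∧ v ∈ Surv H J P d ε j ∧ v.1 = a ∧
      ee d v.1 v.2.1 v.2.2 = e := by
  have hee : ee d a w (u ^ 2) = e := by
    unfold ee
    linear_combination h
  obtain ⟨j, k, w0, m0, h1, h2, h3, h4, h5⟩ := normalize d hd ε hε H a w (u ^ 2) ha
    (by rw [hee]; exact hb) (by rw [hee]; exact hD)
  have hJ' : (0 : ℤ) < (J : ℤ) := by exact_mod_cast hJ
  have hk0 : 0 ≤ k % (J : ℤ) := Int.emod_nonneg _ hJ'.ne'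
  have hk1 : k % (J : ℤ) < J := Int.emod_lt_of_pos _ hJ'
  refine ⟨j, (a, w0, m0), h1, ⟨ha, h4, h5, ?_, (k % (J : ℤ)).toNat, ?_, ?_⟩, rfl, ?_⟩
  · show ¬ IsSquare (ee d a w0 m0)
    rw [h2, hee]
    exact he
  · omega
  · intro p hp hpd
    have hk2 : (((k % (J : ℤ)).toNat : ℕ) : ℤ) = k % (J : ℤ) := Int.toNat_of_nonneg hk0
    obtain ⟨g1, g2⟩ := period d ε p J (hP p hp).1 (hP p hp).2.1 hpd (hP p hp).2.2 k
      (((k % (J : ℤ)).toNat : ℕ) : ℤ) (by rw [hk2]; exact (Int.mod_modEq k J).symm)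
    rw [zpow_natCast] at g1 g2
    show IsSquare ((FF d a w0 m0 (ε ^ (k % (J : ℤ)).toNat).x (ε ^ (k % (J : ℤ)).toNat).y : ℤ) :
      ZMod p)
    rw [C12_ff_cast p d a w0 m0 _ _ _ _ g1.symm g2.symm, ← h3]
    exact ⟨(u : ZMod p), by push_cast; ring⟩
  · show ee d a w0 m0 = e
    rw [h2, hee]

theorem C12_prod_le (P : Finset ℕ) (f : ℕ → Prop) [DecidablePred f] (hP : ∀ p ∈ P, 1 ≤ p) :
    ((∏ p ∈ P.filter f, p : ℕ) : ℝ) ≤ ((∏ p ∈ P, p : ℕ) : ℝ) := by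
  have h : ∏ p ∈ P.filter f, p ≤ ∏ p ∈ P, p :=
    Finset.prod_le_prod_of_subset_of_one_le' (Finset.filter_subset _ _) (fun p hp _ => hP p hp)
  exact_mod_cast h

/-- Row C12b. Count for one `d`. Choose for every `j` a basis by `scale_basis`. `Q1 ≤ 4d`, `|n| ≤ Q1/2 ≤ 2√d`
(`norm_le`, `Q1^2 ≤ Q1 Q2 ≤ 16d/3`). Balanced `j` (`q := ∏_{p ∈ P} p ≤ 5/2 H Q1/d`): `balanced_count` with
`P' = P.filter (p ∤ d)` and `hδ`; unbalanced `j` with nonempty `Surv`: `unbalanced_count`, and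
`|n| ≤ Q1/2 < q d/(5H)`. `scale_fibre` for both sets of `j`. -/
theorem count_d (H J : ℕ) (hH : 1 ≤ H) (P : Finset ℕ) (hP : ∀ p ∈ P, p.Prime ∧ p ≠ 2) (d : ℤ)
    (hd : 2 ≤ d) (hns : ¬ IsSquare d) (ε : Pell.Solution₁ d) (hε : Pell.IsFundamental ε) (δ : ℝ)
    (hδ : (J : ℝ) * ∏ p ∈ P.filter (fun p : ℕ => ¬ (p : ℤ) ∣ d), (((p : ℝ) + 1) / (2 * p)) ≤ δ)
    (S : Finset (ℤ × ℤ × ℤ))
    (hS : ∀ v ∈ S, ∃ j : ℕ, (2 : ℝ) ^ j < rv d ε.x ε.y ∧ v ∈ Surv H J P d ε j) :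
    (S.card : ℝ) ≤ 12000 * H ^ 3 * (Real.logb 2 (4 * d) + 1) *
      (δ * ((RR d (2 * √(d : ℝ))).ncard / (d * √(d : ℝ)))
        + (RR d (((∏ p ∈ P, p : ℕ) : ℝ) / (5 * H) * d)).ncard / (d * √(d : ℝ))) := by
  classical
  have hd' : (2 : ℝ) ≤ d := by exact_mod_cast hd
  have hH' : (1 : ℝ) ≤ H := by exact_mod_cast hH
  choose x1 y1 x2 y2 hdet h0 hQ hQQ using fun j : ℕ => scale_basis d hd j
  have hex : ∀ v : ℤ × ℤ × ℤ, ∃ j : ℕ, v ∈ S →
      ((2 : ℝ) ^ j < rv d ε.x ε.y ∧ v ∈ Surv H J P d ε j) := by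
    intro v
    by_cases hv : v ∈ S
    · obtain ⟨j, hj⟩ := hS v hv
      exact ⟨j, fun _ => hj⟩
    · exact ⟨0, fun h => absurd h hv⟩
  choose jj hjj using hex
  set q : ℝ := ((∏ p ∈ P, p : ℕ) : ℝ) with hq
  set K : ℝ := 6000 * H ^ 3 / (d * √(d : ℝ)) with hK
  have hK0 : 0 ≤ K := by positivity
  set Jb := (S.image jj).filter (fun j => q ≤ 5 / 2 * H * QQ d j (x1 j) (y1 j) / d) with hJb
  set Ju := (S.image jj).filter (fun j => ¬ q ≤ 5 / 2 * H * QQ d j (x1 j) (y1 j) / d) with hJu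
  have hcard : (S.card : ℝ) = ∑ j ∈ S.image jj, ((S.filter (fun v => jj v = j)).card : ℝ) := by
    rw [Finset.card_eq_sum_card_image jj S]
    push_cast
    rfl
  have hsplit : ∑ j ∈ S.image jj, ((S.filter (fun v => jj v = j)).card : ℝ) =
      ∑ j ∈ Jb, ((S.filter (fun v => jj v = j)).card : ℝ) +
      ∑ j ∈ Ju, ((S.filter (fun v => jj v = j)).card : ℝ) :=
    (Finset.sum_filter_add_sum_filter_not _ _ _).symm
  have hb1 : ∀ j ∈ Jb, ((S.filter (fun v => jj v = j)).card : ℝ) ≤ K * δ := by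
    intro j hj
    have hj2 := (Finset.mem_filter.1 hj).2
    have h1 := balanced_count d hd ε j H J (x1 j) (y1 j) (x2 j) (y2 j) (hdet j) (h0 j) (hQ j)
      (hQQ j) (P.filter (fun p : ℕ => ¬ (p : ℤ) ∣ d))
      (fun p hp => hP p (Finset.mem_filter.1 hp).1)
      ((C12_prod_le P _ (fun p hp => (hP p hp).1.one_lt.le)).trans hj2)
      (S.filter (fun v => jj v = j)) (by
        intro v hv
        obtain ⟨hvS, hvj⟩ := Finset.mem_filter.1 hv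
        obtain ⟨_, g1, g2, g3, _, κ, hκ, g4⟩ := hjj v hvS
        rw [hvj] at g2 g3
        exact ⟨g1, g2, g3, κ, hκ, fun p hp => g4 p (Finset.mem_filter.1 hp).1
          (Finset.mem_filter.1 hp).2⟩)
    refine h1.trans ?_
    rw [mul_assoc]
    exact mul_le_mul_of_nonneg_left hδ hK0
  have hu1 : ∀ j ∈ Ju, ((S.filter (fun v => jj v = j)).card : ℝ) ≤ K := by
    intro j hj
    exact unbalanced_count d hd j H (x1 j) (y1 j) (x2 j) (y2 j) (hdet j) (h0 j) (hQ j)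
      (hQQ j) (S.filter (fun v => jj v = j)) (by
        intro v hv
        obtain ⟨hvS, hvj⟩ := Finset.mem_filter.1 hv
        obtain ⟨_, g1, g2, g3, g5, _⟩ := hjj v hvS
        rw [hvj] at g2 g3
        exact ⟨g1, g2, g3, g5⟩)
  have hsq : √(d : ℝ) * √(d : ℝ) = d := Real.mul_self_sqrt (by linarith)
  have hs1 : 1 ≤ √(d : ℝ) := Real.one_le_sqrt.2 (by linarith)
  have hQ1 : ∀ j, QQ d j (x1 j) (y1 j) ≤ 4 * √(d : ℝ) := by
    intro j
    have h2 : QQ d j (x1 j) (y1 j) * QQ d j (x1 j) (y1 j) ≤ 16 / 3 * d :=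
      (mul_le_mul_of_nonneg_left (hQ j) (h0 j).le).trans (hQQ j)
    by_contra hcon
    rw [not_le] at hcon
    nlinarith
  have hcop : ∀ j, IsCoprime (x1 j) (y1 j) := fun j => ⟨y2 j, -x2 j, by linarith [hdet j]⟩
  have hEj : ∀ j ∈ S.image jj, (2 : ℝ) ^ j < rv d ε.x ε.y := by
    intro j hj
    obtain ⟨v, hv, rfl⟩ := Finset.mem_image.1 hj
    exact (hjj v hv).1
  have hJbc := scale_fibre d hd hns ε hε (2 * √(d : ℝ)) x1 y1 Jb (by
    intro j hj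
    refine ⟨hEj j (Finset.mem_filter.1 hj).1, hcop j, ?_, ?_⟩
    · have := hQ1 j
      nlinarith
    · have h3 := norm_le d (by omega) j (x1 j) (y1 j)
      have := hQ1 j
      linarith)
  have hJuc := scale_fibre d hd hns ε hε (q / (5 * H) * d) x1 y1 Ju (by
    intro j hj
    refine ⟨hEj j (Finset.mem_filter.1 hj).1, hcop j, ?_, ?_⟩
    · have := hQ1 j
      nlinarith
    · have h3 := norm_le d (by omega) j (x1 j) (y1 j)
      have h4 := (Finset.mem_filter.1 hj).2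
      rw [not_le, div_lt_iff₀ (by linarith)] at h4
      have h5 : QQ d j (x1 j) (y1 j) / 2 ≤ q / (5 * H) * d := by
        rw [div_mul_eq_mul_div, le_div_iff₀ (by positivity)]
        linarith
      linarith)
  have hsb : ∑ j ∈ Jb, ((S.filter (fun v => jj v = j)).card : ℝ) ≤ Jb.card * (K * δ) := by
    rw [← nsmul_eq_mul]
    exact Finset.sum_le_card_nsmul _ _ _ hb1
  have hsu : ∑ j ∈ Ju, ((S.filter (fun v => jj v = j)).card : ℝ) ≤ Ju.card * K := by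
    rw [← nsmul_eq_mul]
    exact Finset.sum_le_card_nsmul _ _ _ hu1
  have hδ0 : 0 ≤ δ := le_trans (mul_nonneg (Nat.cast_nonneg _)
    (Finset.prod_nonneg fun p _ => by positivity)) hδ
  have h6 : (Jb.card : ℝ) * (K * δ) ≤
      2 * (Real.logb 2 (4 * d) + 1) * (RR d (2 * √(d : ℝ))).ncard * (K * δ) :=
    mul_le_mul_of_nonneg_right hJbc (mul_nonneg hK0 hδ0)
  have h7 : (Ju.card : ℝ) * K ≤
      2 * (Real.logb 2 (4 * d) + 1) * (RR d (q / (5 * H) * d)).ncard * K :=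
    mul_le_mul_of_nonneg_right hJuc hK0
  rw [hcard, hsplit]
  calc _ ≤ 2 * (Real.logb 2 (4 * d) + 1) * (RR d (2 * √(d : ℝ))).ncard * (K * δ) +
        2 * (Real.logb 2 (4 * d) + 1) * (RR d (q / (5 * H) * d)).ncard * K := by linarith
    _ = _ := by
        rw [hK]
        ring

theorem C12_log_three : 1 < Real.log 3 := by
  rw [Real.lt_log_iff_exp_lt (by norm_num)]
  have := Real.exp_one_lt_d9
  linarith

theorem C12_logb (H : ℕ) (hH : 3 ≤ H) (n : ℕ) (h1 : 2 ≤ n) (h2 : n ≤ H ^ 2) :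
    Real.logb 2 (4 * ((n : ℤ) : ℝ)) + 1 ≤ 6 * Real.log H := by
  have hH' : (3 : ℝ) ≤ H := by exact_mod_cast hH
  have hlog : 1 ≤ Real.log H :=
    C12_log_three.le.trans (Real.log_le_log (by norm_num) hH')
  have hl2 : 0.6931471803 < Real.log 2 := Real.log_two_gt_d9
  have hn : ((n : ℤ) : ℝ) ≤ (H : ℝ) ^ 2 := by
    rw [Int.cast_natCast]
    exact_mod_cast h2
  have hn0 : (2 : ℝ) ≤ ((n : ℤ) : ℝ) := by
    rw [Int.cast_natCast]
    exact_mod_cast h1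
  have h3 : Real.logb 2 (4 * ((n : ℤ) : ℝ)) ≤ Real.logb 2 (4 * (H : ℝ) ^ 2) := by
    apply Real.logb_le_logb_of_le (by norm_num) (by linarith)
    linarith
  have h4 : Real.logb 2 (4 * (H : ℝ) ^ 2) = 2 + 2 * (Real.log H / Real.log 2) := by
    rw [Real.logb, Real.log_mul (by norm_num) (by positivity), Real.log_pow,
      show (4 : ℝ) = 2 ^ 2 by norm_num, Real.log_pow]
    push_cast
    field_simp
  have h5 : Real.log H / Real.log 2 ≤ 3 / 2 * Real.log H := by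
    rw [div_le_iff₀ (by linarith)]
    nlinarith
  rw [h4] at h3
  linarith

theorem C12_d (H q : ℕ) (hq : 1 ≤ q) (d e b : ℤ) (hd : 2 ≤ d) (he : (q : ℤ) ^ 4 ≤ |e|)
    (hb : |b| ≤ (H : ℤ) ^ 2) (hbe : b = d * e) :
    2 ≤ d.toNat ∧ d.toNat ≤ H ^ 2 / q ^ 4 ∧ |d * e| ≤ (H : ℤ) ^ 2 := by
  have h1 : |d * e| = d * |e| := by rw [abs_mul, abs_of_nonneg (by omega : 0 ≤ d)]
  have h2 : d * (q : ℤ) ^ 4 ≤ (H : ℤ) ^ 2 := by
    calc d * (q : ℤ) ^ 4 ≤ d * |e| := mul_le_mul_of_nonneg_left he (by omega)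
      _ = |b| := by rw [hbe, h1]
      _ ≤ (H : ℤ) ^ 2 := hb
  refine ⟨by omega, ?_, by rw [← hbe]; exact hb⟩
  rw [Nat.le_div_iff_mul_le (by positivity)]
  have h3 : ((d.toNat : ℕ) : ℤ) = d := Int.toNat_of_nonneg (by omega)
  have h4 : ((d.toNat * q ^ 4 : ℕ) : ℤ) ≤ ((H ^ 2 : ℕ) : ℤ) := by
    push_cast
    rw [h3]
    exact h2
  exact_mod_cast h4

/-- the sum over `d`. -/
theorem C12_final (Cb Cu δ q H : ℝ) (X : ℕ) (A B : ℕ → ℝ) (hCb : 0 < Cb) (hCu : 0 < Cu)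
    (hδ : 0 ≤ δ) (hq : 1 ≤ q) (hH : 3 ≤ H)
    (hA : ∑ n ∈ Finset.Icc 2 X, A n ≤ Cb * (2 * Real.log H))
    (hB : ∑ n ∈ Finset.Icc 2 X, B n ≤ Cu * (q / (5 * H)) * √(X : ℝ))
    (hX : (X : ℝ) * q ^ 4 ≤ H ^ 2) :
    ∑ n ∈ Finset.Icc 2 X, 12000 * H ^ 3 * (6 * Real.log H) * (δ * A n + B n) ≤
      72000 * (2 * Cb + Cu) * H ^ 3 * Real.log H ^ 2 * (δ + 1 / q) := by
  have hlog : 1 ≤ Real.log H :=
    C12_log_three.le.trans (Real.log_le_log (by norm_num) hH)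
  have h1 : √(X : ℝ) ≤ H / q ^ 2 := by
    rw [Real.sqrt_le_left (by positivity), div_pow, le_div_iff₀ (by positivity)]
    calc (X : ℝ) * (q ^ 2) ^ 2 = X * q ^ 4 := by ring
      _ ≤ H ^ 2 := hX
  have h2 : Cu * (q / (5 * H)) * √(X : ℝ) ≤ Cu * (1 / q) := by
    calc Cu * (q / (5 * H)) * √(X : ℝ) ≤ Cu * (q / (5 * H)) * (H / q ^ 2) :=
          mul_le_mul_of_nonneg_left h1 (by positivity)
      _ = Cu * (1 / q) * (1 / 5) := by field_simp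
      _ ≤ Cu * (1 / q) * 1 := mul_le_mul_of_nonneg_left (by norm_num) (by positivity)
      _ = Cu * (1 / q) := mul_one _
  rw [← Finset.mul_sum, Finset.sum_add_distrib, ← Finset.mul_sum]
  have h3 : δ * ∑ n ∈ Finset.Icc 2 X, A n ≤ δ * (Cb * (2 * Real.log H)) :=
    mul_le_mul_of_nonneg_left hA hδ
  have hq0 : 0 < 1 / q := by positivity
  have h4 : δ * ∑ n ∈ Finset.Icc 2 X, A n + ∑ n ∈ Finset.Icc 2 X, B n ≤
      (2 * Cb + Cu) * Real.log H * (δ + 1 / q) := by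
    have h5 : δ * (Cb * (2 * Real.log H)) ≤ (2 * Cb + Cu) * Real.log H * δ := by
      have : 0 ≤ Cu * Real.log H * δ := by positivity
      nlinarith
    have h6 : Cu * (1 / q) ≤ (2 * Cb + Cu) * Real.log H * (1 / q) := by
      apply mul_le_mul_of_nonneg_right _ hq0.le
      nlinarith
    calc _ ≤ δ * (Cb * (2 * Real.log H)) + Cu * (1 / q) := by linarith
      _ ≤ (2 * Cb + Cu) * Real.log H * δ + (2 * Cb + Cu) * Real.log H * (1 / q) := by linarith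
      _ = _ := by ring
  calc _ ≤ 12000 * H ^ 3 * (6 * Real.log H) * ((2 * Cb + Cu) * Real.log H * (δ + 1 / q)) :=
        mul_le_mul_of_nonneg_left h4 (by positivity)
    _ = _ := by ring

/-- Row C12c (generic class). For `z ∈ S` put `d`, `v` from `to_surv`; `z = (v.1, d * ee d v)`, so `#S` is at most the sum
over `2 ≤ d ≤ H^2/q^4` (`q = ∏ p`; `|d e| ≤ H^2`, `|e| ≥ q^4`), `d` not a square, of the bound `count_d` (`Surv` sets are finite: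
`Set.Finite` from the box, or argue with finite subsets). Choose `ε` for every nonsquare `d` (`Pell.IsFundamental.exists_of_not_isSquare`).
`sum_RR_balanced`, `X = H^2`; `sum_RR_unbalanced` with `μ = q/(5H) ≤ 1` (if `q > 5H` then `H^2/q^4 < 1`, `S` is empty),
`X = ⌊H^2/q^4⌋`: `C μ √X ≤ C/(5q)`. `logb 2 (4 H^2) + 1 ≤ C log H` for `H ≥ 3`. -/
theorem generic : ∃ C : ℝ, 0 < C ∧ ∀ (H J : ℕ) (P : Finset ℕ) (δ : ℝ), 3 ≤ H → 0 < J → P.Nonempty →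
    (∀ p ∈ P, p.Prime ∧ p ≠ 2 ∧ p ^ 2 - 1 ∣ J) →
    (∀ P' ⊆ P, 99 * P.card ≤ 100 * P'.card → (J : ℝ) * ∏ p ∈ P', (((p : ℝ) + 1) / (2 * p)) ≤ δ) →
    ∀ S : Finset (ℤ × ℤ),
    (∀ z ∈ S, z ∈ Box H ∧ ∃ d e u w : ℤ, 2 ≤ d ∧ ¬ IsSquare d ∧ ¬ IsSquare e ∧
      ((∏ p ∈ P, p : ℕ) : ℤ) ^ 4 ≤ |e| ∧ z.2 = d * e ∧ w ^ 2 = d * u ^ 4 + z.1 * u ^ 2 + e ∧
      100 * (P.filter (fun p : ℕ => (p : ℤ) ∣ d)).card ≤ P.card) →
    (S.card : ℝ) ≤ C * (H : ℝ) ^ 3 * Real.log H ^ 2 * (δ + 1 / ((∏ p ∈ P, p : ℕ) : ℝ)) := by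
  classical
  obtain ⟨Cb, hCb, hb⟩ := sum_RR_balanced
  obtain ⟨Cu, hCu, hu⟩ := sum_RR_unbalanced
  refine ⟨72000 * (2 * Cb + Cu), by positivity, ?_⟩
  intro H J P δ hH hJ hPne hP hδ S hS
  have hH' : (3 : ℝ) ≤ H := by exact_mod_cast hH
  have hδ0 : 0 ≤ δ := le_trans (mul_nonneg (Nat.cast_nonneg _)
    (Finset.prod_nonneg fun p _ => by positivity)) (hδ P (Finset.Subset.refl _) (by omega))
  have hq1 : 1 ≤ ∏ p ∈ P, p := Finset.one_le_prod' (fun p hp => (hP p hp).1.one_lt.le)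
  set q : ℕ := ∏ p ∈ P, p with hq
  have hq1' : (1 : ℝ) ≤ (q : ℝ) := by exact_mod_cast hq1
  have hlog : 1 ≤ Real.log H :=
    C12_log_three.le.trans (Real.log_le_log (by norm_num) hH')
  rcases S.eq_empty_or_nonempty with rfl | hSne
  · simp only [Finset.card_empty, Nat.cast_zero]
    positivity
  choose! d e u w hd2 hdns hens hqe hz2 hw hPd using fun z hz => (hS z hz).2
  have hεex : ∀ D : ℤ, ∃ ε : Pell.Solution₁ D, (2 ≤ D → ¬ IsSquare D → Pell.IsFundamental ε) := by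
    intro D
    by_cases h1 : 2 ≤ D
    · by_cases h2 : ¬ IsSquare D
      · obtain ⟨ε, hε⟩ := Pell.IsFundamental.exists_of_not_isSquare (by omega : 0 < D) h2
        exact ⟨ε, fun _ _ => hε⟩
      · exact ⟨1, fun _ h => absurd h h2⟩
    · exact ⟨1, fun h => absurd h h1⟩
  choose ε hε using hεex
  have hCd : ∀ z ∈ S, 2 ≤ (d z).toNat ∧ (d z).toNat ≤ H ^ 2 / q ^ 4 ∧
      |d z * e z| ≤ (H : ℤ) ^ 2 := fun z hz =>
    C12_d H q hq1 (d z) (e z) z.2 (hd2 z hz) (hqe z hz) (hS z hz).1.2.1 (hz2 z hz)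
  have hsurv : ∀ z ∈ S, ∃ v : ℤ × ℤ × ℤ, (∃ j : ℕ, (2 : ℝ) ^ j < rv (d z) (ε (d z)).x (ε (d z)).y ∧
      v ∈ Surv H J P (d z) (ε (d z)) j) ∧ v.1 = z.1 ∧ ee (d z) v.1 v.2.1 v.2.2 = e z := by
    intro z hz
    obtain ⟨hz1, hz3, hz4, hz5⟩ := (hS z hz).1
    obtain ⟨j, v, h1, h2, h3, h4⟩ := to_surv H J P hJ hP (d z) (hd2 z hz) (ε (d z))
      (hε _ (hd2 z hz) (hdns z hz)) z.1 (e z) (u z) (w z) hz1 (hCd z hz).2.2
      (by rw [← hz2 z hz]; exact hz5) (hens z hz) (hw z hz)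
    exact ⟨v, ⟨j, h1, h2⟩, h3, h4⟩
  choose! v hvs hv1 hve using hsurv
  have hdn : ∀ z ∈ S, (((d z).toNat : ℕ) : ℤ) = d z := fun z hz =>
    Int.toNat_of_nonneg (by have := hd2 z hz; omega)
  have hcard : (S.card : ℝ) = ∑ n ∈ S.image (fun z => (d z).toNat),
      ((S.filter (fun z => (d z).toNat = n)).card : ℝ) := by
    rw [Finset.card_eq_sum_card_image (fun z => (d z).toNat) S]
    push_cast
    rfl
  have hsub : S.image (fun z => (d z).toNat) ⊆ Finset.Icc 2 (H ^ 2 / q ^ 4) := by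
    intro n hn
    obtain ⟨z, hz, rfl⟩ := Finset.mem_image.1 hn
    exact Finset.mem_Icc.2 ⟨(hCd z hz).1, (hCd z hz).2.1⟩
  have hXle : H ^ 2 / q ^ 4 ≤ H ^ 2 := Nat.div_le_self _ _
  have hone : ∀ n ∈ S.image (fun z => (d z).toNat),
      ((S.filter (fun z => (d z).toNat = n)).card : ℝ) ≤ 12000 * (H : ℝ) ^ 3 *
        (6 * Real.log H) * (δ * (((RR (n : ℤ) (2 * √(n : ℝ))).ncard : ℝ) / ((n : ℝ) * √(n : ℝ))) +
        ((RR (n : ℤ) ((q : ℝ) / (5 * H) * n)).ncard : ℝ) / ((n : ℝ) * √(n : ℝ))) := by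
    intro n hn
    have hn2 := Finset.mem_Icc.1 (hsub hn)
    obtain ⟨z0, hz0, hzn0⟩ := Finset.mem_image.1 hn
    have hdz0 : d z0 = (n : ℤ) := by rw [← hdn z0 hz0, hzn0]
    have hns : ¬ IsSquare (n : ℤ) := by rw [← hdz0]; exact hdns z0 hz0
    have hn2' : (2 : ℤ) ≤ n := by exact_mod_cast hn2.1
    have hinj : Set.InjOn v (S.filter (fun z => (d z).toNat = n)) := by
      intro z hz z' hz' hvv
      obtain ⟨hzS, hzn⟩ := Finset.mem_filter.1 (Finset.mem_coe.1 hz)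
      obtain ⟨hzS', hzn'⟩ := Finset.mem_filter.1 (Finset.mem_coe.1 hz')
      have h1 : d z = d z' := by rw [← hdn z hzS, ← hdn z' hzS', hzn, hzn']
      apply Prod.ext
      · rw [← hv1 z hzS, ← hv1 z' hzS', hvv]
      · rw [hz2 z hzS, hz2 z' hzS', ← hve z hzS, ← hve z' hzS', hvv, h1]
    have hc := count_d H J (by omega) P (fun p hp => ⟨(hP p hp).1, (hP p hp).2.1⟩) (n : ℤ) hn2'
      hns (ε n) (hε _ hn2' hns) δ (by
        refine hδ _ (Finset.filter_subset _ _) ?_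
        have h2 := hPd z0 hz0
        rw [hdz0] at h2
        have h3 := Finset.card_filter_add_card_filter_not (s := P)
          (fun p : ℕ => (p : ℤ) ∣ (n : ℤ))
        omega)
      ((S.filter (fun z => (d z).toNat = n)).image v) (by
        intro y hy
        obtain ⟨z, hz, rfl⟩ := Finset.mem_image.1 hy
        obtain ⟨hzS, hzn⟩ := Finset.mem_filter.1 hz
        have h4 := hvs z hzS
        have h5 : d z = (n : ℤ) := by rw [← hdn z hzS, hzn]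
        rw [h5] at h4
        exact h4)
    rw [Finset.card_image_of_injOn hinj] at hc
    refine hc.trans ?_
    rw [Int.cast_natCast]
    have h6 := C12_logb H hH n hn2.1 (hn2.2.trans hXle)
    rw [Int.cast_natCast] at h6
    apply mul_le_mul_of_nonneg_right
    · exact mul_le_mul_of_nonneg_left h6 (by positivity)
    · positivity
  rw [hcard]
  have hX4 : (((H ^ 2 / q ^ 4 : ℕ) : ℝ)) * (q : ℝ) ^ 4 ≤ (H : ℝ) ^ 2 := by
    have h7 := Nat.div_mul_le_self (H ^ 2) (q ^ 4)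
    exact_mod_cast h7
  have hqH : (q : ℝ) ≤ 5 * H := by
    obtain ⟨z, hz⟩ := hSne
    have h8 := hCd z hz
    have h9 : 2 ≤ H ^ 2 / q ^ 4 := h8.1.trans h8.2.1
    have h10 : 2 * q ^ 4 ≤ H ^ 2 := (Nat.le_div_iff_mul_le (by positivity)).1 h9
    have h11 : q ^ 2 ≤ H ^ 2 := by
      have : q ^ 2 ≤ q ^ 4 := Nat.pow_le_pow_right hq1 (by norm_num)
      omega
    have h12 : q ≤ H := (Nat.pow_le_pow_iff_left (by norm_num)).1 h11
    have h13 : (q : ℝ) ≤ H := by exact_mod_cast h12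
    linarith
  have hfin := C12_final Cb Cu δ q H (H ^ 2 / q ^ 4)
    (fun n => ((RR (n : ℤ) (2 * √(n : ℝ))).ncard : ℝ) / ((n : ℝ) * √(n : ℝ)))
    (fun n => ((RR (n : ℤ) ((q : ℝ) / (5 * H) * n)).ncard : ℝ) / ((n : ℝ) * √(n : ℝ)))
    hCb hCu hδ0 hq1' hH' (by
      have h14 := hb (H ^ 2) (by nlinarith)
      have h15 : Real.log ((H ^ 2 : ℕ) : ℝ) = 2 * Real.log H := by
        push_cast
        rw [Real.log_pow]
        push_cast
        ring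
      rw [h15] at h14
      refine le_trans (Finset.sum_le_sum_of_subset_of_nonneg
        (Finset.Icc_subset_Icc_right hXle) ?_) h14
      intro n _ _
      positivity)
    (hu (H ^ 2 / q ^ 4) ((q : ℝ) / (5 * H)) (by positivity)
      (by rw [div_le_one (by positivity)]; exact hqH)) hX4
  refine le_trans (Finset.sum_le_sum hone) (le_trans
    (Finset.sum_le_sum_of_subset_of_nonneg hsub ?_) hfin)
  intro n _ _
  positivity

end N78
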