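import Pool.Agent.LibN78.C1

namespace N78

private theorem C2_mul (d : ℤ) (hd : 0 ≤ d) (η η' : Pell.Solution₁ d) :
    rv d (η * η').x (η * η').y = rv d η.x η.y * rv d η'.x η'.y := by
  have hs : √(d : ℝ) * √(d : ℝ) = (d : ℝ) := Real.mul_self_sqrt (by exact_mod_cast hd)
  unfold rv
  rw [Pell.Solution₁.x_mul, Pell.Solution₁.y_mul]
  push_cast
  linear_combination (-(η.y : ℝ) * (η'.y : ℝ)) * hs

private theorem C2_inv (d : ℤ) (hd : 0 ≤ d) (η : Pell.Solution₁ d) :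
    rv d η.x η.y * rc d η.x η.y = 1 := by
  have hs : √(d : ℝ) * √(d : ℝ) = (d : ℝ) := Real.mul_self_sqrt (by exact_mod_cast hd)
  have hp : (η.x : ℝ) ^ 2 - d * (η.y : ℝ) ^ 2 = 1 := by exact_mod_cast η.prop
  unfold rv rc
  linear_combination hp - (η.y : ℝ) ^ 2 * hs

private theorem C2_zpow (d : ℤ) (hd : 0 ≤ d) (η : Pell.Solution₁ d) (k : ℤ) :
    rv d (η ^ k).x (η ^ k).y = (rv d η.x η.y) ^ k := by
  let φ : Pell.Solution₁ d →* ℝ :=
    { toFun := fun η => rv d η.x η.y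
      map_one' := by
        change rv d (1 : Pell.Solution₁ d).x (1 : Pell.Solution₁ d).y = 1
        rw [Pell.Solution₁.x_one, Pell.Solution₁.y_one]
        simp [rv]
      map_mul' := fun a b => C2_mul d hd a b }
  refine map_zpow' φ (fun x => ?_) η k
  change rv d (x⁻¹).x (x⁻¹).y = (rv d x.x x.y)⁻¹
  rw [Pell.Solution₁.x_inv, Pell.Solution₁.y_inv]
  have h1 := C2_inv d hd x
  have h2 : rv d x.x (-x.y) = rc d x.x x.y := by
    unfold rv rc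
    push_cast
    ring
  rw [h2]
  exact (eq_inv_of_mul_eq_one_right h1)

/-- Row C2. `E = rv d ε.x ε.y > 1`, `rc d ε.x ε.y = E⁻¹`; `rv d (ε^k).x (ε^k).y = E^k` (`k ∈ ℤ`, induction).
`lam_mul`: `λ, λ' ≠ 0`. Choose `k` with `E^(4k) ≤ |λ(v)/λ'(v)| < E^(4(k+1))` (`exists_mem_Ico_zpow`), and `v0 = v * ε^(-k)`
(`act_lam`: ratio `R` in `[1, E^4)`; `act_FF` with `η = ε^(-k)`, `η' = ε^k`: `F_{v0}(ε^k) = F_v(1) = m`; `act_ee`).
`j = ⌊log_16 R⌋`: `16^j ≤ R < 16^(j+1)`, so `2^j < E`. `|λ0|^2 = |D| R < 5H^2 * 16 * 16^j`,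
`|λ0'|^2 = |D|/R ≤ 5H^2/16^j`. -/
theorem normalize (d : ℤ) (hd : 2 ≤ d) (ε : Pell.Solution₁ d) (hε : Pell.IsFundamental ε) (H : ℕ)
    (a w m : ℤ) (ha : |a| ≤ (H : ℤ)) (hb : |d * ee d a w m| ≤ (H : ℤ) ^ 2)
    (hD : a ^ 2 - 4 * (d * ee d a w m) ≠ 0) :
    ∃ (j : ℕ) (k w0 m0 : ℤ), (2 : ℝ) ^ j < rv d ε.x ε.y ∧ ee d a w0 m0 = ee d a w m ∧
      m = FF d a w0 m0 (ε ^ k).x (ε ^ k).y ∧
      |lam d a w0 m0| ≤ 9 * H * 4 ^ j ∧ |lam' d a w0 m0| ≤ 3 * H / 4 ^ j := by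
  have hd0 : (0 : ℤ) ≤ d := by linarith
  have hd0' : (0 : ℤ) < d := by linarith
  set E : ℝ := rv d ε.x ε.y with hE
  have hx : (1 : ℤ) < ε.x := hε.1
  have hy : (0 : ℤ) < ε.y := hε.2.1
  have hE1 : 1 < E := by
    rw [hE]
    unfold rv
    have h1 : (1 : ℝ) < (ε.x : ℝ) := by exact_mod_cast hx
    have h2 : (0 : ℝ) < (ε.y : ℝ) := by exact_mod_cast hy
    have h3 : 0 ≤ √(d : ℝ) := Real.sqrt_nonneg _
    have := mul_nonneg h2.le h3
    linarith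
  have hE0 : 0 < E := by linarith
  -- the discriminant
  set D : ℤ := a ^ 2 - 4 * d * ee d a w m with hDdef
  have hDne : D ≠ 0 := by
    rw [hDdef]
    intro h
    apply hD
    linarith
  have hmul : lam d a w m * lam' d a w m = (D : ℝ) := lam_mul d hd0' a w m
  have hDR : (D : ℝ) ≠ 0 := by exact_mod_cast hDne
  have hl : lam d a w m ≠ 0 := fun h => hDR (by rw [← hmul, h, zero_mul])
  have hl' : lam' d a w m ≠ 0 := fun h => hDR (by rw [← hmul, h, mul_zero])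
  have hH0 : (0 : ℝ) ≤ (H : ℝ) := Nat.cast_nonneg _
  have hDle : |(D : ℝ)| ≤ 5 * (H : ℝ) ^ 2 := by
    have h1 : |(a : ℝ)| ≤ (H : ℝ) := by exact_mod_cast ha
    have h2 : |((d * ee d a w m : ℤ) : ℝ)| ≤ (H : ℝ) ^ 2 := by exact_mod_cast hb
    have h3 : (D : ℝ) = (a : ℝ) ^ 2 - 4 * ((d * ee d a w m : ℤ) : ℝ) := by
      rw [hDdef]
      push_cast
      ring
    rw [h3]
    have h4 : (a : ℝ) ^ 2 ≤ (H : ℝ) ^ 2 := sq_le_sq.2 (by rwa [abs_of_nonneg hH0])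
    have h5 := abs_le.1 h2
    rw [abs_le]
    constructor
    · have := sq_nonneg (a : ℝ)
      linarith [h5.2]
    · linarith [h5.1]
  -- the power
  have hR0 : 0 < |lam d a w m| / |lam' d a w m| := div_pos (abs_pos.2 hl) (abs_pos.2 hl')
  have hE4 : 1 < E ^ 4 := one_lt_pow₀ hE1 (by norm_num)
  obtain ⟨k, hk1, hk2⟩ := exists_mem_Ico_zpow hR0 hE4
  set η : Pell.Solution₁ d := ε ^ (-k) with hη
  set w0 : ℤ := WW d a w m η.x η.y with hw0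
  set m0 : ℤ := FF d a w m η.x η.y with hm0
  obtain ⟨hlam, hlam'⟩ := act_lam d hd0' η a w m
  rw [← hw0, ← hm0] at hlam hlam'
  have hrv : rv d η.x η.y = E ^ (-k) := C2_zpow d hd0 ε (-k)
  have hrc : rc d η.x η.y = E ^ k := by
    have h1 := C2_inv d hd0 η
    rw [hrv] at h1
    rw [zpow_neg] at h1
    have h2 : E ^ k ≠ 0 := zpow_ne_zero _ hE0.ne'
    field_simp at h1
    exact h1
  rw [hrv] at hlam
  rw [hrc] at hlam'
  set L : ℝ := lam d a w0 m0 with hL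
  set L' : ℝ := lam' d a w0 m0 with hL'
  have hEk : 0 < E ^ k := zpow_pos hE0 _
  have hLL' : L * L' = (D : ℝ) := by
    rw [hlam, hlam', ← hmul, zpow_neg]
    field_simp
  have hLne : L ≠ 0 := fun h => hDR (by rw [← hLL', h, zero_mul])
  have hL'ne : L' ≠ 0 := fun h => hDR (by rw [← hLL', h, mul_zero])
  have hLpos : 0 < |L| := abs_pos.2 hLne
  have hL'pos : 0 < |L'| := abs_pos.2 hL'ne
  have habsmul : |L| * |L'| = |(D : ℝ)| := by rw [← abs_mul, hLL']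
  have hratio : |L| / |L'| = (|lam d a w m| / |lam' d a w m|) / (E ^ 4) ^ k := by
    rw [hlam, hlam', abs_mul, abs_mul, zpow_neg, abs_of_pos (pow_pos (inv_pos.2 hEk) 2),
      abs_of_pos (pow_pos hEk 2)]
    have h4 : (E ^ 4) ^ k = (E ^ k) ^ 4 := by
      rw [← zpow_natCast, ← zpow_natCast, ← zpow_mul, ← zpow_mul, mul_comm]
    rw [h4]
    have := abs_pos.2 hl'
    field_simp
  have hE4k : 0 < (E ^ 4) ^ k := zpow_pos (by linarith) _
  have hR1 : 1 ≤ |L| / |L'| := by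
    rw [hratio, le_div_iff₀ hE4k, one_mul]
    exact hk1
  have hR2 : |L| / |L'| < E ^ 4 := by
    rw [hratio, div_lt_iff₀ hE4k]
    rw [zpow_add_one₀ (by linarith : E ^ 4 ≠ 0)] at hk2
    linarith
  obtain ⟨j, hj1, hj2⟩ := exists_nat_pow_near hR1 (by norm_num : (1 : ℝ) < 16)
  rw [le_div_iff₀ hL'pos] at hj1
  rw [div_lt_iff₀ hL'pos] at hj2
  have h16 : (16 : ℝ) ^ j = (4 ^ j) ^ 2 := by
    rw [← pow_mul, mul_comm, pow_mul]; norm_num
  have h4j : (0 : ℝ) < 4 ^ j := by positivity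
  refine ⟨j, k, w0, m0, ?_, act_ee d η a w m, ?_, ?_, ?_⟩
  · have h1 : (16 : ℝ) ^ j < E ^ 4 := by
      have h2 : (16 : ℝ) ^ j ≤ |L| / |L'| := by rwa [le_div_iff₀ hL'pos]
      linarith
    have h3 : ((2 : ℝ) ^ j) ^ 4 < E ^ 4 := by
      rw [← pow_mul, mul_comm, pow_mul]
      norm_num
      exact h1
    exact lt_of_pow_lt_pow_left₀ 4 hE0.le h3
  · have h1 := act_FF d η (ε ^ k) a w m
    rw [← hw0, ← hm0] at h1
    rw [h1, hη, ← zpow_add, neg_add_cancel, zpow_zero, Pell.Solution₁.x_one, Pell.Solution₁.y_one]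
    simp [FF]
  · refine abs_le_of_sq_le_sq' ?_ (by positivity) |> abs_le.2
    have h1 : |L| * |L| ≤ |L| * (16 ^ (j + 1) * |L'|) := mul_le_mul_of_nonneg_left hj2.le hLpos.le
    have h2 : |L| * (16 ^ (j + 1) * |L'|) = 16 ^ (j + 1) * |(D : ℝ)| := by rw [← habsmul]; ring
    rw [h2, pow_succ] at h1
    have h3 : L ^ 2 = |L| * |L| := by rw [← sq, sq_abs]
    rw [h3]
    have h5 : (16 : ℝ) ^ j * 16 * |(D : ℝ)| ≤ 16 ^ j * 16 * (5 * (H : ℝ) ^ 2) :=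
      mul_le_mul_of_nonneg_left hDle (by positivity)
    calc |L| * |L| ≤ 16 ^ j * 16 * (5 * (H : ℝ) ^ 2) := h1.trans h5
      _ = 80 * ((4 ^ j) ^ 2 * (H : ℝ) ^ 2) := by rw [h16]; ring
      _ ≤ 81 * ((4 ^ j) ^ 2 * (H : ℝ) ^ 2) := by
        have : 0 ≤ ((4 : ℝ) ^ j) ^ 2 * (H : ℝ) ^ 2 := by positivity
        linarith
      _ = (9 * H * 4 ^ j) ^ 2 := by ring
  · refine abs_le_of_sq_le_sq' ?_ (by positivity) |> abs_le.2
    have h1 : (16 ^ j * |L'|) * |L'| ≤ |L| * |L'| := mul_le_mul_of_nonneg_right hj1 hL'pos.le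
    rw [habsmul] at h1
    have h3 : L' ^ 2 = |L'| * |L'| := by rw [← sq, sq_abs]
    rw [h3, div_pow, le_div_iff₀ (by positivity), ← h16]
    calc |L'| * |L'| * 16 ^ j = 16 ^ j * |L'| * |L'| := by ring
      _ ≤ |(D : ℝ)| := h1
      _ ≤ 5 * (H : ℝ) ^ 2 := hDle
      _ ≤ 9 * (H : ℝ) ^ 2 := by
        have : 0 ≤ (H : ℝ) ^ 2 := by positivity
        linarith
      _ = (3 * H) ^ 2 := by ring

end N78
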