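import Pool.Agent.LibN78.Defs

namespace N78

/-- the symmetric bilinear form of `FF d a w m` -/
def BB (d a w m x1 y1 x2 y2 : ℤ) : ℤ :=
  (a + d * m) * (y1 * y2) + w * (x1 * y2 + x2 * y1) + m * (x1 * x2)

theorem BB_self (d a w m x y : ℤ) : BB d a w m x y x y = FF d a w m x y := by
  unfold BB FF; ring

private theorem C5_cs1 (c ic U1 V1 U2 V2 : ℝ) (h : c * ic = 1) :
    (c * (U1 * U2) + ic * (V1 * V2)) ^ 2 ≤
      (c * U1 ^ 2 + ic * V1 ^ 2) * (c * U2 ^ 2 + ic * V2 ^ 2) := by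
  have h1 : (c * U1 ^ 2 + ic * V1 ^ 2) * (c * U2 ^ 2 + ic * V2 ^ 2)
      - (c * (U1 * U2) + ic * (V1 * V2)) ^ 2 = (c * ic) * (U1 * V2 - V1 * U2) ^ 2 := by ring
  rw [h, one_mul] at h1
  nlinarith [sq_nonneg (U1 * V2 - V1 * U2)]

private theorem C5_cs2 (c ic U1 V1 U2 V2 : ℝ) (h : c * ic = 1) :
    (U1 * V2 + V1 * U2) ^ 2 ≤
      (c * U1 ^ 2 + ic * V1 ^ 2) * (c * U2 ^ 2 + ic * V2 ^ 2) := by
  have h1 : (c * U1 ^ 2 + ic * V1 ^ 2) * (c * U2 ^ 2 + ic * V2 ^ 2)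
      - (c * ic) * (U1 * V2 + V1 * U2) ^ 2 = (c * (U1 * U2) - ic * (V1 * V2)) ^ 2 := by ring
  rw [h, one_mul] at h1
  nlinarith [sq_nonneg (c * (U1 * U2) - ic * (V1 * V2))]

private theorem C5_main (c ic H e1 f1 e2 f2 l l' a S : ℝ) (hic : 0 < ic)
    (h : c * ic = 1) (hH : 0 ≤ H) (ha : |a| ≤ H) (h1 : |l| ≤ 9 * H * c) (h2 : |l'| ≤ 3 * H * ic)
    (hS : S = (c * e1 ^ 2 + ic * f1 ^ 2) * (c * e2 ^ 2 + ic * f2 ^ 2)) :
    |l * (e1 * e2) + l' * (f1 * f2) - a * (e1 * f2 + f1 * e2)| ≤ 10 * H * √S := by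
  have k1 : c * (|e1| * |e2|) + ic * (|f1| * |f2|) ≤ √S := by
    apply Real.le_sqrt_of_sq_le
    have := C5_cs1 c ic |e1| |f1| |e2| |f2| h
    rw [sq_abs, sq_abs, sq_abs, sq_abs] at this
    rw [hS]; exact this
  have k2 : |e1| * |f2| + |f1| * |e2| ≤ √S := by
    apply Real.le_sqrt_of_sq_le
    have := C5_cs2 c ic |e1| |f1| |e2| |f2| h
    rw [sq_abs, sq_abs, sq_abs, sq_abs] at this
    rw [hS]; exact this
  have t1 : |l * (e1 * e2)| ≤ 9 * H * (c * (|e1| * |e2|)) := by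
    rw [abs_mul, abs_mul]
    have := mul_le_mul_of_nonneg_right h1 (mul_nonneg (abs_nonneg e1) (abs_nonneg e2))
    linarith
  have t2 : |l' * (f1 * f2)| ≤ 9 * H * (ic * (|f1| * |f2|)) := by
    rw [abs_mul, abs_mul]
    have := mul_le_mul_of_nonneg_right h2 (mul_nonneg (abs_nonneg f1) (abs_nonneg f2))
    have h3 : 0 ≤ H * (ic * (|f1| * |f2|)) := by positivity
    linarith
  have t3 : |a * (e1 * f2 + f1 * e2)| ≤ H * (|e1| * |f2| + |f1| * |e2|) := by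
    rw [abs_mul]
    have h3 : |e1 * f2 + f1 * e2| ≤ |e1| * |f2| + |f1| * |e2| := by
      have := abs_add_le (e1 * f2) (f1 * e2)
      rwa [abs_mul, abs_mul] at this
    exact mul_le_mul ha h3 (abs_nonneg _) hH
  have t4 : |l * (e1 * e2) + l' * (f1 * f2) - a * (e1 * f2 + f1 * e2)| ≤
      |l * (e1 * e2)| + |l' * (f1 * f2)| + |a * (e1 * f2 + f1 * e2)| :=
    (abs_sub _ _).trans (add_le_add (abs_add_le _ _) le_rfl)
  have t5 := mul_le_mul_of_nonneg_left k1 (by positivity : 0 ≤ 9 * H)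
  have t6 := mul_le_mul_of_nonneg_left k2 hH
  linarith

/-- Row C5. With `ηi = rv d xi yi`, `ηi' = rc d xi yi`:
`4 d BB = λ η1 η2 + λ' η1' η2' - a (η1 η2' + η1' η2)` (ring, `√d^2 = d`). `c = 4^j`;
`c |η1 η2| + |η1' η2'|/c ≤ √(Q1 Q2)` and `|η1 η2'| + |η1' η2| ≤ √(Q1 Q2)` (Cauchy-Schwarz in `ℝ^2` for
`(√c η1, η1'/√c)` and `(√c η2, η2'/√c)`, resp. `(η2'/√c, √c η2)`); so `|4 d BB| ≤ (9H + H) √(Q1 Q2)`. -/
theorem coeff_bound (d : ℤ) (hd : 2 ≤ d) (j H : ℕ) (a w m x1 y1 x2 y2 : ℤ) (ha : |a| ≤ (H : ℤ))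
    (h1 : |lam d a w m| ≤ 9 * H * 4 ^ j) (h2 : |lam' d a w m| ≤ 3 * H / 4 ^ j) :
    |((BB d a w m x1 y1 x2 y2 : ℤ) : ℝ)| ≤ 5 / 2 * H * √(QQ d j x1 y1 * QQ d j x2 y2) / d := by
  have hd0 : (0 : ℝ) < (d : ℝ) := by exact_mod_cast (by omega : 0 < d)
  have hs : √(d : ℝ) ^ 2 = (d : ℝ) := Real.sq_sqrt hd0.le
  have hc : (0 : ℝ) < 4 ^ j := by positivity
  have hic : (0 : ℝ) < (4 ^ j)⁻¹ := by positivity
  have hcc : (4 : ℝ) ^ j * (4 ^ j)⁻¹ = 1 := mul_inv_cancel₀ hc.ne'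
  have ha' : |(a : ℝ)| ≤ (H : ℝ) := by exact_mod_cast ha
  have h2' : |lam' d a w m| ≤ 3 * (H : ℝ) * (4 ^ j)⁻¹ := by
    rw [← div_eq_mul_inv]; exact h2
  have hQ : ∀ x y : ℤ, QQ d j x y = 4 ^ j * rv d x y ^ 2 + (4 ^ j)⁻¹ * rc d x y ^ 2 := by
    intro x y
    unfold QQ
    rw [div_eq_inv_mul]
  have key := C5_main (4 ^ j) (4 ^ j)⁻¹ H (rv d x1 y1) (rc d x1 y1) (rv d x2 y2) (rc d x2 y2)
    (lam d a w m) (lam' d a w m) a (QQ d j x1 y1 * QQ d j x2 y2) hic hcc (Nat.cast_nonneg H)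
    ha' h1 h2' (by rw [hQ, hQ])
  have hid : lam d a w m * (rv d x1 y1 * rv d x2 y2) + lam' d a w m * (rc d x1 y1 * rc d x2 y2)
      - a * (rv d x1 y1 * rc d x2 y2 + rc d x1 y1 * rv d x2 y2) =
      4 * d * ((BB d a w m x1 y1 x2 y2 : ℤ) : ℝ) := by
    unfold lam lam' rv rc BB
    push_cast
    generalize √(d : ℝ) = s at hs
    rw [← hs]
    ring
  rw [hid, abs_mul, abs_of_pos (by positivity : (0 : ℝ) < 4 * d)] at key
  rw [le_div_iff₀ hd0]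
  linarith

/-- Row C5b. `|x^2 - d y^2| = |η η'| ≤ QQ/2`. -/
theorem norm_le (d : ℤ) (hd : 0 ≤ d) (j : ℕ) (x y : ℤ) :
    |((x ^ 2 - d * y ^ 2 : ℤ) : ℝ)| ≤ QQ d j x y / 2 := by
  have hd0 : (0 : ℝ) ≤ (d : ℝ) := by exact_mod_cast hd
  have hs : √(d : ℝ) ^ 2 = (d : ℝ) := Real.sq_sqrt hd0
  have hc : (0 : ℝ) < 4 ^ j := by positivity
  have hic : (0 : ℝ) < (4 ^ j)⁻¹ := by positivity
  have hcc : (4 : ℝ) ^ j * (4 ^ j)⁻¹ = 1 := mul_inv_cancel₀ hc.ne'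
  have hid : ((x ^ 2 - d * y ^ 2 : ℤ) : ℝ) = rv d x y * rc d x y := by
    unfold rv rc
    push_cast
    generalize √(d : ℝ) = s at hs
    rw [← hs]
    ring
  have h2 : (|rv d x y| * |rc d x y| + |rc d x y| * |rv d x y|) ^ 2 ≤ QQ d j x y ^ 2 := by
    have := C5_cs2 (4 ^ j) (4 ^ j)⁻¹ |rv d x y| |rc d x y| |rv d x y| |rc d x y| hcc
    rw [sq_abs, sq_abs] at this
    unfold QQ
    rw [div_eq_inv_mul]
    calc _ ≤ _ := this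
      _ = _ := by ring
  have hQ0 : 0 ≤ QQ d j x y := by
    unfold QQ
    positivity
  have h3 := abs_le_of_sq_le_sq h2 hQ0
  rw [hid, abs_mul]
  have h4 := le_abs_self (|rv d x y| * |rc d x y| + |rc d x y| * |rv d x y|)
  linarith [mul_comm |rc d x y| |rv d x y|]

end N78
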