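import Pool.Agent.LibN78.C5

namespace N78

/-- Row C6a. `ee = B^2 - F1 F2` in a basis of determinant one (ring identity; `h` squared). -/
theorem basis_ee (d a w m x1 y1 x2 y2 : ℤ) (h : x1 * y2 - x2 * y1 = 1) :
    ee d a w m = BB d a w m x1 y1 x2 y2 ^ 2 - FF d a w m x1 y1 * FF d a w m x2 y2 := by
  have h2 : BB d a w m x1 y1 x2 y2 ^ 2 - FF d a w m x1 y1 * FF d a w m x2 y2 =
      ee d a w m * (x1 * y2 - x2 * y1) ^ 2 := by
    unfold BB FF ee
    ring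
  rw [h2, h]
  ring

/-- Row C6b. value at `(s, t) = X (x1,y1) + Y (x2,y2)`, `X = s y2 - t x2`, `Y = t x1 - s y1`. -/
theorem basis_FF (d a w m x1 y1 x2 y2 s t : ℤ) (h : x1 * y2 - x2 * y1 = 1) :
    FF d a w m s t = FF d a w m x1 y1 * (s * y2 - t * x2) ^ 2
      + 2 * BB d a w m x1 y1 x2 y2 * (s * y2 - t * x2) * (t * x1 - s * y1)
      + FF d a w m x2 y2 * (t * x1 - s * y1) ^ 2 := by
  have h2 : FF d a w m x1 y1 * (s * y2 - t * x2) ^ 2
      + 2 * BB d a w m x1 y1 x2 y2 * (s * y2 - t * x2) * (t * x1 - s * y1)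
      + FF d a w m x2 y2 * (t * x1 - s * y1) ^ 2 =
      FF d a w m s t * (x1 * y2 - x2 * y1) ^ 2 := by
    unfold BB FF
    ring
  rw [h2, h]
  ring

/-- Row C6c. `v ↦ (F1, B, F2)` is injective: `m = F_v(1,0)`, `a + d m = F_v(0,1)` (`basis_FF`), and
`w = -F1 x2 y2 + B (x1 y2 + x2 y1) - F2 x1 y1`. -/
theorem basis_inj (d a w m a' w' m' x1 y1 x2 y2 : ℤ) (h : x1 * y2 - x2 * y1 = 1)
    (h1 : FF d a w m x1 y1 = FF d a' w' m' x1 y1) (h2 : FF d a w m x2 y2 = FF d a' w' m' x2 y2)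
    (h3 : BB d a w m x1 y1 x2 y2 = BB d a' w' m' x1 y1 x2 y2) : a = a' ∧ w = w' ∧ m = m' := by
  have hF : ∀ s t : ℤ, FF d a w m s t = FF d a' w' m' s t := by
    intro s t
    rw [basis_FF d a w m x1 y1 x2 y2 s t h, basis_FF d a' w' m' x1 y1 x2 y2 s t h, h1, h2, h3]
  have e1 := hF 1 0
  have e2 := hF 0 1
  have e3 := hF 1 1
  unfold FF at e1 e2 e3
  have hm : m = m' := by linarith
  subst hm
  have ha : a = a' := by linarith
  subst ha
  exact ⟨rfl, by linarith, rfl⟩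

end N78
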