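import Mathlib

namespace N78

open Real

/-- pairs `(a,b)`, `|a| ≤ H`, `|b| ≤ H^2`, for which `y^2 = X (X^2 + a X + b)` is nonsingular -/
def Box (H : ℕ) : Set (ℤ × ℤ) :=
  {z | |z.1| ≤ (H : ℤ) ∧ |z.2| ≤ (H : ℤ) ^ 2 ∧ z.2 ≠ 0 ∧ z.1 ^ 2 - 4 * z.2 ≠ 0}

/-- the pairs of `Box H` whose curve has an integral point with `y ≠ 0` -/
def Bad (H : ℕ) : Set (ℤ × ℤ) :=
  {z | z ∈ Box H ∧ ∃ X y : ℤ, y ≠ 0 ∧ y ^ 2 = X * (X ^ 2 + z.1 * X + z.2)}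

/-- `F_v(s + t √d)` for `v = (a, w, m)` -/
def FF (d a w m s t : ℤ) : ℤ := (a + d * m) * t ^ 2 + 2 * w * s * t + m * s ^ 2

/-- the second coordinate of `v * (s + t √d)` (the first is `a`, the third `FF d a w m s t`) -/
def WW (d a w m s t : ℤ) : ℤ := (a + 2 * d * m) * s * t + w * (s ^ 2 + d * t ^ 2)

/-- the invariant `e` -/
def ee (d a w m : ℤ) : ℤ := w ^ 2 - a * m - d * m ^ 2

/-- `λ(v) = a + 2 d m + 2 w √d` -/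
noncomputable def lam (d a w m : ℤ) : ℝ := a + 2 * d * m + 2 * w * √(d : ℝ)

/-- the conjugate of `lam` -/
noncomputable def lam' (d a w m : ℤ) : ℝ := a + 2 * d * m - 2 * w * √(d : ℝ)

/-- the real value of `x + y √d` -/
noncomputable def rv (d x y : ℤ) : ℝ := x + y * √(d : ℝ)

/-- the conjugate of `rv` -/
noncomputable def rc (d x y : ℤ) : ℝ := x - y * √(d : ℝ)

/-- the positive definite form of scale `T = 2 ^ j` on `ℤ[√d]` -/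
noncomputable def QQ (d : ℤ) (j : ℕ) (x y : ℤ) : ℝ := 4 ^ j * rv d x y ^ 2 + rc d x y ^ 2 / 4 ^ j

/-- pairs `(n, r)`: `1 ≤ |n| ≤ n0`, `r` a residue mod `n` with `r^2 = d` mod `n` -/
def RR (d : ℤ) (n0 : ℝ) : Set (ℤ × ℤ) :=
  {z | z.1 ≠ 0 ∧ |(z.1 : ℝ)| ≤ n0 ∧ 0 ≤ z.2 ∧ z.2 < |z.1| ∧ z.1 ∣ z.2 ^ 2 - d}

end N78
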