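import Pool.Agent.LibN44.Defs
import Pool.Agent.LibN78.Defs

namespace N78

/-- `d` is not `δ δ'` with `δ < q2` and all large primes `l ∣ δ'` satisfying `(±cδ/l) ≠ -1` -/
def TD2 (d q2 W4 : ℕ) : Prop :=
  ∀ δ δ' c : ℕ, δ * δ' = d → δ < q2 → 1 ≤ c → c ≤ W4 → ∀ κ : ℤ,
    (κ = (c : ℤ) * δ ∨ κ = -((c : ℤ) * δ)) → ¬ IsSquare κ →
    ∃ l : ℕ, l.Prime ∧ l ∣ δ' ∧ W4 < l ∧ jacobiSym κ l = -1

/-- some large prime `l ∣ d` has `(c/l) = (-c/l) = -1`, for every nonsquare `c ≤ W4` -/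
def TD3 (d W4 : ℕ) : Prop :=
  ∀ c : ℕ, 1 ≤ c → c ≤ W4 → ¬ IsSquare (c : ℤ) →
    ∃ l : ℕ, l.Prime ∧ l ∣ d ∧ W4 < l ∧ jacobiSym (c : ℤ) l = -1 ∧ jacobiSym (-(c : ℤ)) l = -1

/-- for every factorization with both factors `≥ q2` a ninth of the primes of `P` have the symbols
`(d/p) = α`, `(c δ1/p) = -1` -/
def TD4 (d q2 W4 : ℕ) (P : Finset ℕ) : Prop :=
  ∀ δ1 δ2 c : ℕ, δ1 * δ2 = d → q2 ≤ δ1 → q2 ≤ δ2 → 1 ≤ c → c ≤ W4 → ∀ α : ℤ, (α = 1 ∨ α = -1) →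
    P.card ≤ 9 * (P.filter (fun p : ℕ => jacobiSym (d : ℤ) p = α ∧
      jacobiSym ((c : ℤ) * δ1) p = -1)).card

end N78
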