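import Pool.Agent.LibN78.D0
import Pool.Agent.LibN78.C3
import Pool.Agent.LibN78.C7
import Pool.Agent.LibN78.C8

namespace N78

/-- Row D1a. `η.x = (m1 m0 - d r1 r0)/f`, `η.y = (r1 m0 - m1 r0)/f`: divisible because
`m1 m0 - d r1 r0 = (t^2 - d) r1 r0 = 0`, `r1 m0 - m1 r0 = 0` mod `f`; norm `(f * f)/f^2 = 1`. -/
theorem orbit (d f t m1 r1 m0 r0 : ℤ) (hf : f ≠ 0) (h1 : m1 ^ 2 - d * r1 ^ 2 = f)
    (h0 : m0 ^ 2 - d * r0 ^ 2 = f) (c1 : f ∣ m1 - t * r1) (c0 : f ∣ m0 - t * r0)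
    (ht : f ∣ t ^ 2 - d) :
    ∃ η : Pell.Solution₁ d, m1 = m0 * η.x + d * r0 * η.y ∧ r1 = m0 * η.y + r0 * η.x := by
  obtain ⟨u, hu⟩ := c1
  obtain ⟨v, hv⟩ := c0
  obtain ⟨w, hw⟩ := ht
  have hx : f * (w * r1 * r0 + u * m0 + t * r1 * v) = m1 * m0 - d * (r1 * r0) := by
    linear_combination (-m0) * hu - t * r1 * hv - r1 * r0 * hw
  have hy : f * (r1 * v - u * r0) = r1 * m0 - m1 * r0 := by
    linear_combination (-r1) * hv + r0 * hu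
  set x := w * r1 * r0 + u * m0 + t * r1 * v with hxdef
  set y := r1 * v - u * r0 with hydef
  have hn : x ^ 2 - d * y ^ 2 = 1 := by
    have h2 : f ^ 2 * (x ^ 2 - d * y ^ 2) = f ^ 2 * 1 := by
      have e1 : f ^ 2 * (x ^ 2 - d * y ^ 2) = (f * x) ^ 2 - d * (f * y) ^ 2 := by ring
      rw [e1, hx, hy]
      have e2 : (m1 * m0 - d * (r1 * r0)) ^ 2 - d * (r1 * m0 - m1 * r0) ^ 2
          = (m1 ^ 2 - d * r1 ^ 2) * (m0 ^ 2 - d * r0 ^ 2) := by ring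
      rw [e2, h1, h0]; ring
    exact mul_left_cancel₀ (pow_ne_zero 2 hf) h2
  refine ⟨Pell.Solution₁.mk x y hn, ?_, ?_⟩
  · have hX : (Pell.Solution₁.mk x y hn).x = x := rfl
    have hY : (Pell.Solution₁.mk x y hn).y = y := rfl
    rw [hX, hY]
    apply mul_left_cancel₀ hf
    linear_combination (-m0) * hx - d * r0 * hy - m1 * h0
  · have hX : (Pell.Solution₁.mk x y hn).x = x := rfl
    have hY : (Pell.Solution₁.mk x y hn).y = y := rfl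
    rw [hX, hY]
    apply mul_left_cancel₀ hf
    linear_combination (-m0) * hy - r0 * hx - r1 * h0

/-- one class of `(p+1)/2` residues -/
private theorem D1_card (p : ℕ) (hp : p.Prime) (hp5 : 5 ≤ p) (u v w : ZMod p) (hw : w ≠ 0) :
    ((Set.ncard {c : ZMod p | ∃ x : ZMod p, c * w - v = u * x ^ 2} : ℕ) : ℝ) / p ≤ 3 / 5 := by
  have : Fact p.Prime := ⟨hp⟩
  have hsub : {c : ZMod p | ∃ x : ZMod p, c * w - v = u * x ^ 2} ⊆
      (fun y : ZMod p => (u * y + v) / w) '' {c : ZMod p | IsSquare c} := by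
    rintro c ⟨x, hx⟩
    refine ⟨x ^ 2, ⟨x, by ring⟩, ?_⟩
    have h2 : u * x ^ 2 + v = c * w := by rw [← hx]; ring
    show (u * x ^ 2 + v) / w = c
    rw [h2, mul_div_assoc, div_self hw, mul_one]
  have h1 : Set.ncard {c : ZMod p | ∃ x : ZMod p, c * w - v = u * x ^ 2} ≤ (p + 1) / 2 := by
    calc Set.ncard {c : ZMod p | ∃ x : ZMod p, c * w - v = u * x ^ 2}
        ≤ Set.ncard ((fun y : ZMod p => (u * y + v) / w) '' {c : ZMod p | IsSquare c}) :=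
          Set.ncard_le_ncard hsub (Set.toFinite _)
      _ ≤ Set.ncard {c : ZMod p | IsSquare c} := Set.ncard_image_le (Set.toFinite _)
      _ = (p + 1) / 2 := card_squares p hp (by omega)
  have h2 : ((Set.ncard {c : ZMod p | ∃ x : ZMod p, c * w - v = u * x ^ 2} : ℕ) : ℝ)
      ≤ ((p : ℝ) + 1) / 2 := by
    have h3 : ((Set.ncard {c : ZMod p | ∃ x : ZMod p, c * w - v = u * x ^ 2} : ℕ) : ℝ)
        ≤ (((p + 1) / 2 : ℕ) : ℝ) := by exact_mod_cast h1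
    refine h3.trans ?_
    have h4 := @Nat.cast_div_le ℝ _ _ _ (p + 1) 2
    push_cast at h4
    exact h4
  have hp0 : (0 : ℝ) < p := by exact_mod_cast hp.pos
  have hp5' : (5 : ℝ) ≤ p := by exact_mod_cast hp5
  rw [div_le_iff₀ hp0]
  nlinarith

/-- the second coordinate and the first coordinate of `σ ε^k (m0 + r0 √d)` -/
private noncomputable def D1_m (d : ℤ) (ε : Pell.Solution₁ d) (m0 r0 σ k : ℤ) : ℤ :=
  σ * (m0 * (ε ^ k).x + d * r0 * (ε ^ k).y)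

private noncomputable def D1_r (d : ℤ) (ε : Pell.Solution₁ d) (m0 r0 σ k : ℤ) : ℤ :=
  σ * (m0 * (ε ^ k).y + r0 * (ε ^ k).x)

private theorem D1_per (d : ℤ) (ε : Pell.Solution₁ d) (m0 r0 σ : ℤ) (p J : ℕ) (hp : p.Prime)
    (hp2 : p ≠ 2) (hpd : ¬ (p : ℤ) ∣ d) (hJ : p ^ 2 - 1 ∣ J) (k l : ℤ) (h : k ≡ l [ZMOD J]) :
    ((D1_m d ε m0 r0 σ k : ℤ) : ZMod p) = ((D1_m d ε m0 r0 σ l : ℤ) : ZMod p) ∧
    ((D1_r d ε m0 r0 σ k : ℤ) : ZMod p) = ((D1_r d ε m0 r0 σ l : ℤ) : ZMod p) := by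
  obtain ⟨h1, h2⟩ := period d ε p J hp hp2 hpd hJ k l h
  unfold D1_m D1_r
  push_cast
  rw [h1, h2]
  exact ⟨rfl, rfl⟩

/-- one part of the set -/
private theorem D1_part (d s : ℕ) (f t : ℤ) (hf : f ≠ 0) (H J K : ℕ)
    (P : Finset ℕ) (hP : ∀ p ∈ P, p.Prime ∧ 5 ≤ p ∧ 2 * s < p ∧ p ^ 2 - 1 ∣ J)
    (hq : (∏ p ∈ P, p) * f.natAbs ≤ H) (ε : Pell.Solution₁ (d : ℤ)) (m0 r0 σ : ℤ) (ρ g : ℕ) (κ : ℤ)
    (S : Finset ℤ)
    (hS : ∀ a ∈ S, |a| ≤ (H : ℤ) ∧ ∃ (X Y r : ℕ) (m k : ℤ), N44.UU a d s ρ g X Y r m f ∧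
      f ∣ m - t * r ∧ K ≤ (P.filter (fun p : ℕ => ¬ p ∣ d ∧ ¬ (p : ℤ) ∣ f ∧ ¬ p ∣ r)).card ∧
      k ≡ κ [ZMOD J] ∧ m = D1_m d ε m0 r0 σ k ∧ (r : ℤ) = D1_r d ε m0 r0 σ k) :
    (S.card : ℝ) ≤ 4 * ((H : ℝ) / f.natAbs) * (3 / 5) ^ K := by
  rcases S.eq_empty_or_nonempty with hE | ⟨a1, ha1⟩
  · rw [hE]
    simp only [Finset.card_empty, Nat.cast_zero]
    positivity
  set m' := D1_m d ε m0 r0 σ κ with hm'
  set r' := D1_r d ε m0 r0 σ κ with hr'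
  set Q := P.filter (fun p : ℕ => ¬ p ∣ d ∧ ¬ (p : ℤ) ∣ f ∧ ¬ (p : ℤ) ∣ r') with hQdef
  have habs : ((f.natAbs : ℕ) : ℝ) = |(f : ℝ)| := by
    rw [Nat.cast_natAbs]; push_cast; rfl
  have hKQ : K ≤ Q.card := by
    obtain ⟨-, X, Y, r, m, k, hU, hc, hK, hk, hm, hr⟩ := hS a1 ha1
    refine hK.trans (Finset.card_le_card ?_)
    intro p hp
    rw [Finset.mem_filter] at hp
    obtain ⟨hpP, hpd, hpf, hpr⟩ := hp
    obtain ⟨hpp, hp5, -, hpJ⟩ := hP p hpP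
    rw [hQdef, Finset.mem_filter]
    refine ⟨hpP, hpd, hpf, ?_⟩
    intro hdiv
    apply hpr
    have h2 := (D1_per (d : ℤ) ε m0 r0 σ p J hpp (by omega) (by exact_mod_cast hpd) hpJ k κ hk).2
    rw [← hr, ← hr'] at h2
    have h3 : ((r' : ℤ) : ZMod p) = 0 := (ZMod.intCast_zmod_eq_zero_iff_dvd r' p).2 hdiv
    rw [h3] at h2
    have h4 : (p : ℤ) ∣ (r : ℤ) := (ZMod.intCast_zmod_eq_zero_iff_dvd (r : ℤ) p).1 h2
    exact_mod_cast h4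
  let Ω : ∀ p : ℕ, Set (ZMod p) := fun p =>
    {c : ZMod p | ∃ x : ZMod p, c * ((r' : ℤ) : ZMod p) - ((2 * s * m' : ℤ) : ZMod p)
      = ((g * f * ρ : ℤ) : ZMod p) * x ^ 2}
  have hQ : ∀ p ∈ Q, p.Prime := by
    intro p hp
    rw [hQdef, Finset.mem_filter] at hp
    exact (hP p hp.1).1
  have hprod : ((∏ p ∈ Q, p : ℕ) : ℝ) ≤ ((∏ p ∈ P, p : ℕ) : ℝ) := by
    have h1 : ∏ p ∈ Q, p ≤ ∏ p ∈ P, p := by
      apply Finset.prod_le_prod_of_subset_of_one_le' (Finset.filter_subset _ _)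
      intro p hp _
      exact (hP p hp).1.one_lt.le
    exact_mod_cast h1
  have hqR : ((∏ p ∈ P, p : ℕ) : ℝ) * |(f : ℝ)| ≤ H := by
    rw [← habs]
    exact_mod_cast hq
  have hap := ap_sieve Q hQ f (2 * s * t) hf (by
      intro p hp
      rw [hQdef, Finset.mem_filter] at hp
      exact hp.2.2.1) Ω (-(H : ℝ)) (2 * H) (by
      have h0 : (0 : ℝ) ≤ H := Nat.cast_nonneg H
      have h1 : |(f : ℝ)| * ((∏ p ∈ Q, p : ℕ) : ℝ) ≤ |(f : ℝ)| * ((∏ p ∈ P, p : ℕ) : ℝ) :=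
        mul_le_mul_of_nonneg_left hprod (abs_nonneg _)
      linarith) S (by
      intro a ha
      obtain ⟨haH, X, Y, r, m, k, hU, hc, hK, hk, hm, hr⟩ := hS a ha
      obtain ⟨hρ, hg, hX, hY, hr0, hρs, hgs, hcop, hf0, hfe, hgr, hsq⟩ := hU
      have haR : |(a : ℝ)| ≤ H := by exact_mod_cast haH
      obtain ⟨ha1, ha2⟩ := abs_le.1 haR
      refine ⟨ha1, by linarith, ?_, ?_⟩
      · have hcf : IsCoprime f (r : ℤ) := by
          have h1 : IsCoprime (m ^ 2) (r : ℤ) := hcop.pow_left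
          have h2 := h1.add_mul_left_left (-((d : ℤ) * r))
          have h3 : f = m ^ 2 + (r : ℤ) * (-((d : ℤ) * r)) := by rw [hfe]; ring
          rw [h3]; exact h2
        obtain ⟨u, hu⟩ := hc
        have h1 : f ∣ (r : ℤ) * (2 * s * t - a) := by
          refine ⟨-(g * ρ * X ^ 2) - 2 * s * u, ?_⟩
          linear_combination hsq - 2 * s * hu
        exact Int.modEq_iff_dvd.2 (hcf.dvd_of_dvd_mul_left h1)
      · intro p hp
        rw [hQdef, Finset.mem_filter] at hp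
        obtain ⟨hpP, hpd, hpf, hpr⟩ := hp
        obtain ⟨hpp, hp5, -, hpJ⟩ := hP p hpP
        obtain ⟨h1, h2⟩ := D1_per (d : ℤ) ε m0 r0 σ p J hpp (by omega) (by exact_mod_cast hpd) hpJ k κ hk
        rw [← hm, ← hm'] at h1
        rw [← hr, ← hr'] at h2
        refine ⟨((X : ℤ) : ZMod p), ?_⟩
        rw [← h2]
        have h3 : ((2 * s * m' : ℤ) : ZMod p) = ((2 * s * m : ℤ) : ZMod p) := by
          push_cast
          rw [h1]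
        rw [h3]
        have h4 := congrArg (fun z : ℤ => (z : ZMod p)) hsq
        push_cast at h4 ⊢
        rw [← h4])
  have hpr : ∏ p ∈ Q, (((Ω p).ncard : ℝ) / p) ≤ (3 / 5 : ℝ) ^ Q.card := by
    rw [← Finset.prod_const]
    apply Finset.prod_le_prod
    · intro p _; positivity
    · intro p hp
      rw [hQdef, Finset.mem_filter] at hp
      obtain ⟨hpP, hpd, hpf, hpr⟩ := hp
      obtain ⟨hpp, hp5, -, hpJ⟩ := hP p hpP
      apply D1_card p hpp hp5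
      intro h
      exact hpr ((ZMod.intCast_zmod_eq_zero_iff_dvd r' p).1 h)
  have hpow : (3 / 5 : ℝ) ^ Q.card ≤ (3 / 5 : ℝ) ^ K :=
    pow_le_pow_of_le_one (by norm_num) (by norm_num) hKQ
  have hHf : (0 : ℝ) ≤ (H : ℝ) / |(f : ℝ)| := by positivity
  rw [habs]
  calc (S.card : ℝ) ≤ 2 * (2 * (H : ℝ) / |(f : ℝ)|) * ∏ p ∈ Q, (((Ω p).ncard : ℝ) / p) := hap
    _ ≤ 2 * (2 * (H : ℝ) / |(f : ℝ)|) * (3 / 5 : ℝ) ^ K := by
        apply mul_le_mul_of_nonneg_left (hpr.trans hpow)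
        positivity
    _ = 4 * ((H : ℝ) / |(f : ℝ)|) * (3 / 5) ^ K := by ring

/-- Row D1b (the sieve in `a` for fixed `d, s, f, t`). If `S` is nonempty take `(m0, r0)` from one of its
members. For every member `(m, r) = η (m0, r0)` (`orbit`), `η = ± ε^k` (`IsFundamental.eq_zpow_or_neg_zpow`),
`κ = k mod J`; for `p ∈ P`, `p ∤ d`, `(m, r) = (m', r') := ± ε^κ (m0, r0)` mod `p` (`period`). Split `S` by
`(ρ, g, sign, κ)`: at most `4 s^2 * 2 * J` parts. In one part `Q := {p ∈ P | p ∤ d, p ∤ f, p ∤ r'}` (`K ≤ #Q`, the same set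
for all members), for `p ∈ Q`: `a r' - 2 s m' = g f ρ X^2` in `ZMod p`, so `a` mod `p` is in a set `Ω p` of
`(p+1)/2 ≤ (3/5) p` classes (`card_squares`; `g f ρ ≠ 0`, `r' ≠ 0` mod `p`, because `g, ρ ∣ 2 s < p`). `a = 2 s t` mod `f`
(`f ∣ a r - 2 s m`, `m = t r`, `(r, f) = 1`). `ap_sieve` with `A = -H`, `M = 2 H`. -/
theorem a_sieve (d s : ℕ) (hd : 2 ≤ d) (hns : ¬ IsSquare (d : ℤ)) (hs : 1 ≤ s) (f t : ℤ)
    (hf : f ≠ 0) (ht : f ∣ t ^ 2 - d) (H J K : ℕ) (hJ : 0 < J) (P : Finset ℕ)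
    (hP : ∀ p ∈ P, p.Prime ∧ 5 ≤ p ∧ 2 * s < p ∧ p ^ 2 - 1 ∣ J)
    (hq : (∏ p ∈ P, p) * f.natAbs ≤ H) (S : Finset ℤ)
    (hS : ∀ a ∈ S, |a| ≤ (H : ℤ) ∧ ∃ (ρ g X Y r : ℕ) (m : ℤ), N44.UU a d s ρ g X Y r m f ∧
      f ∣ m - t * r ∧ K ≤ (P.filter (fun p : ℕ => ¬ p ∣ d ∧ ¬ (p : ℤ) ∣ f ∧ ¬ p ∣ r)).card) :
    (S.card : ℝ) ≤ 64 * (s : ℝ) ^ 2 * J * ((H : ℝ) / f.natAbs) * (3 / 5) ^ K := by
  classical
  rcases S.eq_empty_or_nonempty with hE | ⟨a0, ha0⟩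
  · rw [hE]
    simp only [Finset.card_empty, Nat.cast_zero]
    positivity
  obtain ⟨-, ρ0, g0, X0, Y0, r0, m0, hU0, hc0, -⟩ := hS a0 ha0
  have hf0 : m0 ^ 2 - (d : ℤ) * (r0 : ℤ) ^ 2 = f := hU0.2.2.2.2.2.2.2.2.2.1.symm
  have hd0 : (0 : ℤ) < (d : ℤ) := by exact_mod_cast (by omega : 0 < d)
  obtain ⟨ε, hε⟩ := Pell.IsFundamental.exists_of_not_isSquare hd0 hns
  let sg : ℕ → ℤ := fun i => if i = 0 then 1 else -1
  let I : Finset (ℕ × ℕ × ℕ × ℕ) :=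
    (Finset.Icc 1 (2 * s)) ×ˢ (Finset.Icc 1 (2 * s)) ×ˢ (Finset.range 2) ×ˢ (Finset.range J)
  let pr : ℕ × ℕ × ℕ × ℕ → ℤ → Prop := fun i a =>
    ∃ (X Y r : ℕ) (m k : ℤ), N44.UU a d s i.1 i.2.1 X Y r m f ∧
      f ∣ m - t * r ∧ K ≤ (P.filter (fun p : ℕ => ¬ p ∣ d ∧ ¬ (p : ℤ) ∣ f ∧ ¬ p ∣ r)).card ∧
      k ≡ (i.2.2.2 : ℤ) [ZMOD J] ∧ m = D1_m d ε m0 r0 (sg i.2.2.1) k ∧
      (r : ℤ) = D1_r d ε m0 r0 (sg i.2.2.1) k
  have hsub : S ⊆ I.biUnion (fun i => S.filter (fun a => pr i a)) := by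
    intro a ha
    rw [Finset.mem_biUnion]
    obtain ⟨haH, ρ, g, X, Y, r, m, hU, hc, hK⟩ := hS a ha
    have hfm : m ^ 2 - (d : ℤ) * (r : ℤ) ^ 2 = f := hU.2.2.2.2.2.2.2.2.2.1.symm
    obtain ⟨η, hη1, hη2⟩ := orbit (d : ℤ) f t m r m0 r0 hf hfm hf0 hc hc0 ht
    obtain ⟨k, hk⟩ := hε.eq_zpow_or_neg_zpow η
    have hJZ : (J : ℤ) ≠ 0 := by exact_mod_cast hJ.ne'
    have hk1 : 0 ≤ k % (J : ℤ) := Int.emod_nonneg k hJZ
    have hk2 : k % (J : ℤ) < J := Int.emod_lt_of_pos k (by exact_mod_cast hJ)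
    obtain ⟨κ, hκ⟩ := Int.eq_ofNat_of_zero_le hk1
    have hκJ : κ < J := by
      have : ((κ : ℕ) : ℤ) < J := by rw [← hκ]; exact hk2
      exact_mod_cast this
    have hmod : k ≡ (κ : ℤ) [ZMOD J] := by
      rw [← hκ]
      exact (Int.mod_modEq k J).symm
    have hρ1 : ρ ∈ Finset.Icc 1 (2 * s) :=
      Finset.mem_Icc.2 ⟨hU.1, Nat.le_of_dvd (by omega) hU.2.2.2.2.2.1⟩
    have hg1 : g ∈ Finset.Icc 1 (2 * s) :=
      Finset.mem_Icc.2 ⟨hU.2.1, Nat.le_of_dvd (by omega) hU.2.2.2.2.2.2.1⟩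
    rcases hk with hk | hk
    · refine ⟨(ρ, g, 0, κ), ?_, ?_⟩
      · simp only [I, Finset.mem_product]
        exact ⟨hρ1, hg1, by simp, Finset.mem_range.2 hκJ⟩
      · rw [Finset.mem_filter]
        refine ⟨ha, X, Y, r, m, k, hU, hc, hK, hmod, ?_, ?_⟩
        · simp only [sg, D1_m, if_pos, one_mul]
          rw [← hk]; exact hη1
        · simp only [sg, D1_r, if_pos, one_mul]
          rw [← hk]; exact hη2
    · refine ⟨(ρ, g, 1, κ), ?_, ?_⟩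
      · simp only [I, Finset.mem_product]
        exact ⟨hρ1, hg1, by simp, Finset.mem_range.2 hκJ⟩
      · rw [Finset.mem_filter]
        have hx : η.x = - (ε ^ k).x := by rw [hk]; exact Pell.Solution₁.x_neg _
        have hy : η.y = - (ε ^ k).y := by rw [hk]; exact Pell.Solution₁.y_neg _
        refine ⟨ha, X, Y, r, m, k, hU, hc, hK, hmod, ?_, ?_⟩
        · simp only [sg, D1_m, one_ne_zero, if_false]
          rw [hη1, hx, hy]; ring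
        · simp only [sg, D1_r, one_ne_zero, if_false]
          rw [hη2, hx, hy]; ring
  have hcard : (S.card : ℝ) ≤ ∑ i ∈ I, ((S.filter (fun a => pr i a)).card : ℝ) := by
    have h1 : S.card ≤ ∑ i ∈ I, (S.filter (fun a => pr i a)).card :=
      (Finset.card_le_card hsub).trans Finset.card_biUnion_le
    exact_mod_cast h1
  have hpart : ∀ i ∈ I, ((S.filter (fun a => pr i a)).card : ℝ)
      ≤ 4 * ((H : ℝ) / f.natAbs) * (3 / 5) ^ K := by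
    intro i _
    apply D1_part d s f t hf H J K P hP hq ε m0 r0 (sg i.2.2.1) i.1 i.2.1 (i.2.2.2 : ℤ)
    intro a ha
    rw [Finset.mem_filter] at ha
    exact ⟨(hS a ha.1).1, ha.2⟩
  have hIcard : (I.card : ℝ) = 8 * (s : ℝ) ^ 2 * J := by
    simp only [I, Finset.card_product, Nat.card_Icc, Finset.card_range]
    push_cast
    ring
  calc (S.card : ℝ) ≤ ∑ i ∈ I, ((S.filter (fun a => pr i a)).card : ℝ) := hcard
    _ ≤ ∑ _i ∈ I, 4 * ((H : ℝ) / f.natAbs) * (3 / 5) ^ K := Finset.sum_le_sum hpart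
    _ = (I.card : ℝ) * (4 * ((H : ℝ) / f.natAbs) * (3 / 5) ^ K) := by
        rw [Finset.sum_const, nsmul_eq_mul]
    _ = 32 * (s : ℝ) ^ 2 * J * ((H : ℝ) / f.natAbs) * (3 / 5) ^ K := by
        rw [hIcard]; ring
    _ ≤ 64 * (s : ℝ) ^ 2 * J * ((H : ℝ) / f.natAbs) * (3 / 5) ^ K := by
        have h0 : (0 : ℝ) ≤ (s : ℝ) ^ 2 * J * ((H : ℝ) / f.natAbs) * (3 / 5) ^ K := by positivity
        nlinarith

end N78
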