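import Pool.Agent.LibN78.D0
import Pool.Agent.LibN44.T8a

namespace N78

private lemma D10_block (f : ℕ → Prop) [DecidablePred f] (q : ℕ) (hf : Function.Periodic f q)
    (a n : ℕ) : ((Finset.Ico a (a + n * q)).filter f).card ≤ n * q.count f := by
  induction n with
  | zero => simp
  | succ n ih =>
    have h1 : Finset.Ico a (a + (n + 1) * q) ⊆
        Finset.Ico a (a + n * q) ∪ Finset.Ico (a + n * q) (a + n * q + q) := by
      intro x hx
      simp only [Finset.mem_union, Finset.mem_Ico] at hx ⊢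
      have h2 : a + (n + 1) * q = a + n * q + q := by ring
      omega
    refine (Finset.card_le_card (Finset.filter_subset_filter _ h1)).trans ?_
    rw [Finset.filter_union]
    refine (Finset.card_union_le _ _).trans ?_
    rw [Nat.filter_Ico_card_eq_of_periodic _ _ _ hf]
    have h3 : (n + 1) * q.count f = n * q.count f + q.count f := by ring
    omega

private lemma D10_per (P : Finset ℕ) (κ : ℤ) (x : ℕ) :
    (P.filter (fun p : ℕ => jacobiSym (κ * ((x + ∏ p ∈ P, p : ℕ) : ℤ)) p = -1)) =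
      P.filter (fun p : ℕ => jacobiSym (κ * (x : ℤ)) p = -1) := by
  apply Finset.filter_congr
  intro p hp
  have hd : (p : ℤ) ∣ ((∏ p ∈ P, p : ℕ) : ℤ) := by
    exact_mod_cast Finset.dvd_prod_of_mem (fun p : ℕ => p) hp
  have hm : (κ * ((x + ∏ p ∈ P, p : ℕ) : ℤ)) ≡ (κ * (x : ℤ)) [ZMOD p] := by
    rw [Int.modEq_iff_dvd]
    obtain ⟨c, hc⟩ := hd
    refine ⟨-κ * c, ?_⟩
    rw [Nat.cast_add, hc]
    ring
  rw [jacobiSym.mod_left' hm]

/-- Row D10a. Intervals: `bad_res` gives at most `(X/q + 1) q (19/20)^|P| ≤ 2 X (19/20)^|P|` bad `x ∈ [1, X]` for `X ≥ q`. -/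
theorem bad_interval (P : Finset ℕ) (hP : ∀ p ∈ P, p.Prime ∧ 100 ≤ p) (κ : ℤ)
    (hκ : ∀ p ∈ P, ¬ (p : ℤ) ∣ κ) (X : ℕ) (hX : ∏ p ∈ P, p ≤ X) :
    ((((Finset.Icc 1 X).filter (fun x : ℕ =>
      3 * (P.filter (fun p : ℕ => jacobiSym (κ * x) p = -1)).card < P.card)).card : ℕ) : ℝ)
      ≤ 2 * X * (19 / 20) ^ P.card := by
  set q : ℕ := ∏ p ∈ P, p with hq
  set f : ℕ → Prop := fun x : ℕ =>
      3 * (P.filter (fun p : ℕ => jacobiSym (κ * x) p = -1)).card < P.card with hf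
  have hq0 : 0 < q := Finset.prod_pos (fun p hp => (hP p hp).1.pos)
  have hper : Function.Periodic f q := by
    intro x
    simp only [hf]
    rw [hq, D10_per P κ x]
  have h0 := N44.bad_res P hP κ hκ
  have h1 : (q.count f : ℝ) ≤ (q : ℝ) * (19 / 20) ^ P.card := by
    rw [Nat.count_eq_card_filter_range]
    have h2 : ((∏ p ∈ P, (p : ℝ))) = (q : ℝ) := by rw [hq]; push_cast; rfl
    rw [h2] at h0
    exact h0
  have h3 : (Finset.Icc 1 X).filter f ⊆ (Finset.Ico 1 (1 + (X / q + 1) * q)).filter f := by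
    apply Finset.filter_subset_filter
    intro x hx
    simp only [Finset.mem_Icc, Finset.mem_Ico] at hx ⊢
    have h4 : X < (X / q + 1) * q := by
      rw [mul_comm]
      exact Nat.lt_mul_div_succ X hq0
    omega
  have h5 : (((Finset.Icc 1 X).filter f).card : ℝ) ≤ ((X / q + 1 : ℕ) : ℝ) * (q.count f : ℝ) := by
    exact_mod_cast (Finset.card_le_card h3).trans (D10_block f q hper 1 (X / q + 1))
  have h6 : ((X / q + 1 : ℕ) : ℝ) * (q : ℝ) ≤ 2 * X := by
    have h7 : (X / q + 1) * q ≤ 2 * X := by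
      have h8 := Nat.div_mul_le_self X q
      have h9 : (X / q + 1) * q = X / q * q + q := by ring
      omega
    exact_mod_cast h7
  have h10 : (0 : ℝ) ≤ (19 / 20) ^ P.card := by positivity
  calc (((Finset.Icc 1 X).filter f).card : ℝ) ≤ ((X / q + 1 : ℕ) : ℝ) * (q.count f : ℝ) := h5
    _ ≤ ((X / q + 1 : ℕ) : ℝ) * ((q : ℝ) * (19 / 20) ^ P.card) :=
        mul_le_mul_of_nonneg_left h1 (Nat.cast_nonneg _)
    _ = (((X / q + 1 : ℕ) : ℝ) * (q : ℝ)) * (19 / 20) ^ P.card := by ring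
    _ ≤ (2 * X) * (19 / 20) ^ P.card := mul_le_mul_of_nonneg_right h6 h10

private lemma D10_union (s t : Finset ℕ) (f : ℕ → ℝ) (hf : ∀ x, 0 ≤ f x) :
    ∑ x ∈ s ∪ t, f x ≤ ∑ x ∈ s, f x + ∑ x ∈ t, f x := by
  have h1 := Finset.sum_union_inter (s₁ := s) (s₂ := t) (f := f)
  have h2 : 0 ≤ ∑ x ∈ s ∩ t, f x := Finset.sum_nonneg (fun x _ => hf x)
  linarith

private lemma D10_dyadic (P : Finset ℕ) (hP : ∀ p ∈ P, p.Prime ∧ 100 ≤ p) (κ : ℤ)
    (hκ : ∀ p ∈ P, ¬ (p : ℤ) ∣ κ) (n : ℕ) :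
    ∑ x ∈ (Finset.Ioc (∏ p ∈ P, p) ((∏ p ∈ P, p) * 2 ^ n)).filter (fun x : ℕ =>
      3 * (P.filter (fun p : ℕ => jacobiSym (κ * x) p = -1)).card < P.card), 1 / (x : ℝ)
      ≤ 4 * n * (19 / 20) ^ P.card := by
  set q : ℕ := ∏ p ∈ P, p with hq
  have hq0 : 0 < q := Finset.prod_pos (fun p hp => (hP p hp).1.pos)
  induction n with
  | zero => simp
  | succ n ih =>
    have h1 : (Finset.Ioc q (q * 2 ^ (n + 1))).filter (fun x : ℕ =>
        3 * (P.filter (fun p : ℕ => jacobiSym (κ * x) p = -1)).card < P.card) ⊆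
        (Finset.Ioc q (q * 2 ^ n)).filter (fun x : ℕ =>
          3 * (P.filter (fun p : ℕ => jacobiSym (κ * x) p = -1)).card < P.card) ∪
        (Finset.Ioc (q * 2 ^ n) (q * 2 ^ (n + 1))).filter (fun x : ℕ =>
          3 * (P.filter (fun p : ℕ => jacobiSym (κ * x) p = -1)).card < P.card) := by
      rw [← Finset.filter_union]
      apply Finset.filter_subset_filter
      intro x hx
      simp only [Finset.mem_union, Finset.mem_Ioc] at hx ⊢
      omega
    have hpos : (0 : ℝ) < (q : ℝ) * 2 ^ n := by positivity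
    have h2 : ∑ x ∈ (Finset.Ioc (q * 2 ^ n) (q * 2 ^ (n + 1))).filter (fun x : ℕ =>
          3 * (P.filter (fun p : ℕ => jacobiSym (κ * x) p = -1)).card < P.card), 1 / (x : ℝ)
          ≤ 4 * (19 / 20) ^ P.card := by
      have h3 := bad_interval P hP κ hκ (q * 2 ^ (n + 1))
        (Nat.le_mul_of_pos_right q (by positivity))
      have h4 : ∑ x ∈ (Finset.Ioc (q * 2 ^ n) (q * 2 ^ (n + 1))).filter (fun x : ℕ =>
          3 * (P.filter (fun p : ℕ => jacobiSym (κ * x) p = -1)).card < P.card), 1 / (x : ℝ)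
          ≤ ((((Finset.Ioc (q * 2 ^ n) (q * 2 ^ (n + 1))).filter (fun x : ℕ =>
          3 * (P.filter (fun p : ℕ => jacobiSym (κ * x) p = -1)).card < P.card)).card : ℕ) : ℝ)
            * (1 / ((q : ℝ) * 2 ^ n)) := by
        rw [← nsmul_eq_mul]
        apply Finset.sum_le_card_nsmul
        intro x hx
        rw [Finset.mem_filter, Finset.mem_Ioc] at hx
        apply one_div_le_one_div_of_le hpos
        exact_mod_cast hx.1.1.le
      have h5 : ((((Finset.Ioc (q * 2 ^ n) (q * 2 ^ (n + 1))).filter (fun x : ℕ =>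
          3 * (P.filter (fun p : ℕ => jacobiSym (κ * x) p = -1)).card < P.card)).card : ℕ) : ℝ)
          ≤ 2 * ((q * 2 ^ (n + 1) : ℕ) : ℝ) * (19 / 20) ^ P.card := by
        refine le_trans ?_ h3
        exact_mod_cast Finset.card_le_card (Finset.filter_subset_filter _ (by
          intro x hx
          simp only [Finset.mem_Ioc, Finset.mem_Icc] at hx ⊢
          omega))
      calc _ ≤ _ := h4
        _ ≤ (2 * ((q * 2 ^ (n + 1) : ℕ) : ℝ) * (19 / 20) ^ P.card) * (1 / ((q : ℝ) * 2 ^ n)) :=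
            mul_le_mul_of_nonneg_right h5 (by positivity)
        _ = 4 * (19 / 20) ^ P.card := by
            push_cast
            field_simp
            ring
    calc _ ≤ _ := Finset.sum_le_sum_of_subset_of_nonneg h1 (fun x _ _ => by positivity)
      _ ≤ _ := D10_union _ _ (fun x : ℕ => 1 / (x : ℝ)) (fun x => by positivity)
      _ ≤ 4 * n * (19 / 20) ^ P.card + 4 * (19 / 20) ^ P.card := add_le_add ih h2
      _ = 4 * ((n + 1 : ℕ) : ℝ) * (19 / 20) ^ P.card := by push_cast; ring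

/-- Row D10b. `∑_{q < x ≤ X, x bad} 1/x ≤ 5 (1 + log X) (19/20)^|P|`: dyadic blocks `(q 2^i, q 2^(i+1)]` with `bad_interval`. -/
theorem bad_recip (P : Finset ℕ) (hP : ∀ p ∈ P, p.Prime ∧ 100 ≤ p) (κ : ℤ)
    (hκ : ∀ p ∈ P, ¬ (p : ℤ) ∣ κ) (X : ℕ) (hX : 1 ≤ X) :
    ∑ x ∈ (Finset.Ioc (∏ p ∈ P, p) X).filter (fun x : ℕ =>
      3 * (P.filter (fun p : ℕ => jacobiSym (κ * x) p = -1)).card < P.card), 1 / (x : ℝ)
      ≤ 12 * (1 + Real.log X) * (19 / 20) ^ P.card := by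
  have hq0 : 0 < ∏ p ∈ P, p := Finset.prod_pos (fun p hp => (hP p hp).1.pos)
  have hlog : (0 : ℝ) ≤ Real.log X := Real.log_natCast_nonneg X
  have hL : ((Nat.log 2 X : ℕ) : ℝ) * Real.log 2 ≤ Real.log X := by
    have h1 : 2 ^ Nat.log 2 X ≤ X := Nat.pow_log_le_self 2 (by omega)
    have h2 : ((2 : ℝ) ^ Nat.log 2 X) ≤ X := by exact_mod_cast h1
    have h3 := Real.log_le_log (by positivity) h2
    rwa [Real.log_pow] at h3
  have hl2 := Real.log_two_gt_d9
  have h0 := D10_dyadic P hP κ hκ (Nat.log 2 X + 1)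
  have hX2 : X ≤ (∏ p ∈ P, p) * 2 ^ (Nat.log 2 X + 1) :=
    (Nat.lt_pow_succ_log_self (by norm_num) X).le.trans (Nat.le_mul_of_pos_left _ hq0)
  have h10 : (0 : ℝ) ≤ (19 / 20) ^ P.card := by positivity
  calc _ ≤ _ := Finset.sum_le_sum_of_subset_of_nonneg
        (Finset.filter_subset_filter _ (Finset.Ioc_subset_Ioc_right hX2))
        (fun x _ _ => by positivity)
    _ ≤ 4 * ((Nat.log 2 X + 1 : ℕ) : ℝ) * (19 / 20) ^ P.card := h0
    _ ≤ 12 * (1 + Real.log X) * (19 / 20) ^ P.card := by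
        apply mul_le_mul_of_nonneg_right _ h10
        push_cast
        have hn : (0 : ℝ) ≤ ((Nat.log 2 X : ℕ) : ℝ) := Nat.cast_nonneg _
        nlinarith

private lemma D10_jac (c δ1 δ2 p : ℕ) (hp : p.Prime) (hp4 : p % 4 = 3) (hpc : ¬ p ∣ c) (α : ℤ)
    (hα : α = 1 ∨ α = -1) (h1 : jacobiSym ((c : ℤ) * δ1) p = -1)
    (h2 : jacobiSym (α * c * δ2) p = -1) : jacobiSym (((δ1 * δ2 : ℕ)) : ℤ) p = α := by
  have hc : jacobiSym (c : ℤ) p = 1 ∨ jacobiSym (c : ℤ) p = -1 := by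
    apply jacobiSym.eq_one_or_neg_one
    rw [Int.gcd_natCast_natCast]
    exact Nat.Coprime.symm ((Nat.Prime.coprime_iff_not_dvd hp).2 hpc)
  have hcc : jacobiSym (c : ℤ) p * jacobiSym (c : ℤ) p = 1 := by
    rcases hc with h | h <;> rw [h] <;> norm_num
  have hneg : jacobiSym (-1) p = -1 := by
    have hodd : Odd p := by
      rw [Nat.odd_iff]
      omega
    rw [jacobiSym.at_neg_one hodd, ZMod.χ₄_nat_three_mod_four hp4]
  have h1' : jacobiSym (c : ℤ) p * jacobiSym (δ1 : ℤ) p = -1 := by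
    rw [← jacobiSym.mul_left]
    exact h1
  rw [Nat.cast_mul, jacobiSym.mul_left]
  rcases hα with h | h
  · subst h
    have h2' : jacobiSym (c : ℤ) p * jacobiSym (δ2 : ℤ) p = -1 := by
      rw [← jacobiSym.mul_left]
      rw [one_mul] at h2
      exact h2
    have h3 : (jacobiSym (c : ℤ) p * jacobiSym (δ1 : ℤ) p) *
        (jacobiSym (c : ℤ) p * jacobiSym (δ2 : ℤ) p) = 1 := by
      rw [h1', h2']
      norm_num
    calc jacobiSym (δ1 : ℤ) p * jacobiSym (δ2 : ℤ) p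
        = (jacobiSym (c : ℤ) p * jacobiSym (c : ℤ) p) *
          (jacobiSym (δ1 : ℤ) p * jacobiSym (δ2 : ℤ) p) := by rw [hcc, one_mul]
      _ = (jacobiSym (c : ℤ) p * jacobiSym (δ1 : ℤ) p) *
        (jacobiSym (c : ℤ) p * jacobiSym (δ2 : ℤ) p) := by ring
      _ = 1 := h3
  · subst h
    have h2' : jacobiSym (c : ℤ) p * jacobiSym (δ2 : ℤ) p = 1 := by
      have h4 : jacobiSym (-1 * c * δ2) p =
          jacobiSym (-1) p * (jacobiSym (c : ℤ) p * jacobiSym (δ2 : ℤ) p) := by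
        rw [jacobiSym.mul_left, jacobiSym.mul_left]
        ring
      rw [h4, hneg] at h2
      linarith
    have h3 : (jacobiSym (c : ℤ) p * jacobiSym (δ1 : ℤ) p) *
        (jacobiSym (c : ℤ) p * jacobiSym (δ2 : ℤ) p) = -1 := by
      rw [h1', h2']
      norm_num
    calc jacobiSym (δ1 : ℤ) p * jacobiSym (δ2 : ℤ) p
        = (jacobiSym (c : ℤ) p * jacobiSym (c : ℤ) p) *
          (jacobiSym (δ1 : ℤ) p * jacobiSym (δ2 : ℤ) p) := by rw [hcc, one_mul]
      _ = (jacobiSym (c : ℤ) p * jacobiSym (δ1 : ℤ) p) *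
        (jacobiSym (c : ℤ) p * jacobiSym (δ2 : ℤ) p) := by ring
      _ = -1 := h3

private lemma D10_harm (X : ℕ) : ∑ x ∈ Finset.Icc 1 X, 1 / (x : ℝ) ≤ 1 + Real.log X := by
  have h1 := harmonic_le_one_add_log X
  have h2 : ((harmonic X : ℚ) : ℝ) = ∑ x ∈ Finset.Icc 1 X, 1 / (x : ℝ) := by
    rw [harmonic_eq_sum_Icc]
    push_cast
    apply Finset.sum_congr rfl
    intro x _
    rw [one_div]
  rw [← h2]
  exact h1

/-- the exceptional set for one pair `(c, α)` -/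
private lemma D10_one (X q2 W4 : ℕ) (P : Finset ℕ) (hX : 2 ≤ X)
    (hP : ∀ p ∈ P, p.Prime ∧ 100 ≤ p ∧ p % 4 = 3 ∧ W4 < p) (hq : ∏ p ∈ P, p < q2)
    (c : ℕ) (hc1 : 1 ≤ c) (hcW : c ≤ W4) (α : ℤ) (hα : α = 1 ∨ α = -1) (S : Finset ℕ)
    (hS : ∀ d ∈ S, 1 ≤ d ∧ d ≤ X ∧ ∃ δ1 δ2 : ℕ, δ1 * δ2 = d ∧ q2 ≤ δ1 ∧ q2 ≤ δ2 ∧
      ¬ (P.card ≤ 9 * (P.filter (fun p : ℕ => jacobiSym (d : ℤ) p = α ∧
      jacobiSym ((c : ℤ) * δ1) p = -1)).card)) :
    (S.card : ℝ) ≤ 14 * (1 + Real.log X) * X * (123 / 125) ^ P.card := by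
  classical
  have hlog : (0 : ℝ) ≤ Real.log X := Real.log_natCast_nonneg X
  have hP' : ∀ p ∈ P, p.Prime ∧ 100 ≤ p := fun p hp => ⟨(hP p hp).1, (hP p hp).2.1⟩
  have hpc : ∀ p ∈ P, ¬ p ∣ c := by
    intro p hp hd
    have h1 := Nat.le_of_dvd (by omega) hd
    have h2 := (hP p hp).2.2.2
    omega
  have hκ1 : ∀ p ∈ P, ¬ (p : ℤ) ∣ (c : ℤ) := by
    intro p hp hd
    exact hpc p hp (by exact_mod_cast hd)
  have hκ2 : ∀ p ∈ P, ¬ (p : ℤ) ∣ (α * c : ℤ) := by
    intro p hp hd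
    rcases hα with h | h
    · subst h
      rw [one_mul] at hd
      exact hκ1 p hp hd
    · subst h
      rw [neg_one_mul, dvd_neg] at hd
      exact hκ1 p hp hd
  -- the two families
  set Q : ℕ → Finset ℕ := fun δ2 => P.filter (fun p : ℕ => jacobiSym (α * c * δ2) p = -1) with hQ
  set T1 : Finset ℕ := ((Finset.Ioc (∏ p ∈ P, p) X).filter (fun x : ℕ =>
      3 * (Q x).card < P.card)).biUnion
        (fun δ2 => (Finset.Icc 1 (X / δ2)).image (fun δ1 => δ1 * δ2)) with hT1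
  set B : ℕ → Finset ℕ := fun δ2 => if P.card ≤ 3 * (Q δ2).card ∧ ∏ p ∈ Q δ2, p ≤ X / δ2 then
      (Finset.Icc 1 (X / δ2)).filter (fun x : ℕ =>
        3 * ((Q δ2).filter (fun p : ℕ => jacobiSym ((c : ℤ) * x) p = -1)).card < (Q δ2).card)
      else ∅ with hB
  set T2 : Finset ℕ := (Finset.Icc 1 X).biUnion
        (fun δ2 => (B δ2).image (fun δ1 => δ1 * δ2)) with hT2
  have hsub : S ⊆ T1 ∪ T2 := by
    intro d hd
    obtain ⟨hd1, hdX, δ1, δ2, hdd, hq1, hq2, hno⟩ := hS d hd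
    have hq0 : 0 < ∏ p ∈ P, p := Finset.prod_pos (fun p hp => (hP p hp).1.pos)
    have hδ2 : 0 < δ2 := by omega
    have hδ1 : 0 < δ1 := by omega
    have hδ1X : δ1 ≤ X / δ2 := by
      rw [Nat.le_div_iff_mul_le hδ2]
      omega
    have hδ2X : δ2 ≤ X := by
      have : δ2 ≤ δ1 * δ2 := Nat.le_mul_of_pos_left _ hδ1
      omega
    rw [Finset.mem_union]
    by_cases hA : 3 * (Q δ2).card < P.card
    · left
      rw [hT1, Finset.mem_biUnion]
      refine ⟨δ2, ?_, ?_⟩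
      · rw [Finset.mem_filter, Finset.mem_Ioc]
        exact ⟨⟨by omega, hδ2X⟩, hA⟩
      · rw [Finset.mem_image]
        exact ⟨δ1, Finset.mem_Icc.2 ⟨hδ1, hδ1X⟩, hdd⟩
    · right
      rw [hT2, Finset.mem_biUnion]
      refine ⟨δ2, Finset.mem_Icc.2 ⟨hδ2, hδ2X⟩, ?_⟩
      rw [Finset.mem_image]
      refine ⟨δ1, ?_, hdd⟩
      have hprod : ∏ p ∈ Q δ2, p ≤ X / δ2 := by
        have h1 : ∏ p ∈ Q δ2, p ≤ ∏ p ∈ P, p :=
          Finset.prod_le_prod_of_subset_of_one_le' (Finset.filter_subset _ _)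
            (fun p hp _ => (hP p hp).1.one_lt.le)
        omega
      have hsubset : (Q δ2).filter (fun p : ℕ => jacobiSym ((c : ℤ) * δ1) p = -1) ⊆
          P.filter (fun p : ℕ => jacobiSym (d : ℤ) p = α ∧
            jacobiSym ((c : ℤ) * δ1) p = -1) := by
        intro p hp
        rw [Finset.mem_filter, hQ, Finset.mem_filter] at hp
        obtain ⟨⟨hpP, hp2⟩, hp1⟩ := hp
        rw [Finset.mem_filter]
        refine ⟨hpP, ?_, hp1⟩
        rw [← hdd]
        exact D10_jac c δ1 δ2 p (hP p hpP).1 (hP p hpP).2.2.1 (hpc p hpP) α hα hp1 hp2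
      have hcard := Finset.card_le_card hsubset
      simp only [hB]
      rw [if_pos ⟨by omega, hprod⟩, Finset.mem_filter]
      refine ⟨Finset.mem_Icc.2 ⟨hδ1, hδ1X⟩, ?_⟩
      omega
  have h10 : (0 : ℝ) ≤ (19 / 20) ^ P.card := by positivity
  have h11 : (0 : ℝ) ≤ (123 / 125) ^ P.card := by positivity
  have hT1c : (T1.card : ℝ) ≤ 12 * (1 + Real.log X) * X * (19 / 20) ^ P.card := by
    have h1 := bad_recip P hP' (α * c) hκ2 X (by omega)
    have h2 : (T1.card : ℝ) ≤ ∑ x ∈ (Finset.Ioc (∏ p ∈ P, p) X).filter (fun x : ℕ =>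
      3 * (Q x).card < P.card), (X : ℝ) * (1 / (x : ℝ)) := by
      have h3 : T1.card ≤ ∑ x ∈ (Finset.Ioc (∏ p ∈ P, p) X).filter (fun x : ℕ =>
          3 * (Q x).card < P.card), X / x := by
        refine Finset.card_biUnion_le.trans (Finset.sum_le_sum ?_)
        intro x _
        refine Finset.card_image_le.trans ?_
        rw [Nat.card_Icc, Nat.add_sub_cancel]
      calc (T1.card : ℝ) ≤ ((∑ x ∈ (Finset.Ioc (∏ p ∈ P, p) X).filter (fun x : ℕ =>
          3 * (Q x).card < P.card), X / x : ℕ) : ℝ) := by exact_mod_cast h3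
        _ = ∑ x ∈ (Finset.Ioc (∏ p ∈ P, p) X).filter (fun x : ℕ =>
          3 * (Q x).card < P.card), ((X / x : ℕ) : ℝ) := by push_cast; rfl
        _ ≤ _ := by
          apply Finset.sum_le_sum
          intro x _
          rw [mul_one_div]
          exact Nat.cast_div_le
    rw [← Finset.mul_sum] at h2
    calc (T1.card : ℝ) ≤ _ := h2
      _ ≤ (X : ℝ) * (12 * (1 + Real.log X) * (19 / 20) ^ P.card) :=
          mul_le_mul_of_nonneg_left h1 (Nat.cast_nonneg _)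
      _ = _ := by ring
  have hBc : ∀ δ2 ∈ Finset.Icc 1 X, ((B δ2).card : ℝ) ≤
      2 * X * (123 / 125) ^ P.card * (1 / (δ2 : ℝ)) := by
    intro δ2 hδ2
    rw [Finset.mem_Icc] at hδ2
    have hδ0 : (0 : ℝ) < δ2 := by exact_mod_cast hδ2.1
    simp only [hB]
    split_ifs with hif
    · obtain ⟨hc3, hprod⟩ := hif
      have h1 := bad_interval (Q δ2) (fun p hp => hP' p (Finset.mem_of_mem_filter p hp)) (c : ℤ)
        (fun p hp => hκ1 p (Finset.mem_of_mem_filter p hp)) (X / δ2) hprod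
      have h2 : ((19 / 20 : ℝ)) ^ (Q δ2).card ≤ (123 / 125) ^ P.card := by
        calc ((19 / 20 : ℝ)) ^ (Q δ2).card ≤ ((123 / 125) ^ 3) ^ (Q δ2).card := by
              apply pow_le_pow_left₀ (by norm_num)
              norm_num
          _ = (123 / 125) ^ (3 * (Q δ2).card) := by rw [pow_mul]
          _ ≤ (123 / 125) ^ P.card := pow_le_pow_of_le_one (by norm_num) (by norm_num) hc3
      have h3 : ((X / δ2 : ℕ) : ℝ) ≤ X * (1 / (δ2 : ℝ)) := by
        rw [mul_one_div]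
        exact Nat.cast_div_le
      calc _ ≤ _ := h1
        _ ≤ 2 * (X * (1 / (δ2 : ℝ))) * (123 / 125) ^ P.card := by
            apply mul_le_mul (by linarith) h2 (by positivity) (by positivity)
        _ = _ := by ring
    · simp only [Finset.card_empty, Nat.cast_zero]
      positivity
  have hT2c : (T2.card : ℝ) ≤ 2 * (1 + Real.log X) * X * (123 / 125) ^ P.card := by
    have h1 : (T2.card : ℝ) ≤ ∑ δ2 ∈ Finset.Icc 1 X, ((B δ2).card : ℝ) := by
      have h3 : T2.card ≤ ∑ δ2 ∈ Finset.Icc 1 X, (B δ2).card := by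
        refine Finset.card_biUnion_le.trans (Finset.sum_le_sum ?_)
        intro x _
        exact Finset.card_image_le
      exact_mod_cast h3
    have h2 := D10_harm X
    calc (T2.card : ℝ) ≤ _ := h1
      _ ≤ ∑ δ2 ∈ Finset.Icc 1 X, 2 * X * (123 / 125) ^ P.card * (1 / (δ2 : ℝ)) :=
          Finset.sum_le_sum hBc
      _ = 2 * X * (123 / 125) ^ P.card * ∑ δ2 ∈ Finset.Icc 1 X, (1 / (δ2 : ℝ)) := by
          rw [Finset.mul_sum]
      _ ≤ 2 * X * (123 / 125) ^ P.card * (1 + Real.log X) :=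
          mul_le_mul_of_nonneg_left h2 (by positivity)
      _ = _ := by ring
  have h12 : ((19 / 20 : ℝ)) ^ P.card ≤ (123 / 125) ^ P.card :=
    pow_le_pow_left₀ (by norm_num) (by norm_num) _
  have h13 : (S.card : ℝ) ≤ (T1.card : ℝ) + (T2.card : ℝ) := by
    exact_mod_cast (Finset.card_le_card hsub).trans (Finset.card_union_le _ _)
  have h14 : 12 * (1 + Real.log X) * X * (19 / 20) ^ P.card ≤
      12 * (1 + Real.log X) * X * (123 / 125) ^ P.card :=
    mul_le_mul_of_nonneg_left h12 (by positivity)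
  calc (S.card : ℝ) ≤ _ := h13
    _ ≤ 12 * (1 + Real.log X) * X * (123 / 125) ^ P.card +
        2 * (1 + Real.log X) * X * (123 / 125) ^ P.card := add_le_add (hT1c.trans h14) hT2c
    _ = _ := by ring

/-- Row D10c. Let `d = δ1 δ2` violate `TD4` for `c`, `α`. Put `κ2 = α c`. For `p ∈ P`, `p ∤ d` (`p ∤ c` as `c ≤ W4 < p`, `p = 3` mod `4`):
`(c δ1/p) = -1` and `(κ2 δ2/p) = -1` imply `(d/p) = (c δ1/p)(c δ2/p) = -(c δ2/p) = α` (`α = 1`: `(cδ2/p) = -1`; `α = -1`: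
`(-cδ2/p) = -1`, `(cδ2/p) = 1`). Case A: `3 #{p : (κ2 δ2/p) = -1} < |P|`: `δ2` is bad and `> q` (`q < q2`); the number of such `d` is at most
`∑_{δ2 bad} X/δ2`, `bad_recip`. Case B: `Q := {p ∈ P : (κ2 δ2/p) = -1}` has `|P| ≤ 3|Q|`, and `3 #{p ∈ Q : (c δ1/p) = -1} < |Q|` (otherwise
`|P| ≤ 3|Q| ≤ 9 #{...}`): for given `δ2 ≤ X/q2` the `δ1 ≤ X/δ2` are at most `2 (X/δ2) (19/20)^|Q|` (`bad_interval` for `Q`,
`∏_Q p ≤ q ≤ X/δ2`), `(19/20)^|Q| ≤ (123/125)^|P|` (`(123/125)^3 ≥ 19/20`). Sum over `δ2`, `c ≤ W4`, `α`. -/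
theorem TD4_count : ∃ C : ℝ, 0 < C ∧ ∀ (X q2 W4 : ℕ) (P : Finset ℕ), 2 ≤ X → 1 ≤ W4 →
    (∀ p ∈ P, p.Prime ∧ 100 ≤ p ∧ p % 4 = 3 ∧ W4 < p) → ∏ p ∈ P, p < q2 →
    ∀ S : Finset ℕ, (∀ d ∈ S, 1 ≤ d ∧ d ≤ X ∧ ¬ TD4 d q2 W4 P) →
    (S.card : ℝ) ≤ C * W4 * X * Real.log X * (123 / 125) ^ P.card := by
  classical
  refine ⟨100, by norm_num, ?_⟩
  intro X q2 W4 P hX hW hP hq S hS
  have hlog2 : (0.69 : ℝ) ≤ Real.log X := by
    have h1 := Real.log_two_gt_d9
    have h2 : Real.log 2 ≤ Real.log X := Real.log_le_log (by norm_num) (by exact_mod_cast hX)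
    linarith
  set I : Finset (ℕ × ℤ) := (Finset.Icc 1 W4) ×ˢ ({1, -1} : Finset ℤ) with hI
  set F : ℕ × ℤ → Finset ℕ := fun i => S.filter (fun d => ∃ δ1 δ2 : ℕ, δ1 * δ2 = d ∧ q2 ≤ δ1 ∧
      q2 ≤ δ2 ∧ ¬ (P.card ≤ 9 * (P.filter (fun p : ℕ => jacobiSym (d : ℤ) p = i.2 ∧
      jacobiSym ((i.1 : ℤ) * δ1) p = -1)).card)) with hF
  have hsub : S ⊆ I.biUnion F := by
    intro d hd
    have h1 := (hS d hd).2.2
    unfold TD4 at h1
    push Not at h1
    obtain ⟨δ1, δ2, c, hdd, hq1, hq2, hc1, hcW, α, hα, hno⟩ := h1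
    rw [Finset.mem_biUnion]
    refine ⟨(c, α), ?_, ?_⟩
    · rw [hI, Finset.mem_product]
      refine ⟨Finset.mem_Icc.2 ⟨hc1, hcW⟩, ?_⟩
      rw [Finset.mem_insert, Finset.mem_singleton]
      exact hα
    · rw [hF, Finset.mem_filter]
      exact ⟨hd, δ1, δ2, hdd, hq1, hq2, not_le.2 hno⟩
  have hone : ∀ i ∈ I, ((F i).card : ℝ) ≤ 14 * (1 + Real.log X) * X * (123 / 125) ^ P.card := by
    intro i hi
    rw [hI, Finset.mem_product, Finset.mem_Icc, Finset.mem_insert, Finset.mem_singleton] at hi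
    refine D10_one X q2 W4 P hX hP hq i.1 hi.1.1 hi.1.2 i.2 hi.2 (F i) ?_
    intro d hd
    rw [hF, Finset.mem_filter] at hd
    exact ⟨(hS d hd.1).1, (hS d hd.1).2.1, hd.2⟩
  have hIc : (I.card : ℝ) = 2 * W4 := by
    rw [hI, Finset.card_product, Nat.card_Icc, Finset.card_pair (by norm_num)]
    rw [Nat.add_sub_cancel]
    push_cast
    ring
  have h11 : (0 : ℝ) ≤ (123 / 125) ^ P.card := by positivity
  calc (S.card : ℝ) ≤ ∑ i ∈ I, ((F i).card : ℝ) := by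
        exact_mod_cast (Finset.card_le_card hsub).trans Finset.card_biUnion_le
    _ ≤ ∑ i ∈ I, (14 * (1 + Real.log X) * X * (123 / 125) ^ P.card) := Finset.sum_le_sum hone
    _ = 2 * W4 * (14 * (1 + Real.log X) * X * (123 / 125) ^ P.card) := by
        rw [Finset.sum_const, nsmul_eq_mul, hIc]
    _ = (28 * (1 + Real.log X)) * (W4 * X * (123 / 125) ^ P.card) := by ring
    _ ≤ (100 * Real.log X) * (W4 * X * (123 / 125) ^ P.card) := by
        apply mul_le_mul_of_nonneg_right _ (by positivity)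
        linarith
    _ = _ := by ring

end N78
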