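import Pool.Agent.LibN78.D1

namespace N78

theorem D2_card (N n : ℕ) (c : ℤ) (Q : ℕ → Prop) [DecidablePred Q] :
    (((Finset.Icc 1 N).filter (fun d : ℕ => Q d ∧ (n : ℤ) ∣ c - d)).card : ℝ) ≤
      (N : ℝ) / n + 1 := by
  have h1 : ((Finset.Icc 1 N).filter (fun d : ℕ => Q d ∧ (n : ℤ) ∣ c - d)).card ≤
      (Finset.range (N / n + 1)).card := by
    refine Finset.card_le_card_of_injOn (fun d => d / n) ?_ ?_
    · intro d hd
      have hd1 := Finset.mem_Icc.1 (Finset.mem_filter.1 (Finset.mem_coe.1 hd)).1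
      show d / n ∈ ((Finset.range (N / n + 1) : Finset ℕ) : Set ℕ)
      rw [Finset.mem_coe, Finset.mem_range]
      exact Nat.lt_succ_of_le (Nat.div_le_div_right hd1.2)
    · intro d hd e he hde
      have hd1 := (Finset.mem_filter.1 (Finset.mem_coe.1 hd)).2.2
      have he1 := (Finset.mem_filter.1 (Finset.mem_coe.1 he)).2.2
      have hde' : d / n = e / n := hde
      have h2 : (n : ℤ) ∣ (e : ℤ) - d := by
        have h3 := dvd_sub hd1 he1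
        have h4 : c - (d : ℤ) - (c - e) = (e : ℤ) - d := by ring
        rwa [h4] at h3
      have h5 : d % n = e % n := (Nat.modEq_iff_dvd.2 h2)
      rw [← Nat.div_add_mod d n, ← Nat.div_add_mod e n, hde', h5]
  rw [Finset.card_range] at h1
  have h2 : ((N / n : ℕ) : ℝ) ≤ (N : ℝ) / n := Nat.cast_div_le
  have h3 : (((Finset.Icc 1 N).filter (fun d : ℕ => Q d ∧ (n : ℤ) ∣ c - d)).card : ℝ) ≤
      ((N / n : ℕ) : ℝ) + 1 := by exact_mod_cast h1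
  linarith

theorem D2_exists_t {d r : ℕ} {m f : ℤ} (hco : IsCoprime m (r : ℤ)) (hf : f ≠ 0)
    (hfe : f = m ^ 2 - (d : ℤ) * (r : ℤ) ^ 2) :
    ∃ t : ℕ, t < f.natAbs ∧ f ∣ m - (t : ℤ) * r ∧ f ∣ (t : ℤ) ^ 2 - d := by
  have h1 : IsCoprime (r : ℤ) f := by
    have h2 : IsCoprime (r : ℤ) (m ^ 2) := hco.symm.pow_right
    have h3 : f = m ^ 2 + (r : ℤ) * (-((d : ℤ) * r)) := by
      rw [hfe]
      ring
    rw [h3]
    exact h2.add_mul_left_right _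
  obtain ⟨u, v, huv⟩ := h1
  have habs : (0 : ℤ) < |f| := abs_pos.2 hf
  have hmod : 0 ≤ (m * u) % |f| := Int.emod_nonneg _ habs.ne'
  have hlt : (m * u) % |f| < |f| := Int.emod_lt_of_pos _ habs
  have hdvd : f ∣ m * u - (m * u) % |f| := by
    have h2 : |f| ∣ m * u - (m * u) % |f| := Int.dvd_self_sub_emod
    exact (abs_dvd _ _).1 h2
  obtain ⟨t, ht⟩ := Int.eq_ofNat_of_zero_le hmod
  have h4 : f ∣ m - (t : ℤ) * r := by
    rw [ht] at hdvd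
    have h5 : m - (t : ℤ) * r = (m * u - t) * r + m * v * f := by
      have h6 : m = m * (u * r + v * f) := by rw [huv, mul_one]
      calc m - (t : ℤ) * r = m * (u * r + v * f) - (t : ℤ) * r := by rw [← h6]
        _ = (m * u - t) * r + m * v * f := by ring
    rw [h5]
    exact dvd_add (hdvd.mul_right _) (dvd_mul_left _ _)
  refine ⟨t, ?_, h4, ?_⟩
  · rw [ht] at hlt
    have h5 : |f| = (f.natAbs : ℤ) := Int.abs_eq_natAbs f
    rw [h5] at hlt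
    exact_mod_cast hlt
  · have h5 : f ∣ ((t : ℤ) ^ 2 - d) * (r : ℤ) ^ 2 := by
      have h6 : ((t : ℤ) ^ 2 - d) * (r : ℤ) ^ 2 =
          f - (m - (t : ℤ) * r) * (m + (t : ℤ) * r) := by
        rw [hfe]
        ring
      rw [h6]
      exact dvd_sub dvd_rfl (h4.mul_right _)
    have h7 : IsCoprime f ((r : ℤ) ^ 2) :=
      (IsCoprime.pow_left (m := 2) (⟨u, v, huv⟩ : IsCoprime (r : ℤ) f)).symm
    exact h7.dvd_of_dvd_mul_right h5

/-- Row D2. From `UU`: `(r, f) = 1`, let `t ∈ [0, |f|)`, `m = t r` mod `f`: `f ∣ t^2 - d`. For given `s, f, t` the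
`d ≤ H^2/s^2` (`d s^2 = |z.2| ≤ H^2`) with `d = t^2` mod `f` are at most `H^2/(s^2 |f|) + 1`; `a_sieve` for each; `(a, d)` determines
`z`. Sum: `∑_{s ≤ W} ∑_{1 ≤ |f| ≤ H} |f| (H^2/(s^2|f|) + 1) 64 s^2 J (H/|f|) (3/5)^K`
`≤ 64 J H (3/5)^K ∑_s ∑_f (H^2/|f| + s^2) ≤ 512 J H^3 (3/5)^K W log H` (`s^2 |f| ≤ W^2 H ≤ H^2`). -/
theorem as_total : ∃ C : ℝ, 0 < C ∧ ∀ (H J K W : ℕ) (P : Finset ℕ), 3 ≤ H → 0 < J → 1 ≤ W →
    3 * W ^ 2 ≤ H → (∀ p ∈ P, p.Prime ∧ 5 ≤ p ∧ 2 * W < p ∧ p ^ 2 - 1 ∣ J) →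
    ∀ S : Finset (ℤ × ℤ),
    (∀ z ∈ S, N44.Box H z ∧ ∃ (d s ρ g X Y r : ℕ) (m f : ℤ), 0 < s ∧ s ≤ W ∧
      z.2 = d * (s : ℤ) ^ 2 ∧ 2 ≤ d ∧ ¬ IsSquare (d : ℤ) ∧ N44.UU z.1 d s ρ g X Y r m f ∧
      (∏ p ∈ P, p) * f.natAbs ≤ H ∧
      K ≤ (P.filter (fun p : ℕ => ¬ p ∣ d ∧ ¬ (p : ℤ) ∣ f ∧ ¬ p ∣ r)).card) →
    (S.card : ℝ) ≤ C * W * J * (H : ℝ) ^ 3 * Real.log H * (3 / 5) ^ K := by
  classical
  refine ⟨512, by norm_num, ?_⟩
  intro H J K W P hH hJ hW hWH hP S hS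
  have hP0 : 0 < ∏ p ∈ P, p := Finset.prod_pos fun p hp => (hP p hp).1.pos
  -- the parts
  let R : ℤ → ℕ → ℤ → ℕ → ℕ → Prop := fun a s f t d =>
    ∃ (ρ g X Y r : ℕ) (m : ℤ), N44.UU a d s ρ g X Y r m f ∧ f ∣ m - (t : ℤ) * r ∧
      K ≤ (P.filter (fun p : ℕ => ¬ p ∣ d ∧ ¬ (p : ℤ) ∣ f ∧ ¬ p ∣ r)).card
  let T : ℕ → ℤ → ℕ → ℕ → ℕ → Finset (ℤ × ℤ) := fun s ε n t d =>
    S.filter fun z => (∏ p ∈ P, p) * n ≤ H ∧ z.2 = d * (s : ℤ) ^ 2 ∧ R z.1 s (ε * n) t d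
  let D : ℕ → ℕ → ℕ → Finset ℕ := fun s n t =>
    (Finset.Icc 1 (H ^ 2 / s ^ 2)).filter fun d => (2 ≤ d ∧ ¬ IsSquare (d : ℤ)) ∧
      (n : ℤ) ∣ (t : ℤ) ^ 2 - d
  have hcover : S ⊆ (Finset.Icc 1 W).biUnion fun s => ({1, -1} : Finset ℤ).biUnion fun ε =>
      (Finset.Icc 1 H).biUnion fun n => (Finset.range n).biUnion fun t =>
        (D s n t).biUnion fun d => T s ε n t d := by
    intro z hz
    obtain ⟨hbox, d, s, ρ, g, X, Y, r, m, f, hs0, hsW, hz2, hd2, hnsq, hUU, hqf, hK⟩ := hS z hz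
    obtain ⟨u1, u2, u3, u4, u5, u6, u7, hco, hf0, hfe, u8, u9⟩ := id hUU
    obtain ⟨t, ht1, ht2, ht3⟩ := D2_exists_t hco hf0 hfe
    have hfn : 0 < f.natAbs := Int.natAbs_pos.2 hf0
    obtain ⟨ε, hε, hfε⟩ : ∃ ε ∈ ({1, -1} : Finset ℤ), f = ε * (f.natAbs : ℤ) := by
      rcases lt_or_gt_of_ne hf0 with h | h
      · refine ⟨-1, by simp, ?_⟩
        have := Int.ofNat_natAbs_of_nonpos h.le
        omega
      · refine ⟨1, by simp, ?_⟩
        have := Int.natAbs_of_nonneg h.le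
        omega
    rw [Finset.mem_biUnion]
    refine ⟨s, Finset.mem_Icc.2 ⟨hs0, hsW⟩, ?_⟩
    rw [Finset.mem_biUnion]
    refine ⟨ε, hε, ?_⟩
    rw [Finset.mem_biUnion]
    refine ⟨f.natAbs, Finset.mem_Icc.2 ⟨hfn, ?_⟩, ?_⟩
    · calc f.natAbs = 1 * f.natAbs := (one_mul _).symm
        _ ≤ (∏ p ∈ P, p) * f.natAbs := Nat.mul_le_mul_right _ hP0
        _ ≤ H := hqf
    rw [Finset.mem_biUnion]
    refine ⟨t, Finset.mem_range.2 ht1, ?_⟩
    rw [Finset.mem_biUnion]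
    refine ⟨d, ?_, ?_⟩
    · show d ∈ (Finset.Icc 1 (H ^ 2 / s ^ 2)).filter _
      rw [Finset.mem_filter, Finset.mem_Icc]
      refine ⟨⟨by omega, ?_⟩, ⟨hd2, hnsq⟩, ?_⟩
      · rw [Nat.le_div_iff_mul_le (pow_pos hs0 2)]
        have h1 := hbox.2.1
        rw [hz2, abs_of_nonneg (by positivity)] at h1
        exact_mod_cast h1
      · exact Int.natAbs_dvd.2 ht3
    · show z ∈ S.filter _
      rw [Finset.mem_filter]
      refine ⟨hz, hqf, hz2, ρ, g, X, Y, r, m, ?_, ?_, ?_⟩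
      · rw [← hfε]
        exact hUU
      · rw [← hfε]
        exact ht2
      · rw [← hfε]
        exact hK
  have hHR : (3 : ℝ) ≤ H := by exact_mod_cast hH
  have hH0 : (0 : ℝ) < H := by linarith
  have hJ0 : (0 : ℝ) < J := by exact_mod_cast hJ
  have hpw : (0 : ℝ) < (3 / 5) ^ K := by positivity
  have hT : ∀ s ∈ Finset.Icc 1 W, ∀ ε ∈ ({1, -1} : Finset ℤ), ∀ n ∈ Finset.Icc 1 H,
      ∀ t ∈ Finset.range n, ∀ d ∈ D s n t,
      ((T s ε n t d).card : ℝ) ≤ 64 * (s : ℝ) ^ 2 * J * ((H : ℝ) / n) * (3 / 5) ^ K := by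
    intro s hs ε hε n hn t ht d hd
    have hs' := Finset.mem_Icc.1 hs
    have hn' := Finset.mem_Icc.1 hn
    have hn0 : (0 : ℝ) < n := by exact_mod_cast hn'.1
    have hd' : d ∈ (Finset.Icc 1 (H ^ 2 / s ^ 2)).filter fun d : ℕ =>
      (2 ≤ d ∧ ¬ IsSquare (d : ℤ)) ∧ (n : ℤ) ∣ (t : ℤ) ^ 2 - (d : ℤ) := hd
    rw [Finset.mem_filter] at hd'
    have hε1 : ε = 1 ∨ ε = -1 := by
      rw [Finset.mem_insert, Finset.mem_singleton] at hε
      exact hε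
    have hfabs : (ε * (n : ℤ)).natAbs = n := by
      rcases hε1 with rfl | rfl
      · simp
      · simp
    have hf0 : ε * (n : ℤ) ≠ 0 := by
      intro h
      rw [h] at hfabs
      simp at hfabs
      omega
    by_cases hq : (∏ p ∈ P, p) * n ≤ H
    · have hinj : Set.InjOn Prod.fst ((T s ε n t d : Finset (ℤ × ℤ)) : Set (ℤ × ℤ)) := by
        intro z hz w hw hzw
        have hz' := (Finset.mem_filter.1 (Finset.mem_coe.1 hz)).2.2.1
        have hw' := (Finset.mem_filter.1 (Finset.mem_coe.1 hw)).2.2.1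
        exact Prod.ext hzw (hz'.trans hw'.symm)
      have h1 := a_sieve d s hd'.2.1.1 hd'.2.1.2 hs'.1 (ε * n) t hf0 (by
          rcases hε1 with rfl | rfl
          · rw [one_mul]
            exact hd'.2.2
          · rw [neg_one_mul]
            exact (Int.neg_dvd).2 hd'.2.2) H J K hJ P (by
          intro p hp
          obtain ⟨p1, p2, p3, p4⟩ := hP p hp
          exact ⟨p1, p2, by omega, p4⟩) (by rw [hfabs]; exact hq)
          ((T s ε n t d).image Prod.fst) (by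
          intro a ha
          obtain ⟨z, hz, rfl⟩ := Finset.mem_image.1 ha
          have hz' := Finset.mem_filter.1 hz
          exact ⟨(hS z hz'.1).1.1, hz'.2.2.2⟩)
      rw [Finset.card_image_of_injOn hinj, hfabs] at h1
      exact h1
    · have h0 : T s ε n t d = ∅ := by
        rw [Finset.eq_empty_iff_forall_notMem]
        intro z hz
        exact hq (Finset.mem_filter.1 hz).2.1
      rw [h0, Finset.card_empty, Nat.cast_zero]
      positivity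
  have hD : ∀ s ∈ Finset.Icc 1 W, ∀ n ∈ Finset.Icc 1 H, ∀ t : ℕ,
      ((D s n t).card : ℝ) ≤ (H : ℝ) ^ 2 / ((s : ℝ) ^ 2 * n) + 1 := by
    intro s hs n hn t
    have hs' := Finset.mem_Icc.1 hs
    have hn' := Finset.mem_Icc.1 hn
    have hn0 : (0 : ℝ) < n := by exact_mod_cast hn'.1
    have h1 := D2_card (H ^ 2 / s ^ 2) n ((t : ℤ) ^ 2)
      (fun d => 2 ≤ d ∧ ¬ IsSquare (d : ℤ))
    have h2 : ((H ^ 2 / s ^ 2 : ℕ) : ℝ) ≤ (H : ℝ) ^ 2 / (s : ℝ) ^ 2 := by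
      have := Nat.cast_div_le (α := ℝ) (m := H ^ 2) (n := s ^ 2)
      push_cast at this
      exact this
    have h3 : ((H ^ 2 / s ^ 2 : ℕ) : ℝ) / n ≤ (H : ℝ) ^ 2 / ((s : ℝ) ^ 2 * n) := by
      rw [← div_div]
      exact div_le_div_of_nonneg_right h2 hn0.le
    have h4 : ((D s n t).card : ℝ) ≤ ((H ^ 2 / s ^ 2 : ℕ) : ℝ) / n + 1 := h1
    linarith
  have hstep : ∀ s ∈ Finset.Icc 1 W, ∀ ε ∈ ({1, -1} : Finset ℤ), ∀ n ∈ Finset.Icc 1 H,
      ∑ t ∈ Finset.range n, ∑ d ∈ D s n t, ((T s ε n t d).card : ℝ) ≤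
        128 * J * (H : ℝ) ^ 3 * (3 / 5) ^ K * (1 / (n : ℝ)) := by
    intro s hs ε hε n hn
    have hs' := Finset.mem_Icc.1 hs
    have hn' := Finset.mem_Icc.1 hn
    have hs0 : (0 : ℝ) < s := by exact_mod_cast hs'.1
    have hn0 : (0 : ℝ) < n := by exact_mod_cast hn'.1
    have h1 : ∀ t ∈ Finset.range n, ∑ d ∈ D s n t, ((T s ε n t d).card : ℝ) ≤
        ((H : ℝ) ^ 2 / ((s : ℝ) ^ 2 * n) + 1) *
          (64 * (s : ℝ) ^ 2 * J * ((H : ℝ) / n) * (3 / 5) ^ K) := by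
      intro t ht
      calc ∑ d ∈ D s n t, ((T s ε n t d).card : ℝ)
          ≤ ∑ _d ∈ D s n t, (64 * (s : ℝ) ^ 2 * J * ((H : ℝ) / n) * (3 / 5) ^ K) :=
            Finset.sum_le_sum fun d hd => hT s hs ε hε n hn t ht d hd
        _ = ((D s n t).card : ℝ) * (64 * (s : ℝ) ^ 2 * J * ((H : ℝ) / n) * (3 / 5) ^ K) := by
            rw [Finset.sum_const, nsmul_eq_mul]
        _ ≤ _ := mul_le_mul_of_nonneg_right (hD s hs n hn t) (by positivity)
    have h2 : (s : ℝ) ^ 2 * n ≤ (H : ℝ) ^ 2 := by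
      have h3 : s ^ 2 * n ≤ H ^ 2 := by
        have h4 : s ^ 2 ≤ W ^ 2 := Nat.pow_le_pow_left hs'.2 2
        have h5 : s ^ 2 ≤ H := by omega
        calc s ^ 2 * n ≤ H * H := Nat.mul_le_mul h5 hn'.2
          _ = H ^ 2 := by ring
      exact_mod_cast h3
    calc ∑ t ∈ Finset.range n, ∑ d ∈ D s n t, ((T s ε n t d).card : ℝ)
        ≤ ∑ _t ∈ Finset.range n, ((H : ℝ) ^ 2 / ((s : ℝ) ^ 2 * n) + 1) *
          (64 * (s : ℝ) ^ 2 * J * ((H : ℝ) / n) * (3 / 5) ^ K) := Finset.sum_le_sum h1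
      _ = (n : ℝ) * (((H : ℝ) ^ 2 / ((s : ℝ) ^ 2 * n) + 1) *
          (64 * (s : ℝ) ^ 2 * J * ((H : ℝ) / n) * (3 / 5) ^ K)) := by
          rw [Finset.sum_const, Finset.card_range, nsmul_eq_mul]
      _ = 64 * J * H * (3 / 5) ^ K * (((H : ℝ) ^ 2 + (s : ℝ) ^ 2 * n) / n) := by
          field_simp
      _ ≤ 64 * J * H * (3 / 5) ^ K * ((2 * (H : ℝ) ^ 2) / n) := by
          refine mul_le_mul_of_nonneg_left ?_ (by positivity)
          refine div_le_div_of_nonneg_right ?_ hn0.le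
          linarith
      _ = _ := by ring
  have hlog1 : 1 ≤ Real.log H := by
    have h1 : Real.exp 1 ≤ H := by
      have := Real.exp_one_lt_d9
      linarith
    have h2 := Real.log_le_log (Real.exp_pos 1) h1
    rwa [Real.log_exp] at h2
  have hharm : ∑ n ∈ Finset.Icc 1 H, 1 / (n : ℝ) ≤ 2 * Real.log H := by
    have h1 : ∑ j ∈ Finset.Icc 1 H, 1 / (j : ℝ) = ((harmonic H : ℚ) : ℝ) := by
      rw [harmonic_eq_sum_Icc]
      push_cast
      refine Finset.sum_congr rfl fun j _ => ?_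
      rw [one_div]
    rw [h1]
    have h2 := harmonic_le_one_add_log H
    linarith
  have hstep2 : ∀ s ∈ Finset.Icc 1 W, ∑ ε ∈ ({1, -1} : Finset ℤ), ∑ n ∈ Finset.Icc 1 H,
      ∑ t ∈ Finset.range n, ∑ d ∈ D s n t, ((T s ε n t d).card : ℝ) ≤
        512 * J * (H : ℝ) ^ 3 * (3 / 5) ^ K * Real.log H := by
    intro s hs
    have h1 : ∀ ε ∈ ({1, -1} : Finset ℤ), ∑ n ∈ Finset.Icc 1 H,
        ∑ t ∈ Finset.range n, ∑ d ∈ D s n t, ((T s ε n t d).card : ℝ) ≤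
          256 * J * (H : ℝ) ^ 3 * (3 / 5) ^ K * Real.log H := by
      intro ε hε
      calc ∑ n ∈ Finset.Icc 1 H, ∑ t ∈ Finset.range n, ∑ d ∈ D s n t, ((T s ε n t d).card : ℝ)
          ≤ ∑ n ∈ Finset.Icc 1 H, 128 * J * (H : ℝ) ^ 3 * (3 / 5) ^ K * (1 / (n : ℝ)) :=
            Finset.sum_le_sum fun n hn => hstep s hs ε hε n hn
        _ = 128 * J * (H : ℝ) ^ 3 * (3 / 5) ^ K * ∑ n ∈ Finset.Icc 1 H, 1 / (n : ℝ) := by
            rw [Finset.mul_sum]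
        _ ≤ 128 * J * (H : ℝ) ^ 3 * (3 / 5) ^ K * (2 * Real.log H) :=
            mul_le_mul_of_nonneg_left hharm (by positivity)
        _ = _ := by ring
    calc ∑ ε ∈ ({1, -1} : Finset ℤ), ∑ n ∈ Finset.Icc 1 H,
        ∑ t ∈ Finset.range n, ∑ d ∈ D s n t, ((T s ε n t d).card : ℝ)
        ≤ ∑ _ε ∈ ({1, -1} : Finset ℤ), 256 * J * (H : ℝ) ^ 3 * (3 / 5) ^ K * Real.log H :=
          Finset.sum_le_sum h1
      _ = _ := by
          rw [Finset.sum_const, Finset.card_pair (by norm_num), nsmul_eq_mul]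
          push_cast
          ring
  have hcard : (S.card : ℝ) ≤ ∑ s ∈ Finset.Icc 1 W, ∑ ε ∈ ({1, -1} : Finset ℤ),
      ∑ n ∈ Finset.Icc 1 H, ∑ t ∈ Finset.range n, ∑ d ∈ D s n t, ((T s ε n t d).card : ℝ) := by
    have h1 : S.card ≤ ∑ s ∈ Finset.Icc 1 W, ∑ ε ∈ ({1, -1} : Finset ℤ),
        ∑ n ∈ Finset.Icc 1 H, ∑ t ∈ Finset.range n, ∑ d ∈ D s n t, (T s ε n t d).card := by
      refine (Finset.card_le_card hcover).trans (Finset.card_biUnion_le.trans ?_)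
      refine Finset.sum_le_sum fun s _ => (Finset.card_biUnion_le.trans ?_)
      refine Finset.sum_le_sum fun ε _ => (Finset.card_biUnion_le.trans ?_)
      refine Finset.sum_le_sum fun n _ => (Finset.card_biUnion_le.trans ?_)
      exact Finset.sum_le_sum fun t _ => Finset.card_biUnion_le
    exact_mod_cast h1
  calc (S.card : ℝ) ≤ _ := hcard
    _ ≤ ∑ _s ∈ Finset.Icc 1 W, 512 * J * (H : ℝ) ^ 3 * (3 / 5) ^ K * Real.log H :=
        Finset.sum_le_sum hstep2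
    _ = _ := by
        rw [Finset.sum_const, Nat.card_Icc, Nat.add_sub_cancel, nsmul_eq_mul]
        ring

end N78
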