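import Mathlib

namespace N78

theorem D3_dvd {d a b : ℤ} (hsf : Squarefree d) (ha : a ≠ 0) (h : a ^ 2 ∣ d * b ^ 2) : a ∣ b := by
  obtain ⟨g, a', b', hg, hab, ea, eb⟩ := Int.exists_gcd_one' (Int.gcd_pos_of_ne_zero_left b ha)
  have hg0 : (g : ℤ) ≠ 0 := by exact_mod_cast hg.ne'
  have h1 : a' ^ 2 ∣ d * b' ^ 2 := by
    rw [ea, eb] at h
    have e1 : (a' * g) ^ 2 = (g : ℤ) ^ 2 * a' ^ 2 := by ring
    have e2 : d * (b' * g) ^ 2 = (g : ℤ) ^ 2 * (d * b' ^ 2) := by ring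
    rw [e1, e2] at h
    exact (mul_dvd_mul_iff_left (pow_ne_zero 2 hg0)).1 h
  have hco : IsCoprime a' b' := Int.isCoprime_iff_gcd_eq_one.2 hab
  have h2 : a' ^ 2 ∣ d := (IsCoprime.pow hco).dvd_of_dvd_mul_right h1
  have h3 : IsUnit a' := hsf a' (by rwa [← sq])
  rw [ea, eb]
  exact mul_dvd_mul h3.dvd dvd_rfl

theorem D3_prime {p : ℕ} (hp : p.Prime) : Prime (p : ℤ) := Nat.prime_iff_prime_int.1 hp

/-- a prime not dividing `2 F` does not divide both `M` and `R` -/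
theorem D3_cop {d F M R : ℤ} {p : ℕ} (hp : p.Prime) (h2 : ¬ (p : ℤ) ∣ 2 * F)
    (h : M ^ 2 - d * R ^ 2 = 4 * F ^ 2) (hM : (p : ℤ) ∣ M) : ¬ (p : ℤ) ∣ R := by
  intro hR
  apply h2
  have h3 : (p : ℤ) ∣ (2 * F) ^ 2 := by
    have e : (2 * F) ^ 2 = M ^ 2 - d * R ^ 2 := by
      rw [h]
      ring
    rw [e]
    exact dvd_sub (dvd_pow hM two_ne_zero) (Dvd.dvd.mul_left (dvd_pow hR two_ne_zero) d)
  exact (D3_prime hp).dvd_of_dvd_pow h3

theorem D3_root {d F M R : ℤ} {p : ℕ} (hp : p.Prime)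
    (h : M ^ 2 - d * R ^ 2 = 4 * F ^ 2) (hM : (p : ℤ) ∣ M) (hR : ¬ (p : ℤ) ∣ R) :
    ∃ x : ℤ, (p : ℤ) ∣ x ^ 2 + d := by
  have hco : IsCoprime (p : ℤ) R := (D3_prime hp).coprime_iff_not_dvd.2 hR
  obtain ⟨u, v, huv⟩ := hco
  -- `u p + v R = 1`
  refine ⟨2 * F * v, ?_⟩
  have e : (2 * F * v) ^ 2 + d = M ^ 2 * v ^ 2 + d * ((1 - v * R) * (1 + v * R)) := by
    have e1 : (2 * F * v) ^ 2 = (4 * F ^ 2) * v ^ 2 := by ring
    rw [e1, ← h]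
    ring
  have e2 : 1 - v * R = u * p := by linarith
  rw [e, e2]
  apply dvd_add
  · exact Dvd.dvd.mul_right (dvd_pow hM two_ne_zero) _
  · exact ⟨d * (u * (1 + v * R)), by ring⟩

theorem D3_val {p : ℕ} (hp : p.Prime) {a b c e : ℤ} (ha : a ≠ 0) (hb : b ≠ 0) (hc : c ≠ 0)
    (he : e ≠ 0) (h : a * b = c * e) :
    padicValInt p a + padicValInt p b = padicValInt p c + padicValInt p e := by
  haveI := Fact.mk hp
  rw [← padicValInt.mul ha hb, ← padicValInt.mul hc he, h]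

theorem D3_val0 {p : ℕ} {a : ℤ} (h : ¬ (p : ℤ) ∣ a) : padicValInt p a = 0 :=
  padicValInt.eq_zero_of_not_dvd h

theorem D3_valpos {p : ℕ} (hp : p.Prime) {a : ℤ} (ha : a ≠ 0) (h : (p : ℤ) ∣ a) :
    0 < padicValInt p a := by
  haveI := Fact.mk hp
  by_contra h0
  have h1 : padicValInt p a = 0 := by omega
  rw [padicValInt.eq_zero_iff] at h1
  rcases h1 with h1 | h1 | h1
  · exact hp.one_lt.ne' h1
  · exact ha h1
  · exact h1 h

/-- Row D3 (square-root tower). Strong induction on `M`. If `F (M + 2F)` is not a square take `(N, S) = (M, R)`.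
Otherwise `F (M + 2F) = M1^2`, `M1 > 0`; `d (F R)^2 = F^2 (M^2 - 4F^2) = M1^2 F (M - 2F)`, and
`F (M - 2F) = M1^2 - 4F^2`; so `d (F R)^2 = M1^2 (M1^2 - 4F^2)`; `d` squarefree: `M1 ∣ F R` (`M1^2 ∣ d (F R)^2`),
`F R = M1 R1`, `M1^2 - d R1^2 = 4F^2`, `R1 > 0`, `M1 < M` (`M^2 - F M - 2F^2 = (M - 2F)(M + F) > 0`). Apply the induction
hypothesis to `(M1, R1)` and get `(N, S)`. Let `p ∤ 2F` be prime, `p ∣ R`: `p ∣ M1` or `p ∣ R1`; `p ∣ M1` gives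
`d R1^2 = -4F^2` mod `p`, `p ∤ R1`, `x = 2F R1⁻¹`: `x^2 = -d`. Let `l ∤ 2F` be prime, `l ∣ N`. Case `(N,S) = (M1,R1)`:
`l ∤ R1` (`l ∣ R1` gives `l ∣ 4F^2`), `v(R) = v(F R) = v(M1) + v(R1) = v(N)`. Other case: `v(R1) = v(N) > 0`, `l ∣ R1`, so
`l ∤ M1`, `v(R) = v(M1) + v(R1) = v(N)`. -/
theorem tower_end (d F : ℤ) (hd : 0 < d) (hsf : Squarefree d) (hF : 0 < F) :
    ∀ M R : ℤ, 0 < M → 0 < R → M ^ 2 - d * R ^ 2 = 4 * F ^ 2 →
    ∃ N S : ℤ, 0 < N ∧ 0 < S ∧ N ^ 2 - d * S ^ 2 = 4 * F ^ 2 ∧ ¬ IsSquare (F * (N + 2 * F)) ∧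
      ((N = M ∧ S = R) ∨
        ((∀ p : ℕ, p.Prime → ¬ (p : ℤ) ∣ 2 * F → (p : ℤ) ∣ R → (p : ℤ) ∣ S ∨
            ∃ x : ℤ, (p : ℤ) ∣ x ^ 2 + d) ∧
          (∀ l : ℕ, l.Prime → ¬ (l : ℤ) ∣ 2 * F → (l : ℤ) ∣ N →
            padicValInt l R = padicValInt l N))) := by
  intro M
  obtain ⟨n, hn⟩ : ∃ n : ℕ, n = M.toNat := ⟨_, rfl⟩
  induction n using Nat.strong_induction_on generalizing M with
  | _ n ih =>
  intro R hM hR h
  by_cases hsq : IsSquare (F * (M + 2 * F))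
  · obtain ⟨m0, hm0⟩ := hsq
    obtain ⟨M1, hM1, e1⟩ : ∃ M1 : ℤ, 0 < M1 ∧ F * (M + 2 * F) = M1 ^ 2 := by
      refine ⟨|m0|, abs_pos.2 ?_, by rw [sq_abs, sq]; exact hm0⟩
      rintro rfl
      have : 0 < F * (M + 2 * F) := by positivity
      rw [hm0] at this
      simp at this
    have hMF : 2 * F < M := by
      have h1 : 0 < d * R ^ 2 := by positivity
      nlinarith
    have e2 : d * (F * R) ^ 2 = M1 ^ 2 * (M1 ^ 2 - 4 * F ^ 2) := by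
      rw [← e1]
      have h2 : d * (F * R) ^ 2 = F ^ 2 * (d * R ^ 2) := by ring
      have h3 : d * R ^ 2 = M ^ 2 - 4 * F ^ 2 := by linarith
      rw [h2, h3]
      ring
    have hdv : M1 ∣ F * R := D3_dvd hsf hM1.ne' ⟨_, e2⟩
    obtain ⟨R1, e3⟩ := hdv
    have hR1 : 0 < R1 := by
      have h4 : 0 < M1 * R1 := by
        rw [← e3]
        positivity
      exact (mul_pos_iff_of_pos_left hM1).1 h4
    have e4 : M1 ^ 2 - d * R1 ^ 2 = 4 * F ^ 2 := by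
      rw [e3] at e2
      have h5 : M1 ^ 2 * (d * R1 ^ 2) = M1 ^ 2 * (M1 ^ 2 - 4 * F ^ 2) := by
        rw [← e2]
        ring
      have h6 := mul_left_cancel₀ (pow_ne_zero 2 hM1.ne') h5
      linarith
    have hlt : M1 < M := by
      have h7 : M1 ^ 2 < M ^ 2 := by
        rw [← e1]
        nlinarith
      exact lt_of_pow_lt_pow_left₀ 2 hM.le h7
    obtain ⟨N, S, hN, hS, hNS, hnsq, hcase⟩ := ih M1.toNat (by omega) M1 rfl R1 hM1 hR1 e4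
    refine ⟨N, S, hN, hS, hNS, hnsq, Or.inr ⟨fun p hp hpF hpR => ?_, fun l hl hlF hlN => ?_⟩⟩
    · have h8 : (p : ℤ) ∣ M1 * R1 := by
        rw [← e3]
        exact Dvd.dvd.mul_left hpR F
      rcases (D3_prime hp).dvd_or_dvd h8 with h9 | h9
      · exact Or.inr (D3_root hp e4 h9 (D3_cop hp hpF e4 h9))
      · rcases hcase with ⟨rfl, rfl⟩ | ⟨hc1, -⟩
        · exact Or.inl h9
        · exact hc1 p hp hpF h9
    · have hF' : ¬ (l : ℤ) ∣ F := fun h9 => hlF (Dvd.dvd.mul_left h9 2)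
      have h10 := D3_val hl hF.ne' hR.ne' hM1.ne' hR1.ne' e3
      rw [D3_val0 hF', zero_add] at h10
      rcases hcase with ⟨rfl, rfl⟩ | ⟨-, hc2⟩
      · rw [h10, D3_val0 (D3_cop hl hlF e4 hlN), add_zero]
      · have h11 := hc2 l hl hlF hlN
        have h12 : (l : ℤ) ∣ R1 := by
          by_contra h13
          have h14 := D3_valpos hl hN.ne' hlN
          rw [D3_val0 h13] at h11
          omega
        have h15 : ¬ (l : ℤ) ∣ M1 := fun h16 => D3_cop hl hlF e4 h16 h12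
        rw [h10, D3_val0 h15, zero_add, h11]
  · exact ⟨M, R, hM, hR, h, hsq, Or.inl ⟨rfl, rfl⟩⟩

end N78
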