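import Mathlib

namespace N78

/-- Row D4a. `x y` and `x ≠ 0` perfect squares: `y` is a perfect square. -/
theorem sq_ratio (x y : ℤ) (hx : x ≠ 0) (h1 : IsSquare x) (h2 : IsSquare (x * y)) : IsSquare y := by
  obtain ⟨s, rfl⟩ := h1
  obtain ⟨t, ht⟩ := h2
  have hs : s ≠ 0 := by
    rintro rfl
    exact hx (mul_zero 0)
  have h3 : s ^ 2 ∣ t ^ 2 := ⟨y, by rw [sq t, ← ht, sq]⟩
  have h4 : s ∣ t := (Int.pow_dvd_pow_iff (by norm_num)).1 h3
  obtain ⟨u, rfl⟩ := h4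
  refine ⟨u, ?_⟩
  have h5 : (s * s) * y = (s * s) * (u * u) := by rw [ht]; ring
  exact mul_left_cancel₀ hx h5

/-- Row D4b. If `u v` is a perfect square and the prime `l ≠ 2` divides neither `u` nor `v`, then `(u/l) = (v/l)`. -/
theorem jac_eq (u v : ℤ) (l : ℕ) (hl : l.Prime) (hl2 : l ≠ 2) (h : IsSquare (u * v))
    (hu : ¬ (l : ℤ) ∣ u) (hv : ¬ (l : ℤ) ∣ v) : jacobiSym u l = jacobiSym v l := by
  have _ := hl2
  have hlp : Prime (l : ℤ) := Nat.prime_iff_prime_int.1 hl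
  have hcop : ∀ w : ℤ, ¬ (l : ℤ) ∣ w → w.gcd l = 1 := by
    intro w hw
    rw [← Int.isCoprime_iff_gcd_eq_one]
    exact ((Prime.coprime_iff_not_dvd hlp).2 hw).symm
  obtain ⟨t, ht⟩ := h
  have hlt : ¬ (l : ℤ) ∣ t := by
    intro h1
    have h2 : (l : ℤ) ∣ u * v := by rw [ht]; exact h1.mul_right t
    rcases hlp.dvd_or_dvd h2 with h3 | h3
    · exact hu h3
    · exact hv h3
  have h1 : jacobiSym u l * jacobiSym v l = 1 := by
    rw [← jacobiSym.mul_left, ht, ← sq]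
    exact jacobiSym.sq_one' (hcop t hlt)
  have h2 : jacobiSym u l ^ 2 = 1 := jacobiSym.sq_one (hcop u hu)
  calc jacobiSym u l = jacobiSym u l * (jacobiSym u l * jacobiSym v l) := by rw [h1, mul_one]
    _ = jacobiSym u l ^ 2 * jacobiSym v l := by ring
    _ = jacobiSym v l := by rw [h2, one_mul]

private theorem D4_contra (l : ℕ) (hl : l.Prime) (u v : ℤ) (hv : (l : ℤ) ∣ v)
    (hv2 : ¬ (l : ℤ) * l ∣ v) (hu : ¬ (l : ℤ) ∣ u) : ¬ IsSquare (v * u) := by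
  have hlp : Prime (l : ℤ) := Nat.prime_iff_prime_int.1 hl
  rintro ⟨t, ht⟩
  have h1 : (l : ℤ) ∣ t * t := by rw [← ht]; exact hv.mul_right u
  have h2 : (l : ℤ) ∣ t := by
    rcases hlp.dvd_or_dvd h1 with h | h <;> exact h
  have h3 : (l : ℤ) * l ∣ v * u := by rw [ht]; exact mul_dvd_mul h2 h2
  have h4 : IsCoprime ((l : ℤ) * l) u :=
    IsCoprime.mul_left ((Prime.coprime_iff_not_dvd hlp).2 hu) ((Prime.coprime_iff_not_dvd hlp).2 hu)
  exact hv2 (h4.dvd_of_dvd_mul_right h3)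

private theorem D4_nsq (l : ℕ) (hl : l.Prime) (v : ℕ) (hv : Squarefree v) : ¬ (l : ℤ) * l ∣ (v : ℤ) := by
  intro h
  have h1 : l * l ∣ v := by exact_mod_cast h
  have h2 := hv l h1
  exact hl.one_lt.ne' (Nat.isUnit_iff.1 h2)

private theorem D4_jac_sq (l : ℕ) (hl : l.Prime) (F : ℕ) (h : ¬ (l : ℤ) ∣ 2 * F) (A : ℤ)
    (hA : (l : ℤ) ∣ A - 4 * (F : ℤ) ^ 2) : jacobiSym A l = 1 := by
  have hlp : Prime (l : ℤ) := Nat.prime_iff_prime_int.1 hl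
  have hcop : (2 * (F : ℤ)).gcd l = 1 := by
    rw [← Int.isCoprime_iff_gcd_eq_one]
    exact ((Prime.coprime_iff_not_dvd hlp).2 h).symm
  have h1 : A % l = ((2 * (F : ℤ)) ^ 2) % l := by
    have h2 : (l : ℤ) ∣ A - (2 * (F : ℤ)) ^ 2 := by
      have e : (2 * (F : ℤ)) ^ 2 = 4 * (F : ℤ) ^ 2 := by ring
      rw [e]
      exact hA
    exact Int.emod_eq_emod_iff_emod_sub_eq_zero.2 (Int.emod_eq_zero_of_dvd h2)
  rw [jacobiSym.mod_left, h1, ← jacobiSym.mod_left]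
  exact jacobiSym.sq_one' hcop

/-- Row D4c. `A = F (N + 2F)`, `B = F (N - 2F)`, `A B = d (F S)^2`, `A, B > 0` (`N > 2F`). `D1` = squarefree kernel of
`A` (`Nat.sq_mul_squarefree`): `A = D1 k^2`, `D1 A` is a square, and `d D1 B` is a square
(`(D1 A)(d D1 B) = (d D1 F S)^2`, `sq_ratio`). A prime `l ∣ D1`, `l ∤ 2 F d`: `v(A)` odd, so `l ∣ N + 2F`, `l ∤ N - 2F`
(`l ∤ 4F`), `v(d D1 B) = 1`, contradiction. So `δ1 = gcd (D1, d)`, `c = D1/δ1` divides `2F`, `δ2 = d/δ1`;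
`d D1 B = δ1^2 (c δ2 B)`, so `c δ2 B` is a square. Prime `l > 2F`, `l ∣ δ2`: `l ∣ d` gives `N = ± 2F` mod `l`; `N = -2F` would give
`l ∤ B`, `v(c δ2 B) = 1` (`l ∤ c`, `d` squarefree), contradiction; so `A = 4F^2` mod `l`, `l ∤ D1` (`d` squarefree, `l ∤ c`), and `jac_eq`
gives `(D1/l) = (A/l) = (4F^2/l) = 1`. Prime `l > 2F`, `l ∣ δ1`: `l ∣ D1`, `v(A)` odd, `N = -2F` mod `l`, `B = -4F^2`,
`l ∤ c δ2`: `(c δ2/l) = (B/l) = (-1/l)`, so `(-(c δ2)/l) = 1`. -/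
theorem end_class (d F : ℕ) (N S : ℤ) (hd : 2 ≤ d) (hsf : Squarefree d) (hF : 1 ≤ F) (hN : 0 < N)
    (hS : 0 < S) (h : N ^ 2 - (d : ℤ) * S ^ 2 = 4 * (F : ℤ) ^ 2) :
    ∃ c δ1 δ2 : ℕ, 1 ≤ c ∧ c ≤ 2 * F ∧ δ1 * δ2 = d ∧ Squarefree (c * δ1) ∧
      IsSquare (((c : ℤ) * δ1) * (F * (N + 2 * F))) ∧ IsSquare (((c : ℤ) * δ2) * (F * (N - 2 * F))) ∧
      (∀ l : ℕ, l.Prime → 2 * F < l → l ∣ δ2 → jacobiSym ((c : ℤ) * δ1) l = 1) ∧
      (∀ l : ℕ, l.Prime → 2 * F < l → l ∣ δ1 → jacobiSym (-((c : ℤ) * δ2)) l = 1) := by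
  have _ := hS
  have hFz : (0 : ℤ) < F := by exact_mod_cast hF
  have hA0 : 0 < (F : ℤ) * (N + 2 * F) := mul_pos hFz (by linarith)
  have hAB : ((F : ℤ) * (N + 2 * F)) * (F * (N - 2 * F)) = d * (F * S) ^ 2 := by
    have h1 : ((F : ℤ) * (N + 2 * F)) * (F * (N - 2 * F)) = F ^ 2 * (N ^ 2 - 4 * F ^ 2) := by ring
    rw [h1, ← h]
    ring
  obtain ⟨A', hA'⟩ : ∃ A' : ℕ, (F : ℤ) * (N + 2 * F) = A' := ⟨_, (Int.toNat_of_nonneg hA0.le).symm⟩
  have hA'0 : 0 < A' := by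
    rw [hA'] at hA0
    exact_mod_cast hA0
  obtain ⟨D1, k, hk, hD1⟩ := Nat.sq_mul_squarefree A'
  have hD10 : 0 < D1 := Nat.pos_of_ne_zero hD1.ne_zero
  have hD1z : (0 : ℤ) < D1 := by exact_mod_cast hD10
  have hAk : (F : ℤ) * (N + 2 * F) = (k : ℤ) ^ 2 * D1 := by
    rw [hA', ← hk]
    push_cast
    ring
  have hsqA : IsSquare ((D1 : ℤ) * (F * (N + 2 * F))) := ⟨(k : ℤ) * D1, by rw [hAk]; ring⟩
  have hne : ((D1 : ℤ) * (F * (N + 2 * F))) ≠ 0 := (mul_pos hD1z hA0).ne'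
  have hsqB : IsSquare (((d : ℤ) * D1) * (F * (N - 2 * F))) := by
    refine sq_ratio _ _ hne hsqA ⟨(D1 : ℤ) * d * (F * S), ?_⟩
    have e : ((D1 : ℤ) * (F * (N + 2 * F))) * (((d : ℤ) * D1) * (F * (N - 2 * F))) =
        (D1 : ℤ) ^ 2 * d * (((F : ℤ) * (N + 2 * F)) * (F * (N - 2 * F))) := by ring
    rw [e, hAB]
    ring
  -- the factorization
  obtain ⟨δ1, c, δ2, hcD, hdd, hδ⟩ : ∃ δ1 c δ2 : ℕ, D1 = c * δ1 ∧ δ1 * δ2 = d ∧ δ1 = Nat.gcd D1 d := by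
    obtain ⟨c, hc⟩ := Nat.gcd_dvd_left D1 d
    obtain ⟨δ2, hδ2⟩ := Nat.gcd_dvd_right D1 d
    exact ⟨Nat.gcd D1 d, c, δ2, by rw [mul_comm]; exact hc, hδ2.symm, rfl⟩
  have hD1c : Squarefree (c * δ1) := hcD ▸ hD1
  have hdδ : Squarefree (δ1 * δ2) := hdd.symm ▸ hsf
  have hc0 : 0 < c := Nat.pos_of_ne_zero (by
    rintro rfl
    rw [zero_mul] at hcD
    omega)
  have hδ10 : 0 < δ1 := Nat.pos_of_ne_zero (by
    rintro rfl
    rw [mul_zero] at hcD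
    omega)
  have hcop12 : Nat.Coprime δ1 δ2 := Nat.coprime_of_squarefree_mul hdδ
  have hcopc1 : Nat.Coprime c δ1 := Nat.coprime_of_squarefree_mul hD1c
  -- primes dividing `c`
  have hcl : ∀ l : ℕ, l.Prime → l ∣ c → l ∣ 2 * F := by
    intro l hl hlc
    by_contra hl2F
    have hlp : Prime (l : ℤ) := Nat.prime_iff_prime_int.1 hl
    have hl2F' : ¬ (l : ℤ) ∣ 2 * F := by exact_mod_cast hl2F
    have hlF : ¬ (l : ℤ) ∣ F := fun h1 => hl2F' (h1.mul_left 2)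
    have hl2 : ¬ (l : ℤ) ∣ 2 := fun h1 => hl2F' (h1.mul_right _)
    have hlD1 : l ∣ D1 := hcD ▸ hlc.mul_right δ1
    have hld : ¬ l ∣ d := by
      intro h1
      have h2 : l ∣ δ1 := by rw [hδ]; exact Nat.dvd_gcd hlD1 h1
      exact hl.one_lt.ne' (Nat.dvd_one.1 (hcopc1 ▸ Nat.dvd_gcd hlc h2))
    have hlA : (l : ℤ) ∣ F * (N + 2 * F) := by
      rw [hAk]
      exact (Int.natCast_dvd_natCast.2 hlD1).mul_left _
    have hlN : (l : ℤ) ∣ N + 2 * F := (hlp.dvd_or_dvd hlA).resolve_left hlF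
    have hlN' : ¬ (l : ℤ) ∣ N - 2 * F := by
      intro h1
      have h2 : (l : ℤ) ∣ 2 * (2 * F) := by
        have := dvd_sub hlN h1
        have e : (N + 2 * F) - (N - 2 * F) = 2 * (2 * (F : ℤ)) := by ring
        rwa [e] at this
      rcases hlp.dvd_or_dvd h2 with h3 | h3
      · exact hl2 h3
      · exact hl2F' h3
    refine D4_contra l hl ((d : ℤ) * (F * (N - 2 * F))) (D1 : ℤ) (Int.natCast_dvd_natCast.2 hlD1)
      (D4_nsq l hl D1 hD1) ?_ ?_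
    · intro h1
      rcases hlp.dvd_or_dvd h1 with h2 | h2
      · exact hld (Int.natCast_dvd_natCast.1 h2)
      · rcases hlp.dvd_or_dvd h2 with h3 | h3
        · exact hlF h3
        · exact hlN' h3
    · have e : (D1 : ℤ) * ((d : ℤ) * (F * (N - 2 * F))) = ((d : ℤ) * D1) * (F * (N - 2 * F)) := by ring
      rw [e]
      exact hsqB
  have hc2F : c ∣ 2 * F := by
    have hcsf : Squarefree c := hD1c.of_mul_left
    rw [← Nat.prod_primeFactors_of_squarefree hcsf]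
    refine Finset.prod_primes_dvd _ (fun p hp => (Nat.prime_of_mem_primeFactors hp).prime) fun p hp => ?_
    exact hcl p (Nat.prime_of_mem_primeFactors hp) (Nat.dvd_of_mem_primeFactors hp)
  have hcle : c ≤ 2 * F := Nat.le_of_dvd (by omega) hc2F
  have hsqB' : IsSquare (((c : ℤ) * δ2) * (F * (N - 2 * F))) := by
    have hδ1z : (δ1 : ℤ) ≠ 0 := by exact_mod_cast hδ10.ne'
    refine sq_ratio ((δ1 : ℤ) * δ1) _ (mul_ne_zero hδ1z hδ1z) ⟨δ1, rfl⟩ ?_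
    have e : ((δ1 : ℤ) * δ1) * (((c : ℤ) * δ2) * (F * (N - 2 * F))) =
        ((d : ℤ) * D1) * (F * (N - 2 * F)) := by
      rw [hcD, ← hdd]
      push_cast
      ring
    rw [e]
    exact hsqB
  have hsqA' : IsSquare (((c : ℤ) * δ1) * (F * (N + 2 * F))) := by
    have e : ((c : ℤ) * δ1) = (D1 : ℤ) := by rw [hcD]; push_cast; ring
    rw [e]
    exact hsqA
  -- facts at a large prime
  have hbig : ∀ l : ℕ, l.Prime → 2 * F < l → ¬ (l : ℤ) ∣ 2 * F ∧ ¬ (l : ℤ) ∣ F ∧ ¬ (l : ℤ) ∣ 2 ∧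
      ¬ (l : ℤ) ∣ c ∧ l ≠ 2 := by
    intro l hl hlF
    have h1 : ¬ l ∣ 2 * F := fun h2 => absurd (Nat.le_of_dvd (by omega) h2) (by omega)
    have h1' : ¬ (l : ℤ) ∣ 2 * F := by exact_mod_cast h1
    refine ⟨h1', fun h2 => h1' (h2.mul_left 2), fun h2 => h1' (h2.mul_right _), ?_, by omega⟩
    intro h2
    exact h1 ((Int.natCast_dvd_natCast.1 h2).trans hc2F)
  have hboth : ∀ l : ℕ, l.Prime → 2 * F < l → (l : ℤ) ∣ N + 2 * F → ¬ (l : ℤ) ∣ N - 2 * F := by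
    intro l hl hlF h1 h2
    have hlp : Prime (l : ℤ) := Nat.prime_iff_prime_int.1 hl
    obtain ⟨h3, _, h4, _, _⟩ := hbig l hl hlF
    have h5 : (l : ℤ) ∣ 2 * (2 * F) := by
      have := dvd_sub h1 h2
      have e : (N + 2 * F) - (N - 2 * F) = 2 * (2 * (F : ℤ)) := by ring
      rwa [e] at this
    rcases hlp.dvd_or_dvd h5 with h6 | h6
    · exact h4 h6
    · exact h3 h6
  refine ⟨c, δ1, δ2, hc0, hcle, hdd, hD1c, hsqA', hsqB', ?_, ?_⟩
  · intro l hl hlF hlδ2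
    have hlp : Prime (l : ℤ) := Nat.prime_iff_prime_int.1 hl
    obtain ⟨h2F, hlF', h2, hlc, hl2⟩ := hbig l hl hlF
    have hlδ1 : ¬ l ∣ δ1 := by
      intro h1
      exact hl.one_lt.ne' (Nat.dvd_one.1 (hcop12 ▸ Nat.dvd_gcd h1 hlδ2))
    have hlcδ : ¬ (l : ℤ) ∣ (c : ℤ) * δ1 := by
      intro h1
      rcases hlp.dvd_or_dvd h1 with h3 | h3
      · exact hlc h3
      · exact hlδ1 (Int.natCast_dvd_natCast.1 h3)
    have hld : (l : ℤ) ∣ (N + 2 * F) * (N - 2 * F) := by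
      have e : (N + 2 * F) * (N - 2 * F) = (d : ℤ) * S ^ 2 := by linarith [h]
      rw [e]
      refine Dvd.dvd.mul_right ?_ _
      exact Int.natCast_dvd_natCast.2 (hdd ▸ hlδ2.mul_left δ1)
    have hlN : (l : ℤ) ∣ N - 2 * F := by
      rcases hlp.dvd_or_dvd hld with h3 | h3
      · exfalso
        refine D4_contra l hl ((c : ℤ) * (F * (N - 2 * F))) (δ2 : ℤ) (Int.natCast_dvd_natCast.2 hlδ2)
          (D4_nsq l hl δ2 hdδ.of_mul_right) ?_ ?_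
        · intro h4
          rcases hlp.dvd_or_dvd h4 with h5 | h5
          · exact hlc h5
          · rcases hlp.dvd_or_dvd h5 with h6 | h6
            · exact hlF' h6
            · exact hboth l hl hlF h3 h6
        · have e : (δ2 : ℤ) * ((c : ℤ) * (F * (N - 2 * F))) = ((c : ℤ) * δ2) * (F * (N - 2 * F)) := by ring
          rw [e]
          exact hsqB'
      · exact h3
    have hlA : ¬ (l : ℤ) ∣ F * (N + 2 * F) := by
      intro h4
      rcases hlp.dvd_or_dvd h4 with h5 | h5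
      · exact hlF' h5
      · exact hboth l hl hlF h5 hlN
    rw [jac_eq _ _ l hl hl2 hsqA' hlcδ hlA]
    refine D4_jac_sq l hl F h2F _ ?_
    have e : (F : ℤ) * (N + 2 * F) - 4 * (F : ℤ) ^ 2 = F * (N - 2 * F) := by ring
    rw [e]
    exact hlN.mul_left _
  · intro l hl hlF hlδ1
    have hlp : Prime (l : ℤ) := Nat.prime_iff_prime_int.1 hl
    obtain ⟨h2F, hlF', h2, hlc, hl2⟩ := hbig l hl hlF
    have hlδ2 : ¬ l ∣ δ2 := by
      intro h1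
      exact hl.one_lt.ne' (Nat.dvd_one.1 (hcop12 ▸ Nat.dvd_gcd hlδ1 h1))
    have hlA : (l : ℤ) ∣ F * (N + 2 * F) := by
      rw [hAk]
      refine Dvd.dvd.mul_left ?_ _
      exact Int.natCast_dvd_natCast.2 (hcD ▸ hlδ1.mul_left c)
    have hlN : (l : ℤ) ∣ N + 2 * F := (hlp.dvd_or_dvd hlA).resolve_left hlF'
    have hlB : ¬ (l : ℤ) ∣ -((F : ℤ) * (N - 2 * F)) := by
      rw [dvd_neg]
      intro h4
      rcases hlp.dvd_or_dvd h4 with h5 | h5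
      · exact hlF' h5
      · exact hboth l hl hlF hlN h5
    have hlcδ : ¬ (l : ℤ) ∣ -((c : ℤ) * δ2) := by
      rw [dvd_neg]
      intro h1
      rcases hlp.dvd_or_dvd h1 with h3 | h3
      · exact hlc h3
      · exact hlδ2 (Int.natCast_dvd_natCast.1 h3)
    have hsq : IsSquare ((-((c : ℤ) * δ2)) * (-((F : ℤ) * (N - 2 * F)))) := by
      rw [neg_mul_neg]
      exact hsqB'
    rw [jac_eq _ _ l hl hl2 hsq hlcδ hlB]
    refine D4_jac_sq l hl F h2F _ ?_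
    have e : -((F : ℤ) * (N - 2 * F)) - 4 * (F : ℤ) ^ 2 = -(F * (N + 2 * F)) := by ring
    rw [e, dvd_neg]
    exact hlN.mul_left _

end N78
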