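import Pool.Agent.LibN78.D0
import Pool.Agent.LibN78.D3
import Pool.Agent.LibN78.D4

namespace N78

private theorem D5_cop (l : ℕ) (hl : l.Prime) (w : ℤ) (hw : ¬ (l : ℤ) ∣ w) : w.gcd l = 1 := by
  have hlp : Prime (l : ℤ) := Nat.prime_iff_prime_int.1 hl
  rw [← Int.isCoprime_iff_gcd_eq_one]
  exact ((Prime.coprime_iff_not_dvd hlp).2 hw).symm

private theorem D5_mod (l : ℕ) (A B : ℤ) (h : (l : ℤ) ∣ A - B) : jacobiSym A l = jacobiSym B l := by
  rw [jacobiSym.mod_left A, jacobiSym.mod_left B]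
  rw [Int.emod_eq_emod_iff_emod_sub_eq_zero.2 (Int.emod_eq_zero_of_dvd h)]

private theorem D5_jac_sq (l : ℕ) (hl : l.Prime) (x : ℤ) (h : ¬ (l : ℤ) ∣ x) (A : ℤ)
    (hA : (l : ℤ) ∣ A - x ^ 2) : jacobiSym A l = 1 := by
  rw [D5_mod l A (x ^ 2) hA]
  exact jacobiSym.sq_one' (D5_cop l hl x h)

private theorem D5_neg_one (p : ℕ) (hp : p % 4 = 3) : jacobiSym (-1) p = -1 := by
  rw [jacobiSym.at_neg_one (Nat.odd_iff.2 (by omega))]
  exact ZMod.χ₄_nat_three_mod_four hp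

private theorem D5_jac_neg (l : ℕ) (hl : l.Prime) (hl3 : l % 4 = 3) (x : ℤ) (h : ¬ (l : ℤ) ∣ x) (A : ℤ)
    (hA : (l : ℤ) ∣ A + x ^ 2) : jacobiSym A l = -1 := by
  rw [D5_mod l A ((-1) * x ^ 2) (by
    have e : A - (-1) * x ^ 2 = A + x ^ 2 := by ring
    rw [e]
    exact hA), jacobiSym.mul_left, D5_neg_one l hl3, jacobiSym.sq_one' (D5_cop l hl x h), mul_one]

private theorem D5_ndvd (l : ℕ) (v : ℤ) (h : jacobiSym v l ≠ 0) (hl : l.Prime) : ¬ (l : ℤ) ∣ v := by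
  intro h1
  apply h
  have hl0 : NeZero l := ⟨hl.ne_zero⟩
  rw [jacobiSym.eq_zero_iff_not_coprime]
  intro h2
  have h3 : (l : ℤ) ∣ (v.gcd l : ℤ) := Int.dvd_coe_gcd h1 (dvd_refl _)
  rw [h2] at h3
  have h4 : l ∣ 1 := by exact_mod_cast h3
  exact hl.one_lt.ne' (Nat.dvd_one.1 h4)

/-- Row D5a. If the valuation of `R = 2 r`, `g r = ρ Y^2`, agrees with that of `N` at all primes `l ∤ 2F`, `l ∣ N`, and `TD3`,
then `2 F N` is a perfect square. Proof: `N = ch k^2`, `ch` squarefree. A prime `l ∣ ch` with `l ∤ 2 F ρ g` has `v(N)` odd, but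
`v(N) = v(2 r) = v(r) = 2 v(Y)`, contradiction; so `ch ∣ 2 F ρ g` and `c' = 2 F ch ≤ 4 F^2 ρ g ≤ W4`. If `c'` is not a square, `TD3` gives
`l ∣ d`, `l > W4`, `(c'/l) = (-c'/l) = -1`; `N^2 = 4F^2` mod `l`; `N = 2F`: `(ch/l) = (N/l) = (2F/l)` (`jac_eq`), `(c'/l) = 1`;
`N = -2F`: `(-c'/l) = 1`; contradiction. So `c'` is a square and `2 F N = c' k^2` too. -/
theorem end_square (d W4 F ρ g r Y : ℕ) (N S : ℤ) (h3 : TD3 d W4) (hF : 1 ≤ F) (hρ : 0 < ρ)
    (hg : 0 < g) (hr0 : 0 < r) (hW : 4 * F ^ 2 * (ρ * g) ≤ W4) (hr : g * r = ρ * Y ^ 2) (hN : 0 < N)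
    (h : N ^ 2 - (d : ℤ) * S ^ 2 = 4 * (F : ℤ) ^ 2)
    (hv : ∀ l : ℕ, l.Prime → ¬ (l : ℤ) ∣ 2 * F → (l : ℤ) ∣ N →
      padicValInt l (2 * r) = padicValInt l N) :
    IsSquare (2 * F * N) := by
  obtain ⟨N', hN'⟩ : ∃ N' : ℕ, N = N' := ⟨_, (Int.toNat_of_nonneg hN.le).symm⟩
  have hN'0 : 0 < N' := by
    rw [hN'] at hN
    exact_mod_cast hN
  obtain ⟨ch, k, hk, hch⟩ := Nat.sq_mul_squarefree N'
  have hch0 : 0 < ch := Nat.pos_of_ne_zero hch.ne_zero
  have hk0 : k ≠ 0 := by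
    rintro rfl
    simp at hk
    omega
  have hNk : N = (k : ℤ) ^ 2 * ch := by
    rw [hN', ← hk]
    push_cast
    ring
  have hY0 : Y ≠ 0 := by
    rintro rfl
    have : 0 < g * r := Nat.mul_pos hg hr0
    simp at hr
    omega
  -- primes dividing `ch`
  have hpr : ∀ l : ℕ, l.Prime → l ∣ ch → l ∣ 2 * F * (ρ * g) := by
    intro l hl hlc
    by_contra hnd
    have hl' : Fact l.Prime := ⟨hl⟩
    have h2F : ¬ l ∣ 2 * F := fun h1 => hnd (h1.mul_right _)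
    have hlρ : ¬ l ∣ ρ := fun h1 => hnd ((h1.mul_right g).mul_left _)
    have hlg : ¬ l ∣ g := fun h1 => hnd ((h1.mul_left ρ).mul_left _)
    have hl2 : ¬ l ∣ 2 := fun h1 => h2F (h1.mul_right F)
    have hlN : l ∣ N' := by
      rw [← hk]
      exact hlc.mul_left _
    have h1 := hv l hl (by exact_mod_cast h2F) (by rw [hN']; exact_mod_cast hlN)
    have e1 : padicValInt l (2 * (r : ℤ)) = padicValNat l (2 * r) := by
      have : (2 * (r : ℤ)) = ((2 * r : ℕ) : ℤ) := by push_cast; ring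
      rw [this, padicValInt.of_nat]
    have e2 : padicValInt l N = padicValNat l N' := by rw [hN', padicValInt.of_nat]
    rw [e1, e2] at h1
    have e3 : padicValNat l (2 * r) = padicValNat l r := by
      rw [padicValNat.mul (by norm_num) hr0.ne', padicValNat.eq_zero_of_not_dvd hl2, zero_add]
    have e4 : padicValNat l (g * r) = padicValNat l r := by
      rw [padicValNat.mul hg.ne' hr0.ne', padicValNat.eq_zero_of_not_dvd hlg, zero_add]
    have e5 : padicValNat l (ρ * Y ^ 2) = 2 * padicValNat l Y := by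
      rw [padicValNat.mul hρ.ne' (pow_ne_zero 2 hY0), padicValNat.eq_zero_of_not_dvd hlρ, zero_add,
        padicValNat.pow]
    have e6 : padicValNat l N' = 2 * padicValNat l k + padicValNat l ch := by
      rw [← hk, padicValNat.mul (pow_ne_zero 2 hk0) hch0.ne', padicValNat.pow]
    have e7 : padicValNat l ch = 1 := by
      have h2 : 1 ≤ padicValNat l ch := one_le_padicValNat_of_dvd hch0.ne' hlc
      have h3 : ¬ 2 ≤ padicValNat l ch := by
        intro h4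
        have h5 : l ^ 2 ∣ ch := (pow_dvd_pow l h4).trans pow_padicValNat_dvd
        rw [sq] at h5
        exact hl.one_lt.ne' (Nat.isUnit_iff.1 (hch l h5))
      omega
    rw [e3, ← e4, hr, e5, e6, e7] at h1
    omega
  have hchd : ch ∣ 2 * F * (ρ * g) := by
    rw [← Nat.prod_primeFactors_of_squarefree hch]
    refine Finset.prod_primes_dvd _ (fun p hp => (Nat.prime_of_mem_primeFactors hp).prime) fun p hp => ?_
    exact hpr p (Nat.prime_of_mem_primeFactors hp) (Nat.dvd_of_mem_primeFactors hp)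
  have hρg : 0 < ρ * g := Nat.mul_pos hρ hg
  have hchle : ch ≤ 2 * F * (ρ * g) := Nat.le_of_dvd (Nat.mul_pos (by omega) hρg) hchd
  have hcle : 2 * F * ch ≤ W4 := by
    refine le_trans ?_ hW
    calc 2 * F * ch ≤ 2 * F * (2 * F * (ρ * g)) := Nat.mul_le_mul_left _ hchle
      _ = 4 * F ^ 2 * (ρ * g) := by ring
  have h2FW : 2 * F ≤ W4 := by
    refine le_trans ?_ hcle
    calc 2 * F = 2 * F * 1 := (mul_one _).symm
      _ ≤ 2 * F * ch := Nat.mul_le_mul_left _ hch0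
  have hc1 : 1 ≤ 2 * F * ch := Nat.mul_pos (by omega) hch0
  -- `2 F ch` is a square
  have hsq : IsSquare (((2 * F * ch : ℕ) : ℤ)) := by
    by_contra hns
    obtain ⟨l, hl, hld, hlW, hj1, hj2⟩ := h3 (2 * F * ch) hc1 hcle hns
    have hlp : Prime (l : ℤ) := Nat.prime_iff_prime_int.1 hl
    have hl2F : ¬ (l : ℤ) ∣ 2 * F := by
      intro h1
      have h2 : l ∣ 2 * F := by exact_mod_cast h1
      exact absurd (Nat.le_of_dvd (by omega) h2) (by omega)
    have hlc : ¬ (l : ℤ) ∣ ((2 * F * ch : ℕ) : ℤ) := by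
      intro h1
      exact absurd (Nat.le_of_dvd hc1 (Int.natCast_dvd_natCast.1 h1)) (by omega)
    have hlN : ¬ (l : ℤ) ∣ N := by
      intro h1
      have h2 : (l : ℤ) ∣ (2 * (F : ℤ)) ^ 2 := by
        have e : (2 * (F : ℤ)) ^ 2 = N ^ 2 - (d : ℤ) * S ^ 2 := by rw [h]; ring
        rw [e]
        exact dvd_sub (h1.trans (dvd_pow_self N (by norm_num)))
          ((Int.natCast_dvd_natCast.2 hld).mul_right _)
      exact hl2F (hlp.dvd_of_dvd_pow h2)
    have hl2FN : ¬ (l : ℤ) ∣ 2 * F * N := by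
      intro h1
      rcases hlp.dvd_or_dvd h1 with h2 | h2
      · exact hl2F h2
      · exact hlN h2
    have hld' : (l : ℤ) ∣ (N + 2 * F) * (N - 2 * F) := by
      have e : (N + 2 * F) * (N - 2 * F) = (d : ℤ) * S ^ 2 := by linarith [h]
      rw [e]
      exact (Int.natCast_dvd_natCast.2 hld).mul_right _
    have hl2 : l ≠ 2 := by
      rintro rfl
      omega
    rcases hlp.dvd_or_dvd hld' with h4 | h4
    · -- `N = -2F`
      have h5 : jacobiSym (-(2 * F * N)) l = 1 := by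
        refine D5_jac_sq l hl (2 * F) hl2F _ ?_
        have e : -(2 * (F : ℤ) * N) - (2 * (F : ℤ)) ^ 2 = -(2 * F) * (N + 2 * F) := by ring
        rw [e]
        exact h4.mul_left _
      have h6 : jacobiSym (-(((2 * F * ch : ℕ) : ℤ))) l = jacobiSym (-(2 * F * N)) l := by
        refine jac_eq _ _ l hl hl2 ?_ (by rwa [dvd_neg]) (by rwa [dvd_neg])
        refine ⟨2 * F * ch * k, ?_⟩
        rw [hNk]
        push_cast
        ring
      rw [h6, h5] at hj2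
      norm_num at hj2
    · have h5 : jacobiSym (2 * F * N) l = 1 := by
        refine D5_jac_sq l hl (2 * F) hl2F _ ?_
        have e : (2 * (F : ℤ) * N) - (2 * (F : ℤ)) ^ 2 = (2 * F) * (N - 2 * F) := by ring
        rw [e]
        exact h4.mul_left _
      have h6 : jacobiSym (((2 * F * ch : ℕ) : ℤ)) l = jacobiSym (2 * F * N) l := by
        refine jac_eq _ _ l hl hl2 ?_ hlc hl2FN
        refine ⟨2 * F * ch * k, ?_⟩
        rw [hNk]
        push_cast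
        ring
      rw [h6, h5] at hj1
      norm_num at hj1
  obtain ⟨t, ht⟩ := hsq
  refine ⟨t * k, ?_⟩
  have e : 2 * (F : ℤ) * N = (((2 * F * ch : ℕ) : ℤ)) * (k : ℤ) ^ 2 := by
    rw [hNk]
    push_cast
    ring
  rw [e, ht]
  ring

/-- Row D5b (main statement of the tower). `M = 2|m|`, `R = 2r`, `M^2 - d R^2 = 4F^2` (`m ≠ 0`, even `|m| > F`).
`tower_end` gives `(N, S)`, `end_class` gives `c, δ1, δ2`. `c δ1` is not a square (`F (N + 2F)` is not). `TD2` with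
`δ = δ1`, `κ = c δ1` excludes `δ1 < q2`; with `δ = δ2`, `κ = -(c δ2) < 0`, excludes `δ2 < q2` (`W4 ≥ 4F^2 ≥ 2F ≥ c`).
`TD4`: case `(N,S) = (M,R)`, `α = -1`: if `(d/p) = -1`, `(c δ1/p) = -1` and `p ∣ r` then `N = ± 2F` mod `p`:
`N = 2F`: `(c δ1/p) = (F (N+2F)/p) = (4F^2/p) = 1`, no; `N = -2F`: `(c δ2/p) = (-4F^2/p) = -1` (`p = 3` mod `4`), and
`(c δ1/p)(c δ2/p) = (d/p) = -1` (`p ∤ c`), so `(c δ1/p) = 1`, no. Other case, `α = 1`: `p ∣ r` gives `p ∣ S` or `-d` is a square mod `p`;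
the latter contradicts `(d/p) = 1`, `(-1/p) = -1`; `p ∣ S`: `N = 2F` mod `p` as before no; `N = -2F`: `2 F N = -4F^2` mod `p`, but
`2 F N` is a square by `end_square`, no. `(d/p) ≠ 0` gives `p ∤ d`. -/
theorem tower_main (d q2 W4 : ℕ) (P : Finset ℕ) (hd : 2 ≤ d) (hsf : Squarefree d)
    (hP : ∀ p ∈ P, p.Prime ∧ p % 4 = 3 ∧ W4 < p) (h2 : TD2 d q2 W4) (h3 : TD3 d W4)
    (h4 : TD4 d q2 W4 P) (F ρ g r Y : ℕ) (m : ℤ) (hF : 1 ≤ F) (hρ : 0 < ρ) (hg : 0 < g)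
    (hr0 : 0 < r) (hW : 4 * F ^ 2 * (ρ * g) ≤ W4) (h : m ^ 2 - (d : ℤ) * (r : ℤ) ^ 2 = (F : ℤ) ^ 2)
    (hr : g * r = ρ * Y ^ 2) :
    P.card ≤ 9 * (P.filter (fun p : ℕ => ¬ p ∣ d ∧ ¬ p ∣ r)).card := by
  have hFz : (0 : ℤ) < F := by exact_mod_cast hF
  have hdz : (0 : ℤ) < d := by exact_mod_cast (by omega : 0 < d)
  have hrz : (0 : ℤ) < r := by exact_mod_cast hr0
  have hm0 : m ≠ 0 := by
    rintro rfl
    have h5 : 0 < (d : ℤ) * (r : ℤ) ^ 2 := by positivity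
    have h6 : 0 < (F : ℤ) ^ 2 := by positivity
    simp at h
    linarith
  have hM0 : 0 < 2 * |m| := by
    have := abs_pos.2 hm0
    linarith
  have hMR : (2 * |m|) ^ 2 - (d : ℤ) * (2 * (r : ℤ)) ^ 2 = 4 * (F : ℤ) ^ 2 := by
    have e : (2 * |m|) ^ 2 = 4 * m ^ 2 := by rw [mul_pow, sq_abs]; norm_num
    rw [e, ← h]
    ring
  have hsfz : Squarefree (d : ℤ) := Int.squarefree_natCast.2 hsf
  obtain ⟨N, S, hN, hS, hNS, hnsq, hcase⟩ := tower_end (d : ℤ) (F : ℤ) hdz hsfz hFz (2 * |m|)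
    (2 * (r : ℤ)) hM0 (by linarith) hMR
  obtain ⟨c, δ1, δ2, hc1, hc2, hdd, hcsf, hsqA, hsqB, hj2, hj1⟩ := end_class d F N S hd hsf hF hN hS hNS
  have hρg : 0 < ρ * g := Nat.mul_pos hρ hg
  have h2FW : 2 * F ≤ W4 := by
    refine le_trans ?_ hW
    calc 2 * F ≤ 4 * F ^ 2 := by nlinarith
      _ = 4 * F ^ 2 * 1 := (mul_one _).symm
      _ ≤ 4 * F ^ 2 * (ρ * g) := Nat.mul_le_mul_left _ hρg
  have hcW : c ≤ W4 := hc2.trans h2FW
  have hδ10 : 0 < δ1 := Nat.pos_of_ne_zero (by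
    rintro rfl
    rw [zero_mul] at hdd
    omega)
  have hδ20 : 0 < δ2 := Nat.pos_of_ne_zero (by
    rintro rfl
    rw [mul_zero] at hdd
    omega)
  have hcz : (0 : ℤ) < c := by exact_mod_cast hc1
  have hδ1z : (0 : ℤ) < δ1 := by exact_mod_cast hδ10
  have hδ2z : (0 : ℤ) < δ2 := by exact_mod_cast hδ20
  have hq1 : q2 ≤ δ1 := by
    by_contra hlt
    obtain ⟨l, hl, hlδ, hlW, hj⟩ := h2 δ1 δ2 c hdd (by omega) hc1 hcW ((c : ℤ) * δ1) (Or.inl rfl)
      (fun hsq => hnsq (sq_ratio _ _ (mul_pos hcz hδ1z).ne' hsq hsqA))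
    rw [hj2 l hl (by omega) hlδ] at hj
    norm_num at hj
  have hq2 : q2 ≤ δ2 := by
    by_contra hlt
    obtain ⟨l, hl, hlδ, hlW, hj⟩ := h2 δ2 δ1 c (by rw [mul_comm]; exact hdd) (by omega) hc1 hcW
      (-((c : ℤ) * δ2)) (Or.inr rfl)
      (fun hsq => by
        have h5 := hsq.nonneg
        have h6 := mul_pos hcz hδ2z
        linarith)
    rw [hj1 l hl (by omega) hlδ] at hj
    norm_num at hj
  -- facts at the primes of `P`
  have hbig : ∀ p ∈ P, ¬ (p : ℤ) ∣ 2 * F ∧ ¬ (p : ℤ) ∣ F ∧ ¬ (p : ℤ) ∣ 2 ∧ ¬ (p : ℤ) ∣ c ∧ p ≠ 2 := by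
    intro p hp
    obtain ⟨hpp, hp3, hpW⟩ := hP p hp
    have h5 : ¬ p ∣ 2 * F := fun h6 => absurd (Nat.le_of_dvd (by omega) h6) (by omega)
    have h5' : ¬ (p : ℤ) ∣ 2 * F := by exact_mod_cast h5
    refine ⟨h5', fun h6 => h5' (h6.mul_left 2), fun h6 => h5' (h6.mul_right _), ?_, by omega⟩
    intro h6
    exact absurd (Nat.le_of_dvd (by omega) (Int.natCast_dvd_natCast.1 h6)) (by omega)
  have hboth : ∀ p ∈ P, (p : ℤ) ∣ N + 2 * F → ¬ (p : ℤ) ∣ N - 2 * F := by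
    intro p hp h5 h6
    have hpp : Prime (p : ℤ) := Nat.prime_iff_prime_int.1 (hP p hp).1
    obtain ⟨h2F, _, h22, _, _⟩ := hbig p hp
    have h7 : (p : ℤ) ∣ 2 * (2 * F) := by
      have := dvd_sub h5 h6
      have e : (N + 2 * F) - (N - 2 * F) = 2 * (2 * (F : ℤ)) := by ring
      rwa [e] at this
    rcases hpp.dvd_or_dvd h7 with h8 | h8
    · exact h22 h8
    · exact h2F h8
  -- `p ∣ S` and `(c δ1/p) = -1` gives `p ∣ N + 2F`
  have hplus : ∀ p ∈ P, jacobiSym ((c : ℤ) * δ1) p = -1 → (p : ℤ) ∣ S → (p : ℤ) ∣ N + 2 * F := by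
    intro p hp hj hpS
    have hpp : Prime (p : ℤ) := Nat.prime_iff_prime_int.1 (hP p hp).1
    obtain ⟨h2F, hpF, h22, hpc, hp2⟩ := hbig p hp
    have h5 : (p : ℤ) ∣ (N + 2 * F) * (N - 2 * F) := by
      have e : (N + 2 * F) * (N - 2 * F) = (d : ℤ) * S ^ 2 := by linarith [hNS]
      rw [e]
      exact (hpS.trans (dvd_pow_self S (by norm_num))).mul_left _
    rcases hpp.dvd_or_dvd h5 with h6 | h6
    · exact h6
    · exfalso
      have hnd : ¬ (p : ℤ) ∣ (c : ℤ) * δ1 := D5_ndvd p _ (by rw [hj]; norm_num) (hP p hp).1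
      have hndA : ¬ (p : ℤ) ∣ F * (N + 2 * F) := by
        intro h7
        rcases hpp.dvd_or_dvd h7 with h8 | h8
        · exact hpF h8
        · exact hboth p hp h8 h6
      have h7 := jac_eq _ _ p (hP p hp).1 hp2 hsqA hnd hndA
      have h8 : jacobiSym ((F : ℤ) * (N + 2 * F)) p = 1 := by
        refine D5_jac_sq p (hP p hp).1 (2 * F) h2F _ ?_
        have e : (F : ℤ) * (N + 2 * F) - (2 * (F : ℤ)) ^ 2 = F * (N - 2 * F) := by ring
        rw [e]
        exact h6.mul_left _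
      rw [h7, h8] at hj
      norm_num at hj
  have hnpd : ∀ p ∈ P, ∀ α : ℤ, (α = 1 ∨ α = -1) → jacobiSym (d : ℤ) p = α → ¬ p ∣ d := by
    intro p hp α hα hj h5
    refine D5_ndvd p (d : ℤ) ?_ (hP p hp).1 (Int.natCast_dvd_natCast.2 h5)
    rw [hj]
    rcases hα with h6 | h6 <;> rw [h6] <;> norm_num
  rcases hcase with ⟨hNM, hSR⟩ | ⟨hA, hB⟩
  · -- the first case
    refine (h4 δ1 δ2 c hdd hq1 hq2 hc1 hcW (-1) (Or.inr rfl)).trans ?_
    refine Nat.mul_le_mul_left 9 (Finset.card_le_card ?_)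
    intro p hp
    rw [Finset.mem_filter] at hp ⊢
    obtain ⟨hpP, hjd, hjc⟩ := hp
    have hpd := hnpd p hpP (-1) (Or.inr rfl) hjd
    refine ⟨hpP, hpd, fun hpr => ?_⟩
    have hpp : Prime (p : ℤ) := Nat.prime_iff_prime_int.1 (hP p hpP).1
    obtain ⟨h2F, hpF, h22, hpc, hp2⟩ := hbig p hpP
    have hpS : (p : ℤ) ∣ S := by
      rw [hSR]
      exact (Int.natCast_dvd_natCast.2 hpr).mul_left 2
    have h5 := hplus p hpP hjc hpS
    have hndδ2 : ¬ (p : ℤ) ∣ (c : ℤ) * δ2 := by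
      intro h6
      rcases hpp.dvd_or_dvd h6 with h7 | h7
      · exact hpc h7
      · exact hpd (hdd ▸ (Int.natCast_dvd_natCast.1 h7).mul_left δ1)
    have hndB : ¬ (p : ℤ) ∣ F * (N - 2 * F) := by
      intro h7
      rcases hpp.dvd_or_dvd h7 with h8 | h8
      · exact hpF h8
      · exact hboth p hpP h5 h8
    have h7 := jac_eq _ _ p (hP p hpP).1 hp2 hsqB hndδ2 hndB
    have h8 : jacobiSym ((F : ℤ) * (N - 2 * F)) p = -1 := by
      refine D5_jac_neg p (hP p hpP).1 (hP p hpP).2.1 (2 * F) h2F _ ?_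
      have e : (F : ℤ) * (N - 2 * F) + (2 * (F : ℤ)) ^ 2 = F * (N + 2 * F) := by ring
      rw [e]
      exact h5.mul_left _
    rw [h8] at h7
    have h9 : jacobiSym ((c : ℤ) * δ1) p * jacobiSym ((c : ℤ) * δ2) p = jacobiSym (d : ℤ) p := by
      rw [← jacobiSym.mul_left]
      have e : (c : ℤ) * δ1 * ((c : ℤ) * δ2) = (c : ℤ) ^ 2 * d := by
        rw [← hdd]
        push_cast
        ring
      rw [e, jacobiSym.mul_left, jacobiSym.sq_one' (D5_cop p (hP p hpP).1 _ hpc), one_mul]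
    rw [hjc, h7, hjd] at h9
    norm_num at h9
  · -- the second case
    refine (h4 δ1 δ2 c hdd hq1 hq2 hc1 hcW 1 (Or.inl rfl)).trans ?_
    refine Nat.mul_le_mul_left 9 (Finset.card_le_card ?_)
    intro p hp
    rw [Finset.mem_filter] at hp ⊢
    obtain ⟨hpP, hjd, hjc⟩ := hp
    have hpd := hnpd p hpP 1 (Or.inl rfl) hjd
    refine ⟨hpP, hpd, fun hpr => ?_⟩
    have hpp : Prime (p : ℤ) := Nat.prime_iff_prime_int.1 (hP p hpP).1
    obtain ⟨h2F, hpF, h22, hpc, hp2⟩ := hbig p hpP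
    have hpR : (p : ℤ) ∣ 2 * r := (Int.natCast_dvd_natCast.2 hpr).mul_left 2
    rcases hA p (hP p hpP).1 h2F hpR with hpS | ⟨x, hx⟩
    · have h5 := hplus p hpP hjc hpS
      have hsq2 := end_square d W4 F ρ g r Y N S h3 hF hρ hg hr0 hW hr hN hNS hB
      have h6 : jacobiSym (2 * F * N) p = -1 := by
        refine D5_jac_neg p (hP p hpP).1 (hP p hpP).2.1 (2 * F) h2F _ ?_
        have e : 2 * (F : ℤ) * N + (2 * (F : ℤ)) ^ 2 = 2 * F * (N + 2 * F) := by ring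
        rw [e]
        exact h5.mul_left _
      obtain ⟨t, ht⟩ := hsq2
      have hnt : ¬ (p : ℤ) ∣ t := by
        intro h7
        have h8 : ¬ (p : ℤ) ∣ 2 * F * N := D5_ndvd p _ (by rw [h6]; norm_num) (hP p hpP).1
        exact h8 (by rw [ht]; exact h7.mul_right t)
      rw [ht, ← sq, jacobiSym.sq_one' (D5_cop p (hP p hpP).1 _ hnt)] at h6
      norm_num at h6
    · have hnx : ¬ (p : ℤ) ∣ x := by
        intro h7
        apply hpd
        have h8 : (p : ℤ) ∣ (d : ℤ) := by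
          have h9 := dvd_sub hx (h7.trans (dvd_pow_self x (by norm_num : (2 : ℕ) ≠ 0)))
          have e : x ^ 2 + (d : ℤ) - x ^ 2 = d := by ring
          rwa [e] at h9
        exact Int.natCast_dvd_natCast.1 h8
      have h7 : jacobiSym (d : ℤ) p = -1 := by
        refine D5_jac_neg p (hP p hpP).1 (hP p hpP).2.1 x hnx _ ?_
        rw [add_comm]
        exact hx
      rw [h7] at hjd
      norm_num at hjd

end N78
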