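import Pool.Agent.LibN78.D0
import Pool.Agent.LibN44.S2d
import Pool.Agent.LibN44.S2c
import Pool.Agent.LibPNT.PNT
import Pool.Agent.LibTwHL.M1
import Pool.Agent.LibTwHL.M3

namespace N78

open TwHL

private theorem D7_cases (κ : ℤ) (p : ℕ) : -1 ≤ (jacobiSym κ p : ℝ) ∧ (jacobiSym κ p : ℝ) ≤ 1 := by
  rcases jacobiSym.trichotomy κ p with h | h | h <;> rw [h] <;> norm_num

private theorem D7_two (z : ℕ) : ∑ p ∈ PP z, (if p = 2 then (1 : ℝ) else 0) ≤ 1 := by
  rw [Finset.sum_ite_eq']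
  split_ifs <;> norm_num

private theorem D7_LL (x : ℕ) (hx : 1 ≤ x) : 0 ≤ LL x := by
  unfold LL
  apply Real.log_nonneg
  have h : 0 ≤ Real.log (x : ℝ) := Real.log_nonneg (by exact_mod_cast hx)
  linarith

/-- Row D7a. `∑_{p ≤ z, p = 1 mod 4} 1/p ≥ (9/20) log log z - C` (`TwHL.sum_chi` for `Δ = -1`). -/
theorem sum_one_mod_four : ∃ C : ℝ, 0 < C ∧ ∀ z : ℕ, 1 ≤ z →
    9 / 20 * LL z - C ≤ ∑ p ∈ (PP z).filter (fun p => p % 4 = 1), 1 / (p : ℝ) := by
  obtain ⟨C1, hC1, hM⟩ := mertens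
  have hsq : ¬ IsSquare (-1 : ℤ) := by
    rintro ⟨r, hr⟩
    nlinarith [mul_self_nonneg r]
  obtain ⟨K, hK⟩ := sum_chi (-1) hsq (1 / 10) (by norm_num)
  refine ⟨(C1 + |K| + 1) / 2, by positivity, fun z hz => ?_⟩
  have h1 := (abs_le.1 (hM z hz)).1
  have h2 := (abs_le.1 (hK z hz)).1
  have h3 := le_abs_self K
  have h4 : ∑ p ∈ PP z, 1 / (p : ℝ) + ∑ p ∈ PP z, (jacobiSym (-1) p : ℝ) / p ≤
      2 * ∑ p ∈ (PP z).filter (fun p => p % 4 = 1), 1 / (p : ℝ) +
        ∑ p ∈ PP z, (if p = 2 then (1 : ℝ) else 0) := by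
    rw [Finset.sum_filter, Finset.mul_sum, ← Finset.sum_add_distrib, ← Finset.sum_add_distrib]
    refine Finset.sum_le_sum fun p hp => ?_
    have hpp : p.Prime := (Finset.mem_filter.1 hp).2
    have hp0 : (0 : ℝ) < p := by exact_mod_cast hpp.pos
    rcases hpp.eq_two_or_odd' with h5 | h5
    · subst h5
      rw [if_pos rfl, if_neg (by norm_num)]
      have h6 := (D7_cases (-1) 2).2
      push_cast
      linarith
    · have h6 : p ≠ 2 := by
        rintro rfl
        exact absurd h5 (by decide)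
      rw [if_neg h6, add_zero, jacobiSym.at_neg_one h5]
      have h7 : p % 4 = 1 ∨ p % 4 = 3 := by
        obtain ⟨k, hk⟩ := h5
        omega
      rcases h7 with h7 | h7
      · rw [if_pos h7, ZMod.χ₄_nat_one_mod_four h7]
        push_cast
        exact le_of_eq (by ring)
      · rw [if_neg (by omega), ZMod.χ₄_nat_three_mod_four h7]
        push_cast
        exact le_of_eq (by ring)
  have h5 := D7_two z
  linarith

private theorem D7_card (c w : ℕ) (hc : 1 ≤ c) (hw : 1 ≤ w) (h : Real.log c ≤ w) :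
    ∑ p ∈ c.primeFactors.filter (fun p => w < p), 1 / (p : ℝ) ≤ 2 := by
  have hw0 : (0 : ℝ) < w := by exact_mod_cast hw
  have h1 : ∑ p ∈ c.primeFactors.filter (fun p => w < p), 1 / (p : ℝ) ≤
      ∑ p ∈ c.primeFactors.filter (fun p => w < p), 1 / (w : ℝ) := by
    refine Finset.sum_le_sum fun p hp => ?_
    have h2 := (Finset.mem_filter.1 hp).2
    exact one_div_le_one_div_of_le hw0 (by exact_mod_cast h2.le)
  have h2 : ((c.primeFactors.filter (fun p => w < p)).card : ℝ) ≤ c.primeFactors.card := by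
    exact_mod_cast Finset.card_filter_le _ _
  have h3 : (c.primeFactors.card : ℝ) * Real.log 2 ≤ Real.log c := by
    have h4 : ∏ p ∈ c.primeFactors, p ∣ c := Nat.prod_primeFactors_dvd c
    have h5 : ((∏ p ∈ c.primeFactors, p : ℕ) : ℝ) ≤ c := by
      exact_mod_cast Nat.le_of_dvd (by omega) h4
    have h6 : Real.log ((∏ p ∈ c.primeFactors, p : ℕ) : ℝ) =
        ∑ p ∈ c.primeFactors, Real.log (p : ℝ) := by
      rw [Nat.cast_prod, Real.log_prod]
      intro p hp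
      have := (Nat.prime_of_mem_primeFactors hp).pos
      positivity
    have h7 : (0 : ℝ) < ((∏ p ∈ c.primeFactors, p : ℕ) : ℝ) := by
      have : 0 < ∏ p ∈ c.primeFactors, p :=
        Finset.prod_pos fun p hp => (Nat.prime_of_mem_primeFactors hp).pos
      exact_mod_cast this
    have h8 := Real.log_le_log h7 h5
    rw [h6] at h8
    refine le_trans ?_ h8
    rw [← nsmul_eq_mul]
    refine Finset.card_nsmul_le_sum _ _ _ fun p hp => ?_
    have := (Nat.prime_of_mem_primeFactors hp).two_le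
    exact Real.log_le_log two_pos (by exact_mod_cast this)
  have h4 : (1 / 2 : ℝ) < Real.log 2 := by
    have := Real.log_two_gt_d9
    linarith
  have h5 : (c.primeFactors.card : ℝ) ≤ 2 * w := by
    have h6 : (0 : ℝ) ≤ c.primeFactors.card := Nat.cast_nonneg _
    nlinarith
  refine h1.trans ?_
  rw [Finset.sum_const, nsmul_eq_mul, mul_one_div, div_le_iff₀ hw0]
  linarith

/-- Row D7b. -/
theorem sum_both_minus : ∃ C : ℝ, 0 < C ∧ ∀ c : ℕ, ¬ IsSquare (c : ℤ) → 1 ≤ c → ∀ w z : ℕ, 1 ≤ w →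
    w ≤ z → Real.log c ≤ w →
    1 / 5 * LL z - LL w - 1 / 2 * LL c - C ≤
      ∑ p ∈ (PP z).filter (fun p => w < p ∧ ¬ p ∣ c ∧ jacobiSym (c : ℤ) p = -1 ∧
        jacobiSym (-(c : ℤ)) p = -1), 1 / (p : ℝ) := by
  obtain ⟨C1, hC1, hM⟩ := mertens
  obtain ⟨C2, hC2, hA⟩ := sum_one_mod_four
  obtain ⟨C3, hC3, hX⟩ := chi_upper
  refine ⟨C1 + C2 + C3 + 3, by positivity, fun c hcs hc w z hw hwz hlog => ?_⟩
  have hz : 1 ≤ z := hw.trans hwz
  have hcs' : ¬ IsSquare (-(c : ℤ)) := by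
    rintro ⟨r, hr⟩
    have : (1 : ℤ) ≤ c := by exact_mod_cast hc
    nlinarith [mul_self_nonneg r]
  have h1 := hX c hcs z hz
  have h2 := hX (-(c : ℤ)) hcs' z hz
  rw [Int.natAbs_natCast] at h1
  rw [Int.natAbs_neg, Int.natAbs_natCast] at h2
  have h3 := hA z hz
  have h4 := (abs_le.1 (hM w hw)).2
  have h5 := D7_card c w hc hw hlog
  have h6 := D7_two z
  have h7 := D7_LL z hz
  have key : 1 / 2 * ∑ p ∈ (PP z).filter (fun p => p % 4 = 1), 1 / (p : ℝ) -
      1 / 4 * (∑ p ∈ PP z, (jacobiSym (c : ℤ) p : ℝ) / p +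
        ∑ p ∈ PP z, (jacobiSym (-(c : ℤ)) p : ℝ) / p) ≤
      ∑ p ∈ (PP z).filter (fun p => w < p ∧ ¬ p ∣ c ∧ jacobiSym (c : ℤ) p = -1 ∧
        jacobiSym (-(c : ℤ)) p = -1), 1 / (p : ℝ) +
      ∑ p ∈ (PP z).filter (fun p => p ≤ w), 1 / (p : ℝ) +
      ∑ p ∈ (PP z).filter (fun p => p ∣ c ∧ w < p), 1 / (p : ℝ) +
      ∑ p ∈ PP z, (if p = 2 then (1 : ℝ) else 0) := by
    rw [Finset.sum_filter, Finset.sum_filter, Finset.sum_filter, Finset.sum_filter,
      ← Finset.sum_add_distrib, ← Finset.sum_add_distrib, ← Finset.sum_add_distrib,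
      ← Finset.sum_add_distrib, Finset.mul_sum, Finset.mul_sum, ← Finset.sum_sub_distrib]
    refine Finset.sum_le_sum fun p hp => ?_
    have hpp : p.Prime := (Finset.mem_filter.1 hp).2
    have hp0 : (0 : ℝ) < p := by exact_mod_cast hpp.pos
    have hu : (0 : ℝ) < 1 / p := by positivity
    obtain ⟨a1, a2⟩ := D7_cases (c : ℤ) p
    obtain ⟨b1, b2⟩ := D7_cases (-(c : ℤ)) p
    have hT : 1 / 2 * (if p % 4 = 1 then 1 / (p : ℝ) else 0) - 1 / 4 *
        ((jacobiSym (c : ℤ) p : ℝ) / p + (jacobiSym (-(c : ℤ)) p : ℝ) / p) ≤ 1 / p := by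
      have e1 : (jacobiSym (c : ℤ) p : ℝ) / p = (jacobiSym (c : ℤ) p : ℝ) * (1 / p) := by ring
      have e2 : (jacobiSym (-(c : ℤ)) p : ℝ) / p = (jacobiSym (-(c : ℤ)) p : ℝ) * (1 / p) := by
        ring
      rw [e1, e2]
      have e3 : (if p % 4 = 1 then 1 / (p : ℝ) else 0) ≤ 1 / p := by
        split_ifs
        · exact le_rfl
        · exact hu.le
      have e4 := mul_le_mul_of_nonneg_right a1 hu.le
      have e5 := mul_le_mul_of_nonneg_right b1 hu.le
      linarith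
    have hn1 : ∀ (P : Prop) [Decidable P], (0 : ℝ) ≤ if P then 1 / (p : ℝ) else 0 := by
      intro P _
      split_ifs
      · exact hu.le
      · exact le_rfl
    have hn2 : (0 : ℝ) ≤ if p = 2 then (1 : ℝ) else 0 := by split_ifs <;> norm_num
    have m1 := hn1 (w < p ∧ ¬ p ∣ c ∧ jacobiSym (c : ℤ) p = -1 ∧ jacobiSym (-(c : ℤ)) p = -1)
    have m2 := hn1 (p ≤ w)
    have m3 := hn1 (p ∣ c ∧ w < p)
    rcases hpp.eq_two_or_odd' with h8 | h8
    · have h9 : (if p = 2 then (1 : ℝ) else 0) = 1 := if_pos h8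
      have h10 : 1 / (p : ℝ) ≤ 1 := by
        rw [h8]
        norm_num
      linarith
    by_cases h9 : p ≤ w
    · rw [if_pos h9] at m2 ⊢
      linarith
    by_cases h10 : p ∣ c
    · have h11 : (if p ∣ c ∧ w < p then 1 / (p : ℝ) else 0) = 1 / p :=
        if_pos ⟨h10, by omega⟩
      linarith
    have h11 : p % 4 = 1 ∨ p % 4 = 3 := by
      obtain ⟨k, hk⟩ := h8
      omega
    have hneg := jacobiSym.neg (c : ℤ) h8
    rcases h11 with h11 | h11
    · rw [ZMod.χ₄_nat_one_mod_four h11, one_mul] at hneg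
      rcases jacobiSym.trichotomy (c : ℤ) p with h12 | h12 | h12
      · exfalso
        have : NeZero p := ⟨hpp.ne_zero⟩
        have h13 := jacobiSym.eq_zero_iff_not_coprime.1 h12
        apply h13
        rw [Int.gcd_natCast_natCast]
        exact (Nat.coprime_comm.1 ((Nat.Prime.coprime_iff_not_dvd hpp).2 h10))
      · have e1 : (jacobiSym (c : ℤ) p : ℝ) = 1 := by
          rw [h12]
          norm_num
        have e2 : (jacobiSym (-(c : ℤ)) p : ℝ) = 1 := by
          rw [hneg, h12]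
          norm_num
        have e3 : 1 / 2 * (if p % 4 = 1 then 1 / (p : ℝ) else 0) - 1 / 4 *
            ((jacobiSym (c : ℤ) p : ℝ) / p + (jacobiSym (-(c : ℤ)) p : ℝ) / p) = 0 := by
          rw [e1, e2, if_pos h11]
          ring
        linarith
      · have h13 : (if w < p ∧ ¬ p ∣ c ∧ jacobiSym (c : ℤ) p = -1 ∧
            jacobiSym (-(c : ℤ)) p = -1 then 1 / (p : ℝ) else 0) = 1 / p :=
          if_pos ⟨by omega, h10, h12, by rw [hneg, h12]⟩
        linarith
    · rw [ZMod.χ₄_nat_three_mod_four h11] at hneg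
      have e1 : (jacobiSym (-(c : ℤ)) p : ℝ) = - (jacobiSym (c : ℤ) p : ℝ) := by
        rw [hneg]
        push_cast
        ring
      have e2 : (if p % 4 = 1 then 1 / (p : ℝ) else 0) = 0 := if_neg (by omega)
      rw [e1, e2]
      have e3 : (1 / 2 : ℝ) * 0 - 1 / 4 * ((jacobiSym (c : ℤ) p : ℝ) / p +
          -(jacobiSym (c : ℤ) p : ℝ) / p) = 0 := by ring
      linarith
  have hs1 : ∑ p ∈ (PP z).filter (fun p => p ≤ w), 1 / (p : ℝ) ≤ ∑ p ∈ PP w, 1 / (p : ℝ) := by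
    refine Finset.sum_le_sum_of_subset_of_nonneg ?_ (fun p _ _ => by positivity)
    intro p hp
    obtain ⟨k1, k2⟩ := Finset.mem_filter.1 hp
    have k3 := (Finset.mem_filter.1 k1).2
    exact Finset.mem_filter.2 ⟨Finset.mem_Icc.2 ⟨k3.one_le, k2⟩, k3⟩
  have hs2 : ∑ p ∈ (PP z).filter (fun p => p ∣ c ∧ w < p), 1 / (p : ℝ) ≤
      ∑ p ∈ c.primeFactors.filter (fun p => w < p), 1 / (p : ℝ) := by
    refine Finset.sum_le_sum_of_subset_of_nonneg ?_ (fun p _ _ => by positivity)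
    intro p hp
    obtain ⟨k1, k2⟩ := Finset.mem_filter.1 hp
    have k3 := (Finset.mem_filter.1 k1).2
    exact Finset.mem_filter.2 ⟨Nat.mem_primeFactors.2 ⟨k3, k2.1, by omega⟩, k2.2⟩
  linarith

end N78
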