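import Pool.Agent.LibN78.D7

namespace N78

open TwHL

private lemma D8_sieve : ∃ k : ℕ, 1 ≤ k ∧ ∀ (M z w W4 : ℕ) (κ : ℤ), 2 ≤ z → z ^ k ≤ M → 4 ≤ w →
    W4 ≤ w → ∀ S : Finset ℕ, (∀ n ∈ S, 1 ≤ n ∧ n ≤ M ∧
      ∀ l : ℕ, l.Prime → l ∣ n → W4 < l → jacobiSym κ l ≠ -1) →
    (S.card : ℝ) ≤ 18 * M * Real.exp (- ∑ p ∈ (PP z).filter
      (fun p => w < p ∧ ¬ (p : ℤ) ∣ κ ∧ jacobiSym κ p = -1), 1 / (p : ℝ)) := by
  obtain ⟨k, hk, hs⟩ := N44.sieve_ap
  refine ⟨k, hk, ?_⟩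
  intro M z w W4 κ hz hM hw hW S hS
  have h := hs M z 1 1 0 ((PP z).filter
    (fun p => w < p ∧ ¬ (p : ℤ) ∣ κ ∧ jacobiSym κ p = -1)) (fun _ => {0}) hz hM one_pos ?_
    (S.map Nat.castEmbedding) ?_
  · rw [Finset.card_map] at h
    simpa using h
  · intro p hp
    rw [Finset.mem_filter, PP, Finset.mem_filter, Finset.mem_Icc] at hp
    refine ⟨hp.1.2, by omega, hp.1.1.2, ?_, ?_, ?_⟩
    · intro hd
      exact hp.1.2.one_lt.ne' (Nat.dvd_one.1 hd)
    · simp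
    · intro h hh
      rw [Finset.mem_singleton] at hh
      rw [hh]
      exact hp.1.2.pos
  · intro n hn
    rw [Finset.mem_map] at hn
    obtain ⟨m, hm, rfl⟩ := hn
    obtain ⟨h1, h2, h3⟩ := hS m hm
    refine ⟨?_, ?_, ?_, ?_⟩
    · rw [Nat.castEmbedding_apply]
      exact_mod_cast h1
    · have h4 : ((m : ℕ) : ℤ) ≤ (M : ℤ) := by exact_mod_cast h2
      rw [Nat.castEmbedding_apply, Nat.cast_one, one_mul]
      omega
    · rw [Nat.cast_one]
      exact Int.modEq_one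
    · intro p hp h hh hmod
      rw [Finset.mem_singleton] at hh
      subst hh
      rw [Finset.mem_filter, PP, Finset.mem_filter, Finset.mem_Icc] at hp
      have hdvd : (p : ℤ) ∣ (m : ℤ) := by
        rw [Nat.castEmbedding_apply, Nat.cast_zero] at hmod
        exact Int.modEq_zero_iff_dvd.1 hmod
      exact h3 p hp.1.2 (by exact_mod_cast hdvd) (by omega) hp.2.2.2

private lemma D8_est (k : ℕ) (hk : 1 ≤ k) : ∃ K : ℝ, 0 < K ∧ ∃ X₀ : ℕ, 2 ≤ X₀ ∧
    ∀ X : ℕ, X₀ ≤ X → ∀ q2 W4 : ℕ, 1 ≤ q2 → 1 ≤ W4 →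
    Real.log q2 ≤ (Real.log X) ^ (1 / 10 : ℝ) → (W4 : ℝ) ≤ (Real.log X) ^ (1 / 50 : ℝ) →
    ∃ (z w : ℕ) (u : ℝ), 1 ≤ u ∧ (Real.log X) ^ (1 / 10 : ℝ) = u ∧
      (Real.log X) ^ (1 / 5 : ℝ) = u ^ 2 ∧ (W4 : ℝ) ≤ u ∧ 2 ≤ z ∧ z ^ k * q2 ≤ X ∧ 4 ≤ w ∧
      W4 ≤ w ∧ ∀ κ : ℤ, ¬ IsSquare κ → 1 ≤ κ.natAbs → κ.natAbs ≤ W4 * q2 →
      Real.exp (- ∑ p ∈ (PP z).filter
      (fun p => w < p ∧ ¬ (p : ℤ) ∣ κ ∧ jacobiSym κ p = -1), 1 / (p : ℝ)) ≤ K / u ^ 4 := by
  obtain ⟨Cm, hCm, hchi⟩ := N44.chi_minus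
  have hk0 : (0 : ℝ) < k := by exact_mod_cast hk
  have hk1 : (1 : ℝ) ≤ k := by exact_mod_cast hk
  refine ⟨Real.exp Cm * 10 * Real.sqrt (2 * k), by positivity,
    ⌈Real.exp (64 * k ^ 2 + 1024)⌉₊ + 2, by omega, ?_⟩
  intro X hX q2 W4 hq2 hW4 hlq hlW
  have hexpX : Real.exp (64 * k ^ 2 + 1024) ≤ (X : ℝ) := by
    have h1 := Nat.le_ceil (Real.exp (64 * (k : ℝ) ^ 2 + 1024))
    have h2 : ((⌈Real.exp (64 * (k : ℝ) ^ 2 + 1024)⌉₊ : ℕ) : ℝ) ≤ X :=
      Nat.cast_le.2 (by omega)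
    linarith
  have hX0 : (0 : ℝ) < X := (Real.exp_pos _).trans_le hexpX
  set L : ℝ := Real.log X with hL
  have hLb : 64 * (k : ℝ) ^ 2 + 1024 ≤ L := by
    rw [hL, Real.le_log_iff_exp_le hX0]
    exact hexpX
  have hk2 : (1 : ℝ) ≤ (k : ℝ) ^ 2 := one_le_pow₀ hk1
  have hL1024 : (1024 : ℝ) ≤ L := by nlinarith
  have hL64 : 64 * (k : ℝ) ^ 2 ≤ L := by linarith
  have hL0 : (0 : ℝ) < L := by linarith
  set u : ℝ := L ^ (1 / 10 : ℝ) with hu
  have hu10 : u ^ 10 = L := by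
    rw [hu, ← Real.rpow_natCast, ← Real.rpow_mul hL0.le]
    norm_num
  have hu2 : (2 : ℝ) ≤ u := by
    by_contra hcon
    push Not at hcon
    have hu0 : 0 ≤ u := by positivity
    have h1 : u ^ 10 < 2 ^ 10 := pow_lt_pow_left₀ hcon hu0 (by norm_num)
    rw [hu10] at h1
    norm_num at h1
    linarith
  have hu1 : (1 : ℝ) ≤ u := by linarith
  have hu0 : (0 : ℝ) < u := by linarith
  have hL5 : L ^ (1 / 5 : ℝ) = u ^ 2 := by
    rw [hu, ← Real.rpow_natCast, ← Real.rpow_mul hL0.le]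
    norm_num
  have hWu : (W4 : ℝ) ≤ u := by
    refine hlW.trans ?_
    rw [hu]
    exact Real.rpow_le_rpow_of_exponent_le (by linarith) (by norm_num)
  have hu_sq : 2 * u ≤ u ^ 2 := by nlinarith
  have hu_4 : 4 ≤ u ^ 2 := by nlinarith
  have hL_u2 : 256 * u ^ 2 ≤ L := by
    rw [← hu10]
    have h1 : (2 : ℝ) ^ 8 ≤ u ^ 8 := pow_le_pow_left₀ (by norm_num) hu2 8
    have h2 : u ^ 10 = u ^ 8 * u ^ 2 := by ring
    rw [h2]
    have h3 : (256 : ℝ) ≤ u ^ 8 := by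
      norm_num at h1
      exact h1
    exact mul_le_mul_of_nonneg_right h3 (by positivity)
  set t : ℝ := L / (2 * k) with ht
  have ht0 : 0 ≤ t := by positivity
  have hexpt : 1 + 8 * L ≤ Real.exp t := by
    have h1 := Real.quadratic_le_exp_of_nonneg ht0
    have h2 : 8 * L ≤ t ^ 2 / 2 := by
      rw [ht, div_pow, mul_pow]
      rw [div_div, le_div_iff₀ (by positivity)]
      nlinarith
    linarith
  set z : ℕ := ⌊Real.exp t⌋₊ with hz
  set w : ℕ := ⌈u ^ 2⌉₊ + 4 with hw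
  have hzle : (z : ℝ) ≤ Real.exp t := Nat.floor_le (Real.exp_pos _).le
  have hzlt : Real.exp t < z + 1 := Nat.lt_floor_add_one _
  have hz8 : 8 * L < (z : ℝ) := by linarith
  have hwub : (w : ℝ) ≤ u ^ 2 + 5 := by
    have h1 := Nat.ceil_lt_add_one (a := u ^ 2) (by positivity)
    rw [hw]
    push_cast
    linarith
  have hwlb : u ^ 2 ≤ (w : ℝ) := by
    have h1 := Nat.le_ceil (u ^ 2)
    rw [hw]
    push_cast
    linarith
  have hwz : w ≤ z := by
    have h1 : (w : ℝ) ≤ z := by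
      have h2 : u ^ 2 + 5 ≤ 8 * L := by linarith
      linarith
    exact_mod_cast h1
  have hz0 : (0 : ℝ) < z := by linarith
  have hlogz : L / (2 * k) ≤ 1 + Real.log z := by
    have h1 : Real.exp t / 2 ≤ z := by linarith
    have h2 : Real.log (Real.exp t / 2) ≤ Real.log z := Real.log_le_log (by positivity) h1
    rw [Real.log_div (Real.exp_pos _).ne' (by norm_num), Real.log_exp] at h2
    have h3 := Real.log_two_lt_d9
    have h4 : L / (2 * k) = t := rfl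
    linarith
  refine ⟨z, w, u, hu1, rfl, hL5, hWu, ?_, ?_, by omega, ?_, ?_⟩
  · have h1 : (2 : ℝ) ≤ z := by linarith
    exact_mod_cast h1
  · have h1 : ((z : ℝ)) ^ k ≤ Real.exp (L / 2) := by
      calc ((z : ℝ)) ^ k ≤ (Real.exp t) ^ k := pow_le_pow_left₀ (Nat.cast_nonneg _) hzle k
        _ = Real.exp (k * t) := by rw [← Real.exp_nat_mul]
        _ = Real.exp (L / 2) := by
            congr 1
            rw [ht]
            field_simp
    have h2 : (q2 : ℝ) ≤ Real.exp (L / 2) := by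
      have hq0 : (0 : ℝ) < q2 := by exact_mod_cast hq2
      rw [← Real.log_le_iff_le_exp hq0]
      have h3 : u ≤ L / 2 := by nlinarith
      linarith
    have h4 : ((z ^ k * q2 : ℕ) : ℝ) ≤ (X : ℝ) := by
      push_cast
      calc (z : ℝ) ^ k * q2 ≤ Real.exp (L / 2) * Real.exp (L / 2) :=
            mul_le_mul h1 h2 (Nat.cast_nonneg _) (Real.exp_pos _).le
        _ = Real.exp L := by
            rw [← Real.exp_add]
            congr 1
            ring
        _ = X := by rw [hL, Real.exp_log hX0]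
    exact_mod_cast h4
  · have h1 : (W4 : ℝ) ≤ w := by linarith
    exact_mod_cast h1
  · intro κ hsq hκ1 hκW
    have hκ0 : (0 : ℝ) < κ.natAbs := by exact_mod_cast hκ1
    have hκ1' : (1 : ℝ) ≤ κ.natAbs := by exact_mod_cast hκ1
    have hlogκ0 : 0 ≤ Real.log κ.natAbs := Real.log_nonneg hκ1'
    have hlogκ : Real.log κ.natAbs ≤ 2 * u := by
      have hW0 : (0 : ℝ) < W4 := by exact_mod_cast hW4
      have hq0 : (0 : ℝ) < q2 := by exact_mod_cast hq2
      have h1 : Real.log κ.natAbs ≤ Real.log (W4 * q2) :=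
        Real.log_le_log hκ0 (by exact_mod_cast hκW)
      rw [Real.log_mul hW0.ne' hq0.ne'] at h1
      have h2 : Real.log W4 ≤ W4 := (Real.log_le_sub_one_of_pos hW0).trans (by linarith)
      linarith
    have h0 := hchi κ hsq w z (by omega) hwz (by linarith)
    set Sg : ℝ := ∑ p ∈ (PP z).filter
      (fun p => w < p ∧ ¬ (p : ℤ) ∣ κ ∧ jacobiSym κ p = -1), 1 / (p : ℝ) with hSg
    have hw0 : (0 : ℝ) < w := by linarith
    have hw1 : (1 : ℝ) ≤ w := by linarith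
    have hlogw0 : 0 ≤ Real.log w := Real.log_nonneg hw1
    set v : ℝ := Real.sqrt u with hv
    have hv2 : v * v = u := Real.mul_self_sqrt hu0.le
    have hv1 : 1 ≤ v := by
      rw [hv]
      exact Real.one_le_sqrt.2 hu1
    have hv0 : 0 < v := by linarith
    -- 1 + log w ≤ 5 v
    have hA : 1 + Real.log w ≤ 5 * v := by
      have h1 : (w : ℝ) ≤ 3 * u ^ 2 := by linarith
      have h2 : Real.log w ≤ Real.log (3 * u ^ 2) := Real.log_le_log hw0 h1
      have h3 : Real.log (3 * u ^ 2) = Real.log 3 + 4 * Real.log v := by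
        rw [Real.log_mul (by norm_num) (by positivity), ← hv2, ← sq, Real.log_pow, Real.log_pow]
        push_cast
        ring
      have h4 : Real.log v ≤ v - 1 := Real.log_le_sub_one_of_pos hv0
      have h5 : Real.log 3 ≤ 3 - 1 := Real.log_le_sub_one_of_pos (by norm_num)
      linarith
    have hB : Real.exp (1 / 2 * LL κ.natAbs) ≤ 2 * v := by
      have h1 : Real.exp (1 / 2 * LL κ.natAbs) ^ 2 ≤ (2 * v) ^ 2 := by
        rw [← Real.exp_nat_mul]
        have h2 : ((2 : ℕ) : ℝ) * (1 / 2 * LL κ.natAbs) = LL κ.natAbs := by push_cast; ring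
        rw [h2]
        unfold LL
        rw [Real.exp_log (by linarith)]
        have h6 : (2 * v) ^ 2 = 4 * u := by rw [← hv2]; ring
        rw [h6]
        linarith
      exact (pow_le_pow_iff_left₀ (by positivity) (by positivity) (by norm_num)).1 h1
    have hC : Real.exp (-(1 / 2 * LL z)) ≤ Real.sqrt (2 * k) / u ^ 5 := by
      have h1 : Real.exp (-(1 / 2 * LL z)) ^ 2 ≤ (Real.sqrt (2 * k) / u ^ 5) ^ 2 := by
        rw [← Real.exp_nat_mul]
        have h2 : ((2 : ℕ) : ℝ) * (-(1 / 2 * LL z)) = - LL z := by push_cast; ring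
        rw [h2]
        unfold LL
        have h3 : (0 : ℝ) < L / (2 * k) := by positivity
        rw [Real.exp_neg, Real.exp_log (by linarith), div_pow, Real.sq_sqrt (by positivity)]
        have h4 : (u ^ 5) ^ 2 = L := by rw [← hu10]; ring
        rw [h4]
        calc (1 + Real.log z)⁻¹ ≤ (L / (2 * k))⁻¹ := inv_anti₀ h3 hlogz
          _ = 2 * k / L := by rw [inv_div]
      exact (pow_le_pow_iff_left₀ (by positivity) (by positivity) (by norm_num)).1 h1
    have hD : Real.exp (LL w) = 1 + Real.log w := by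
      unfold LL
      rw [Real.exp_log (by linarith)]
    calc Real.exp (- Sg) ≤ Real.exp (-(1 / 2 * LL z) + LL w + 1 / 2 * LL κ.natAbs + Cm) := by
          apply Real.exp_le_exp.2
          linarith
      _ = Real.exp (-(1 / 2 * LL z)) * (1 + Real.log w) * Real.exp (1 / 2 * LL κ.natAbs) *
          Real.exp Cm := by
          rw [Real.exp_add, Real.exp_add, Real.exp_add, hD]
      _ ≤ (Real.sqrt (2 * k) / u ^ 5) * (5 * v) * (2 * v) * Real.exp Cm := by
          gcongr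
      _ = Real.sqrt (2 * k) * 10 * (v * v) / u ^ 5 * Real.exp Cm := by ring
      _ = Real.exp Cm * 10 * Real.sqrt (2 * k) / u ^ 4 := by
          rw [hv2]
          field_simp

private lemma D8_harm (X : ℕ) : ∑ x ∈ Finset.Icc 1 X, 1 / (x : ℝ) ≤ 1 + Real.log X := by
  have h1 := harmonic_le_one_add_log X
  have h2 : ((harmonic X : ℚ) : ℝ) = ∑ x ∈ Finset.Icc 1 X, 1 / (x : ℝ) := by
    rw [harmonic_eq_sum_Icc]
    push_cast
    apply Finset.sum_congr rfl
    intro x _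
    rw [one_div]
  rw [← h2]
  exact h1

/-- Row D8. For `d ∈ S` choose `δ δ' = d`, `c`, `κ` as in the failure of `TD2`. For fixed `(δ, c, κ)` the `δ' ≤ X/δ` avoid the
class `0` mod `l` for all primes `w < l ≤ z`, `l ∤ κ`, `(κ/l) = -1`, with `w = ⌈(log X)^(1/5)⌉ ≥ max (W4, log |κ|)`,
`z = ⌊X^(1/(2k))⌋` (`k` from `N44.sieve_ap`, used with `δ = 1`, `M = ⌊X/δ⌋ ≥ X/q2 - 1 ≥ √X`). `N44.chi_minus`:
`∑ 1/l ≥ (1/2) LL z - LL w - (1/2) LL |κ| - C ≥ (1/2) loglog X - (1/20) loglog X - 2 log (1 + loglog X) - C'`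
(`log |κ| ≤ log (W4 q2) ≤ 2 (log X)^(1/10)`). Sum over `δ < q2`, `c ≤ W4`, two signs:
`≤ 2 W4 (1 + log q2) 36 X (log X)^(-0.44) ≤ C X (log X)^(-1/4)`. -/
theorem TD2_count : ∃ C : ℝ, 0 < C ∧ ∃ X₀ : ℕ, ∀ X q2 W4 : ℕ, X₀ ≤ X → 1 ≤ q2 → 1 ≤ W4 →
    Real.log q2 ≤ (Real.log X) ^ (1 / 10 : ℝ) → (W4 : ℝ) ≤ (Real.log X) ^ (1 / 50 : ℝ) →
    ∀ S : Finset ℕ, (∀ d ∈ S, 1 ≤ d ∧ d ≤ X ∧ ¬ TD2 d q2 W4) →
    (S.card : ℝ) ≤ C * X / (Real.log X) ^ (1 / 5 : ℝ) := by
  classical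
  obtain ⟨k, hk, hs⟩ := D8_sieve
  obtain ⟨K, hK, X₀, hX₀2, hest⟩ := D8_est k hk
  refine ⟨72 * K, by positivity, X₀, ?_⟩
  intro X q2 W4 hX hq2 hW4 hlq hlW S hS
  obtain ⟨z, w, u, hu1, hL10, hL5, hWu, hz, hzq, hw, hWw, hexp⟩ :=
    hest X hX q2 W4 hq2 hW4 hlq hlW
  rw [hL10] at hlq
  rw [hL5]
  have hu0 : 0 < u := by linarith
  set I : Finset (ℕ × (ℕ × ℤ)) :=
    (Finset.Icc 1 q2) ×ˢ ((Finset.Icc 1 W4) ×ˢ ({1, -1} : Finset ℤ)) with hI
  set F : ℕ × (ℕ × ℤ) → Finset ℕ := fun i => S.filter (fun d => ∃ δ' : ℕ, i.1 * δ' = d ∧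
      ¬ IsSquare (i.2.2 * ((i.2.1 : ℤ) * i.1)) ∧ ∀ l : ℕ, l.Prime → l ∣ δ' → W4 < l →
        jacobiSym (i.2.2 * ((i.2.1 : ℤ) * i.1)) l ≠ -1) with hF
  have hsub : S ⊆ I.biUnion F := by
    intro d hd
    obtain ⟨hd1, hdX, h1⟩ := hS d hd
    unfold TD2 at h1
    push Not at h1
    obtain ⟨δ, δ', c, hdd, hδ, hc1, hcW, κ, hκ, hsq, hno⟩ := h1
    have hδ0 : 1 ≤ δ := by
      rcases Nat.eq_zero_or_pos δ with h | h
      · rw [h, zero_mul] at hdd
        omega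
      · exact h
    rw [Finset.mem_biUnion]
    rcases hκ with hκ | hκ
    · refine ⟨(δ, (c, 1)), ?_, ?_⟩
      · rw [hI, Finset.mem_product, Finset.mem_product]
        refine ⟨Finset.mem_Icc.2 ⟨hδ0, hδ.le⟩, Finset.mem_Icc.2 ⟨hc1, hcW⟩, ?_⟩
        simp
      · rw [hF, Finset.mem_filter]
        refine ⟨hd, δ', hdd, ?_, ?_⟩
        · rw [one_mul, ← hκ]
          exact hsq
        · intro l hl hld hWl
          rw [one_mul, ← hκ]
          exact hno l hl hld hWl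
    · refine ⟨(δ, (c, -1)), ?_, ?_⟩
      · rw [hI, Finset.mem_product, Finset.mem_product]
        refine ⟨Finset.mem_Icc.2 ⟨hδ0, hδ.le⟩, Finset.mem_Icc.2 ⟨hc1, hcW⟩, ?_⟩
        simp
      · rw [hF, Finset.mem_filter]
        refine ⟨hd, δ', hdd, ?_, ?_⟩
        · rw [neg_one_mul, ← hκ]
          exact hsq
        · intro l hl hld hWl
          rw [neg_one_mul, ← hκ]
          exact hno l hl hld hWl
  have hone : ∀ i ∈ I, ((F i).card : ℝ) ≤ 18 * K / u ^ 4 * X * (1 / (i.1 : ℝ)) := by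
    rintro ⟨δ, c, σ⟩ hi
    rw [hI, Finset.mem_product, Finset.mem_product, Finset.mem_Icc, Finset.mem_Icc,
      Finset.mem_insert, Finset.mem_singleton] at hi
    obtain ⟨⟨hδ1, hδq⟩, ⟨hc1, hcW⟩, hσ⟩ := hi
    simp only at hδ1 hδq hc1 hcW hσ ⊢
    have hδ0 : (0 : ℝ) < δ := by exact_mod_cast hδ1
    by_cases hsq : IsSquare (σ * ((c : ℤ) * δ))
    · have hempty : F (δ, (c, σ)) = ∅ := by
        rw [hF]
        apply Finset.filter_eq_empty_iff.2
        rintro d _ ⟨δ', _, h2, _⟩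
        exact h2 hsq
      rw [hempty, Finset.card_empty, Nat.cast_zero]
      positivity
    · have hκabs : (σ * ((c : ℤ) * δ)).natAbs = c * δ := by
        rcases hσ with h | h
        · rw [h, one_mul]
          exact_mod_cast Int.natAbs_natCast (c * δ)
        · rw [h, neg_one_mul, Int.natAbs_neg]
          exact_mod_cast Int.natAbs_natCast (c * δ)
      have hκ1 : 1 ≤ (σ * ((c : ℤ) * δ)).natAbs := by
        rw [hκabs]
        exact Nat.mul_pos hc1 hδ1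
      have hκW : (σ * ((c : ℤ) * δ)).natAbs ≤ W4 * q2 := by
        rw [hκabs]
        exact Nat.mul_le_mul hcW hδq
      have h1 := hexp _ hsq hκ1 hκW
      have hM : z ^ k ≤ X / δ := by
        rw [Nat.le_div_iff_mul_le hδ1]
        exact (Nat.mul_le_mul_left _ hδq).trans hzq
      set T : Finset ℕ := (Finset.Icc 1 (X / δ)).filter (fun n => ∀ l : ℕ, l.Prime → l ∣ n →
        W4 < l → jacobiSym (σ * ((c : ℤ) * δ)) l ≠ -1) with hT
      have h2 := hs (X / δ) z w W4 (σ * ((c : ℤ) * δ)) hz hM hw hWw T (by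
        intro n hn
        rw [hT, Finset.mem_filter, Finset.mem_Icc] at hn
        exact ⟨hn.1.1, hn.1.2, hn.2⟩)
      have h3 : F (δ, (c, σ)) ⊆ T.image (fun n => δ * n) := by
        intro d hd
        rw [hF, Finset.mem_filter] at hd
        obtain ⟨hdS, δ', hdd, _, h5⟩ := hd
        simp only at hdd h5
        obtain ⟨hd1, hdX, _⟩ := hS d hdS
        rw [Finset.mem_image]
        refine ⟨δ', ?_, hdd⟩
        rw [hT, Finset.mem_filter, Finset.mem_Icc]
        refine ⟨⟨?_, ?_⟩, h5⟩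
        · rcases Nat.eq_zero_or_pos δ' with h | h
          · rw [h, mul_zero] at hdd
            omega
          · exact h
        · rw [Nat.le_div_iff_mul_le hδ1, mul_comm]
          omega
      have h4 : ((F (δ, (c, σ))).card : ℝ) ≤ (T.card : ℝ) := by
        exact_mod_cast (Finset.card_le_card h3).trans Finset.card_image_le
      have h5 : ((X / δ : ℕ) : ℝ) ≤ X * (1 / (δ : ℝ)) := by
        rw [mul_one_div]
        exact Nat.cast_div_le
      calc ((F (δ, (c, σ))).card : ℝ) ≤ (T.card : ℝ) := h4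
        _ ≤ _ := h2
        _ ≤ 18 * (X * (1 / (δ : ℝ))) * (K / u ^ 4) := by
            apply mul_le_mul (by linarith) h1 (Real.exp_pos _).le (by positivity)
        _ = _ := by ring
  have hIc : ((((Finset.Icc 1 W4) ×ˢ ({1, -1} : Finset ℤ)).card : ℕ) : ℝ) = 2 * W4 := by
    rw [Finset.card_product, Nat.card_Icc, Finset.card_pair (by norm_num)]
    rw [Nat.add_sub_cancel]
    push_cast
    ring
  have hharm := D8_harm q2
  calc (S.card : ℝ) ≤ ∑ i ∈ I, ((F i).card : ℝ) := by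
        exact_mod_cast (Finset.card_le_card hsub).trans Finset.card_biUnion_le
    _ ≤ ∑ i ∈ I, 18 * K / u ^ 4 * X * (1 / (i.1 : ℝ)) := Finset.sum_le_sum hone
    _ = ∑ δ ∈ Finset.Icc 1 q2, (2 * W4) * (18 * K / u ^ 4 * X * (1 / (δ : ℝ))) := by
        rw [hI, Finset.sum_product]
        apply Finset.sum_congr rfl
        intro δ _
        simp only
        rw [Finset.sum_const, nsmul_eq_mul, hIc]
    _ = 36 * K / u ^ 4 * X * W4 * ∑ δ ∈ Finset.Icc 1 q2, (1 / (δ : ℝ)) := by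
        rw [Finset.mul_sum]
        apply Finset.sum_congr rfl
        intro δ _
        ring
    _ ≤ 36 * K / u ^ 4 * X * u * (2 * u) := by
        have h6 : ∑ δ ∈ Finset.Icc 1 q2, (1 / (δ : ℝ)) ≤ 2 * u := by linarith
        have h7 : 0 ≤ ∑ δ ∈ Finset.Icc 1 q2, (1 / (δ : ℝ)) :=
          Finset.sum_nonneg (fun x _ => by positivity)
        apply mul_le_mul _ h6 h7 (by positivity)
        exact mul_le_mul_of_nonneg_left hWu (by positivity)
    _ = 72 * K * X / u ^ 2 := by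
        field_simp
        ring

end N78
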