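import Pool.Agent.LibN78.D7

namespace N78

open TwHL

private theorem D9_z (k : ℕ) (hk : 1 ≤ k) : ∃ H₀ : ℕ, 3 ≤ H₀ ∧ ∀ H w : ℕ, H₀ ≤ H →
    (w : ℝ) ≤ 2 * Real.log H + 4 →
    ∃ z : ℕ, 2 ≤ z ∧ w ≤ z ∧ z ^ k ≤ H ∧ LL H - Real.log (2 * k) ≤ LL z := by
  have hkR : (0 : ℝ) < k := by exact_mod_cast hk
  have hk1 : (1 : ℝ) ≤ k := by exact_mod_cast hk
  have hr : (0 : ℝ) < 1 / (2 * (k : ℝ)) := by positivity
  have h1 := (isLittleO_log_rpow_atTop hr).bound (show (0 : ℝ) < 1 / 4 by norm_num)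
  have h2 := (tendsto_rpow_atTop hr).eventually_ge_atTop 8
  have h3 : ∀ᶠ x : ℝ in Filter.atTop, 2 * Real.log x + 4 ≤ x ^ (1 / (2 * (k : ℝ))) ∧
      8 ≤ x ^ (1 / (2 * (k : ℝ))) ∧ 1 ≤ x := by
    filter_upwards [h1, h2, Filter.eventually_ge_atTop 1] with x hx1 hx2 hx3
    refine ⟨?_, hx2, hx3⟩
    rw [Real.norm_eq_abs, Real.norm_eq_abs, abs_of_nonneg (Real.rpow_nonneg (by linarith) _)] at hx1
    have := le_abs_self (Real.log x)
    linarith
  obtain ⟨x0, hx0⟩ := Filter.eventually_atTop.mp h3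
  refine ⟨⌈x0⌉₊ + 3, by omega, fun H w hH hw => ?_⟩
  have hHx : x0 ≤ (H : ℝ) :=
    le_trans (Nat.le_ceil x0) (by exact_mod_cast (by omega : ⌈x0⌉₊ ≤ H))
  obtain ⟨g1, g2, g3⟩ := hx0 H hHx
  set y : ℝ := (H : ℝ) ^ (1 / (2 * (k : ℝ))) with hy
  have hH0 : (0 : ℝ) < H := by linarith
  have hy2 : (H : ℝ) ^ (1 / (k : ℝ)) = y ^ 2 := by
    rw [hy, ← Real.rpow_natCast, ← Real.rpow_mul hH0.le]
    congr 1
    push_cast
    field_simp
  have hyk : (y ^ 2) ^ k = H := by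
    rw [← hy2, ← Real.rpow_natCast, ← Real.rpow_mul hH0.le, one_div,
      inv_mul_cancel₀ hkR.ne', Real.rpow_one]
  have hy0 : (0 : ℝ) < y := by linarith
  have hfl : y ≤ (⌊y ^ 2⌋₊ : ℝ) := by
    have := Nat.lt_floor_add_one (y ^ 2)
    nlinarith
  refine ⟨⌊y ^ 2⌋₊, ?_, ?_, ?_, ?_⟩
  · have : (2 : ℝ) ≤ (⌊y ^ 2⌋₊ : ℝ) := by linarith
    exact_mod_cast this
  · have : (w : ℝ) ≤ (⌊y ^ 2⌋₊ : ℝ) := by linarith
    exact_mod_cast this
  · have h4 : ((⌊y ^ 2⌋₊ : ℝ)) ^ k ≤ (y ^ 2) ^ k :=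
      pow_le_pow_left₀ (Nat.cast_nonneg _) (Nat.floor_le (by positivity)) k
    rw [hyk] at h4
    exact_mod_cast h4
  · have hlogH : 0 ≤ Real.log H := Real.log_nonneg g3
    have hlogy : Real.log y = Real.log H / (2 * k) := by
      rw [hy, Real.log_rpow hH0]
      ring
    have h5 : Real.log y ≤ Real.log (⌊y ^ 2⌋₊ : ℝ) := Real.log_le_log hy0 hfl
    have h6 : (1 + Real.log H) / (2 * k) ≤ 1 + Real.log (⌊y ^ 2⌋₊ : ℝ) := by
      rw [hlogy] at h5
      have h7 : (1 : ℝ) / (2 * k) ≤ 1 := by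
        rw [div_le_one (by positivity)]
        linarith
      rw [add_div]
      linarith
    unfold LL
    rw [← Real.log_div (by positivity) (by positivity)]
    exact Real.log_le_log (by positivity) h6

/-- Row D9. For fixed nonsquare `c ≤ W4` the `d ≤ X` avoid the class `0` mod `l` for the primes `w < l ≤ z` of
`sum_both_minus`, `w = ⌈(log X)^(1/50)⌉ ≥ W4`, `z = ⌊X^(1/k)⌋`: `N44.sieve_ap` (`δ = 1`): `≤ 18 X exp (-(1/5) LL z + LL w + LL c + C)
≤ C X (log X)^(-0.19)`. Sum over `c ≤ W4 ≤ (log X)^(1/50)`. -/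
theorem TD3_count : ∃ C : ℝ, 0 < C ∧ ∃ X₀ : ℕ, ∀ X W4 : ℕ, X₀ ≤ X → 1 ≤ W4 →
    (W4 : ℝ) ≤ (Real.log X) ^ (1 / 50 : ℝ) →
    ∀ S : Finset ℕ, (∀ d ∈ S, 1 ≤ d ∧ d ≤ X ∧ ¬ TD3 d W4) →
    (S.card : ℝ) ≤ C * X / (Real.log X) ^ (1 / 10 : ℝ) := by
  classical
  obtain ⟨k, hk, hsieve⟩ := N44.sieve_ap
  obtain ⟨C1, hC1, hchi⟩ := sum_both_minus
  obtain ⟨X₀, hX₀, hz⟩ := D9_z k hk
  have hk1 : (1 : ℝ) ≤ k := by exact_mod_cast hk
  refine ⟨450 * Real.exp (1 / 5 * Real.log (2 * k) + C1), by positivity, X₀, ?_⟩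
  intro X W4 hX hW4 hWX S hS
  have hX3 : 3 ≤ X := le_trans hX₀ hX
  have hX3R : (3 : ℝ) ≤ X := by exact_mod_cast hX3
  have hX0R : (0 : ℝ) < X := by linarith
  have hL1 : 1 ≤ Real.log X := by
    rw [Real.le_log_iff_exp_le hX0R]
    linarith [Real.exp_one_lt_d9]
  set y : ℝ := (Real.log X) ^ (1 / 50 : ℝ) with hy
  have hy1 : 1 ≤ y := Real.one_le_rpow hL1 (by norm_num)
  have hyL : y ≤ Real.log X := by
    calc y ≤ (Real.log X) ^ (1 : ℝ) := Real.rpow_le_rpow_of_exponent_le hL1 (by norm_num)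
      _ = Real.log X := Real.rpow_one _
  obtain ⟨w, hw⟩ : ∃ w : ℕ, w = ⌈y⌉₊ + 3 := ⟨_, rfl⟩
  have hwl : (w : ℝ) ≤ y + 4 := by
    have h1 := Nat.ceil_lt_add_one (by linarith : 0 ≤ y)
    rw [hw]
    push_cast
    linarith
  have hwW : W4 ≤ w := by
    have h1 : (W4 : ℝ) ≤ (⌈y⌉₊ : ℝ) := hWX.trans (Nat.le_ceil y)
    have h2 : W4 ≤ ⌈y⌉₊ := by exact_mod_cast h1
    omega
  obtain ⟨z, hz2, hwz, hzk, hLL⟩ := hz X w hX (by linarith)
  have hw3 : 3 ≤ w := by omega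
  have hw3R : (3 : ℝ) ≤ w := by exact_mod_cast hw3
  have hlw : 1 + Real.log w ≤ w := by
    have := Real.log_le_sub_one_of_pos (show (0 : ℝ) < w by linarith)
    linarith
  have hlw0 : 0 ≤ Real.log w := Real.log_nonneg (by linarith)
  -- one c
  have hone : ∀ c : ℕ, 1 ≤ c → c ≤ W4 → ¬ IsSquare (c : ℤ) →
      ((S.filter (fun d => ∀ l : ℕ, l.Prime → l ∣ d → W4 < l → jacobiSym (c : ℤ) l = -1 →
        jacobiSym (-(c : ℤ)) l ≠ -1)).card : ℝ) ≤
      18 * X * (Real.exp (1 / 5 * Real.log (2 * k) + C1) * ((Real.log X) ^ (-(1 / 5) : ℝ) *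
        (25 * y ^ 2))) := by
    intro c hc1 hcW hcs
    have hc1R : (1 : ℝ) ≤ c := by exact_mod_cast hc1
    have hcw : (c : ℝ) ≤ w := by exact_mod_cast hcW.trans hwW
    have hlc : Real.log c ≤ Real.log w := Real.log_le_log (by linarith) hcw
    have hlc0 : 0 ≤ Real.log c := Real.log_nonneg hc1R
    have hsum := hchi c hcs hc1 w z (by omega) hwz (by linarith)
    set Q : Finset ℕ := (PP z).filter (fun p => w < p ∧ ¬ p ∣ c ∧ jacobiSym (c : ℤ) p = -1 ∧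
        jacobiSym (-(c : ℤ)) p = -1) with hQ
    have hQp : ∀ p ∈ Q, p.Prime ∧ 4 ≤ p ∧ p ≤ z ∧ ¬ p ∣ 1 ∧ (({0} : Finset ℕ)).card ≤ 2 ∧
        ∀ h ∈ ({0} : Finset ℕ), h < p := by
      intro p hp
      rw [hQ, Finset.mem_filter, PP, Finset.mem_filter, Finset.mem_Icc] at hp
      obtain ⟨⟨⟨hp1, hp2⟩, hp3⟩, hp4, hp5, hp6⟩ := hp
      refine ⟨hp3, by omega, hp2, ?_, by simp, ?_⟩
      · intro h1
        exact hp3.one_lt.ne' (Nat.dvd_one.mp h1)
      · intro h hh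
        rw [Finset.mem_singleton] at hh
        omega
    obtain ⟨T, hT⟩ : ∃ T, T = S.filter (fun d => ∀ l : ℕ, l.Prime → l ∣ d → W4 < l →
        jacobiSym (c : ℤ) l = -1 → jacobiSym (-(c : ℤ)) l ≠ -1) := ⟨_, rfl⟩
    rw [← hT]
    have hcardT : T.card = (T.image (fun d : ℕ => (d : ℤ))).card :=
      (Finset.card_image_of_injective _ Nat.cast_injective).symm
    have hmain := hsieve X z 1 1 0 Q (fun _ => {0}) hz2 hzk one_pos hQp
      (T.image (fun d : ℕ => (d : ℤ))) (by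
        intro n hn
        rw [Finset.mem_image] at hn
        obtain ⟨d, hd, rfl⟩ := hn
        rw [hT, Finset.mem_filter] at hd
        obtain ⟨hdS, hdl⟩ := hd
        obtain ⟨hd1, hd2, -⟩ := hS d hdS
        refine ⟨by exact_mod_cast hd1, ?_, ?_, ?_⟩
        · have h2 : (d : ℤ) ≤ X := by exact_mod_cast hd2
          push_cast
          linarith
        · rw [Nat.cast_one]
          exact Int.modEq_one
        · intro p hpQ h hh
          rw [Finset.mem_singleton] at hh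
          subst hh
          intro hmod
          rw [hQ, Finset.mem_filter, PP, Finset.mem_filter] at hpQ
          obtain ⟨⟨-, hp3⟩, hp4, hp5, hp6, hp7⟩ := hpQ
          rw [Nat.cast_zero] at hmod
          have h1 : (p : ℤ) ∣ (d : ℤ) := Int.modEq_zero_iff_dvd.mp hmod
          have h2 : p ∣ d := by exact_mod_cast h1
          exact hdl p hp3 h2 (by omega) hp6 hp7)
    rw [← hcardT] at hmain
    have hmain' : (T.card : ℝ) ≤ 18 * X * Real.exp (- ∑ p ∈ Q, 1 / (p : ℝ)) := by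
      simpa using hmain
    refine hmain'.trans ?_
    apply mul_le_mul_of_nonneg_left _ (by positivity)
    have h1 : Real.exp (- ∑ p ∈ Q, 1 / (p : ℝ)) ≤
        Real.exp (1 / 5 * Real.log (2 * k) + C1) * (Real.exp (-(1 / 5) * LL X) *
          (Real.exp (LL w) * Real.exp (1 / 2 * LL c))) := by
      rw [← Real.exp_add, ← Real.exp_add, ← Real.exp_add]
      apply Real.exp_le_exp.mpr
      linarith
    refine h1.trans ?_
    apply mul_le_mul_of_nonneg_left _ (by positivity)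
    have h2 : Real.exp (-(1 / 5) * LL X) ≤ (Real.log X) ^ (-(1 / 5) : ℝ) := by
      unfold LL
      rw [mul_comm, ← Real.rpow_def_of_pos (by linarith)]
      exact Real.rpow_le_rpow_of_nonpos (by linarith) (by linarith) (by norm_num)
    have h3 : Real.exp (LL w) ≤ 5 * y := by
      unfold LL
      rw [Real.exp_log (by linarith)]
      linarith
    have h4 : Real.exp (1 / 2 * LL c) ≤ 5 * y := by
      have h5 : Real.exp (1 / 2 * LL c) ≤ Real.exp (LL c) := by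
        apply Real.exp_le_exp.mpr
        have : 0 ≤ LL c := Real.log_nonneg (by linarith)
        linarith
      refine h5.trans ?_
      unfold LL
      rw [Real.exp_log (by linarith)]
      linarith
    calc Real.exp (-(1 / 5) * LL X) * (Real.exp (LL w) * Real.exp (1 / 2 * LL c))
        ≤ (Real.log X) ^ (-(1 / 5) : ℝ) * ((5 * y) * (5 * y)) := by
          apply mul_le_mul h2 _ (by positivity) (by positivity)
          exact mul_le_mul h3 h4 (by positivity) (by positivity)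
      _ = _ := by ring
  -- union
  have hsub : S ⊆ ((Finset.Icc 1 W4).filter (fun c : ℕ => ¬ IsSquare (c : ℤ))).biUnion
      (fun c => S.filter (fun d => ∀ l : ℕ, l.Prime → l ∣ d → W4 < l → jacobiSym (c : ℤ) l = -1 →
        jacobiSym (-(c : ℤ)) l ≠ -1)) := by
    intro d hd
    obtain ⟨-, -, hnT⟩ := hS d hd
    unfold TD3 at hnT
    push Not at hnT
    obtain ⟨c, hc1, hc2, hc3, hc4⟩ := hnT
    rw [Finset.mem_biUnion]
    refine ⟨c, ?_, ?_⟩
    · rw [Finset.mem_filter, Finset.mem_Icc]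
      exact ⟨⟨hc1, hc2⟩, hc3⟩
    · rw [Finset.mem_filter]
      exact ⟨hd, fun l h1 h2 h3 h4 => hc4 l h1 h2 h3 h4⟩
  have hcard : (S.card : ℝ) ≤ ∑ c ∈ (Finset.Icc 1 W4).filter (fun c : ℕ => ¬ IsSquare (c : ℤ)),
      ((S.filter (fun d => ∀ l : ℕ, l.Prime → l ∣ d → W4 < l → jacobiSym (c : ℤ) l = -1 →
        jacobiSym (-(c : ℤ)) l ≠ -1)).card : ℝ) := by
    have h1 := (Finset.card_le_card hsub).trans Finset.card_biUnion_le
    exact_mod_cast h1
  obtain ⟨B, hB⟩ : ∃ B : ℝ, B = 18 * X * (Real.exp (1 / 5 * Real.log (2 * k) + C1) *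
    ((Real.log X) ^ (-(1 / 5) : ℝ) * (25 * y ^ 2))) := ⟨_, rfl⟩
  have hB0 : 0 ≤ B := by rw [hB]; positivity
  have h5 : (S.card : ℝ) ≤ W4 * B := by
    refine hcard.trans ?_
    refine (Finset.sum_le_card_nsmul _ _ B ?_).trans ?_
    · intro c hc
      rw [Finset.mem_filter, Finset.mem_Icc] at hc
      rw [hB]
      exact hone c hc.1.1 hc.1.2 hc.2
    · rw [nsmul_eq_mul]
      apply mul_le_mul_of_nonneg_right _ hB0
      have h6 : ((Finset.Icc 1 W4).filter (fun c : ℕ => ¬ IsSquare (c : ℤ))).card ≤ W4 := by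
        refine (Finset.card_filter_le _ _).trans ?_
        rw [Nat.card_Icc]
        omega
      exact_mod_cast h6
  have h7 : (W4 : ℝ) * B ≤ y * B := mul_le_mul_of_nonneg_right hWX hB0
  have h8 : y * B = 450 * Real.exp (1 / 5 * Real.log (2 * k) + C1) * X *
      ((Real.log X) ^ (-(1 / 5) : ℝ) * y ^ 3) := by
    rw [hB]; ring
  have h9 : (Real.log X) ^ (-(1 / 5) : ℝ) * y ^ 3 ≤ ((Real.log X) ^ (1 / 10 : ℝ))⁻¹ := by
    have hL0 : 0 < Real.log X := by linarith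
    have h10 : y ^ 3 = (Real.log X) ^ (3 / 50 : ℝ) := by
      rw [hy, ← Real.rpow_natCast, ← Real.rpow_mul hL0.le]
      norm_num
    rw [h10, ← Real.rpow_add hL0, ← Real.rpow_neg hL0.le]
    exact Real.rpow_le_rpow_of_exponent_le hL1 (by norm_num)
  calc (S.card : ℝ) ≤ y * B := h5.trans h7
    _ = 450 * Real.exp (1 / 5 * Real.log (2 * k) + C1) * X *
      ((Real.log X) ^ (-(1 / 5) : ℝ) * y ^ 3) := h8
    _ ≤ 450 * Real.exp (1 / 5 * Real.log (2 * k) + C1) * X * ((Real.log X) ^ (1 / 10 : ℝ))⁻¹ :=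
        mul_le_mul_of_nonneg_left h9 (by positivity)
    _ = _ := (div_eq_mul_inv _ _).symm

end N78
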