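import Pool.Agent.LibN78.B7

namespace N78

/-- all parameters of the proof -/
def Params (H J W : ℕ) (P : Finset ℕ) : Prop :=
  3 ≤ H ∧ 0 < J ∧ 2 ≤ W ∧ (W : ℝ) ≤ (Real.log H) ^ (1 / 1000 : ℝ) ∧
  (Real.log H) ^ (1 / 1000 : ℝ) ≤ 2 * W ∧ 3 * W ^ 2 ≤ H ∧
  (∀ p ∈ P, p.Prime ∧ p % 4 = 3 ∧ 100 ≤ p ∧ 16 * W ^ 4 < p ∧
    (Real.log H) ^ (1 / 200 : ℝ) ≤ p ∧ p ^ 2 - 1 ∣ J) ∧
  Real.log J ≤ P.card / 1000 ∧ (Real.log H) ^ (1 / 200 : ℝ) ≤ P.card ∧
  Real.log (∏ p ∈ P, (p : ℝ)) ≤ (Real.log H) ^ (1 / 20 : ℝ)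

private theorem E1_tend {c : ℝ} (hc : 0 < c) :
    Filter.Tendsto (fun H : ℕ => (Real.log H) ^ c) Filter.atTop Filter.atTop :=
  (tendsto_rpow_atTop hc).comp (Real.tendsto_log_atTop.comp tendsto_natCast_atTop_atTop)

private theorem E1_half : (3 / 5 : ℝ) ≤ Real.exp (-(1 / 2)) := by
  by_contra h
  push Not at h
  have h1 : Real.exp (-(1 / 2)) * Real.exp (-(1 / 2)) = Real.exp (-1) := by
    rw [← Real.exp_add]
    norm_num
  have h2 := Real.exp_neg_one_gt_d9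
  have h3 : 0 < Real.exp (-(1 / 2)) := Real.exp_pos _
  nlinarith

private theorem E1_pow {a c : ℝ} (ha : 0 ≤ a) (h : a ≤ Real.exp (-c)) (n : ℕ) :
    a ^ n ≤ Real.exp (-(c * n)) := by
  have h1 : Real.exp (-(c * n)) = Real.exp (-c) ^ n := by
    rw [← Real.exp_nat_mul]
    congr 1
    ring
  rw [h1]
  exact pow_le_pow_left₀ ha h n

private theorem E1_sub (x : ℝ) : 1 - x ≤ Real.exp (-x) := by
  have := Real.add_one_le_exp (-x)
  linarith

/-- Row E1. `exists_JP 1000`, `W = ⌊(log H)^(1/1000)⌋`; `16 W^4 ≤ 16 (log H)^(1/250) < (log H)^(1/200)` and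
`100 ≤ (log H)^(1/200)` for large `H`. -/
theorem exists_params : ∃ H₀ : ℕ, ∀ H : ℕ, H₀ ≤ H → ∃ (J W : ℕ) (P : Finset ℕ), Params H J W P := by
  obtain ⟨H₁, hH₁⟩ := exists_JP 1000 (by norm_num)
  obtain ⟨H₂, hH₂⟩ := Filter.eventually_atTop.1
    ((E1_tend (by norm_num : (0 : ℝ) < 1 / 1000)).eventually_ge_atTop 17)
  refine ⟨max 3 (max H₁ H₂), fun H hH => ?_⟩
  have h3 : 3 ≤ H := (le_max_left _ _).trans hH
  have h1 : H₁ ≤ H := ((le_max_left _ _).trans (le_max_right _ _)).trans hH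
  have h2 : H₂ ≤ H := ((le_max_right _ _).trans (le_max_right _ _)).trans hH
  obtain ⟨J, P, hJ, hP, hlJ, hcP, hprod⟩ := hH₁ H h1
  have hu17 := hH₂ H h2
  have hL0 : 0 ≤ Real.log H := Real.log_natCast_nonneg H
  set L : ℝ := Real.log H with hL
  set u : ℝ := L ^ (1 / 1000 : ℝ) with hu
  have hu5 : L ^ (1 / 200 : ℝ) = u ^ 5 := by
    rw [hu, ← Real.rpow_natCast, ← Real.rpow_mul hL0]
    norm_num
  have hu1000 : L = u ^ 1000 := by
    rw [hu, ← Real.rpow_natCast, ← Real.rpow_mul hL0]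
    norm_num
  have hu1 : (1 : ℝ) ≤ u := by linarith
  have huL : u ≤ L := by
    rw [hu1000]
    exact le_self_pow₀ hu1 (by norm_num)
  have hu2L : u ^ 2 ≤ L := by
    rw [hu1000]
    exact pow_le_pow_right₀ hu1 (by norm_num)
  have hu0 : (0 : ℝ) ≤ u := by linarith
  have hWle : ((⌊u⌋₊ : ℕ) : ℝ) ≤ u := Nat.floor_le hu0
  have hW2 : 2 ≤ ⌊u⌋₊ := Nat.le_floor (by push_cast; linarith)
  have hW2' : (2 : ℝ) ≤ ((⌊u⌋₊ : ℕ) : ℝ) := by exact_mod_cast hW2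
  have hWlt : u < ((⌊u⌋₊ : ℕ) : ℝ) + 1 := Nat.lt_floor_add_one u
  have hexp : Real.exp L = H := by
    rw [hL]
    exact Real.exp_log (by exact_mod_cast (by omega : 0 < H))
  refine ⟨J, ⌊u⌋₊, P, h3, hJ, hW2, hWle, by linarith, ?_, ?_, ?_, hcP, hprod⟩
  · have h4 : (3 : ℝ) * ((⌊u⌋₊ : ℕ) : ℝ) ^ 2 ≤ H := by
      have h5 : ((⌊u⌋₊ : ℕ) : ℝ) ^ 2 ≤ u ^ 2 := pow_le_pow_left₀ (by positivity) hWle 2
      have h6 := Real.quadratic_le_exp_of_nonneg hL0
      rw [hexp] at h6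
      nlinarith
    exact_mod_cast h4
  · intro p hp
    obtain ⟨p1, p2, p3, p4⟩ := hP p hp
    rw [hu5] at p3
    have h5 : (17 : ℝ) ^ 4 ≤ u ^ 4 := pow_le_pow_left₀ (by norm_num) hu17 4
    have h6 : 17 * u ^ 4 ≤ u ^ 5 := by
      have : u ^ 5 = u * u ^ 4 := by ring
      rw [this]
      exact mul_le_mul_of_nonneg_right hu17 (by positivity)
    refine ⟨p1, p2, ?_, ?_, ?_, p4⟩
    · have h7 : (100 : ℝ) ≤ p := by
        have : (100 : ℝ) ≤ 17 * 17 ^ 4 := by norm_num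
        linarith
      exact_mod_cast h7
    · have h7 : ((⌊u⌋₊ : ℕ) : ℝ) ^ 4 ≤ u ^ 4 := pow_le_pow_left₀ (by positivity) hWle 4
      have h8 : (16 : ℝ) * ((⌊u⌋₊ : ℕ) : ℝ) ^ 4 < p := by
        have h9 : (0 : ℝ) < u ^ 4 := by positivity
        linarith
      exact_mod_cast h8
    · rw [hu5]
      exact p3
  · exact hlJ

/-- Row E1b. Savings. `n = #P ≥ (log H)^(1/200)`. (i) `J (3/5)^K ≤ exp (n/1000 - n/20 * 0.51)`; (ii), (iii) clear;
(iv) `(p+1)/(2p) ≤ 101/200 ≤ 3/5` for `p ≥ 100`, `#P' ≥ (99/100) n`; (v) `∏ p ≥ 100^n`. All are at most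
`exp (-n/100) ≤ (log H)^(-5)` for `H ≥ H₀` (`exp(-x/100) ≤ x^(-1000)` for large `x`). -/
theorem savings : ∃ H₀ : ℕ, ∀ H : ℕ, H₀ ≤ H → ∀ (J W : ℕ) (P : Finset ℕ), Params H J W P →
    (∀ K : ℕ, P.card ≤ 20 * K → (J : ℝ) * (3 / 5) ^ K ≤ 1 / Real.log H ^ 5) ∧
    (19 / 20 : ℝ) ^ P.card ≤ 1 / Real.log H ^ 5 ∧ (123 / 125 : ℝ) ^ P.card ≤ 1 / Real.log H ^ 5 ∧
    (∀ P' ⊆ P, 99 * P.card ≤ 100 * P'.card →
      (J : ℝ) * ∏ p ∈ P', (((p : ℝ) + 1) / (2 * p)) ≤ 1 / Real.log H ^ 5) ∧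
    1 / ((∏ p ∈ P, p : ℕ) : ℝ) ≤ 1 / Real.log H ^ 5 := by
  -- `v ≥ 10^5 log v` for large `v`
  have hlit : ∀ᶠ v : ℝ in Filter.atTop, 100000 * Real.log v ≤ v := by
    have h1 := Real.isLittleO_log_id_atTop.def (c := 1 / 100000) (by norm_num)
    filter_upwards [h1, Filter.eventually_ge_atTop 1] with v hv hv1
    rw [id, Real.norm_eq_abs, Real.norm_eq_abs, abs_of_nonneg (Real.log_nonneg hv1),
      abs_of_nonneg (by linarith)] at hv
    linarith
  obtain ⟨H₁, hH₁⟩ := Filter.eventually_atTop.1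
    ((E1_tend (by norm_num : (0 : ℝ) < 1 / 200)).eventually (hlit.and
      (Filter.eventually_ge_atTop 1)))
  refine ⟨max 3 H₁, fun H hH J W P hP => ?_⟩
  obtain ⟨hv, hv1⟩ := hH₁ H ((le_max_right _ _).trans hH)
  obtain ⟨-, hJ, -, -, -, -, hPp, hlJ, hcP, -⟩ := hP
  have hL0 : 0 ≤ Real.log H := Real.log_natCast_nonneg H
  set L : ℝ := Real.log H with hL
  set n : ℕ := P.card with hn
  have hLpos : 0 < L := by
    rcases hL0.lt_or_eq with h | h
    · exact h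
    · exfalso
      rw [← h, Real.zero_rpow (by norm_num)] at hv1
      norm_num at hv1
  -- the main estimate
  have hmain : Real.exp (-(1 / 100 * n)) ≤ 1 / L ^ 5 := by
    have h1 : Real.log (L ^ (1 / 200 : ℝ)) = 1 / 200 * Real.log L := Real.log_rpow hLpos _
    rw [h1] at hv
    have h2 : 5 * Real.log L ≤ 1 / 100 * n := by linarith
    have h3 : 1 / L ^ 5 = Real.exp (-(5 * Real.log L)) := by
      rw [Real.exp_neg, one_div]
      congr 1
      rw [show (5 : ℝ) * Real.log L = ((5 : ℕ) : ℝ) * Real.log L by norm_num, Real.exp_nat_mul,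
        Real.exp_log hLpos]
    rw [h3]
    exact Real.exp_le_exp.2 (by linarith)
  have hJe : (J : ℝ) ≤ Real.exp (n / 1000) := by
    have hJ' : (0 : ℝ) < J := by exact_mod_cast hJ
    rw [← Real.exp_log hJ']
    exact Real.exp_le_exp.2 hlJ
  have hJ0 : (0 : ℝ) ≤ J := by positivity
  have hn0 : (0 : ℝ) ≤ n := by positivity
  refine ⟨?_, ?_, ?_, ?_, ?_⟩
  · intro K hK
    have hK' : (n : ℝ) ≤ 20 * K := by exact_mod_cast hK
    have h1 := E1_pow (by norm_num) E1_half K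
    have h2 : (J : ℝ) * (3 / 5) ^ K ≤ Real.exp (n / 1000) * Real.exp (-(1 / 2 * K)) :=
      mul_le_mul hJe h1 (by positivity) (Real.exp_pos _).le
    rw [← Real.exp_add] at h2
    refine (h2.trans (Real.exp_le_exp.2 ?_)).trans hmain
    linarith
  · have h1 := E1_pow (a := 19 / 20) (c := 1 / 20) (by norm_num)
      (by have := E1_sub (1 / 20); norm_num at this ⊢; exact this) n
    refine (h1.trans (Real.exp_le_exp.2 ?_)).trans hmain
    linarith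
  · have h1 := E1_pow (a := 123 / 125) (c := 2 / 125) (by norm_num)
      (by have := E1_sub (2 / 125); norm_num at this ⊢; exact this) n
    refine (h1.trans (Real.exp_le_exp.2 ?_)).trans hmain
    linarith
  · intro P' hP' hcard
    have hcard' : 99 * (n : ℝ) ≤ 100 * P'.card := by exact_mod_cast hcard
    have h1 : ∏ p ∈ P', (((p : ℝ) + 1) / (2 * p)) ≤ (3 / 5 : ℝ) ^ P'.card := by
      rw [← Finset.prod_const]
      refine Finset.prod_le_prod (fun p _ => by positivity) fun p hp => ?_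
      have hp100 : (100 : ℝ) ≤ p := by exact_mod_cast (hPp p (hP' hp)).2.2.1
      rw [div_le_iff₀ (by positivity)]
      linarith
    have h2 := h1.trans (E1_pow (by norm_num) E1_half P'.card)
    have h3 : (J : ℝ) * ∏ p ∈ P', (((p : ℝ) + 1) / (2 * p)) ≤
        Real.exp (n / 1000) * Real.exp (-(1 / 2 * P'.card)) :=
      mul_le_mul hJe h2 (Finset.prod_nonneg fun p _ => by positivity) (Real.exp_pos _).le
    rw [← Real.exp_add] at h3
    refine (h3.trans (Real.exp_le_exp.2 ?_)).trans hmain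
    linarith
  · have h1 : (Real.exp 1) ^ n ≤ ((∏ p ∈ P, p : ℕ) : ℝ) := by
      rw [Nat.cast_prod, hn, ← Finset.prod_const]
      refine Finset.prod_le_prod (fun p _ => (Real.exp_pos _).le) fun p hp => ?_
      have hp100 : (100 : ℝ) ≤ p := by exact_mod_cast (hPp p hp).2.2.1
      have := Real.exp_one_lt_d9
      linarith
    have h2 : 1 / ((∏ p ∈ P, p : ℕ) : ℝ) ≤ 1 / (Real.exp 1) ^ n :=
      one_div_le_one_div_of_le (by positivity) h1
    refine h2.trans (le_trans (le_of_eq ?_) ((Real.exp_le_exp.2 (?_ : -(n : ℝ) ≤ _)).trans hmain))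
    · rw [one_div, ← Real.exp_nat_mul, mul_one, ← Real.exp_neg]
    · linarith

end N78
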