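import Pool.Agent.LibN78.D8
import Pool.Agent.LibN78.D9
import Pool.Agent.LibN78.D10
import Pool.Agent.LibN78.E1

namespace N78

/-- `d` is typical -/
def Typ (d W : ℕ) (P : Finset ℕ) : Prop :=
  TD2 d ((∏ p ∈ P, p) + 1) (16 * W ^ 4) ∧ TD3 d (16 * W ^ 4) ∧
    TD4 d ((∏ p ∈ P, p) + 1) (16 * W ^ 4) P

private theorem E2_sq (n : ℕ) : ∑ s ∈ Finset.Icc 1 n, 1 / ((s : ℝ) ^ 2) ≤ 2 := by
  have h : ∀ n : ℕ, ∑ s ∈ Finset.Icc 1 (n + 1), 1 / ((s : ℝ) ^ 2) ≤ 2 - 1 / ((n : ℝ) + 1) := by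
    intro n
    induction n with
    | zero => norm_num
    | succ n ih =>
      rw [Finset.sum_Icc_succ_top (by omega)]
      have h1 : (0 : ℝ) < (n : ℝ) + 1 := by positivity
      have h2 : 1 / (((n + 1 + 1 : ℕ) : ℝ) ^ 2) ≤ 1 / ((n : ℝ) + 1) - 1 / (((n + 1 : ℕ) : ℝ) + 1) := by
        push_cast
        have h3 : 1 / ((n : ℝ) + 1) - 1 / ((n : ℝ) + 1 + 1) = 1 / (((n : ℝ) + 1) * ((n : ℝ) + 1 + 1)) := by
          field_simp
          ring
        rw [h3]
        apply one_div_le_one_div_of_le (by positivity)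
        nlinarith
      linarith
  rcases n with _ | n
  · simp
  · refine (h n).trans ?_
    have : (0 : ℝ) ≤ 1 / ((n : ℝ) + 1) := by positivity
    linarith

/-- Row E2a. The untypical `d`. For given `1 ≤ s ≤ W` put `X = H^2/s^2 ≥ H` (natural division): `d ≤ X`;
`log (∏ p + 1) ≤ (log H)^(1/20) + 1 ≤ (log X)^(1/10)`, `16 W^4 ≤ 16 (log H)^(1/250) ≤ (log X)^(1/50)`: `TD2_count`,
`TD3_count`, `TD4_count` (`savings`: `(123/125)^#P ≤ 1/(log H)^5`): at most `C X/(log H)^(1/10)` untypical `d ≤ X`. For each `d`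
at most `2H + 1` values of `a`. Sum over `s`: `∑ 1/s^2 ≤ 2`. -/
theorem untypical : ∃ C : ℝ, 0 < C ∧ ∃ H₀ : ℕ, ∀ H : ℕ, H₀ ≤ H → ∀ (J W : ℕ) (P : Finset ℕ),
    Params H J W P → ∀ S : Finset (ℤ × ℤ),
    (∀ z ∈ S, N44.Box H z ∧ ∃ d s : ℕ, 0 < s ∧ s ≤ W ∧ z.2 = d * (s : ℤ) ^ 2 ∧ ¬ Typ d W P) →
    (S.card : ℝ) ≤ C * (H : ℝ) ^ 3 / (Real.log H) ^ (1 / 10 : ℝ) := by
  classical
  obtain ⟨C2, hC2, X2, h2⟩ := TD2_count
  obtain ⟨C3, hC3, X3, h3⟩ := TD3_count
  obtain ⟨C4, hC4, h4⟩ := TD4_count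
  obtain ⟨H1, hsav⟩ := savings
  -- asymptotics
  have hev : ∀ᶠ H : ℕ in Filter.atTop, (16 : ℝ) ≤ (Real.log H) ^ (4 / 250 : ℝ) ∧
      (2 : ℝ) ≤ (Real.log H) ^ (1 / 20 : ℝ) := by
    have hl : Filter.Tendsto (fun H : ℕ => Real.log (H : ℝ)) Filter.atTop Filter.atTop :=
      Real.tendsto_log_atTop.comp tendsto_natCast_atTop_atTop
    have e1 := ((tendsto_rpow_atTop (show (0 : ℝ) < 4 / 250 by norm_num)).comp hl).eventually_ge_atTop 16
    have e2 := ((tendsto_rpow_atTop (show (0 : ℝ) < 1 / 20 by norm_num)).comp hl).eventually_ge_atTop 2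
    filter_upwards [e1, e2] with H g1 g2
    exact ⟨g1, g2⟩
  obtain ⟨H2, hH2⟩ := Filter.eventually_atTop.mp hev
  refine ⟨6 * (C2 + C3 + 2 * C4), by positivity, max (max X2 X3) (max H1 H2), ?_⟩
  intro H hH J W P hPar S hS
  have hsv := (hsav H (by omega) J W P hPar).2.2.1
  obtain ⟨g1, g2⟩ := hH2 H (by omega)
  obtain ⟨hH3, hJ, hW2, hWl, hWl', h3W, hP, hJP, hPc, hPl⟩ := hPar
  have hH3R : (3 : ℝ) ≤ H := by exact_mod_cast hH3
  have hL1 : 1 ≤ Real.log H := by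
    rw [Real.le_log_iff_exp_le (by linarith)]
    linarith [Real.exp_one_lt_d9]
  have hL0 : 0 < Real.log H := by linarith
  have hprod0 : 0 < ∏ p ∈ P, p := Finset.prod_pos (fun p hp => (hP p hp).1.pos)
  have hprod1R : (1 : ℝ) ≤ ((∏ p ∈ P, p : ℕ) : ℝ) := by exact_mod_cast hprod0
  -- one s
  have hone : ∀ s : ℕ, 1 ≤ s → s ≤ W → ∀ U : Finset ℕ,
      (∀ d ∈ U, 1 ≤ d ∧ d ≤ H ^ 2 / s ^ 2 ∧ ¬ Typ d W P) →
      (U.card : ℝ) ≤ (C2 + C3 + 2 * C4) * ((H : ℝ) ^ 2 / (s : ℝ) ^ 2) / (Real.log H) ^ (1 / 10 : ℝ) := by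
    intro s hs1 hsW U hU
    obtain ⟨X, hX⟩ : ∃ X : ℕ, X = H ^ 2 / s ^ 2 := ⟨_, rfl⟩
    rw [← hX] at hU
    have hs0 : 0 < s ^ 2 := by positivity
    have hHX : H ≤ X := by
      rw [hX, Nat.le_div_iff_mul_le hs0]
      have h5 : s ^ 2 ≤ W ^ 2 := Nat.pow_le_pow_left hsW 2
      nlinarith
    have hHXR : (H : ℝ) ≤ X := by exact_mod_cast hHX
    have hXle : (X : ℝ) ≤ (H : ℝ) ^ 2 / (s : ℝ) ^ 2 := by
      have := Nat.cast_div_le (α := ℝ) (m := H ^ 2) (n := s ^ 2)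
      rw [hX]
      push_cast at this
      exact this
    have hXH2 : (X : ℝ) ≤ (H : ℝ) ^ 2 := by
      refine hXle.trans (div_le_self (by positivity) ?_)
      have : (1 : ℝ) ≤ s := by exact_mod_cast hs1
      nlinarith
    have hX0 : (0 : ℝ) < X := by linarith
    have hlX : Real.log H ≤ Real.log X := Real.log_le_log (by linarith) hHXR
    have hlX2 : Real.log X ≤ 2 * Real.log H := by
      have := Real.log_le_log hX0 hXH2
      rw [Real.log_pow] at this
      exact_mod_cast this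
    have hmono : ∀ e : ℝ, 0 ≤ e → (Real.log H) ^ e ≤ (Real.log X) ^ e := fun e he =>
      Real.rpow_le_rpow hL0.le hlX he
    have c1 : Real.log ((((∏ p ∈ P, p) + 1 : ℕ)) : ℝ) ≤ (Real.log X) ^ (1 / 10 : ℝ) := by
      have h5 : Real.log ((((∏ p ∈ P, p) + 1 : ℕ)) : ℝ) ≤
          Real.log (∏ p ∈ P, (p : ℝ)) + 1 := by
        have h6 : ((((∏ p ∈ P, p) + 1 : ℕ)) : ℝ) ≤ (∏ p ∈ P, (p : ℝ)) * Real.exp 1 := by
          push_cast at hprod1R ⊢
          have := Real.exp_one_gt_d9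
          nlinarith
        have h7 := Real.log_le_log (by positivity) h6
        rw [Real.log_mul (by push_cast at hprod1R; linarith) (Real.exp_ne_zero _), Real.log_exp] at h7
        exact h7
      have h8 : (Real.log H) ^ (1 / 10 : ℝ) = ((Real.log H) ^ (1 / 20 : ℝ)) ^ 2 := by
        rw [← Real.rpow_natCast, ← Real.rpow_mul hL0.le]
        norm_num
      refine le_trans ?_ (hmono _ (by norm_num))
      rw [h8]
      nlinarith
    have c2 : (((16 * W ^ 4 : ℕ)) : ℝ) ≤ (Real.log H) ^ (1 / 50 : ℝ) := by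
      have h5 : (W : ℝ) ^ 4 ≤ (Real.log H) ^ (4 / 1000 : ℝ) := by
        calc (W : ℝ) ^ 4 ≤ ((Real.log H) ^ (1 / 1000 : ℝ)) ^ 4 :=
              pow_le_pow_left₀ (Nat.cast_nonneg _) hWl 4
          _ = _ := by
              rw [← Real.rpow_natCast, ← Real.rpow_mul hL0.le]
              norm_num
      have h6 : (Real.log H) ^ (1 / 50 : ℝ) =
          (Real.log H) ^ (4 / 250 : ℝ) * (Real.log H) ^ (4 / 1000 : ℝ) := by
        rw [← Real.rpow_add hL0]
        norm_num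
      push_cast
      rw [h6]
      exact mul_le_mul g1 h5 (by positivity) (by positivity)
    have hsplit : U ⊆ (U.filter (fun d => ¬ TD2 d ((∏ p ∈ P, p) + 1) (16 * W ^ 4))) ∪
        ((U.filter (fun d => ¬ TD3 d (16 * W ^ 4))) ∪
          (U.filter (fun d => ¬ TD4 d ((∏ p ∈ P, p) + 1) (16 * W ^ 4) P))) := by
      intro d hd
      have h5 := (hU d hd).2.2
      rw [Finset.mem_union, Finset.mem_union, Finset.mem_filter, Finset.mem_filter,
        Finset.mem_filter]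
      unfold Typ at h5
      tauto
    have hW41 : 1 ≤ 16 * W ^ 4 := by
      have : 0 < W ^ 4 := by positivity
      omega
    have b2 := h2 X ((∏ p ∈ P, p) + 1) (16 * W ^ 4) (by omega) (by omega) hW41 c1
      (c2.trans (hmono _ (by norm_num)))
      (U.filter (fun d => ¬ TD2 d ((∏ p ∈ P, p) + 1) (16 * W ^ 4))) (by
        intro d hd
        rw [Finset.mem_filter] at hd
        exact ⟨(hU d hd.1).1, (hU d hd.1).2.1, hd.2⟩)
    have b3 := h3 X (16 * W ^ 4) (by omega) hW41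
      (c2.trans (hmono _ (by norm_num)))
      (U.filter (fun d => ¬ TD3 d (16 * W ^ 4))) (by
        intro d hd
        rw [Finset.mem_filter] at hd
        exact ⟨(hU d hd.1).1, (hU d hd.1).2.1, hd.2⟩)
    have b4 := h4 X ((∏ p ∈ P, p) + 1) (16 * W ^ 4) P (by omega) hW41
      (fun p hp => ⟨(hP p hp).1, (hP p hp).2.2.1, (hP p hp).2.1, (hP p hp).2.2.2.1⟩)
      (by omega)
      (U.filter (fun d => ¬ TD4 d ((∏ p ∈ P, p) + 1) (16 * W ^ 4) P)) (by
        intro d hd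
        rw [Finset.mem_filter] at hd
        exact ⟨(hU d hd.1).1, (hU d hd.1).2.1, hd.2⟩)
    have hcard : (U.card : ℝ) ≤
        ((U.filter (fun d => ¬ TD2 d ((∏ p ∈ P, p) + 1) (16 * W ^ 4))).card : ℝ) +
        (((U.filter (fun d => ¬ TD3 d (16 * W ^ 4))).card : ℝ) +
          ((U.filter (fun d => ¬ TD4 d ((∏ p ∈ P, p) + 1) (16 * W ^ 4) P)).card : ℝ)) := by
      have h5 := Finset.card_le_card hsplit
      have h6 := h5.trans ((Finset.card_union_le _ _).trans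
        (Nat.add_le_add_left (Finset.card_union_le _ _) _))
      exact_mod_cast h6
    have hd0 : (0 : ℝ) < (Real.log H) ^ (1 / 10 : ℝ) := Real.rpow_pos_of_pos hL0 _
    have d2 : C2 * X / (Real.log X) ^ (1 / 5 : ℝ) ≤ C2 * X / (Real.log H) ^ (1 / 10 : ℝ) := by
      apply div_le_div_of_nonneg_left (by positivity) hd0
      calc (Real.log H) ^ (1 / 10 : ℝ) ≤ (Real.log H) ^ (1 / 5 : ℝ) :=
            Real.rpow_le_rpow_of_exponent_le hL1 (by norm_num)
        _ ≤ _ := hmono _ (by norm_num)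
    have d3 : C3 * X / (Real.log X) ^ (1 / 10 : ℝ) ≤ C3 * X / (Real.log H) ^ (1 / 10 : ℝ) :=
      div_le_div_of_nonneg_left (by positivity) hd0 (hmono _ (by norm_num))
    have d4 : C4 * (((16 * W ^ 4 : ℕ)) : ℝ) * X * Real.log X * (123 / 125) ^ P.card ≤
        2 * C4 * X / (Real.log H) ^ (1 / 10 : ℝ) := by
      have h5 : (((16 * W ^ 4 : ℕ)) : ℝ) ≤ Real.log H := by
        refine c2.trans ?_
        calc (Real.log H) ^ (1 / 50 : ℝ) ≤ (Real.log H) ^ (1 : ℝ) :=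
              Real.rpow_le_rpow_of_exponent_le hL1 (by norm_num)
          _ = _ := Real.rpow_one _
      have h6 : (Real.log H) ^ (1 / 10 : ℝ) ≤ Real.log H := by
        calc (Real.log H) ^ (1 / 10 : ℝ) ≤ (Real.log H) ^ (1 : ℝ) :=
              Real.rpow_le_rpow_of_exponent_le hL1 (by norm_num)
          _ = _ := Real.rpow_one _
      have hlX0 : 0 ≤ Real.log X := by linarith
      calc C4 * (((16 * W ^ 4 : ℕ)) : ℝ) * X * Real.log X * (123 / 125) ^ P.card
          ≤ C4 * Real.log H * X * (2 * Real.log H) * (1 / Real.log H ^ 5) := by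
            gcongr
        _ = 2 * C4 * X / (Real.log H) ^ 3 := by
            field_simp
        _ ≤ 2 * C4 * X / (Real.log H) ^ (1 / 10 : ℝ) := by
            apply div_le_div_of_nonneg_left (by positivity) hd0
            refine h6.trans ?_
            nlinarith [mul_self_nonneg (Real.log H), mul_nonneg hL0.le hL0.le]
    have hfin : (U.card : ℝ) ≤ (C2 + C3 + 2 * C4) * X / (Real.log H) ^ (1 / 10 : ℝ) := by
      have h5 : (C2 + C3 + 2 * C4) * X / (Real.log H) ^ (1 / 10 : ℝ) =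
          C2 * X / (Real.log H) ^ (1 / 10 : ℝ) + (C3 * X / (Real.log H) ^ (1 / 10 : ℝ) +
            2 * C4 * X / (Real.log H) ^ (1 / 10 : ℝ)) := by ring
      rw [h5]
      linarith
    refine hfin.trans ?_
    apply div_le_div_of_nonneg_right _ hd0.le
    exact mul_le_mul_of_nonneg_left hXle (by positivity)
  -- union over s
  let Us : ℕ → Finset ℕ := fun s => (Finset.Icc 1 (H ^ 2 / s ^ 2)).filter (fun d => ¬ Typ d W P)
  have hsub : S ⊆ (Finset.Icc 1 W).biUnion fun s =>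
      ((Finset.Icc (-(H : ℤ)) H) ×ˢ Us s).image (fun p => (p.1, (p.2 : ℤ) * (s : ℤ) ^ 2)) := by
    intro z hz
    obtain ⟨⟨hb1, hb2, hb3, -⟩, d, s, hs0, hsW, hz2, hT⟩ := hS z hz
    rw [Finset.mem_biUnion]
    refine ⟨s, Finset.mem_Icc.mpr ⟨hs0, hsW⟩, ?_⟩
    rw [Finset.mem_image]
    refine ⟨(z.1, d), ?_, ?_⟩
    · rw [Finset.mem_product, Finset.mem_Icc]
      refine ⟨abs_le.mp hb1, ?_⟩
      simp only [Us, Finset.mem_filter, Finset.mem_Icc]
      refine ⟨⟨?_, ?_⟩, hT⟩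
      · rcases Nat.eq_zero_or_pos d with h5 | h5
        · exfalso
          apply hb3
          rw [hz2, h5]
          simp
        · exact h5
      · rw [Nat.le_div_iff_mul_le (by positivity)]
        have h5 : z.2 ≤ (H : ℤ) ^ 2 := le_trans (le_abs_self _) hb2
        rw [hz2] at h5
        exact_mod_cast h5
    · simp only
      rw [← hz2]
  have hcard : (S.card : ℝ) ≤ ∑ s ∈ Finset.Icc 1 W, ((2 * H + 1 : ℝ) * ((Us s).card : ℝ)) := by
    have h5 : S.card ≤ ∑ s ∈ Finset.Icc 1 W, ((2 * H + 1) * (Us s).card) := by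
      refine (Finset.card_le_card hsub).trans (Finset.card_biUnion_le.trans ?_)
      apply Finset.sum_le_sum
      intro s _
      refine Finset.card_image_le.trans ?_
      rw [Finset.card_product, Int.card_Icc]
      apply Nat.mul_le_mul_right
      omega
    exact_mod_cast h5
  have hd0 : (0 : ℝ) < (Real.log H) ^ (1 / 10 : ℝ) := Real.rpow_pos_of_pos hL0 _
  calc (S.card : ℝ) ≤ ∑ s ∈ Finset.Icc 1 W, ((2 * H + 1 : ℝ) * ((Us s).card : ℝ)) := hcard
    _ ≤ ∑ s ∈ Finset.Icc 1 W, ((3 * H : ℝ) *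
        ((C2 + C3 + 2 * C4) * ((H : ℝ) ^ 2 / (s : ℝ) ^ 2) / (Real.log H) ^ (1 / 10 : ℝ))) := by
        apply Finset.sum_le_sum
        intro s hs
        rw [Finset.mem_Icc] at hs
        apply mul_le_mul (by linarith) _ (Nat.cast_nonneg _) (by positivity)
        apply hone s hs.1 hs.2
        intro d hd
        simp only [Us, Finset.mem_filter, Finset.mem_Icc] at hd
        exact ⟨hd.1.1, hd.1.2, hd.2⟩
    _ = (3 * (C2 + C3 + 2 * C4) * (H : ℝ) ^ 3 / (Real.log H) ^ (1 / 10 : ℝ)) *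
        ∑ s ∈ Finset.Icc 1 W, 1 / ((s : ℝ) ^ 2) := by
        rw [Finset.mul_sum]
        apply Finset.sum_congr rfl
        intro s _
        ring
    _ ≤ (3 * (C2 + C3 + 2 * C4) * (H : ℝ) ^ 3 / (Real.log H) ^ (1 / 10 : ℝ)) * 2 :=
        mul_le_mul_of_nonneg_left (E2_sq W) (by positivity)
    _ = _ := by ring

end N78
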