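import Pool.Agent.LibN78.D5
import Pool.Agent.LibN78.E2

namespace N78

private theorem E4_jac {p : ℕ} (hp : p.Prime) {f m : ℤ} {d r : ℕ}
    (hf : f = m ^ 2 - (d : ℤ) * (r : ℤ) ^ 2) (h : jacobiSym f p = -1) :
    ¬ (p : ℤ) ∣ f ∧ ¬ p ∣ r := by
  have : NeZero p := ⟨hp.ne_zero⟩
  constructor
  · intro hd
    have h1 : jacobiSym f p = 0 := by
      rw [jacobiSym.eq_zero_iff_not_coprime]
      intro h2
      have h3 : (p : ℤ) ∣ ((f.gcd p : ℕ) : ℤ) := Int.dvd_coe_gcd hd (dvd_refl _)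
      rw [h2] at h3
      have h4 : p ∣ 1 := by exact_mod_cast h3
      exact hp.one_lt.ne' (Nat.dvd_one.1 h4)
    rw [h1] at h
    norm_num at h
  · intro hd
    have hd' : (p : ℤ) ∣ (r : ℤ) := by exact_mod_cast hd
    have h1 : f ≡ m ^ 2 [ZMOD (p : ℤ)] := by
      apply Int.ModEq.symm
      rw [Int.modEq_iff_dvd, hf]
      have h5 : m ^ 2 - (d : ℤ) * (r : ℤ) ^ 2 - m ^ 2 = -((d : ℤ) * (r : ℤ) ^ 2) := by ring
      rw [h5, dvd_neg]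
      exact Dvd.dvd.mul_left (dvd_pow hd' two_ne_zero) _
    have h2 : jacobiSym f p = jacobiSym (m ^ 2) p := jacobiSym.mod_left' h1
    rw [h2, jacobiSym.pow_left] at h
    have h3 := sq_nonneg (jacobiSym m p)
    rw [h] at h3
    norm_num at h3

/-- Row E2b. `f` not bad. If `p ∈ P`, `(f/p) = -1`, `p ∤ d`, then `p ∤ f`, and `p ∤ r` (`p ∣ r` gives `f = m^2` mod `p`).
`#P ≤ 3 #{(f/p) = -1}`, `100 #{p ∣ d} ≤ #P`, so `#P ≤ 20 #{...}` (`1/3 - 1/100 ≥ 1/20`). -/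
theorem not_bad (P : Finset ℕ) (hP : ∀ p ∈ P, p.Prime ∧ p ≠ 2) (a : ℤ) (d s ρ g X Y r : ℕ) (m f : ℤ)
    (hU : N44.UU a d s ρ g X Y r m f) (hd : 100 * (P.filter (fun p : ℕ => p ∣ d)).card ≤ P.card)
    (hf : P.card ≤ 3 * (P.filter (fun p : ℕ => jacobiSym f p = -1)).card) :
    P.card ≤ 20 * (P.filter (fun p : ℕ => ¬ p ∣ d ∧ ¬ (p : ℤ) ∣ f ∧ ¬ p ∣ r)).card := by
  classical
  obtain ⟨-, -, -, -, -, -, -, -, -, hf0, -, -⟩ := hU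
  set A := P.filter (fun p : ℕ => jacobiSym f p = -1) with hA
  set B := P.filter (fun p : ℕ => p ∣ d) with hB
  set C := P.filter (fun p : ℕ => ¬ p ∣ d ∧ ¬ (p : ℤ) ∣ f ∧ ¬ p ∣ r) with hC
  have hsub : A ⊆ B ∪ C := by
    intro p hp
    rw [hA, Finset.mem_filter] at hp
    rw [Finset.mem_union, hB, hC, Finset.mem_filter, Finset.mem_filter]
    by_cases hpd : p ∣ d
    · exact Or.inl ⟨hp.1, hpd⟩
    · exact Or.inr ⟨hp.1, hpd, E4_jac (hP p hp.1).1 hf0 hp.2⟩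
  have h1 := (Finset.card_le_card hsub).trans (Finset.card_union_le _ _)
  omega

/-- Row E2c. `f = F^2`, `F ≤ W`, typical `d`: `tower_main` with `4 F^2 ρ g ≤ 4 W^2 (2W)^2 = 16 W^4`; `p ∤ F^2` since `p > W`. -/
theorem square_case (H J W : ℕ) (P : Finset ℕ) (hpar : Params H J W P) (a : ℤ)
    (d s ρ g X Y r F : ℕ) (m : ℤ) (hd : 2 ≤ d) (hsf : Squarefree d) (hs : 0 < s) (hsW : s ≤ W)
    (hF : 1 ≤ F) (hFW : F ≤ W) (hU : N44.UU a d s ρ g X Y r m ((F : ℤ) ^ 2)) (hT : Typ d W P) :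
    P.card ≤ 20 * (P.filter (fun p : ℕ => ¬ p ∣ d ∧ ¬ (p : ℤ) ∣ (F : ℤ) ^ 2 ∧ ¬ p ∣ r)).card := by
  classical
  obtain ⟨h2, h3, h4⟩ := hT
  obtain ⟨hρ, hg, hX, hY, hr0, hρs, hgs, hco, hf0, hfe, hgr, -⟩ := hU
  obtain ⟨-, -, hW2, -, -, -, hPp, -⟩ := hpar
  have hρW : ρ ≤ 2 * W := (Nat.le_of_dvd (by omega) hρs).trans (by omega)
  have hgW : g ≤ 2 * W := (Nat.le_of_dvd (by omega) hgs).trans (by omega)
  have hW4 : 4 * F ^ 2 * (ρ * g) ≤ 16 * W ^ 4 := by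
    calc 4 * F ^ 2 * (ρ * g) ≤ 4 * W ^ 2 * ((2 * W) * (2 * W)) :=
          Nat.mul_le_mul (Nat.mul_le_mul_left _ (Nat.pow_le_pow_left hFW 2))
            (Nat.mul_le_mul hρW hgW)
      _ = 16 * W ^ 4 := by ring
  have h5 := tower_main d ((∏ p ∈ P, p) + 1) (16 * W ^ 4) P hd hsf
    (fun p hp => ⟨(hPp p hp).1, (hPp p hp).2.1, (hPp p hp).2.2.2.1⟩) h2 h3 h4 F ρ g r Y m hF hρ hg
    hr0 hW4 hfe.symm hgr
  have hsub : P.filter (fun p : ℕ => ¬ p ∣ d ∧ ¬ p ∣ r) ⊆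
      P.filter (fun p : ℕ => ¬ p ∣ d ∧ ¬ (p : ℤ) ∣ (F : ℤ) ^ 2 ∧ ¬ p ∣ r) := by
    intro p hp
    rw [Finset.mem_filter] at hp ⊢
    refine ⟨hp.1, hp.2.1, ?_, hp.2.2⟩
    intro hdiv
    have hpp := (hPp p hp.1).1
    have hbig := (hPp p hp.1).2.2.2.1
    have h6 : p ∣ F ^ 2 := by exact_mod_cast hdiv
    have h7 : p ≤ F := Nat.le_of_dvd (by omega) (hpp.dvd_of_dvd_pow h6)
    have h8 : W ≤ W ^ 4 := Nat.le_self_pow (by norm_num) W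
    omega
  have h6 := Finset.card_le_card hsub
  omega

end N78
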