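import Pool.Agent.LibN78.D2
import Pool.Agent.LibN78.E2
import Pool.Agent.LibN78.E4
import Pool.Agent.LibN44.T1
import Pool.Agent.LibN44.T2
import Pool.Agent.LibN44.T4d
import Pool.Agent.LibN44.T5c
import Pool.Agent.LibN44.T7
import Pool.Agent.LibN44.T8c

namespace N78

private def e5P1 (W : ℕ) (z : ℤ × ℤ) : Prop := ∃ s : ℕ, W < s ∧ (s : ℤ) ^ 2 ∣ z.2

private def e5P2 (z : ℤ × ℤ) : Prop :=
  ∃ d u s : ℕ, 0 < d ∧ 0 < u ∧ 0 < s ∧ z.1 = - (d * (u : ℤ) ^ 2) ∧ z.2 = d * (s : ℤ) ^ 2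

private def e5P3 (H E : ℕ) (z : ℤ × ℤ) : Prop :=
  ∃ f : ℤ, f ∣ z.1 ^ 2 - 4 * z.2 ∧ (H : ℤ) ≤ E * |f| ∧ |f| ≤ 3 * (H : ℤ)

private def e5P4 (W : ℕ) (P : Finset ℕ) (z : ℤ × ℤ) : Prop :=
  ∃ d s : ℕ, 0 < s ∧ s ≤ W ∧ z.2 = d * (s : ℤ) ^ 2 ∧ ¬ Typ d W P

private def e5P5 (W E : ℕ) (z : ℤ × ℤ) : Prop :=
  ∃ (d s ρ g X Y r : ℕ) (m f : ℤ), 0 < s ∧ s ≤ W ∧ z.2 = d * (s : ℤ) ^ 2 ∧
    N44.UU z.1 d s ρ g X Y r m f ∧ (g : ℤ) ^ 2 * f ∣ z.1 ^ 2 - 4 * z.2 ∧ ¬ IsSquare f ∧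
    f.natAbs ≤ E

private def e5P6 (H W : ℕ) (z : ℤ × ℤ) : Prop :=
  ∃ (d s ρ g X Y r : ℕ) (m : ℤ) (F : ℕ), 0 < s ∧ s ≤ W ∧ z.2 = d * (s : ℤ) ^ 2 ∧
    W < F ∧ F ^ 2 ≤ 3 * H ∧ N44.UU z.1 d s ρ g X Y r m ((F : ℤ) ^ 2)

private def e5P7 (H W : ℕ) (P : Finset ℕ) (z : ℤ × ℤ) : Prop :=
  ∃ (d s ρ g X Y r : ℕ) (m f : ℤ), 0 < s ∧ s ≤ W ∧ z.2 = d * (s : ℤ) ^ 2 ∧
    N44.UU z.1 d s ρ g X Y r m f ∧ (∏ p ∈ P, p) < f.natAbs ∧ f.natAbs ≤ 3 * H ∧
    3 * (P.filter (fun p => jacobiSym f p = -1)).card < P.card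

private def e5P8 (H W K : ℕ) (P : Finset ℕ) (z : ℤ × ℤ) : Prop :=
  ∃ (d s ρ g X Y r : ℕ) (m f : ℤ), 0 < s ∧ s ≤ W ∧
    z.2 = d * (s : ℤ) ^ 2 ∧ 2 ≤ d ∧ ¬ IsSquare (d : ℤ) ∧ N44.UU z.1 d s ρ g X Y r m f ∧
    (∏ p ∈ P, p) * f.natAbs ≤ H ∧
    K ≤ (P.filter (fun p : ℕ => ¬ p ∣ d ∧ ¬ (p : ℤ) ∣ f ∧ ¬ p ∣ r)).card

private theorem e5_nsq (d : ℕ) (hd : 2 ≤ d) (hsf : Squarefree d) : ¬ IsSquare (d : ℤ) := by
  intro h
  have h1 : IsSquare d := by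
    obtain ⟨x, hx⟩ := h
    refine ⟨x.natAbs, ?_⟩
    have : d = (x * x).natAbs := by rw [← hx]; simp
    rw [this, Int.natAbs_mul]
  obtain ⟨x, hx⟩ := h1
  have h2 := hsf x ⟨1, by rw [mul_one]; exact hx⟩
  rw [Nat.isUnit_iff] at h2
  rw [h2] at hx
  omega

/-- the case distinction -/
private theorem e5_cover (H J W : ℕ) (P : Finset ℕ) (hpar : Params H J W P) (z : ℤ × ℤ)
    (hz : N44.Box H z) (hcount : 100 * (P.filter (fun p : ℕ => (p : ℤ) ∣ z.2)).card ≤ P.card)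
    (hex : ∃ (d s u : ℕ) (w : ℤ), 2 ≤ d ∧ Squarefree d ∧ 0 < s ∧ 0 < u ∧ w ≠ 0 ∧
      z.2 = d * (s : ℤ) ^ 2 ∧
        w ^ 2 = d * (u : ℤ) ^ 4 + z.1 * (u : ℤ) ^ 2 + (s : ℤ) ^ 2) :
    e5P1 W z ∨ e5P2 z ∨ e5P3 H (∏ p ∈ P, p) z ∨ e5P4 W P z ∨ e5P5 W (∏ p ∈ P, p) z ∨ e5P6 H W z ∨
      e5P7 H W P z ∨ e5P8 H W ((P.card + 19) / 20) P z := by
  obtain ⟨d, s, u, w, hd, hsf, hs, hu, hw, hb, heq⟩ := hex
  obtain ⟨hH3, hJ0, hW2, hWL, hLW, hWH, hP, hJ, hPn, hPq⟩ := hpar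
  have hPpar : Params H J W P := ⟨hH3, hJ0, hW2, hWL, hLW, hWH, hP, hJ, hPn, hPq⟩
  obtain ⟨hza, hzb, hzb0, hzD⟩ := hz
  -- (1)
  by_cases h1 : W < s
  · left
    exact ⟨s, h1, by rw [hb]; exact dvd_mul_left _ _⟩
  push Not at h1
  right
  -- natural `w`
  set w' : ℕ := w.natAbs with hw'
  have hw'0 : 0 < w' := Int.natAbs_pos.2 hw
  have hw'sq : (w' : ℤ) ^ 2 = w ^ 2 := by rw [hw', Int.natCast_natAbs, sq_abs]
  have heq' : (w' : ℤ) ^ 2 = d * (u : ℤ) ^ 4 + z.1 * (u : ℤ) ^ 2 + (s : ℤ) ^ 2 := by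
    rw [hw'sq, heq]
  -- (2)
  by_cases h2 : w' = s
  · left
    refine ⟨d, u, s, by omega, hu, hs, ?_, hb⟩
    have h3 : (u : ℤ) ^ 2 * (d * (u : ℤ) ^ 2 + z.1) = 0 := by
      rw [h2] at heq'
      linear_combination -heq'
    have h4 : (u : ℤ) ^ 2 ≠ 0 := by positivity
    rcases mul_eq_zero.1 h3 with h5 | h5
    · exact absurd h5 h4
    · linarith
  right
  have hzD' : z.1 ^ 2 - 4 * ((d : ℤ) * (s : ℤ) ^ 2) ≠ 0 := by rw [← hb]; exact hzD
  have hH0 : (0 : ℤ) < H := by exact_mod_cast (by omega : 0 < H)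
  have hDH : |z.1 ^ 2 - 4 * ((d : ℤ) * (s : ℤ) ^ 2)| < 9 * (H : ℤ) ^ 2 := by
    rw [← hb]
    have h3 : z.1 ^ 2 ≤ (H : ℤ) ^ 2 := by
      rw [← sq_abs]
      exact pow_le_pow_left₀ (abs_nonneg _) hza 2
    have h4 := abs_le.1 hzb
    have h5 := sq_nonneg z.1
    rw [abs_lt]
    constructor <;> nlinarith
  obtain ⟨ρ, g, X, Y, r, m, f, hU, hdvd, hsize⟩ :=
    N44.config z.1 d s u w' H (by omega) hs hu hw'0 h2 heq' hzD' hDH
  have hdvd' : (g : ℤ) ^ 2 * f ∣ z.1 ^ 2 - 4 * z.2 := by rw [hb]; exact hdvd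
  set q : ℕ := ∏ p ∈ P, p with hq
  have hg0 : 0 < g := hU.2.1
  have hf0 : f ≠ 0 := hU.2.2.2.2.2.2.2.2.1
  -- (3a)
  by_cases h3 : (H : ℤ) ≤ q * |(g : ℤ) ^ 2 * f|
  · left
    exact ⟨(g : ℤ) ^ 2 * f, hdvd', h3, hsize.le⟩
  right
  push Not at h3
  have hgf : |f| ≤ |(g : ℤ) ^ 2 * f| := by
    rw [abs_mul]
    have h4 : (1 : ℤ) ≤ |(g : ℤ) ^ 2| := by
      rw [abs_of_nonneg (by positivity)]
      have : (1 : ℤ) ≤ g := by exact_mod_cast hg0
      nlinarith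
    nlinarith [abs_nonneg f]
  have hqf : q * f.natAbs ≤ H := by
    have h4 : (q : ℤ) * |f| ≤ H := by
      have h5 : (q : ℤ) * |f| ≤ q * |(g : ℤ) ^ 2 * f| :=
        mul_le_mul_of_nonneg_left hgf (by positivity)
      linarith
    have h6 : ((q * f.natAbs : ℕ) : ℤ) ≤ H := by
      push_cast
      exact h4
    exact_mod_cast h6
  have hf3H : f.natAbs ≤ 3 * H := by
    have h4 : |f| < 3 * H := lt_of_le_of_lt hgf hsize
    rw [Int.abs_eq_natAbs] at h4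
    have h5 : f.natAbs < 3 * H := by exact_mod_cast h4
    exact h5.le
  -- (i) untypical
  by_cases hT : Typ d W P
  swap
  · left
    exact ⟨d, s, hs, h1, hb, hT⟩
  right
  have hnsq := e5_nsq d hd hsf
  have hK : ∀ c : ℕ, P.card ≤ 20 * c → (P.card + 19) / 20 ≤ c := by
    intro c hc
    omega
  have hdc : 100 * (P.filter (fun p : ℕ => p ∣ d)).card ≤ P.card := by
    refine le_trans (Nat.mul_le_mul_left _ (Finset.card_le_card ?_)) hcount
    intro p hp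
    rw [Finset.mem_filter] at hp ⊢
    refine ⟨hp.1, ?_⟩
    rw [hb]
    exact Dvd.dvd.mul_right (by exact_mod_cast hp.2) _
  by_cases hsq : IsSquare f
  · -- square
    obtain ⟨x, hx⟩ := hsq
    have hF : f = ((x.natAbs : ℕ) : ℤ) ^ 2 := by
      rw [Int.natCast_natAbs, sq_abs, hx]; ring
    set F : ℕ := x.natAbs with hFdef
    have hF1 : 1 ≤ F := by
      rcases Nat.eq_zero_or_pos F with h0 | h0
      · rw [h0] at hF
        exact absurd (by rw [hF]; norm_num) hf0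
      · exact h0
    rw [hF] at hU
    have hfabs : f.natAbs = F ^ 2 := by
      rw [hF, Int.natAbs_pow, Int.natAbs_natCast]
    by_cases hFW : W < F
    · right; left
      refine ⟨d, s, ρ, g, X, Y, r, m, F, hs, h1, hb, hFW, ?_, hU⟩
      rw [← hfabs]; exact hf3H
    · push Not at hFW
      right; right; right
      have h5 := square_case H J W P hPpar z.1 d s ρ g X Y r F m hd hsf hs h1 hF1 hFW hU hT
      refine ⟨d, s, ρ, g, X, Y, r, m, (F : ℤ) ^ 2, hs, h1, hb, hd, hnsq, hU, ?_, hK _ h5⟩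
      rw [Int.natAbs_pow, Int.natAbs_natCast, ← hfabs]
      exact hqf
  · by_cases hfq : f.natAbs ≤ q
    · left
      exact ⟨d, s, ρ, g, X, Y, r, m, f, hs, h1, hb, hU, hdvd', hsq, hfq⟩
    · push Not at hfq
      by_cases hbad : 3 * (P.filter (fun p => jacobiSym f p = -1)).card < P.card
      · right; right; left
        exact ⟨d, s, ρ, g, X, Y, r, m, f, hs, h1, hb, hU, hfq, hf3H, hbad⟩
      · push Not at hbad
        right; right; right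
        have h5 := not_bad P (fun p hp => ⟨(hP p hp).1, by
          have := (hP p hp).2.2.1
          omega⟩) z.1 d s ρ g X Y r m f hU hdc hbad
        exact ⟨d, s, ρ, g, X, Y, r, m, f, hs, h1, hb, hd, hnsq, hU, hqf, hK _ h5⟩

private theorem e5_card8 (S : Finset (ℤ × ℤ)) (Q : Fin 8 → (ℤ × ℤ) → Prop)
    (h : ∀ z ∈ S, ∃ i, Q i z) (B : ℝ)
    (hB : ∀ i, ∀ T : Finset (ℤ × ℤ), T ⊆ S → (∀ z ∈ T, Q i z) → (T.card : ℝ) ≤ B) :
    (S.card : ℝ) ≤ 8 * B := by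
  classical
  have h1 : S ⊆ Finset.univ.biUnion (fun i : Fin 8 => S.filter (Q i)) := by
    intro z hz
    obtain ⟨i, hi⟩ := h z hz
    rw [Finset.mem_biUnion]
    exact ⟨i, Finset.mem_univ _, Finset.mem_filter.2 ⟨hz, hi⟩⟩
  have h2 : S.card ≤ ∑ i : Fin 8, (S.filter (Q i)).card :=
    (Finset.card_le_card h1).trans Finset.card_biUnion_le
  have h3 : (S.card : ℝ) ≤ ∑ i : Fin 8, ((S.filter (Q i)).card : ℝ) := by exact_mod_cast h2
  refine h3.trans ?_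
  calc ∑ i : Fin 8, ((S.filter (Q i)).card : ℝ) ≤ ∑ _i : Fin 8, B :=
        Finset.sum_le_sum fun i _ => hB i _ (Finset.filter_subset _ _)
          (fun z hz => (Finset.mem_filter.1 hz).2)
    _ = 8 * B := by simp

/-- Row E2d (the torsion class). Take `w > 0` (replace `w` by `-w`). (1) `s > W`: `N44.s_large` (`s^2 ∣ z.2`). (2) `w = s`: `z.1 = -d u^2`,
`N44.ws_count`. (3) otherwise `N44.config` (`|D| ≤ 5H^2 < 9H^2`) gives the datum `UU` with `g^2 f ∣ D`, `|g^2 f| < 3H`; `q = ∏ p`: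
(3a) `H ≤ q |g^2 f|`: `N44.sect3a`, `E = q`. (3b) `q |g^2 f| < H`, so `q |f| ≤ H`: (i) `d` untypical: `untypical`;
(ii) `|f| ≤ q`, `f` not a square: `N44.sect3b_U`, `E = q`; (iii) `f = F^2`, `F > W`, `|f| ≤ 3H`: `N44.sect3d`; (iv) `|f| > q`, bad: `N44.sect3bad`;
(v) `|f| > q`, not bad (`not_bad`), or `f = F^2`, `F ≤ W` (`square_case`): `as_total` with `K = ⌈#P/20⌉` (`#P ≤ 20 K`,
`K ≤ #{...}`) and `savings` (i). Sum of all bounds `≤ C H^3/(log H)^(1/1000)` (`1/W ≤ 2/(log H)^(1/1000)`). -/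
theorem torsion_class : ∃ C : ℝ, 0 < C ∧ ∃ H₀ : ℕ, ∀ H : ℕ, H₀ ≤ H → ∀ (J W : ℕ) (P : Finset ℕ),
    Params H J W P → ∀ S : Finset (ℤ × ℤ),
    (∀ z ∈ S, N44.Box H z ∧ 100 * (P.filter (fun p : ℕ => (p : ℤ) ∣ z.2)).card ≤ P.card ∧
      ∃ (d s u : ℕ) (w : ℤ), 2 ≤ d ∧ Squarefree d ∧ 0 < s ∧ 0 < u ∧ w ≠ 0 ∧ z.2 = d * (s : ℤ) ^ 2 ∧
        w ^ 2 = d * (u : ℤ) ^ 4 + z.1 * (u : ℤ) ^ 2 + (s : ℤ) ^ 2) →
    (S.card : ℝ) ≤ C * (H : ℝ) ^ 3 / (Real.log H) ^ (1 / 1000 : ℝ) := by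
  obtain ⟨C1, hC1, H1⟩ := N44.s_large
  obtain ⟨C2, hC2, H2⟩ := N44.ws_count
  obtain ⟨C3, hC3, n3, H3⟩ := N44.sect3a
  obtain ⟨C4, hC4, n4, H4⟩ := untypical
  obtain ⟨C5, hC5, n5, H5⟩ := N44.sect3b_U
  obtain ⟨C6, hC6, H6⟩ := N44.sect3d
  obtain ⟨C7, hC7, H7⟩ := N44.sect3bad
  obtain ⟨C8, hC8, H8⟩ := as_total
  obtain ⟨n9, H9⟩ := savings
  refine ⟨8 * (2 * C1 + C2 + C3 + C4 + C5 + 2 * C6 + C7 + C8), by positivity,
    3 + n3 + n4 + n5 + n9, fun H hH J W P hpar S hS => ?_⟩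
  have hpar' := hpar
  obtain ⟨hH3, hJ0, hW2, hWL, hLW, hWH, hP, hJ, hPn, hPq⟩ := hpar'
  obtain ⟨L, hLdef⟩ : ∃ L : ℝ, L = Real.log H := ⟨_, rfl⟩
  rw [← hLdef] at hWL hLW hPn hPq ⊢
  have hHr : (3 : ℝ) ≤ H := by exact_mod_cast hH3
  have hL1 : 1 ≤ L := by
    rw [hLdef, Real.le_log_iff_exp_le (by linarith)]
    have := Real.exp_one_lt_d9
    linarith
  have hL0 : 0 < L := by linarith
  have hLH : L ≤ H := by
    rw [hLdef]
    have := Real.log_le_sub_one_of_pos (show (0 : ℝ) < H by linarith)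
    linarith
  obtain ⟨y, hy⟩ : ∃ y : ℝ, y = L ^ (1 / 1000 : ℝ) := ⟨_, rfl⟩
  rw [← hy] at hWL hLW ⊢
  have hy1 : 1 ≤ y := by rw [hy]; exact Real.one_le_rpow hL1 (by norm_num)
  have hy0 : 0 < y := by linarith
  have hmono : ∀ t : ℝ, 1 / 1000 ≤ t → y ≤ L ^ t := by
    intro t ht
    rw [hy]
    exact Real.rpow_le_rpow_of_exponent_le hL1 ht
  have hyL : y ≤ L := by
    have := hmono 1 (by norm_num)
    rwa [Real.rpow_one] at this
  obtain ⟨D, hD⟩ : ∃ D : ℝ, D = (H : ℝ) ^ 3 / y := ⟨_, rfl⟩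
  have hD0 : 0 < D := by rw [hD]; positivity
  have hH30 : (0 : ℝ) < (H : ℝ) ^ 3 := by positivity
  have hdiv : ∀ t : ℝ, 0 < t → y ≤ t → (H : ℝ) ^ 3 / t ≤ D := by
    intro t ht hyt
    rw [hD]
    exact div_le_div_of_nonneg_left hH30.le hy0 hyt
  have hqcast : ((∏ p ∈ P, p : ℕ) : ℝ) = ∏ p ∈ P, (p : ℝ) := by push_cast; rfl
  have hq1 : 1 ≤ ∏ p ∈ P, p := Nat.succ_le_of_lt (Finset.prod_pos fun p hp => (hP p hp).1.pos)
  have hWr : (2 : ℝ) ≤ W := by exact_mod_cast hW2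
  set B : ℝ := (2 * C1 + C2 + C3 + C4 + C5 + 2 * C6 + C7 + C8) * D with hB
  have hmain : (S.card : ℝ) ≤ 8 * B := by
    have hle : ∀ c : ℝ, 0 ≤ 2 * C1 + C2 + C3 + C4 + C5 + 2 * C6 + C7 + C8 - c → c * D ≤ B := by
      intro c hc
      rw [hB]
      exact mul_le_mul_of_nonneg_right (by linarith) hD0.le
    refine e5_card8 S ![e5P1 W, e5P2, e5P3 H (∏ p ∈ P, p), e5P4 W P, e5P5 W (∏ p ∈ P, p), e5P6 H W,
      e5P7 H W P, e5P8 H W ((P.card + 19) / 20) P] ?_ B ?_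
    · intro z hz
      obtain ⟨hz1, hz2, hz3⟩ := hS z hz
      rcases e5_cover H J W P hpar z hz1 hz2 hz3 with h | h | h | h | h | h | h | h
      · exact ⟨0, h⟩
      · exact ⟨1, h⟩
      · exact ⟨2, h⟩
      · exact ⟨3, h⟩
      · exact ⟨4, h⟩
      · exact ⟨5, h⟩
      · exact ⟨6, h⟩
      · exact ⟨7, h⟩
    · intro i T hTS hT
      have hbox : ∀ z ∈ T, N44.Box H z := fun z hz => (hS z (hTS hz)).1
      fin_cases i
      · have hT' : ∀ z ∈ T, e5P1 W z := hT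
        have h1 := H1 H W (by omega) (by omega) T (fun z hz => ⟨hbox z hz, hT' z hz⟩)
        refine h1.trans ((?_ : _ ≤ (2 * C1) * D).trans (hle _ (by linarith)))
        have h2 : (H : ℝ) ^ 3 / W ≤ 2 * D := by
          rw [hD, div_le_iff₀ (by linarith)]
          have h3 : 2 * ((H : ℝ) ^ 3 / y) * W = (H : ℝ) ^ 3 * (2 * W / y) := by ring
          rw [h3]
          have h4 : 1 ≤ 2 * (W : ℝ) / y := by rw [le_div_iff₀ hy0]; linarith
          nlinarith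
        calc C1 * (H : ℝ) ^ 3 / W = C1 * ((H : ℝ) ^ 3 / W) := by ring
          _ ≤ C1 * (2 * D) := mul_le_mul_of_nonneg_left h2 hC1.le
          _ = (2 * C1) * D := by ring
      · have hT' : ∀ z ∈ T, e5P2 z := hT
        have h1 := H2 H (by omega) T (fun z hz => ⟨hbox z hz, hT' z hz⟩)
        refine h1.trans ((?_ : _ ≤ C2 * D).trans (hle _ (by linarith)))
        refine mul_le_mul_of_nonneg_left ?_ hC2.le
        rw [hD, le_div_iff₀ hy0]
        have h3 : (H : ℝ) ^ 2 * y ≤ (H : ℝ) ^ 2 * H :=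
          mul_le_mul_of_nonneg_left (hyL.trans hLH) (by positivity)
        calc (H : ℝ) ^ 2 * y ≤ (H : ℝ) ^ 2 * H := h3
          _ = (H : ℝ) ^ 3 := by ring
      · have hT' : ∀ z ∈ T, e5P3 H (∏ p ∈ P, p) z := hT
        have h0 : Real.log ((∏ p ∈ P, p : ℕ) : ℝ) ≤ (Real.log H) ^ (1 / 11 : ℝ) := by
          rw [hqcast, ← hLdef]
          exact hPq.trans (Real.rpow_le_rpow_of_exponent_le hL1 (by norm_num))
        have h1 := H3 H (∏ p ∈ P, p) (by omega) hq1 h0 T (fun z hz => ⟨hbox z hz, hT' z hz⟩)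
        rw [← hLdef] at h1
        refine h1.trans ((?_ : _ ≤ C3 * D).trans (hle _ (by linarith)))
        rw [mul_div_assoc]
        exact mul_le_mul_of_nonneg_left (hdiv _ (Real.rpow_pos_of_pos hL0 _) (hmono _ (by norm_num)))
          hC3.le
      · have hT' : ∀ z ∈ T, e5P4 W P z := hT
        have h1 := H4 H (by omega) J W P hpar T (fun z hz => ⟨hbox z hz, hT' z hz⟩)
        rw [← hLdef] at h1
        refine h1.trans ((?_ : _ ≤ C4 * D).trans (hle _ (by linarith)))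
        rw [mul_div_assoc]
        exact mul_le_mul_of_nonneg_left (hdiv _ (Real.rpow_pos_of_pos hL0 _) (hmono _ (by norm_num)))
          hC4.le
      · have hT' : ∀ z ∈ T, e5P5 W (∏ p ∈ P, p) z := hT
        have h0 : Real.log ((∏ p ∈ P, p : ℕ) : ℝ) ≤ (Real.log H) ^ (1 / 10 : ℝ) := by
          rw [hqcast, ← hLdef]
          exact hPq.trans (Real.rpow_le_rpow_of_exponent_le hL1 (by norm_num))
        have h1 := H5 H (by omega) (∏ p ∈ P, p) W hq1 hW2 (by rw [← hLdef]; linarith) h0 T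
          (fun z hz => ⟨hbox z hz, hT' z hz⟩)
        rw [← hLdef] at h1
        refine h1.trans ((?_ : _ ≤ C5 * D).trans (hle _ (by linarith)))
        rw [mul_div_assoc]
        exact mul_le_mul_of_nonneg_left (hdiv _ (Real.rpow_pos_of_pos hL0 _) (hmono _ (by norm_num)))
          hC5.le
      · have hT' : ∀ z ∈ T, e5P6 H W z := hT
        have h1 := H6 H W (by omega) (by omega) hWH T (fun z hz => ⟨hbox z hz, hT' z hz⟩)
        refine h1.trans ((?_ : _ ≤ (2 * C6) * D).trans (hle _ (by linarith)))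
        have h2 : (H : ℝ) ^ 3 / W ≤ 2 * D := by
          rw [hD, div_le_iff₀ (by linarith)]
          have h3 : 2 * ((H : ℝ) ^ 3 / y) * W = (H : ℝ) ^ 3 * (2 * W / y) := by ring
          rw [h3]
          have h4 : 1 ≤ 2 * (W : ℝ) / y := by rw [le_div_iff₀ hy0]; linarith
          nlinarith
        calc C6 * (H : ℝ) ^ 3 / W = C6 * ((H : ℝ) ^ 3 / W) := by ring
          _ ≤ C6 * (2 * D) := mul_le_mul_of_nonneg_left h2 hC6.le
          _ = (2 * C6) * D := by ring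
      · have hT' : ∀ z ∈ T, e5P7 H W P z := hT
        have h1 := H7 H W (by omega) (by omega) hWH P
          (fun p hp => ⟨(hP p hp).1, (hP p hp).2.2.1⟩) T (fun z hz => ⟨hbox z hz, hT' z hz⟩)
        rw [← hLdef] at h1
        refine h1.trans ((?_ : _ ≤ C7 * D).trans (hle _ (by linarith)))
        have h2 := (H9 H (by omega) J W P hpar).2.1
        rw [← hLdef] at h2
        have h3 : L * (19 / 20 : ℝ) ^ P.card ≤ 1 / y := by
          calc L * (19 / 20 : ℝ) ^ P.card ≤ L * (1 / L ^ 5) := mul_le_mul_of_nonneg_left h2 hL0.le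
            _ = 1 / L ^ 4 := by field_simp
            _ ≤ 1 / y := by
                apply one_div_le_one_div_of_le hy0
                calc y ≤ L := hyL
                  _ = L ^ 1 := by ring
                  _ ≤ L ^ 4 := pow_le_pow_right₀ hL1 (by norm_num)
        calc C7 * (H : ℝ) ^ 3 * L * (19 / 20 : ℝ) ^ P.card
            = C7 * (H : ℝ) ^ 3 * (L * (19 / 20 : ℝ) ^ P.card) := by ring
          _ ≤ C7 * (H : ℝ) ^ 3 * (1 / y) := mul_le_mul_of_nonneg_left h3 (by positivity)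
          _ = C7 * D := by rw [hD]; ring
      · have hT' : ∀ z ∈ T, e5P8 H W ((P.card + 19) / 20) P z := hT
        have h1 := H8 H J ((P.card + 19) / 20) W P hH3 hJ0 (by omega) hWH
          (fun p hp => by
            obtain ⟨h1, h2, h3, h4, h5, h6⟩ := hP p hp
            refine ⟨h1, by omega, ?_, h6⟩
            have h7 : W ≤ W ^ 4 := by
              calc W = W ^ 1 := by ring
                _ ≤ W ^ 4 := Nat.pow_le_pow_right (by omega) (by norm_num)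
            omega) T (fun z hz => ⟨hbox z hz, hT' z hz⟩)
        rw [← hLdef] at h1
        refine h1.trans ((?_ : _ ≤ C8 * D).trans (hle _ (by linarith)))
        have h2 := (H9 H (by omega) J W P hpar).1 ((P.card + 19) / 20) (by omega)
        rw [← hLdef] at h2
        have h3 : (W : ℝ) * L * ((J : ℝ) * (3 / 5) ^ ((P.card + 19) / 20)) ≤ 1 / y := by
          calc (W : ℝ) * L * ((J : ℝ) * (3 / 5) ^ ((P.card + 19) / 20))
              ≤ L * L * (1 / L ^ 5) := by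
                apply mul_le_mul _ h2 (by positivity) (by positivity)
                exact mul_le_mul_of_nonneg_right (hWL.trans hyL) hL0.le
            _ = 1 / L ^ 3 := by field_simp
            _ ≤ 1 / y := by
                apply one_div_le_one_div_of_le hy0
                calc y ≤ L := hyL
                  _ = L ^ 1 := by ring
                  _ ≤ L ^ 3 := pow_le_pow_right₀ hL1 (by norm_num)
        calc C8 * W * J * (H : ℝ) ^ 3 * L * (3 / 5) ^ ((P.card + 19) / 20)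
            = C8 * (H : ℝ) ^ 3 * (W * L * ((J : ℝ) * (3 / 5) ^ ((P.card + 19) / 20))) := by ring
          _ ≤ C8 * (H : ℝ) ^ 3 * (1 / y) := mul_le_mul_of_nonneg_left h3 (by positivity)
          _ = C8 * D := by rw [hD]; ring
  refine hmain.trans (le_of_eq ?_)
  rw [hB, hD]
  ring

end N78
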