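import Pool.Agent.LibN78.A2
import Pool.Agent.LibN78.A4
import Pool.Agent.LibN78.A5
import Pool.Agent.LibN78.A6
import Pool.Agent.LibN78.A7
import Pool.Agent.LibN78.C12
import Pool.Agent.LibN78.E5
import Pool.Agent.LibN44.S2a
import Pool.Agent.LibN44.S2f

namespace N78

open Filter in
/-- the size of `log H` for large `H` -/
private theorem E3_large : ∃ H₁ : ℕ, ∀ H : ℕ, H₁ ≤ H → 1 ≤ Real.log H ∧
    4 ≤ (Real.log H) ^ (1 / 20 : ℝ) ∧ Real.log H * Real.log H ≤ √(H : ℝ) := by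
  have hc : Tendsto (fun H : ℕ => (H : ℝ)) atTop atTop := tendsto_natCast_atTop_atTop
  have hl : Tendsto (fun H : ℕ => Real.log (H : ℝ)) atTop atTop := Real.tendsto_log_atTop.comp hc
  have h1 : ∀ᶠ H : ℕ in atTop, 1 ≤ Real.log (H : ℝ) := hl.eventually_ge_atTop 1
  have h2 : ∀ᶠ H : ℕ in atTop, 4 ≤ (Real.log (H : ℝ)) ^ (1 / 20 : ℝ) :=
    ((tendsto_rpow_atTop (by norm_num : (0 : ℝ) < 1 / 20)).comp hl).eventually_ge_atTop 4
  have h3 : ∀ᶠ H : ℕ in atTop, Real.log (H : ℝ) ≤ (H : ℝ) ^ (1 / 4 : ℝ) := by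
    have h4 := (isLittleO_log_rpow_atTop (by norm_num : (0 : ℝ) < 1 / 4)).bound
      (by norm_num : (0 : ℝ) < 1)
    filter_upwards [hc.eventually h4] with H hH
    rw [one_mul, Real.norm_eq_abs, Real.norm_eq_abs,
      abs_of_nonneg (Real.rpow_nonneg (Nat.cast_nonneg H) _)] at hH
    exact (le_abs_self _).trans hH
  obtain ⟨H₁, hH₁⟩ := eventually_atTop.1 (h1.and (h2.and h3))
  refine ⟨H₁, fun H hH => ?_⟩
  obtain ⟨a1, a2, a3⟩ := hH₁ H hH
  refine ⟨a1, a2, ?_⟩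
  have hH0 : (0 : ℝ) ≤ H := Nat.cast_nonneg H
  calc Real.log H * Real.log H ≤ (H : ℝ) ^ (1 / 4 : ℝ) * (H : ℝ) ^ (1 / 4 : ℝ) :=
        mul_le_mul a3 a3 (by linarith) (Real.rpow_nonneg hH0 _)
    _ = √(H : ℝ) := by
        rw [← Real.rpow_add_of_nonneg hH0 (by norm_num) (by norm_num), Real.sqrt_eq_rpow]
        norm_num

/-- Row E3a. Large `H`. Take `J, W, P` from `exists_params`, `q = ∏ p`. For `z ∈ S` `descent` gives `d, e, u, w` (`b = d e`, `e ≠ 0`).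
`d < 0`: `neg_count`. `d = 1`: `one_count`. `d ≥ 2` (squarefree, so not a square): if `#P < 100 #{p ∣ z.2}`: `many_P_count`,
`k = ⌈#P/100⌉`, `Y = (log H)^(1/200)`: `≤ 600 H^3/(log H)^(1/200)` or so. Otherwise (`p ∣ d` implies `p ∣ z.2`): `e` not a square:
`|e| ≥ q^4`: `generic` with `δ = 1/(log H)^5` (`savings`); `|e| < q^4`: `N44.sect2`, `E = q^4`, `log E ≤ 4 (log H)^(1/20) ≤ (log H)^(1/10)`, with
`N44.class_e`. `e = s^2`: `torsion_class`. `H^(5/2) log H ≤ H^3/(log H)` for large `H`. -/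
theorem bad_large : ∃ C : ℝ, 0 < C ∧ ∃ H₀ : ℕ, ∀ H : ℕ, H₀ ≤ H → ∀ S : Finset (ℤ × ℤ),
    (∀ z ∈ S, z ∈ Bad H) → (S.card : ℝ) ≤ C * (H : ℝ) ^ 3 / (Real.log H) ^ (1 / 1000 : ℝ) := by
  classical
  obtain ⟨Cn, hCn, hn⟩ := neg_count
  obtain ⟨Co, hCo, ho⟩ := one_count
  obtain ⟨Cm, hCm, hm⟩ := many_P_count
  obtain ⟨Cg, hCg, hg⟩ := generic
  obtain ⟨Cs, hCs, Hs, hs⟩ := N44.sect2
  obtain ⟨Ct, hCt, Ht, ht⟩ := torsion_class
  obtain ⟨Hp, hp⟩ := exists_params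
  obtain ⟨Hv, hv⟩ := savings
  obtain ⟨H1, hH1⟩ := E3_large
  refine ⟨Cn + Co + 100 * Cm + 2 * Cg + Cs + Ct, by positivity,
    Hs + Ht + Hp + Hv + H1 + 3, ?_⟩
  intro H hH S hS
  obtain ⟨hL1, hL4, hLs⟩ := hH1 H (by omega)
  obtain ⟨J, W, P, hpar⟩ := hp H (by omega)
  obtain ⟨-, -, -, sv4, sv5⟩ := hv H (by omega) J W P hpar
  have htors := ht H (by omega) J W P hpar
  obtain ⟨-, hJ, -, -, -, -, hPp, -, hPc, hPl⟩ := hpar
  set L : ℝ := Real.log H with hLdef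
  set q : ℕ := ∏ p ∈ P, p with hq
  have hL0 : 0 < L := by linarith
  have hH3 : 3 ≤ H := by omega
  have hHr : (0 : ℝ) < H := by exact_mod_cast (by omega : 0 < H)
  have hLe : 0 < L ^ (1 / 1000 : ℝ) := Real.rpow_pos_of_pos hL0 _
  have hLe1 : L ^ (1 / 1000 : ℝ) ≤ L := by
    calc L ^ (1 / 1000 : ℝ) ≤ L ^ (1 : ℝ) := Real.rpow_le_rpow_of_exponent_le hL1 (by norm_num)
      _ = L := Real.rpow_one L
  have hLe2 : L ^ (1 / 1000 : ℝ) ≤ L ^ (1 / 200 : ℝ) :=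
    Real.rpow_le_rpow_of_exponent_le hL1 (by norm_num)
  have hLe3 : L ^ (1 / 1000 : ℝ) ≤ L ^ (1 / 4 : ℝ) :=
    Real.rpow_le_rpow_of_exponent_le hL1 (by norm_num)
  have hY : 0 < L ^ (1 / 200 : ℝ) := Real.rpow_pos_of_pos hL0 _
  have hPcard : 0 < P.card := by
    have h1 : (0 : ℝ) < P.card := hY.trans_le hPc
    exact_mod_cast h1
  have hPne : P.Nonempty := Finset.card_pos.1 hPcard
  have hP2 : ∀ p ∈ P, p.Prime ∧ p ≠ 2 ∧ p ^ 2 - 1 ∣ J := by
    intro p hp'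
    obtain ⟨a1, -, a3, -, -, a6⟩ := hPp p hp'
    exact ⟨a1, by omega, a6⟩
  have hq1 : 1 ≤ q := by
    rw [hq]
    exact Finset.prod_pos fun p hp' => (hP2 p hp').1.pos
  -- the classes
  set S1 := S.filter (fun z => ∃ d e u w : ℤ, d < 0 ∧ 0 < u ∧ z.2 = d * e ∧
    w ^ 2 = d * u ^ 4 + z.1 * u ^ 2 + e) with hS1
  set S2 := S.filter (fun z => ∃ u w : ℤ, 0 < u ∧ w ^ 2 = u ^ 4 + z.1 * u ^ 2 + z.2) with hS2
  set S3 := S.filter (fun z => P.card < 100 * (P.filter (fun p : ℕ => (p : ℤ) ∣ z.2)).card)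
    with hS3
  set S4 := S.filter (fun z => ∃ d e u w : ℤ, 2 ≤ d ∧ ¬ IsSquare d ∧ ¬ IsSquare e ∧
    ((q : ℕ) : ℤ) ^ 4 ≤ |e| ∧ z.2 = d * e ∧ w ^ 2 = d * u ^ 4 + z.1 * u ^ 2 + e ∧
      100 * (P.filter (fun p : ℕ => (p : ℤ) ∣ d)).card ≤ P.card) with hS4
  set S5 := S.filter (fun z => ∃ e : ℤ, ¬ IsSquare e ∧ e.natAbs ≤ q ^ 4 ∧ e ∣ z.2 ∧
    ∀ p : ℕ, p.Prime → p ≠ 2 → (p : ℤ) ∣ z.1 ^ 2 - 4 * z.2 → ¬ (p : ℤ) ^ 2 ∣ z.1 ^ 2 - 4 * z.2 →
      ¬ (p : ℤ) ∣ z.2 → jacobiSym e p = 1) with hS5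
  set S6 := S.filter (fun z => 100 * (P.filter (fun p : ℕ => (p : ℤ) ∣ z.2)).card ≤ P.card ∧
    ∃ (d s u : ℕ) (w : ℤ), 2 ≤ d ∧ Squarefree d ∧ 0 < s ∧ 0 < u ∧ w ≠ 0 ∧ z.2 = d * (s : ℤ) ^ 2 ∧
      w ^ 2 = d * (u : ℤ) ^ 4 + z.1 * (u : ℤ) ^ 2 + (s : ℤ) ^ 2) with hS6
  have hcover : S ⊆ S1 ∪ (S2 ∪ (S3 ∪ (S4 ∪ (S5 ∪ S6)))) := by
    intro z hz
    obtain ⟨hbox, X, y, hy, hXy⟩ := hS z hz
    have hb0 : z.2 ≠ 0 := hbox.2.2.1
    obtain ⟨d, e, u, w, hsf, hu, hw, hde, hwe⟩ := descent z.1 z.2 X y hy hXy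
    simp only [Finset.mem_union]
    rcases lt_or_ge d 0 with hd | hd
    · left
      exact Finset.mem_filter.2 ⟨hz, d, e, u, w, hd, hu, hde, hwe⟩
    right
    have hd0 : d ≠ 0 := by
      rintro rfl
      rw [zero_mul] at hde
      exact hb0 hde
    rcases eq_or_ne d 1 with hd1 | hd1
    · left
      subst hd1
      rw [one_mul] at hde hwe
      exact Finset.mem_filter.2 ⟨hz, u, w, hu, by rw [hde]; exact hwe⟩
    right
    have hd2 : 2 ≤ d := by omega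
    by_cases h3 : P.card < 100 * (P.filter (fun p : ℕ => (p : ℤ) ∣ z.2)).card
    · left
      exact Finset.mem_filter.2 ⟨hz, h3⟩
    right
    push Not at h3
    have he0 : e ≠ 0 := by
      rintro rfl
      rw [mul_zero] at hde
      exact hb0 hde
    by_cases hsq : IsSquare e
    · right
      right
      obtain ⟨s0, hs0⟩ := hsq
      have hs00 : s0 ≠ 0 := by
        rintro rfl
        exact he0 (by rw [hs0, mul_zero])
      refine Finset.mem_filter.2 ⟨hz, h3, d.toNat, s0.natAbs, u.toNat, w, ?_, ?_, ?_, ?_, hw, ?_,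
        ?_⟩
      · omega
      · have h4 : Squarefree ((d.toNat : ℕ) : ℤ) := by
          rw [Int.toNat_of_nonneg hd]
          exact hsf
        exact Int.squarefree_natCast.1 h4
      · exact Int.natAbs_pos.2 hs00
      · omega
      · rw [Int.toNat_of_nonneg hd, Int.natCast_natAbs, sq_abs, hde, hs0, sq]
      · rw [Int.toNat_of_nonneg hd, Int.toNat_of_nonneg hu.le, Int.natCast_natAbs, sq_abs, hwe,
          hs0, sq s0]
    · by_cases hE : ((q : ℕ) : ℤ) ^ 4 ≤ |e|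
      · left
        refine Finset.mem_filter.2 ⟨hz, d, e, u, w, hd2, ?_, hsq, hE, hde, hwe, ?_⟩
        · rintro ⟨r, hr⟩
          have h4 : IsUnit r := hsf r (by rw [hr])
          rcases Int.isUnit_iff.1 h4 with h5 | h5
          · rw [h5] at hr
            omega
          · rw [h5] at hr
            omega
        · refine le_trans (Nat.mul_le_mul_left 100 (Finset.card_le_card ?_)) h3
          intro p hp'
          rw [Finset.mem_filter] at hp' ⊢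
          exact ⟨hp'.1, hde ▸ hp'.2.mul_right e⟩
      · right
        left
        refine Finset.mem_filter.2 ⟨hz, e, hsq, ?_, ⟨d, by rw [hde, mul_comm]⟩, ?_⟩
        · push Not at hE
          have h4 : ((e.natAbs : ℕ) : ℤ) < ((q ^ 4 : ℕ) : ℤ) := by
            rw [Int.natCast_natAbs]
            push_cast
            exact hE
          exact_mod_cast h4.le
        · intro p hp1 hp2 hD hD2 hpb
          exact N44.class_e z.1 z.2 d e u w hde hwe p hp1 hp2 hD hD2 hpb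
  -- the bounds
  have b1 := hn H (by omega) S1 (by
    intro z hz
    obtain ⟨h1, h2⟩ := Finset.mem_filter.1 hz
    exact ⟨(hS z h1).1, h2⟩)
  have b2 := ho H (by omega) S2 (by
    intro z hz
    obtain ⟨h1, h2⟩ := Finset.mem_filter.1 hz
    exact ⟨(hS z h1).1, h2⟩)
  have b3 := hm H (P.card / 100 + 1) P (L ^ (1 / 200 : ℝ)) (by omega) (by omega) hY
    (fun p hp' => (hPp p hp').2.2.2.2.1) S3 (by
    intro z hz
    obtain ⟨h1, h2⟩ := Finset.mem_filter.1 hz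
    exact ⟨(hS z h1).1, by omega⟩)
  have b4 := hg H J P (1 / L ^ 5) hH3 hJ hPne hP2 sv4 S4 (by
    intro z hz
    obtain ⟨h1, h2⟩ := Finset.mem_filter.1 hz
    exact ⟨(hS z h1).1, h2⟩)
  have b5 := hs H (by omega) (q ^ 4) (Nat.one_le_pow _ _ hq1) (by
    have h1 : Real.log ((q : ℕ) : ℝ) ≤ L ^ (1 / 20 : ℝ) := by
      have h2 : ((q : ℕ) : ℝ) = ∏ p ∈ P, (p : ℝ) := by
        rw [hq]
        push_cast
        rfl
      rw [h2]
      exact hPl
    have h3 : L ^ (1 / 10 : ℝ) = L ^ (1 / 20 : ℝ) * L ^ (1 / 20 : ℝ) := by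
      rw [← Real.rpow_add hL0]
      norm_num
    have h4 : 0 ≤ L ^ (1 / 20 : ℝ) := Real.rpow_nonneg hL0.le _
    rw [h3]
    push_cast
    rw [Real.log_pow]
    push_cast
    calc (4 : ℝ) * Real.log (q : ℝ) ≤ 4 * L ^ (1 / 20 : ℝ) := by linarith
      _ ≤ L ^ (1 / 20 : ℝ) * L ^ (1 / 20 : ℝ) := mul_le_mul_of_nonneg_right hL4 h4) S5 (by
    intro z hz
    obtain ⟨h1, h2⟩ := Finset.mem_filter.1 hz
    exact ⟨(hS z h1).1, h2⟩)
  have b6 := htors S6 (by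
    intro z hz
    obtain ⟨h1, h2, h3⟩ := Finset.mem_filter.1 hz
    exact ⟨(hS z h1).1, h2, h3⟩)
  -- in terms of the common bound
  set T : ℝ := (H : ℝ) ^ 3 / L ^ (1 / 1000 : ℝ) with hT
  have hH30 : (0 : ℝ) < (H : ℝ) ^ 3 := by positivity
  have hT0 : 0 < T := by positivity
  have hsqrt : (H : ℝ) ^ 2 * √(H : ℝ) * L ≤ T := by
    rw [hT, le_div_iff₀ hLe]
    have h1 : √(H : ℝ) * √(H : ℝ) = H := Real.mul_self_sqrt hHr.le
    have h2 : 0 ≤ √(H : ℝ) := Real.sqrt_nonneg _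
    calc (H : ℝ) ^ 2 * √(H : ℝ) * L * L ^ (1 / 1000 : ℝ) ≤ (H : ℝ) ^ 2 * √(H : ℝ) * L * L :=
          mul_le_mul_of_nonneg_left hLe1 (by positivity)
      _ = (H : ℝ) ^ 2 * √(H : ℝ) * (L * L) := by ring
      _ ≤ (H : ℝ) ^ 2 * √(H : ℝ) * √(H : ℝ) := mul_le_mul_of_nonneg_left hLs (by positivity)
      _ = (H : ℝ) ^ 3 := by rw [mul_assoc, h1]; ring
  have c1 : (S1.card : ℝ) ≤ Cn * T := by
    refine b1.trans ?_
    calc Cn * (H : ℝ) ^ 2 * √(H : ℝ) * L = Cn * ((H : ℝ) ^ 2 * √(H : ℝ) * L) := by ring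
      _ ≤ Cn * T := mul_le_mul_of_nonneg_left hsqrt hCn.le
  have c2 : (S2.card : ℝ) ≤ Co * T := by
    refine b2.trans ?_
    calc Co * (H : ℝ) ^ 2 * √(H : ℝ) * L = Co * ((H : ℝ) ^ 2 * √(H : ℝ) * L) := by ring
      _ ≤ Co * T := mul_le_mul_of_nonneg_left hsqrt hCo.le
  have c3 : (S3.card : ℝ) ≤ 100 * Cm * T := by
    refine b3.trans ?_
    have h1 : (P.card : ℝ) ≤ 100 * ((P.card / 100 + 1 : ℕ) : ℝ) := by
      have h2 : P.card ≤ 100 * (P.card / 100 + 1) := by omega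
      exact_mod_cast h2
    have hk : (0 : ℝ) < ((P.card / 100 + 1 : ℕ) : ℝ) := by positivity
    calc Cm * (H : ℝ) ^ 3 * P.card / (((P.card / 100 + 1 : ℕ) : ℝ) * L ^ (1 / 200 : ℝ))
        ≤ Cm * (H : ℝ) ^ 3 * (100 * ((P.card / 100 + 1 : ℕ) : ℝ)) /
          (((P.card / 100 + 1 : ℕ) : ℝ) * L ^ (1 / 200 : ℝ)) := by
          refine div_le_div_of_nonneg_right (mul_le_mul_of_nonneg_left h1 (by positivity)) ?_
          positivity
      _ = 100 * Cm * ((H : ℝ) ^ 3 / L ^ (1 / 200 : ℝ)) := by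
          field_simp
      _ ≤ 100 * Cm * T := by
          refine mul_le_mul_of_nonneg_left ?_ (by positivity)
          exact div_le_div_of_nonneg_left hH30.le hLe hLe2
  have c4 : (S4.card : ℝ) ≤ 2 * Cg * T := by
    refine b4.trans ?_
    have h1 : (1 / L ^ 5 + 1 / ((∏ p ∈ P, p : ℕ) : ℝ)) ≤ 2 / L ^ 5 := by
      have h2 := sv5
      have h3 : 2 / L ^ 5 = 1 / L ^ 5 + 1 / L ^ 5 := by ring
      rw [h3]
      exact add_le_add le_rfl h2
    have h4 : L ^ (1 / 1000 : ℝ) ≤ L ^ 3 :=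
      hLe1.trans (le_self_pow₀ hL1 (by norm_num))
    calc Cg * (H : ℝ) ^ 3 * L ^ 2 * (1 / L ^ 5 + 1 / ((∏ p ∈ P, p : ℕ) : ℝ))
        ≤ Cg * (H : ℝ) ^ 3 * L ^ 2 * (2 / L ^ 5) := mul_le_mul_of_nonneg_left h1 (by positivity)
      _ = 2 * Cg * ((H : ℝ) ^ 3 / L ^ 3) := by
          field_simp
      _ ≤ 2 * Cg * T := by
          refine mul_le_mul_of_nonneg_left ?_ (by positivity)
          exact div_le_div_of_nonneg_left hH30.le hLe h4
  have c5 : (S5.card : ℝ) ≤ Cs * T := by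
    refine b5.trans ?_
    rw [mul_div_assoc]
    exact mul_le_mul_of_nonneg_left (div_le_div_of_nonneg_left hH30.le hLe hLe3) hCs.le
  have c6 : (S6.card : ℝ) ≤ Ct * T := by
    refine b6.trans ?_
    rw [mul_div_assoc]
  have hcard : (S.card : ℝ) ≤ S1.card + (S2.card + (S3.card + (S4.card + (S5.card + S6.card)))) := by
    have h1 : S.card ≤ S1.card + (S2.card + (S3.card + (S4.card + (S5.card + S6.card)))) := by
      refine (Finset.card_le_card hcover).trans ?_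
      refine (Finset.card_union_le _ _).trans (Nat.add_le_add_left ?_ _)
      refine (Finset.card_union_le _ _).trans (Nat.add_le_add_left ?_ _)
      refine (Finset.card_union_le _ _).trans (Nat.add_le_add_left ?_ _)
      refine (Finset.card_union_le _ _).trans (Nat.add_le_add_left ?_ _)
      exact Finset.card_union_le _ _
    exact_mod_cast h1
  rw [mul_div_assoc]
  change (S.card : ℝ) ≤ (Cn + Co + 100 * Cm + 2 * Cg + Cs + Ct) * T
  calc (S.card : ℝ) ≤ S1.card + (S2.card + (S3.card + (S4.card + (S5.card + S6.card)))) := hcard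
    _ ≤ Cn * T + (Co * T + (100 * Cm * T + (2 * Cg * T + (Cs * T + Ct * T)))) :=
        add_le_add c1 (add_le_add c2 (add_le_add c3 (add_le_add c4 (add_le_add c5 c6))))
    _ = (Cn + Co + 100 * Cm + 2 * Cg + Cs + Ct) * T := by ring

end N78
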