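import Pool.Agent.LibN78.A3
import Pool.Agent.LibN78.E3

namespace N78

/-- Row E3b. All `H ≥ 2`: for `H < H₀` use `#Bad H ≤ #box ≤ (2H+1)(2H^2+1)` and enlarge `C` (`log H ≥ log 2`, `(log H)^(1/1000) ≤ log H₀ + 1`). -/
theorem bad_count : ∃ C : ℝ, 0 < C ∧ ∀ H : ℕ, 2 ≤ H →
    ((Bad H).ncard : ℝ) ≤ C * (H : ℝ) ^ 3 / (Real.log H) ^ (1 / 1000 : ℝ) := by
  obtain ⟨C0, hC0, H0, hmain⟩ := bad_large
  set M : ℝ := ∑ h ∈ Finset.range H0, ((Bad h).ncard : ℝ) with hM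
  have hM0 : 0 ≤ M := Finset.sum_nonneg fun _ _ => Nat.cast_nonneg _
  refine ⟨C0 + M * H0, by positivity, fun H hH => ?_⟩
  have hH2 : (2 : ℝ) ≤ H := by exact_mod_cast hH
  have hlog : 0 < Real.log H := Real.log_pos (by linarith)
  have hL : 0 < (Real.log H) ^ (1 / 1000 : ℝ) := Real.rpow_pos_of_pos hlog _
  rcases le_or_gt H0 H with h | h
  · have h1 := hmain H h (bad_finite H).toFinset fun z hz => (bad_finite H).mem_toFinset.1 hz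
    rw [← Set.ncard_eq_toFinset_card _ (bad_finite H)] at h1
    refine h1.trans (div_le_div_of_nonneg_right ?_ hL.le)
    refine mul_le_mul_of_nonneg_right ?_ (by positivity)
    have : 0 ≤ M * H0 := by positivity
    linarith
  · have h1 : ((Bad H).ncard : ℝ) ≤ M :=
      Finset.single_le_sum (f := fun h => ((Bad h).ncard : ℝ)) (fun _ _ => Nat.cast_nonneg _)
        (Finset.mem_range.2 h)
    have hH0 : (H : ℝ) ≤ H0 := by exact_mod_cast h.le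
    have hH01 : (1 : ℝ) ≤ H0 := by linarith
    have h2 : (Real.log H) ^ (1 / 1000 : ℝ) ≤ H0 := by
      have h3 : Real.log H ≤ H0 := by
        have := Real.log_le_sub_one_of_pos (show (0 : ℝ) < H by linarith)
        linarith
      calc (Real.log H) ^ (1 / 1000 : ℝ) ≤ (H0 : ℝ) ^ (1 / 1000 : ℝ) :=
            Real.rpow_le_rpow hlog.le h3 (by norm_num)
        _ ≤ (H0 : ℝ) ^ (1 : ℝ) := Real.rpow_le_rpow_of_exponent_le hH01 (by norm_num)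
        _ = H0 := Real.rpow_one _
    rw [le_div_iff₀ hL]
    have h4 : (1 : ℝ) ≤ (H : ℝ) ^ 3 := one_le_pow₀ (by linarith)
    calc ((Bad H).ncard : ℝ) * (Real.log H) ^ (1 / 1000 : ℝ) ≤ M * H0 :=
          mul_le_mul h1 h2 hL.le hM0
      _ ≤ (C0 + M * H0) * 1 := by linarith
      _ ≤ (C0 + M * H0) * (H : ℝ) ^ 3 :=
          mul_le_mul_of_nonneg_left h4 (by positivity)

/-- Row E3c. Final theorem: `fam_lower`, `fam_bad_le` with `bad_count (6H)` (`log (6H) ≥ log H`), `bad_finite`, `fam_finite`. -/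
theorem theorem_N :
    (∃ c : ℝ, 0 < c ∧ ∀ H : ℕ, 1 ≤ H → (Fam H).Finite ∧ c * (H : ℝ) ^ 3 ≤ ((Fam H).ncard : ℝ)) ∧
    (∃ C : ℝ, 0 < C ∧ ∀ H : ℕ, 2 ≤ H →
      (Set.ncard {z ∈ Fam H | ∃ x y : ℤ, y ≠ 0 ∧ y ^ 2 = x ^ 3 + z.1 * x + z.2} : ℝ)
        ≤ C * (H : ℝ) ^ 3 / (Real.log H) ^ (1 / 1000 : ℝ)) ∧
    (∃ C : ℝ, 0 < C ∧ ∀ H : ℕ, 2 ≤ H → (Bad H).Finite ∧
      ((Bad H).ncard : ℝ) ≤ C * (H : ℝ) ^ 3 / (Real.log H) ^ (1 / 1000 : ℝ)) := by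
  obtain ⟨c, hc, hlow⟩ := fam_lower
  obtain ⟨C, hC, hbad⟩ := bad_count
  refine ⟨⟨c, hc, fun H hH => ⟨fam_finite H, hlow H hH⟩⟩, ⟨C * 216, by positivity, fun H hH => ?_⟩,
    ⟨C, hC, fun H hH => ⟨bad_finite H, hbad H hH⟩⟩⟩
  have hH2 : (2 : ℝ) ≤ H := by exact_mod_cast hH
  have hlog : 0 < Real.log H := Real.log_pos (by linarith)
  have hL : 0 < (Real.log H) ^ (1 / 1000 : ℝ) := Real.rpow_pos_of_pos hlog _
  have h1 : (Set.ncard {z ∈ Fam H | ∃ x y : ℤ, y ≠ 0 ∧ y ^ 2 = x ^ 3 + z.1 * x + z.2} : ℝ) ≤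
      ((Bad (6 * H)).ncard : ℝ) := by
    exact_mod_cast fam_bad_le H
  refine h1.trans ((hbad (6 * H) (by omega)).trans ?_)
  have h2 : (Real.log H) ^ (1 / 1000 : ℝ) ≤ (Real.log ((6 * H : ℕ) : ℝ)) ^ (1 / 1000 : ℝ) := by
    refine Real.rpow_le_rpow hlog.le (Real.log_le_log (by linarith) ?_) (by norm_num)
    push_cast
    linarith
  have h3 : C * (((6 * H : ℕ) : ℝ)) ^ 3 = C * 216 * (H : ℝ) ^ 3 := by
    push_cast
    ring
  rw [h3]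
  exact div_le_div_of_nonneg_left (by positivity) hL h2

end N78
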